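import Pool.Agent.H.MP_a163f2_lc.L.C2b

/-!
# Block L, part C3: the family
-/

set_option autoImplicit false
set_option linter.unusedSectionVars false

namespace Pool.Agent.H.MP_a163f2_lc.L

open Pool.Agent.H.MP_07d118_lc

universe u v w x

section model

variable {s : ZFSet.{0}} [G : GM s]

theorem ltP_wf : WellFounded (ltP : Wt s × Hc → Wt s × Hc → Prop) := by
  have h1 : WellFounded ((· < ·) : Wt s → Wt s → Prop) := Om1.wf (St s)
  have h2 : WellFounded (InvImage ((· < ·) : ℕ → ℕ → Prop) (Encodable.encode : Hc → ℕ)) :=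
    InvImage.wf _ wellFounded_lt
  refine Subrelation.wf (r := Prod.Lex ((· < ·) : Wt s → Wt s → Prop)
    (InvImage ((· < ·) : ℕ → ℕ → Prop) (Encodable.encode : Hc → ℕ))) ?_ (h1.prod_lex h2)
  intro a b h
  rw [Prod.lex_def]
  exact h

theorem ltP_trans (a b c : Wt s × Hc) (h : ltP a b) (h' : ltP b c) : ltP a c := by
  unfold ltP at *
  rcases h with h | ⟨h, h1⟩
  · rcases h' with h' | ⟨h', -⟩
    · exact Or.inl (h.trans h')
    · exact Or.inl (by rwa [← h'])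
  · rcases h' with h' | ⟨h', h2⟩
    · exact Or.inl (by rwa [h])
    · exact Or.inr ⟨h.trans h', h1.trans h2⟩

@[fun_prop] theorem IF.encHc {T : Type v} [Cd (St s) T] {f : T → Hc} (hf : IF (St s) f) :
    IF (St s) (fun t => Encodable.encode (f t)) :=
  IF.comp (g := fun h : Hc => Encodable.encode h) (IF.prim Primrec.encode) hf

theorem in_ltP : In (St s) (fun y : (Wt s × Hc) × (Wt s × Hc) => ltP y.1 y.2) := by
  unfold ltP
  apply_rules (transparency := .reducible) [In.or, In.and]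
  all_goals fun_prop

/-- the indices below a given index are covered by an internal sequence -/
theorem exists_pred (k : Wt s × Hc) :
    ∃ q : ℕ → Wt s × Hc, IF (St s) q ∧ ∀ k', ltP k' k → ∃ n, q n = k' := by
  obtain ⟨g, hg, hinj⟩ := Wt.below k.1.next
  obtain ⟨q₀, hq, hq'⟩ := In.choice (M := St s) (T := ℕ) (S := Wt s)
    (R := fun n β => (∃ β', β' < k.1.next ∧ g β' = n) → (β < k.1.next ∧ g β = n)) (by
      apply_rules (transparency := .reducible) [In.imp, In.ex, In.and]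
      all_goals fun_prop) (by
      intro n
      by_cases h : ∃ β', β' < k.1.next ∧ g β' = n
      · obtain ⟨β', h'⟩ := h
        exact ⟨β', fun _ => h'⟩
      · exact ⟨k.1, fun h' => absurd h' h⟩)
  refine ⟨fun n => (q₀ n.unpair.1, Denumerable.ofNat Hc n.unpair.2), ?_, fun k' hk' => ?_⟩
  · refine IF.pair' (by fun_prop) ?_
    exact IF.comp (g := fun n => Denumerable.ofNat Hc n) (IF.prim (Primrec.ofNat Hc)) (by fun_prop)
  · have h1 : k'.1 < k.1.next := by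
      rcases hk' with h | ⟨h, -⟩
      · exact h.trans k.1.lt_next
      · rw [h]
        exact k.1.lt_next
    refine ⟨Nat.pair (g k'.1) (Encodable.encode k'.2), ?_⟩
    simp only [Nat.unpair_pair, Denumerable.ofNat_encode]
    obtain ⟨h2, h3⟩ := hq' (g k'.1) ⟨k'.1, h1, rfl⟩
    exact Prod.ext (hinj h2 h1 h3) rfl

/-- `x` is a value of the history `h` -/
def OhR (h : ISet (St s) ((Wt s × Hc) × Rl s)) (x : Rl s) : Prop := ∃ k : Wt s × Hc, (k, x) ∈ h

theorem in_Oh : In (St s) (fun y : ISet (St s) ((Wt s × Hc) × Rl s) × Rl s => OhR y.1 y.2) := by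
  unfold OhR
  apply_rules (transparency := .reducible) [In.ex]
  fun_prop

/-- the set of the values of a history -/
noncomputable def Oh (h : ISet (St s) ((Wt s × Hc) × Rl s)) : ISet (St s) (Rl s) :=
  ISet.sec (P := OhR) in_Oh h

@[fun_prop] theorem IF.Oh' {T : Type v} [Cd (St s) T]
    {f : T → ISet (St s) ((Wt s × Hc) × Rl s)} (hf : IF (St s) f) :
    IF (St s) (fun t => Oh (f t)) := IF.comp (g := Oh) (IF.sec (P := OhR) in_Oh) hf

/-- the least generic real -/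
def LQ (y : (Wt s × Hc) × ISet (St s) ((Wt s × Hc) × Rl s)) (x : Rl s) : Prop :=
  GnI y.1.1 (Oh y.2) y.1.2.2 x ∧
    ∀ x' : Rl s, Lt (rcE x').1.1 (rcE x).1.1 → ¬ GnI y.1.1 (Oh y.2) y.1.2.2 x'

theorem in_LQ : In (St s) (fun z : ((Wt s × Hc) × ISet (St s) ((Wt s × Hc) × Rl s)) × Rl s =>
    LQ z.1 z.2) := by
  unfold LQ
  refine In.and ?_ (In.all (In.imp (by fun_prop) (In.not ?_)))
  · exact in_GnI.comp (f := fun z : ((Wt s × Hc) × ISet (St s) ((Wt s × Hc) × Rl s)) × Rl s =>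
      (((z.1.1.1, Oh z.1.2), z.1.1.2.2), z.2)) (by fun_prop)
  · exact in_GnI.comp (f := fun z : (((Wt s × Hc) × ISet (St s) ((Wt s × Hc) × Rl s)) × Rl s) ×
      Rl s => (((z.1.1.1.1, Oh z.1.1.2), z.1.1.1.2.2), z.2)) (by fun_prop)

theorem exists_LQ (y : (Wt s × Hc) × ISet (St s) ((Wt s × Hc) × Rl s))
    (h : ∃ x, GnI y.1.1 (Oh y.2) y.1.2.2 x) : ∃ x, LQ y x := by
  obtain ⟨x₀, hx₀⟩ := h
  obtain ⟨w, hw, ⟨x, hxw, hx⟩, hmin⟩ := (instLvUU (s := s)).lev.least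
    (fun w => ∃ x : Rl s, (rcE x).1.1 = w ∧ GnI y.1.1 (Oh y.2) y.1.2.2 x)
    ⟨_, (rcE x₀).2, x₀, rfl, hx₀⟩
  have hLL : ∀ x : Rl s, (rcE x).1.1 ∈ LL := fun x => ⟨_, (instLvUU (s := s)).lev, (rcE x).2⟩
  refine ⟨x, hx, fun x' hlt hx' => ?_⟩
  rcases hmin _ (rcE x').2 ⟨x', rfl, hx'⟩ with h | h
  · rw [h, ← hxw] at hlt
    exact Lt.irrefl (hLL x) hlt
  · rw [← hxw] at h
    exact Lt.asymm (hLL x') (hLL x) hlt h

variable (s) in
theorem exists_cspec : ∃ c : Wt s × Hc → ℕ → ℕ, CSpec c := by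
  have hx₀ : Nonempty (Rl s) := ⟨⟨fun _ => 0, IF.const 0⟩⟩
  obtain ⟨Φ, hΦ, hΦ'⟩ := In.choice (M := St s)
    (T := (Wt s × Hc) × ISet (St s) ((Wt s × Hc) × Rl s)) (S := Rl s)
    (R := fun y x => (∃ x', LQ y x') → LQ y x) (by
      refine In.imp (In.ex ?_) in_LQ
      exact in_LQ.comp (f := fun z : (((Wt s × Hc) × ISet (St s) ((Wt s × Hc) × Rl s)) × Rl s) ×
        Rl s => (z.1.1, z.2)) (by fun_prop)) (by
      intro y
      by_cases h : ∃ x', LQ y x'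
      · obtain ⟨x', hx'⟩ := h
        exact ⟨x', fun _ => hx'⟩
      · exact ⟨hx₀.some, fun h' => absurd h' h⟩)
  obtain ⟨H, hH, hrec⟩ := exists_rec (M := St s) (W := Wt s × Hc) (T := Rl s) (lt := ltP)
    in_ltP ltP_wf ltP_trans hΦ
  have hOd : ∀ (k : Wt s × Hc) (h : In (St s) (fun y : (Wt s × Hc) × Rl s =>
      ltP y.1 k ∧ H y.1 = y.2)),
      {z | ∃ y : Rl s, y ∈ Oh (ISet.mk h) ∧ y.1 = z} = Od (fun k => (H k).1) k := by
    intro k h
    ext z
    constructor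
    · rintro ⟨y, ⟨k', h1, h2⟩, rfl⟩
      exact ⟨k', h1, congrArg Subtype.val h2⟩
    · rintro ⟨k', h1, rfl⟩
      exact ⟨H k', ⟨k', h1, rfl⟩, rfl⟩
  have hLQ : ∀ k : Wt s × Hc, ∃ h, LQ (k, ISet.mk (T := (Wt s × Hc) × Rl s)
      (P := fun y => ltP y.1 k ∧ H y.1 = y.2) h) (H k) := by
    intro k
    obtain ⟨h, hk⟩ := hrec k
    refine ⟨h, ?_⟩
    rw [hk]
    refine hΦ' _ (exists_LQ _ ?_)
    obtain ⟨q, hq, hq'⟩ := exists_pred k
    obtain ⟨x, hx⟩ := exists_GnR k.1 (Od (fun k => (H k).1) k) (f := fun n => H (q n))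
      (IF.comp hH hq) (by
        rintro _ ⟨k', h1, rfl⟩
        obtain ⟨n, hn⟩ := hq' k' h1
        exact ⟨n, by rw [hn]⟩) k.2.2
    refine ⟨x, ?_⟩
    show GnR k.1.v {z | ∃ y : Rl s, y ∈ Oh (ISet.mk h) ∧ y.1 = z} k.2.2 x.1
    rw [hOd]
    exact hx
  refine ⟨fun k => (H k).1, ?_, ?_, ?_, ?_⟩
  · exact IF.app' (f := fun y : (Wt s × Hc) × ℕ => H y.1) (IF.comp hH IF.fst) IF.snd
  · intro k
    exact ⟨_, (rcE (H k)).1.2, rc_rcE (H k)⟩
  · intro k
    obtain ⟨h, h1, -⟩ := hLQ k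
    have h1 : GnR k.1.v {z | ∃ y : Rl s, y ∈ Oh (ISet.mk h) ∧ y.1 = z} k.2.2 (H k).1 := h1
    rw [hOd] at h1
    exact h1
  · intro k w hw w' hw' hlt x hx hGn
    obtain ⟨h, -, h2⟩ := hLQ k
    have hxi : IF (St s) x := hx.internal hw
    refine h2 (⟨x, hxi⟩ : Rl s) ?_ ?_
    · rw [← hx.uniq (rc_rcE (⟨x, hxi⟩ : Rl s)), ← hw'.uniq (rc_rcE (H k))]
      exact hlt
    · show GnR k.1.v {z | ∃ y : Rl s, y ∈ Oh (ISet.mk h) ∧ y.1 = z} k.2.2 x
      rw [hOd]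
      exact hGn

end model

end Pool.Agent.H.MP_a163f2_lc.L
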