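import Pool.Agent.H.MP_a163f2_lc.L.C1
import Pool.Agent.H.MP_a163f2_lc.R.D1

/-!
# Block L, part C4: the Luzin property
-/

set_option autoImplicit false
set_option linter.unusedSectionVars false

namespace Pool.Agent.H.MP_a163f2_lc.L

open Pool.Agent.H.MP_07d118_lc

universe u v w x

section model

variable {s : ZFSet.{0}} [G : GM s]

/-- closure points of an internal function -/
theorem exists_closure_pt (g : Wt s × ℕ → Wt s) (hg : IF (St s) g) (ζ₀ : Wt s) :
    ∃ ξ₀, ζ₀ < ξ₀ ∧ ∀ ζ < ξ₀, ∀ n, g (ζ, n) < ξ₀ := by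
  have hR : In (St s) (fun y : Wt s × Wt s => ∀ z : Wt s, ¬ y.1 < z → ∀ n : ℕ, g (z, n) < y.2) := by
    apply_rules (transparency := .reducible) [In.all, In.imp]
    all_goals fun_prop
  obtain ⟨δ, h1, h2⟩ := exists_closedW (M := St s) (W := Wt s)
    (R := fun ζ η => ∀ z : Wt s, ¬ ζ < z → ∀ n : ℕ, g (z, n) < η) hR (by
      intro ζ
      obtain ⟨η, hη⟩ := Om1.bdd (M := St s) (W := Wt s) (fun _ : ℕ => ζ) (IF.const ζ)
      have hct : ICt (St s) {y : Wt s × ℕ | ¬ ζ < y.1} := by
        refine ICt.mono ((ICt.below (M := St s) η).prod (ICt.nat (M := St s))) ?_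
        intro y hy
        exact ⟨lt_of_le_of_lt (not_lt.1 hy) (hη 0), Set.mem_univ _⟩
      obtain ⟨α, hα⟩ := hct.bdd (F := g) (by
        show In (St s) (fun y : Wt s × ℕ => ¬ ζ < y.1)
        fun_prop) hg
      exact ⟨α, fun z hz n => hα (z, n) hz⟩)
    (fun ζ η η' h hle z hz n => lt_of_lt_of_le (h z hz n) hle)
    (fun ζ ζ' η h hle z hz n => h z (fun h' => hz (lt_of_le_of_lt hle h')) n) ζ₀
  refine ⟨δ, h1, fun ζ hζ n => ?_⟩
  obtain ⟨η, h3, -, h4⟩ := h2 ζ hζ
  exact (h4 ζ (lt_irrefl _) n).trans h3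

theorem C4_getD_set (l : List Fs) (i j : ℕ) (w : Fs) (hi : i < l.length) :
    (l.set i w).getD j [] = if j = i then w else l.getD j [] := by
  rw [List.getD_eq_getElem?_getD, List.getD_eq_getElem?_getD, List.getElem?_set]
  by_cases h : i = j
  · subst h
    rw [if_pos rfl, if_pos rfl, if_pos hi]
    rfl
  · rw [if_neg h, if_neg fun h' => h h'.symm]

/-- one step: genericity of the real with the largest index -/
theorem luz_finset {c : Wt s × Hc → ℕ → ℕ} (hc : CSpec c) {d : ZFSet.{0}} {k : List (Wt s × Hc)}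
    (hk : k.Nodup) (hd : ∀ κ ∈ k, d ∈ κ.1.v)
    (hD : ∀ s₀ : List Fs, s₀.length = k.length → ∃ t, num (Encodable.encode t) ∈ d ∧ FP s₀ t)
    (J : Finset (Fin k.length)) (s₀ : List Fs) (hs : s₀.length = k.length)
    (hJ : ∀ i ∈ J, Pre (c (k.get i)) (s₀.getD i.1 [])) :
    ∃ t, num (Encodable.encode t) ∈ d ∧ FP s₀ t ∧ ∀ i ∈ J, Pre (c (k.get i)) (t.getD i.1 []) := by
  classical
  revert s₀
  refine Finset.induction_on_max_value (α := Wt s ×ₗ ℕ)
    (fun i : Fin k.length => toLex ((k.get i).1, Encodable.encode (k.get i).2)) J ?_ ?_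
  · intro s₀ hs _
    obtain ⟨t, h1, h2⟩ := hD s₀ hs
    exact ⟨t, h1, h2, fun i hi => absurd hi (Finset.notMem_empty _)⟩
  · intro i₀ J' hi₀ hmax ih s₀ hs hJ
    have hlt : ∀ i ∈ J', ltP (k.get i) (k.get i₀) := by
      intro i hi
      have hne : k.get i ≠ k.get i₀ := by
        intro h
        have := hk.injective_get h
        rw [this] at hi
        exact hi₀ hi
      rcases (Prod.Lex.toLex_le_toLex.1 (hmax i hi)) with h1 | ⟨h1, h2⟩
      · exact Or.inl h1
      · refine Or.inr ⟨h1, lt_of_le_of_ne h2 fun h3 => hne ?_⟩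
        exact Prod.ext h1 (Encodable.encode_injective h3)
    have hAO : ∀ a ∈ J'.toList.map (fun i : Fin k.length => (i.1, c (k.get i))), a.2 ∈ Od c (k.get i₀) := by
      intro a ha
      obtain ⟨i, hi, rfl⟩ := List.mem_map.1 ha
      exact ⟨k.get i, hlt i (Finset.mem_toList.1 hi), rfl⟩
    obtain ⟨v, hv, hE⟩ := (hc.gn (k.get i₀)).2.2 d (hd _ (List.get_mem _ _)) _ hAO s₀ i₀.1
    have hK : ∀ t : List Fs, (∀ a ∈ J'.toList.map (fun i : Fin k.length => (i.1, c (k.get i))),
        a.1 < t.length → Pre a.2 (t.getD a.1 [])) ↔ ∀ i ∈ J', i.1 < t.length →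
          Pre (c (k.get i)) (t.getD i.1 []) := by
      intro t
      constructor
      · intro h i hi
        exact h (i.1, c (k.get i)) (List.mem_map.2 ⟨i, Finset.mem_toList.2 hi, rfl⟩)
      · intro h a ha
        obtain ⟨i, hi, rfl⟩ := List.mem_map.1 ha
        exact h i (Finset.mem_toList.1 hi)
    rcases hE with ⟨t, h1, h2, h3, -, h5⟩ | hno
    · refine ⟨t, h1, h2, fun i hi => ?_⟩
      rcases Finset.mem_insert.1 hi with rfl | hi
      · rw [h5]
        exact hv
      · exact (hK t).1 h3 i hi (by rw [← h2.1, hs]; exact i.2)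
    · exfalso
      have hi₀l : i₀.1 < s₀.length := by rw [hs]; exact i₀.2
      have hP := hJ i₀ (Finset.mem_insert_self _ _)
      obtain ⟨w, hw1, hw2, hw3⟩ : ∃ w, v <+: w ∧ s₀.getD i₀.1 [] <+: w ∧ Pre (c (k.get i₀)) w := by
        rcases Pre.cmp hv hP with h | h
        · exact ⟨_, h, List.prefix_rfl, hP⟩
        · exact ⟨v, List.prefix_rfl, h, hv⟩
      obtain ⟨t, h1, h2, h3⟩ := ih (s₀.set i₀.1 w) (by rw [List.length_set]; exact hs) (by
        intro i hi
        rw [C4_getD_set _ _ _ _ hi₀l, if_neg]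
        · exact hJ i (Finset.mem_insert_of_mem hi)
        · intro h
          rw [Fin.ext h] at hi
          exact hi₀ hi)
      have hlen : s₀.length = t.length := by
        have := h2.1
        rwa [List.length_set] at this
      have hle : w <+: t.getD i₀.1 [] := by
        have := h2.2 i₀.1 (by rw [← hlen]; exact hi₀l)
        rwa [C4_getD_set _ _ _ _ hi₀l, if_pos rfl] at this
      refine hno (t.getD i₀.1 []) (hw1.trans hle) ⟨t, h1, ⟨hlen, fun i hi => ?_⟩,
        (hK t).2 fun i hi _ => h3 i hi, by rw [← hlen]; exact hi₀l, rfl⟩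
      have := h2.2 i hi
      rw [C4_getD_set _ _ _ _ hi₀l] at this
      by_cases h : i = i₀.1
      · rw [if_pos h] at this
        rw [h] at this ⊢
        exact hw2.trans this
      · rwa [if_neg h] at this

theorem C4_FP {s₀ t : List Fs} (h : List.Forall₂ (fun a a' => a <+: a') s₀ t) : FP s₀ t := by
  obtain ⟨h1, h2⟩ := List.forall₂_iff_get.1 h
  refine ⟨h1, fun i hi => ?_⟩
  rw [List.getD_eq_getElem _ _ hi, List.getD_eq_getElem _ _ (by rw [h1]; exact hi)]
  exact h2 i (by rw [h1]; exact hi) hi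

theorem luz_of_cspec {c : Wt s × Hc → ℕ → ℕ} (hc : CSpec c) : Luz (St s) (Wt s) c where
  int := hc.int
  inj := by
    intro k k' h
    by_contra hne
    have htri : ltP k k' ∨ ltP k' k := by
      rcases lt_trichotomy k.1 k'.1 with h1 | h1 | h1
      · exact Or.inl (Or.inl h1)
      · rcases lt_trichotomy (Encodable.encode k.2) (Encodable.encode k'.2) with h2 | h2 | h2
        · exact Or.inl (Or.inr ⟨h1, h2⟩)
        · exact absurd (Prod.ext h1 (Encodable.encode_injective h2)) hne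
        · exact Or.inr (Or.inr ⟨h1.symm, h2⟩)
      · exact Or.inr (Or.inl h1)
    rcases htri with h1 | h1
    · exact (hc.gn k').2.1 ⟨k, h1, h⟩
    · exact (hc.gn k).2.1 ⟨k', h1, h.symm⟩
  pre ξ L τ := (hc.gn (ξ, (L, τ))).1
  luz := by
    intro Φ hΦ ζ₀
    have hRin : In (St s) (fun q : (Wt s × ℕ) × Wt s => ∃ w : El (UU s), w.1.1 ∈ q.2.e.1.1 ∧
        ∀ z : El (UU s), z.1.1 ∈ w.1.1 ↔ ∃ t : List (List ℕ), t ∈ Φ q.1 ∧
          z.1.1 = (nU (Encodable.encode t) : El (UU s)).1.1) := by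
      apply_rules (transparency := .reducible) [In.ex, In.and, In.all, In.iff]
      all_goals fun_prop
    obtain ⟨g, hg, hgR⟩ := In.choice (M := St s) (T := Wt s × ℕ) (S := Wt s)
      (R := fun y α => ∃ w : El (UU s), w.1.1 ∈ α.e.1.1 ∧
        ∀ z : El (UU s), z.1.1 ∈ w.1.1 ↔ ∃ t : List (List ℕ), t ∈ Φ y ∧
          z.1.1 = (nU (Encodable.encode t) : El (UU s)).1.1) hRin (by
      intro y
      have hin : In (St s) (fun m : ℕ => ∃ t : List (List ℕ), t ∈ Φ y ∧ Encodable.encode t = m) := by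
        apply_rules (transparency := .reducible) [In.ex, In.and]
        all_goals fun_prop
      have hsub : ∀ z : St s, z ∈ (ISet.mk hin).cod → z ∈ (om : St s) := by
        intro z hz
        obtain ⟨t, -, rfl⟩ := ISet.mem_cod_iff.1 hz
        exact nm_mem t
      obtain ⟨b, hb, hbc, hxb⟩ := exists_ctb_level (s := s) (ISet.mk hin).cod hsub
      refine ⟨Wt.mk' b hb.lev hbc, ⟨(ISet.mk hin).cod, sub_om_mem_UU hsub⟩, hxb, fun z => ?_⟩
      show z.1 ∈ (ISet.mk hin).cod ↔ _
      rw [ISet.mem_cod_iff]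
      constructor
      · rintro ⟨m, ⟨t, ht, rfl⟩, hm⟩
        refine ⟨t, ht, ?_⟩
        rw [nU_val, ← hm]
        exact num_nm _
      · rintro ⟨t, ht, hz⟩
        refine ⟨Encodable.encode t, ⟨t, ht, rfl⟩, Subtype.ext ?_⟩
        rw [hz, nU_val]
        exact num_nm _)
    obtain ⟨ξ₀, hξ, hcl⟩ := exists_closure_pt g hg ζ₀
    refine ⟨ξ₀, hξ, fun ζ hζ n k hk hκ hdense => ?_⟩
    obtain ⟨w, hw, hwz⟩ := hgR (ζ, n)
    have hmem : ∀ t : List Fs, num (Encodable.encode t) ∈ w.1.1 ↔ t ∈ Φ (ζ, n) := by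
      intro t
      have h1 := hwz (nU (Encodable.encode t))
      rw [nU_val] at h1
      rw [h1]
      constructor
      · rintro ⟨t', ht', h2⟩
        rw [nU_val] at h2
        have h3 := Encodable.encode_injective (num_inj h2 s)
        rw [h3]
        exact ht'
      · intro ht
        exact ⟨t, ht, (nU_val _).symm⟩
    have hd : ∀ κ ∈ k, w.1.1 ∈ κ.1.v := by
      intro κ hκk
      have h4 : g (ζ, n) < κ.1 := lt_of_lt_of_le (hcl ζ hζ n) (hκ κ hκk)
      exact κ.1.lev.tr _ h4 _ hw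
    have hD : ∀ s₀ : List Fs, s₀.length = k.length →
        ∃ t : List Fs, num (Encodable.encode t) ∈ w.1.1 ∧ FP s₀ t := by
      intro s₀ hs
      obtain ⟨t, ht, h5⟩ := hdense s₀ hs
      exact ⟨t, (hmem t).2 ht, C4_FP h5⟩
    have hrep : ∀ i : Fin k.length, (List.replicate k.length ([] : Fs)).getD i.1 [] = [] := by
      intro i
      rw [List.getD_eq_getElem _ _ (by rw [List.length_replicate]; exact i.2),
        List.getElem_replicate]
    obtain ⟨t, h1, h2, h3⟩ := luz_finset hc hk hd hD Finset.univ (List.replicate k.length [])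
      (List.length_replicate) (by
      intro i _
      rw [hrep i]
      rfl)
    have hlen : k.length = t.length := by
      have := h2.1
      rwa [List.length_replicate] at this
    refine ⟨t, (hmem t).1 h1, List.forall₂_iff_get.2 ⟨hlen, fun i hi hi' => ?_⟩⟩
    have := h3 ⟨i, hi⟩ (Finset.mem_univ _)
    rw [List.getD_eq_getElem _ _ hi'] at this
    exact this

end model

end Pool.Agent.H.MP_a163f2_lc.L
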