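import Pool.Agent.H.MP_a163f2_lc.P.P3
import Pool.Agent.H.MP_a163f2_lc.P.P5

/-!
# Block L, arithmetical predicates of a real variable and number variables

`AR R P`: for every real `z ∈ R` the predicate `P z` is in `R`, and the relation between `z` and the
characteristic function of `P z` is Sigma-1-1 over `R`.
-/

set_option autoImplicit false

namespace Pool.Agent.H.MP_a163f2_lc

universe u v

variable {R : Set (ℕ → ℕ)} {α : Type u} {β : Type v} [Primcodable α] [Primcodable β]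

open Classical in
/-- the characteristic function of a predicate, as a real -/
noncomputable def chr (P : α → Prop) : ℕ → ℕ := fun n =>
  if ∃ a, Encodable.decode n = some a ∧ P a then 1 else 0

/-- arithmetical predicates -/
def AR (R : Set (ℕ → ℕ)) (P : (ℕ → ℕ) → α → Prop) : Prop :=
  (∀ z ∈ R, RP R (P z)) ∧ SigP R 1 (fun z => rg z = chr (P (lf z)))

theorem Ar_one {P : α → Prop} {n : ℕ} :
    chr P n = 1 ↔ ∃ a, Encodable.decode n = some a ∧ P a := by
  classical
  unfold chr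
  by_cases h : ∃ a, Encodable.decode n = some a ∧ P a
  · rw [if_pos h]
    exact iff_of_true rfl h
  · rw [if_neg h]
    exact iff_of_false zero_ne_one h

theorem Ar_zero {P : α → Prop} {n : ℕ} :
    chr P n = 0 ↔ ¬ ∃ a, Encodable.decode n = some a ∧ P a := by
  classical
  unfold chr
  by_cases h : ∃ a, Encodable.decode n = some a ∧ P a
  · rw [if_pos h]
    exact iff_of_false one_ne_zero (not_not.2 h)
  · rw [if_neg h]
    exact iff_of_true rfl h

theorem Ar_01 (P : α → Prop) (n : ℕ) : chr P n = 0 ∨ chr P n = 1 := by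
  by_cases h : ∃ a, Encodable.decode n = some a ∧ P a
  · exact Or.inr (Ar_one.2 h)
  · exact Or.inl (Ar_zero.2 h)

theorem Ar_enc {P : α → Prop} (a : α) : chr P (Encodable.encode a) = 1 ↔ P a := by
  rw [Ar_one]
  constructor
  · rintro ⟨b, hb, h⟩
    rw [Encodable.encodek] at hb
    rw [Option.some.inj hb]
    exact h
  · intro h
    exact ⟨a, Encodable.encodek a, h⟩

theorem Ar_ext {P : α → Prop} {w : ℕ → ℕ} (h0 : ∀ n, w n = 0 ∨ w n = 1)
    (h : ∀ n, w n = 1 ↔ ∃ a, Encodable.decode n = some a ∧ P a) : chr P = w := by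
  funext n
  rcases h0 n with h1 | h1
  · rw [h1]
    refine Ar_zero.2 fun h2 => ?_
    rw [(h n).2 h2] at h1
    exact one_ne_zero h1
  · rw [h1]
    exact Ar_one.2 ((h n).1 h1)

theorem Ar_mem (hR : RC R) {P : α → Prop} (h : RP R P) : chr P ∈ R := by
  have h1 : RP R (fun n : ℕ => ∃ a : α, Encodable.decode n = some a ∧ P a) := by
    refine RP.ex hR (P := fun (n : ℕ) (a : α) => Encodable.decode n = some a ∧ P a) ?_
    refine RP.and hR (RP.eq hR ?_ ?_) (RP.comp hR h (RF.of_primrec hR Primrec.snd))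
    · exact RF.of_primrec hR (Primrec.decode.comp Primrec.fst)
    · exact RF.of_primrec hR (Primrec.option_some.comp Primrec.snd)
  exact @RP.ind R hR _ (fun n => Classical.propDecidable _) h1

theorem Ar_jn (z : ℕ → ℕ) : jn (lf z) (rg z) = z := by
  funext n
  unfold jn lf rg
  by_cases h : n % 2 = 0
  · rw [if_pos h]
    congr 1
    omega
  · rw [if_neg h]
    congr 1
    omega

/-! ### Continuous functionals -/

theorem Ar_prim_eq : Primrec (fun p : ℕ × ℕ => if p.1 = p.2 then 0 else 1) :=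
  Primrec.ite (Primrec.eq.comp Primrec.fst Primrec.snd) (Primrec.const 0) (Primrec.const 1)

theorem Ar_eq (hR : RC R) {φ ψ : (ℕ → ℕ) → Unit → ℕ} (hφ : CF R φ)
    (hψ : CF R ψ) (k : ℕ) :
    SigP R k (fun x => φ x () = ψ x ()) ∧ PiP R k (fun x => φ x () = ψ x ()) := by
  have h1 : CF R (fun x a => (fun p : ℕ × ℕ => if p.1 = p.2 then 0 else 1) (φ x a, ψ x a)) :=
    CF.comp2 hR (RF.of_primrec hR Ar_prim_eq) hφ hψ
  constructor
  · refine (SigP.clopen hR h1 k).congr fun x _ => ?_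
    by_cases h : φ x () = ψ x ()
    · simp [h]
    · simp [h]
  · refine (SigP.clopen' hR h1 k).congr fun x _ => ?_
    by_cases h : φ x () = ψ x ()
    · simp [h]
    · simp [h]

/-- equality of two functionals -/
theorem Ar_fun (hR : RC R) {F G : (ℕ → ℕ) → ℕ → ℕ} (hF : CF R F)
    (hG : CF R G) : SigP R 1 (fun z => F z = G z) := by
  have hid : CF R (fun (x : ℕ → ℕ) (n : ℕ) => x n) := CF.id' hR
  have htl : CF R (fun (x : ℕ → ℕ) (n : ℕ) => tl x n) := CF.tl hR hid
  have h1 : PiP R 0 (fun z => ∀ k, F z k = G z k) := by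
    refine PiP.allN hR (P := fun k z => F z k = G z k) ?_
    have h0 : CF R (fun y (_ : Unit) => y 0) := P3c_head hR hid 0
    exact (Ar_eq hR (P3_val hR (CF.real hR hF htl) h0) (P3_val hR (CF.real hR hG htl) h0) 0).2
  refine (SigP.of_pi hR h1).congr fun z _ => ?_
  exact ⟨fun h k => by rw [h], fun h => funext h⟩

theorem Ar_sub (hR : RC R) {P : (ℕ → ℕ) → α → Prop}
    (h : SigP R 1 (fun z => rg z = chr (P (lf z)))) {F G : (ℕ → ℕ) → ℕ → ℕ} (hF : CF R F)
    (hG : CF R G) : SigP R 1 (fun v => G v = chr (P (F v))) := by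
  refine (SigP.subst hR h (F := fun v n => jn (F v) (G v) n) (CF.jn hR hF hG)).congr fun v _ => ?_
  show G v = chr (P (F v)) ↔ rg (jn (F v) (G v)) = chr (P (lf (jn (F v) (G v))))
  rw [P3_lf_jn, P3_rg_jn]

theorem Ar_step (hR : RC R) {P : (ℕ → ℕ) → β → Prop} (h : AR R P) {Q : (ℕ → ℕ) → α → Prop}
    (hQ : ∀ z ∈ R, RP R (Q z)) {C : (ℕ → ℕ) → Prop} (hC : SigP R 1 C)
    (e : ∀ z ∈ R, ∀ w ∈ R, w = chr (Q z) ↔ C (jn (jn z w) (chr (P z)))) : AR R Q := by
  have hid : CF R (fun (x : ℕ → ℕ) (n : ℕ) => x n) := CF.id' hR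
  refine ⟨hQ, ?_⟩
  have h1 : SigP R 1 (fun z => ∃ y ∈ R, y = chr (P (lf z)) ∧ C (jn z y)) := by
    refine SigP.exR hR (P := fun z y => y = chr (P (lf z)) ∧ C (jn z y)) ?_
    refine SigP.and hR (Ar_sub hR h.2 (CF.lf hR (CF.lf hR hid)) (CF.rg hR hid)) ?_
    refine hC.congr fun w _ => ?_
    rw [Ar_jn]
  refine h1.congr fun z hz => ?_
  have h2 := e (lf z) (P3c_lf_mem hR hz) (rg z) (P3c_rg_mem hR hz)
  rw [Ar_jn] at h2
  rw [h2]
  constructor
  · intro h3
    exact ⟨_, Ar_mem hR (h.1 _ (P3c_lf_mem hR hz)), rfl, h3⟩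
  · rintro ⟨y, _, rfl, h3⟩
    exact h3

theorem Ar_fun1 (hR : RC R) {P : (ℕ → ℕ) → β → Prop} (h : AR R P) {Q : (ℕ → ℕ) → α → Prop}
    (hQ : ∀ z ∈ R, RP R (Q z)) {G : (ℕ → ℕ) → ℕ → ℕ} (hG : CF R G)
    (e : ∀ z ∈ R, chr (Q z) = G (chr (P z))) : AR R Q := by
  have hid : CF R (fun (x : ℕ → ℕ) (n : ℕ) => x n) := CF.id' hR
  refine Ar_step hR h hQ (C := fun v => rg (lf v) = G (rg v)) ?_ fun z hz w _ => ?_
  · exact Ar_fun hR (CF.rg hR (CF.lf hR hid)) (CF.real hR hG (CF.rg hR hid))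
  · rw [P3_lf_jn, P3_rg_jn, P3_rg_jn, e z hz]

theorem Ar_fun2 (hR : RC R) {P : (ℕ → ℕ) → β → Prop} (h : AR R P) {P' : (ℕ → ℕ) → β → Prop}
    (h' : AR R P') {Q : (ℕ → ℕ) → α → Prop}
    (hQ : ∀ z ∈ R, RP R (Q z)) {G : (ℕ → ℕ) → ℕ → ℕ} (hG : CF R G)
    (e : ∀ z ∈ R, chr (Q z) = G (jn (chr (P z)) (chr (P' z)))) : AR R Q := by
  have hid : CF R (fun (x : ℕ → ℕ) (n : ℕ) => x n) := CF.id' hR
  have hl : CF R (fun v n => lf v n) := CF.lf hR hid
  have hll : CF R (fun v n => lf (lf v) n) := CF.lf hR hl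
  have hrl : CF R (fun v n => rg (lf v) n) := CF.rg hR hl
  have hr : CF R (fun v n => rg v n) := CF.rg hR hid
  refine Ar_step hR h hQ
    (C := fun v => ∃ y ∈ R, y = chr (P' (lf (lf v))) ∧ rg (lf v) = G (jn (rg v) y)) ?_
    fun z hz w _ => ?_
  · refine SigP.exR hR (P := fun v y => y = chr (P' (lf (lf v))) ∧
      rg (lf v) = G (jn (rg v) y)) ?_
    refine SigP.and hR (Ar_sub hR h'.2 (CF.lf hR (CF.lf hR hl)) hr) ?_
    exact Ar_fun hR (CF.rg hR (CF.lf hR hl))
      (CF.real hR hG (F := fun v n => jn (rg (lf v)) (rg v) n) (CF.jn hR hrl hr))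
  · rw [P3_lf_jn, P3_rg_jn, P3_lf_jn, P3_rg_jn, e z hz]
    constructor
    · intro h3
      exact ⟨_, Ar_mem hR (h'.1 z hz), rfl, h3⟩
    · rintro ⟨y, _, rfl, h3⟩
      exact h3

theorem AR.congr {P Q : (ℕ → ℕ) → α → Prop} (h : AR R P) (e : ∀ z ∈ R, ∀ a, Q z a ↔ P z a)
    (hR : RC R) : AR R Q := by
  have e' : ∀ z ∈ R, Q z = P z := fun z hz => funext fun a => propext (e z hz a)
  refine ⟨fun z hz => ?_, h.2.congr fun z hz => ?_⟩
  · rw [e' z hz]
    exact h.1 z hz
  · rw [e' _ (P3c_lf_mem hR hz)]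

theorem AR.of_rp (hR : RC R) {P : α → Prop} (h : RP R P) : AR R (fun _ a => P a) := by
  have hid : CF R (fun (x : ℕ → ℕ) (n : ℕ) => x n) := CF.id' hR
  refine ⟨fun _ _ => h, ?_⟩
  exact Ar_fun hR (CF.rg hR hid) (CF.cst hR (Ar_mem hR h))

theorem Ar_isSome (hR : RC R) : RP R (fun n : ℕ => (Encodable.decode (α := α) n).isSome = true) := by
  classical
  exact RP.eq hR (RF.of_primrec hR (Primrec.option_isSome.comp Primrec.decode))
    (RF.const hR true)

theorem Ar_rf (hR : RC R) {φ : (ℕ → ℕ) → α → ℕ} (hφ : CF R φ) {z : ℕ → ℕ} (hz : z ∈ R) :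
    RF R (φ z) := by
  by_cases hα : Nonempty α
  · obtain ⟨a0⟩ := hα
    have hg : RF R (fun n : ℕ => (Encodable.decode (α := α) n).getD a0) :=
      RF.of_primrec hR (Primrec.option_getD.comp Primrec.decode (Primrec.const a0))
    have h1 := CF.mem hR (CF.par hR hφ hg) hz
    have h2 := RF.comp hR ((RF.mem hR).2 h1) (RF.of_primrec hR (Primrec.encode (α := α)))
    have e : (fun a : α => φ z ((Encodable.decode (Encodable.encode a)).getD a0)) = φ z := by
      funext a
      rw [Encodable.encodek]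
      rfl
    rw [← e]
    exact h2
  · have e : φ z = fun _ => 0 := by
      funext a
      exact absurd ⟨a⟩ hα
    rw [e]
    exact RF.const hR 0

theorem AR.val (hR : RC R) {φ ψ : (ℕ → ℕ) → α → ℕ} (hφ : CF R φ) (hψ : CF R ψ) :
    AR R (fun z a => φ z a = ψ z a) := by
  classical
  have hid : CF R (fun (x : ℕ → ℕ) (n : ℕ) => x n) := CF.id' hR
  refine ⟨fun z hz => RP.eq hR (Ar_rf hR hφ hz) (Ar_rf hR hψ hz), ?_⟩
  by_cases hα : Nonempty α
  · obtain ⟨a0⟩ := hα
    have hg : RF R (fun n : ℕ => (Encodable.decode (α := α) n).getD a0) :=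
      RF.of_primrec hR (Primrec.option_getD.comp Primrec.decode (Primrec.const a0))
    have hp : Primrec (fun p : ℕ × ℕ => if p.1 = p.2 then 1 else 0) :=
      Primrec.ite (Primrec.eq.comp Primrec.fst Primrec.snd) (Primrec.const 1) (Primrec.const 0)
    have h1 := CF.ite hR (Ar_isSome (α := α) hR)
      (CF.comp2 hR (RF.of_primrec hR hp) (CF.par hR hφ hg) (CF.par hR hψ hg))
      (CF.num hR (RF.const (α := ℕ) hR 0))
    have hl : CF R (fun v n => lf v n) := CF.lf hR hid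
    refine (Ar_fun hR (CF.rg hR hid) (CF.real hR h1 hl)).congr fun z _ => ?_
    refine Iff.of_eq (congrArg _ ?_)
    refine Ar_ext (fun n => ?_) fun n => ?_
    · by_cases h2 : (Encodable.decode (α := α) n).isSome = true
      · rw [if_pos h2]
        show (if _ = _ then 1 else 0) = 0 ∨ (if _ = _ then 1 else 0) = 1
        split_ifs
        · exact Or.inr rfl
        · exact Or.inl rfl
      · rw [if_neg h2]
        exact Or.inl rfl
    · by_cases h2 : (Encodable.decode (α := α) n).isSome = true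
      · rw [if_pos h2]
        obtain ⟨a, ha⟩ := Option.isSome_iff_exists.1 h2
        rw [ha]
        show (if φ (lf z) a = ψ (lf z) a then 1 else 0) = 1 ↔ _
        constructor
        · intro h3
          refine ⟨a, rfl, ?_⟩
          by_contra h4
          rw [if_neg h4] at h3
          exact zero_ne_one h3
        · rintro ⟨b, hb, h3⟩
          rw [← Option.some.inj hb] at h3
          rw [if_pos h3]
      · rw [if_neg h2]
        refine iff_of_false zero_ne_one ?_
        rintro ⟨a, ha, -⟩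
        rw [ha] at h2
        exact h2 rfl
  · have h1 := Ar_fun hR (CF.rg hR hid) (CF.num hR (RF.const (α := ℕ) hR 0))
    refine h1.congr fun z _ => ?_
    refine Iff.of_eq (congrArg _ ?_)
    funext n
    refine Ar_zero.2 ?_
    rintro ⟨a, -, -⟩
    exact hα ⟨a⟩

theorem AR.not (hR : RC R) {P : (ℕ → ℕ) → α → Prop} (h : AR R P) : AR R (fun z a => ¬ P z a) := by
  classical
  have hid : CF R (fun (x : ℕ → ℕ) (n : ℕ) => x n) := CF.id' hR
  have hp : Primrec (fun k : ℕ => if k = 0 then 1 else 0) :=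
    Primrec.ite (Primrec.eq.comp Primrec.id (Primrec.const 0)) (Primrec.const 1) (Primrec.const 0)
  have h1 := CF.ite hR (Ar_isSome (α := α) hR)
      (CF.comp1 hR (RF.of_primrec hR hp) hid) (CF.num hR (RF.const (α := ℕ) hR 0))
  refine Ar_fun1 hR h (fun z hz => RP.not hR (h.1 z hz)) h1 fun z _ => ?_
  refine Ar_ext (fun n => ?_) fun n => ?_
  · by_cases h2 : (Encodable.decode (α := α) n).isSome = true
    · rw [if_pos h2]
      show (if _ = _ then 1 else 0) = 0 ∨ (if _ = _ then 1 else 0) = 1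
      split_ifs
      · exact Or.inr rfl
      · exact Or.inl rfl
    · rw [if_neg h2]
      exact Or.inl rfl
  · by_cases h2 : (Encodable.decode (α := α) n).isSome = true
    · rw [if_pos h2]
      obtain ⟨a, ha⟩ := Option.isSome_iff_exists.1 h2
      show (if chr (P z) n = 0 then 1 else 0) = 1 ↔ _
      constructor
      · intro h3
        refine ⟨a, ha, fun h4 => ?_⟩
        rw [if_neg] at h3
        · exact zero_ne_one h3
        · intro h5
          exact Ar_zero.1 h5 ⟨a, ha, h4⟩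
      · rintro ⟨b, hb, h3⟩
        rw [if_pos]
        refine Ar_zero.2 ?_
        rintro ⟨c, hc, h4⟩
        rw [hb] at hc
        rw [← Option.some.inj hc] at h4
        exact h3 h4
    · rw [if_neg h2]
      refine iff_of_false zero_ne_one ?_
      rintro ⟨a, ha, -⟩
      rw [ha] at h2
      exact h2 rfl

theorem AR.and (hR : RC R) {P Q : (ℕ → ℕ) → α → Prop} (h : AR R P) (h' : AR R Q) :
    AR R (fun z a => P z a ∧ Q z a) := by
  have hid : CF R (fun (x : ℕ → ℕ) (n : ℕ) => x n) := CF.id' hR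
  have hp : Primrec (fun p : ℕ × ℕ => if p.1 = 1 then p.2 else 0) :=
    Primrec.ite (Primrec.eq.comp Primrec.fst (Primrec.const 1)) Primrec.snd (Primrec.const 0)
  have hG : CF R (fun v n => (fun p : ℕ × ℕ => if p.1 = 1 then p.2 else 0) (lf v n, rg v n)) :=
    CF.comp2 hR (RF.of_primrec hR hp) (CF.lf hR hid) (CF.rg hR hid)
  refine Ar_fun2 hR h h' (fun z hz => RP.and hR (h.1 z hz) (h'.1 z hz)) hG fun z _ => ?_
  rw [P3_lf_jn, P3_rg_jn]
  refine Ar_ext (fun n => ?_) fun n => ?_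
  · show (if chr (P z) n = 1 then chr (Q z) n else 0) = 0 ∨
      (if chr (P z) n = 1 then chr (Q z) n else 0) = 1
    split_ifs
    · exact Ar_01 _ _
    · exact Or.inl rfl
  · show (if chr (P z) n = 1 then chr (Q z) n else 0) = 1 ↔ _
    constructor
    · intro h3
      by_cases h4 : chr (P z) n = 1
      · rw [if_pos h4] at h3
        obtain ⟨a, ha, h5⟩ := Ar_one.1 h4
        obtain ⟨b, hb, h6⟩ := Ar_one.1 h3
        rw [ha] at hb
        rw [← Option.some.inj hb] at h6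
        exact ⟨a, ha, h5, h6⟩
      · rw [if_neg h4] at h3
        exact absurd h3 zero_ne_one
    · rintro ⟨a, ha, h5, h6⟩
      rw [if_pos (Ar_one.2 ⟨a, ha, h5⟩)]
      exact Ar_one.2 ⟨a, ha, h6⟩

theorem AR.or (hR : RC R) {P Q : (ℕ → ℕ) → α → Prop} (h : AR R P) (h' : AR R Q) :
    AR R (fun z a => P z a ∨ Q z a) := by
  refine AR.congr (AR.not hR (AR.and hR (AR.not hR h) (AR.not hR h'))) (fun z _ a => ?_) hR
  tauto

theorem AR.imp (hR : RC R) {P Q : (ℕ → ℕ) → α → Prop} (h : AR R P) (h' : AR R Q) :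
    AR R (fun z a => P z a → Q z a) := by
  refine AR.congr (AR.or hR (AR.not hR h) h') (fun z _ a => ?_) hR
  tauto

theorem AR.iff (hR : RC R) {P Q : (ℕ → ℕ) → α → Prop} (h : AR R P) (h' : AR R Q) :
    AR R (fun z a => P z a ↔ Q z a) := by
  refine AR.congr (AR.and hR (AR.imp hR h h') (AR.imp hR h' h)) (fun z _ a => ?_) hR
  tauto

theorem Ar_pair {P : α → β → Prop} {n : ℕ} :
    (∃ a, Encodable.decode n = some a ∧ ∃ b, P a b) ↔
      ∃ m, chr (fun y : α × β => P y.1 y.2) (Nat.pair n m) = 1 := by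
  constructor
  · rintro ⟨a, ha, b, hb⟩
    refine ⟨Encodable.encode b, Ar_one.2 ⟨(a, b), ?_, hb⟩⟩
    rw [Encodable.decode_prod_val]
    simp [ha]
  · rintro ⟨m, hm⟩
    obtain ⟨⟨a, b⟩, h1, h2⟩ := Ar_one.1 hm
    rw [Encodable.decode_prod_val] at h1
    simp only [Nat.unpair_pair] at h1
    cases hn : Encodable.decode (α := α) n with
    | none => simp [hn] at h1
    | some a' =>
      cases hm' : Encodable.decode (α := β) m with
      | none => simp [hn, hm'] at h1
      | some b' =>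
        simp only [hn, hm', Option.bind_some, Option.map_some, Option.some.injEq,
          Prod.mk.injEq] at h1
        obtain ⟨rfl, rfl⟩ := h1
        exact ⟨a', rfl, b', h2⟩

theorem AR.ex (hR : RC R) {P : (ℕ → ℕ) → α → β → Prop}
    (h : AR R (fun z (y : α × β) => P z y.1 y.2)) : AR R (fun z a => ∃ b, P z a b) := by
  have hid : CF R (fun (x : ℕ → ℕ) (n : ℕ) => x n) := CF.id' hR
  have hK : RF R (fun p : ℕ × ℕ => Nat.pair p.1 p.2) :=
    RF.of_primrec hR (Primrec₂.natPair.comp Primrec.fst Primrec.snd)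
  have htt : CF R (fun v n => tl (tl v) n) := CF.tl hR (CF.tl hR hid)
  have a0 : CF R (fun v (_ : Unit) => v 0) := P3c_head hR hid 0
  have a1 : CF R (fun v (_ : Unit) => tl v 0) := P3c_head hR (CF.tl hR hid) 0
  have a2 : CF R (fun v (_ : Unit) => rg (lf (tl (tl v))) (tl v 0)) :=
    P3_val hR (CF.rg hR (CF.lf hR htt)) a1
  have a3 : CF R (fun v (_ : Unit) => rg (tl (tl v)) (Nat.pair (tl v 0) (v 0))) :=
    P3_val hR (CF.rg hR htt) (CF.comp2 hR hK a1 a0)
  have n0 : CF R (fun (_ : ℕ → ℕ) (_ : Unit) => 0) := CF.num hR (RF.const hR 0)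
  have n1 : CF R (fun (_ : ℕ → ℕ) (_ : Unit) => 1) := CF.num hR (RF.const hR 1)
  have b1 : PiP R 0 (fun v => rg (tl (tl v)) (Nat.pair (tl v 0) (v 0)) = 1 →
      rg (lf (tl (tl v))) (tl v 0) = 1) := by
    refine (PiP.or hR (PiP.of_not (Ar_eq hR a3 n1 0).1) (Ar_eq hR a2 n1 0).2).congr
      fun v _ => ?_
    exact imp_iff_not_or
  have b2 : PiP R 0 (fun y => ∀ m, rg (tl y) (Nat.pair (y 0) m) = 1 →
      rg (lf (tl y)) (y 0) = 1) :=
    PiP.allN hR (P := fun m y => rg (tl y) (Nat.pair (y 0) m) = 1 →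
      rg (lf (tl y)) (y 0) = 1) b1
  have b3 : PiP R 0 (fun w => ∀ n, ∀ m, rg w (Nat.pair n m) = 1 → rg (lf w) n = 1) :=
    PiP.allN hR (P := fun n w => ∀ m, rg w (Nat.pair n m) = 1 → rg (lf w) n = 1) b2
  have g1 : SigP R 0 (fun v => rg (lf (tl (tl v))) (tl v 0) = 0 ∨
      (rg (lf (tl (tl v))) (tl v 0) = 1 ∧ rg (tl (tl v)) (Nat.pair (tl v 0) (v 0)) = 1)) :=
    SigP.or hR (Ar_eq hR a2 n0 0).1 (SigP.and hR (Ar_eq hR a2 n1 0).1 (Ar_eq hR a3 n1 0).1)
  have g2 : SigP R 0 (fun y => ∃ j, rg (lf (tl y)) (y 0) = 0 ∨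
      (rg (lf (tl y)) (y 0) = 1 ∧ rg (tl y) (Nat.pair (y 0) j) = 1)) :=
    SigP.exN hR (P := fun j y => rg (lf (tl y)) (y 0) = 0 ∨
      (rg (lf (tl y)) (y 0) = 1 ∧ rg (tl y) (Nat.pair (y 0) j) = 1)) g1
  have g3 : SigP R 1 (fun w => ∀ n, ∃ j, rg (lf w) n = 0 ∨
      (rg (lf w) n = 1 ∧ rg w (Nat.pair n j) = 1)) :=
    SigP.arith_allN hR (P := fun n w => ∃ j, rg (lf w) n = 0 ∨
      (rg (lf w) n = 1 ∧ rg w (Nat.pair n j) = 1)) g2
  refine Ar_step hR h (fun z hz => RP.ex hR (h.1 z hz))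
    (C := fun w => (∀ n, ∀ m, rg w (Nat.pair n m) = 1 → rg (lf w) n = 1) ∧
      ∀ n, ∃ j, rg (lf w) n = 0 ∨ (rg (lf w) n = 1 ∧ rg w (Nat.pair n j) = 1))
    (SigP.and hR (SigP.of_pi hR b3) g3) fun z _ w _ => ?_
  rw [P3_rg_jn, P3_lf_jn, P3_rg_jn]
  constructor
  · rintro rfl
    refine ⟨fun n m hm => ?_, fun n => ?_⟩
    · exact Ar_one.2 (Ar_pair.2 ⟨m, hm⟩)
    · rcases Ar_01 (fun a => ∃ b, P z a b) n with h1 | h1
      · exact ⟨0, Or.inl h1⟩
      · obtain ⟨m, hm⟩ := Ar_pair.1 (Ar_one.1 h1)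
        exact ⟨m, Or.inr ⟨h1, hm⟩⟩
  · rintro ⟨h1, h2⟩
    symm
    refine Ar_ext (fun n => ?_) fun n => ?_
    · obtain ⟨j, h3 | ⟨h3, -⟩⟩ := h2 n
      · exact Or.inl h3
      · exact Or.inr h3
    · rw [Ar_pair]
      constructor
      · intro h3
        obtain ⟨j, h4 | ⟨-, h4⟩⟩ := h2 n
        · rw [h3] at h4
          exact absurd h4 one_ne_zero
        · exact ⟨j, h4⟩
      · rintro ⟨m, hm⟩
        exact h1 n m hm

theorem AR.all (hR : RC R) {P : (ℕ → ℕ) → α → β → Prop}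
    (h : AR R (fun z (y : α × β) => P z y.1 y.2)) : AR R (fun z a => ∀ b, P z a b) := by
  refine AR.congr (AR.not hR (AR.ex hR (P := fun z a b => ¬ P z a b) (AR.not hR h)))
    (fun z _ a => ?_) hR
  exact not_exists_not.symm

/-- substitution of a function of the number variables -/
theorem AR.par (hR : RC R) {P : (ℕ → ℕ) → β → Prop} (h : AR R P) {g : α → β} (hg : RF R g) :
    AR R (fun z a => P z (g a)) := by
  classical
  have hid : CF R (fun (x : ℕ → ℕ) (n : ℕ) => x n) := CF.id' hR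
  have hQ : ∀ z ∈ R, RP R (fun a => P z (g a)) := fun z hz => RP.comp hR (h.1 z hz) hg
  by_cases hα : Nonempty α
  · obtain ⟨a0⟩ := hα
    have hg' : RF R (fun n : ℕ => Encodable.encode (g ((Encodable.decode (α := α) n).getD a0))) :=
      RF.comp hR (RF.of_primrec hR Primrec.encode) (RF.comp hR hg
        (RF.of_primrec hR (Primrec.option_getD.comp Primrec.decode (Primrec.const a0))))
    have h1 := CF.ite hR (Ar_isSome (α := α) hR) (CF.par hR hid hg')
      (CF.num hR (RF.const (α := ℕ) hR 0))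
    refine Ar_fun1 hR h hQ h1 fun z _ => ?_
    refine Ar_ext (fun n => ?_) fun n => ?_
    · by_cases h2 : (Encodable.decode (α := α) n).isSome = true
      · rw [if_pos h2]
        exact Ar_01 _ _
      · rw [if_neg h2]
        exact Or.inl rfl
    · by_cases h2 : (Encodable.decode (α := α) n).isSome = true
      · rw [if_pos h2]
        obtain ⟨a, ha⟩ := Option.isSome_iff_exists.1 h2
        rw [ha]
        show chr (P z) (Encodable.encode (g a)) = 1 ↔ _
        rw [Ar_enc]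
        constructor
        · intro h3
          exact ⟨a, rfl, h3⟩
        · rintro ⟨b, hb, h3⟩
          rw [Option.some.inj hb]
          exact h3
      · rw [if_neg h2]
        refine iff_of_false zero_ne_one ?_
        rintro ⟨a, ha, -⟩
        rw [ha] at h2
        exact h2 rfl
  · refine Ar_fun1 hR h hQ (CF.num hR (RF.const (α := ℕ) hR 0)) fun z _ => ?_
    funext n
    refine Ar_zero.2 ?_
    rintro ⟨a, -, -⟩
    exact hα ⟨a⟩

/-- substitution of a functional for the real variable -/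
theorem AR.subst (hR : RC R) {P : (ℕ → ℕ) → α → Prop} (h : AR R P) {F : (ℕ → ℕ) → ℕ → ℕ}
    (hF : CF R F) : AR R (fun z a => P (F z) a) := by
  have hid : CF R (fun (x : ℕ → ℕ) (n : ℕ) => x n) := CF.id' hR
  refine ⟨fun z hz => h.1 _ (CF.mem hR hF hz), ?_⟩
  exact Ar_sub hR h.2 (CF.real hR hF (CF.lf hR hid)) (CF.rg hR hid)

theorem Ar_c (hR : RC R) {P : (ℕ → ℕ) → Prop} (h : AR R (fun z (_ : Unit) => P z)) (c : ℕ) :
    SigP R 1 (fun z => ∃ y ∈ R, y = chr (fun _ : Unit => P z) ∧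
      y (Encodable.encode ()) = c) := by
  have hid : CF R (fun (x : ℕ → ℕ) (n : ℕ) => x n) := CF.id' hR
  refine SigP.exR hR (P := fun z y => y = chr (fun _ : Unit => P z) ∧
    y (Encodable.encode ()) = c) ?_
  have h1 : SigP R 1 (fun v => rg v = chr (fun _ : Unit => P (lf v))) :=
    Ar_sub hR (P := fun z (_ : Unit) => P z) h.2 (CF.lf hR hid) (CF.rg hR hid)
  refine SigP.and hR h1 ?_
  have a1 : CF R (fun w (_ : Unit) => rg w (Encodable.encode ())) :=
    P3c_head hR (CF.rg hR hid) (Encodable.encode ())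
  exact (Ar_eq hR a1 (CF.num hR (RF.const hR c)) 1).1

theorem AR.sig (hR : RC R) {P : (ℕ → ℕ) → Prop} (h : AR R (fun z (_ : Unit) => P z)) :
    SigP R 1 P := by
  refine (Ar_c hR h 1).congr fun z hz => ?_
  constructor
  · intro h1
    exact ⟨_, Ar_mem hR (h.1 z hz), rfl, (Ar_enc (P := fun _ : Unit => P z) ()).2 h1⟩
  · rintro ⟨y, _, rfl, h1⟩
    exact (Ar_enc (P := fun _ : Unit => P z) ()).1 h1

theorem AR.pi (hR : RC R) {P : (ℕ → ℕ) → Prop} (h : AR R (fun z (_ : Unit) => P z)) :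
    PiP R 1 P := by
  exact AR.sig hR (P := fun z => ¬ P z) (AR.not hR h)

end Pool.Agent.H.MP_a163f2_lc
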