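import Pool.Agent.H.MP_a163f2_lc.L.Co1

/-!
# Block L, structures on the natural numbers coded by reals: wellfoundedness and collapse
-/

set_option autoImplicit false
set_option linter.unusedSectionVars false

namespace Pool.Agent.H.MP_a163f2_lc

open Pool.Agent.H.MP_07d118_lc

universe u v

/-- no descending sequence in `R` -/
def WfR (R : Set (ℕ → ℕ)) (u : ℕ → ℕ) : Prop := ¬ ∃ y ∈ R, ∀ k, u (Nat.pair (y (k + 1)) (y k)) = 1

theorem WfR.pi {R : Set (ℕ → ℕ)} (hR : RC R) : PiP R 1 (fun u => WfR R u) := by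
  have hid := CF.id' hR
  have h0 : CF R (fun (x : ℕ → ℕ) (_ : Unit) => x 0) :=
    CF.app hR (CF.num hR (RF.const hR 0))
  have h1 : CF R (fun (x : ℕ → ℕ) (_ : Unit) => x 0 + 1) :=
    CF.comp1 hR (g := fun n => n + 1) (RF.of_primrec hR Primrec.succ) h0
  have ht := CF.tl hR hid
  have hr := CF.rg hR ht
  have hl := CF.lf hR ht
  have v1 := P3_val hR hr h1
  have v0 := P3_val hR hr h0
  have pr := CF.comp2 hR (g := fun p : ℕ × ℕ => Nat.pair p.1 p.2)
      (RF.of_primrec hR (Primrec₂.natPair.comp Primrec.fst Primrec.snd)) v1 v0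
  have w := P3_val hR hl pr
  have h2 : PiP R 0 (fun z => lf (tl z) (Nat.pair (rg (tl z) (z 0 + 1)) (rg (tl z) (z 0))) = 1) :=
    P3a_clopen hR (Q := fun n => ¬ n = 1)
      (RP.not hR (RP.eq hR (RF.of_primrec hR Primrec.id) (RF.const hR 1))) 0 w
  have h3 : PiP R 0 (fun z => ∀ k, lf z (Nat.pair (rg z (k + 1)) (rg z k)) = 1) :=
    PiP.allN hR (P := fun k z => lf z (Nat.pair (rg z (k + 1)) (rg z k)) = 1) h2
  have h4 : SigP R 1 (fun u => ∃ y ∈ R, ∀ k, u (Nat.pair (y (k + 1)) (y k)) = 1) :=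
    SigP.exR_pi hR (P := fun u y => ∀ k, u (Nat.pair (y (k + 1)) (y k)) = 1) h3
  exact SigP.congr h4 fun _ _ => not_not

/-- a finite descending sequence -/
def Co2_D (u : ℕ → ℕ) (s : List ℕ) : Prop :=
  ∀ i : ℕ, i + 1 < s.length → u (Nat.pair (s.getD (i + 1) 0) (s.getD i 0)) = 1

theorem Co2_D_RP {R : Set (ℕ → ℕ)} (hR : RC R) {u : ℕ → ℕ} (hu : u ∈ R) : RP R (Co2_D u) := by
  refine RP.all hR (P := fun (s : List ℕ) (i : ℕ) => i + 1 < s.length →
    u (Nat.pair (s.getD (i + 1) 0) (s.getD i 0)) = 1) ?_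
  have hg : Primrec fun p : List ℕ × ℕ => p.1.getD p.2 0 :=
    (Primrec.list_getD 0).comp Primrec.fst Primrec.snd
  have hg1 : Primrec fun p : List ℕ × ℕ => p.1.getD (p.2 + 1) 0 :=
    (Primrec.list_getD 0).comp Primrec.fst (Primrec.succ.comp Primrec.snd)
  refine P5_imp hR (RP.lt hR (RF.of_primrec hR (Primrec.succ.comp Primrec.snd))
    (RF.of_primrec hR (Primrec.list_length.comp Primrec.fst))) ?_
  exact RP.eq hR (RF.comp hR ((RF.mem hR).2 hu)
    (RF.of_primrec hR (Primrec₂.natPair.comp hg1 hg))) (RF.const hR 1)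

theorem Co2_getD_ini {y : ℕ → ℕ} {k i : ℕ} (h : i < k) : (ini y k).getD i 0 = y i := by
  have h1 : i < (ini y k).length := by simpa [ini] using h
  rw [List.getD_eq_getElem _ _ h1]
  simp [ini]

theorem wf_of_WfR {M : Type u} [SetStr M] [ZF M] [Std M] {W : Type v} [LinearOrder W] [Cd M W]
    [Om1 M W] {R : Set (ℕ → ℕ)} (hR : RU M W R) {u : ℕ → ℕ} (hu : u ∈ R) (h : WfR R u) :
    WellFounded (SetStr.E : NU u → NU u → Prop) := by
  have hC : RC R := RU.rc hR
  obtain ⟨a, ha, hD⟩ := P5_code hC (Co2_D_RP hC hu)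
  rcases hR.del a ha with ⟨y, hy, h1⟩ | ⟨α, ρ, -, hρ⟩
  · exfalso
    refine h ⟨y, hy, fun k => ?_⟩
    have h2 : Co2_D u (ini y (k + 2)) := (hD _).1 (h1 (k + 2))
    have h3 := h2 k (by simp [ini])
    rw [Co2_getD_ini (by omega), Co2_getD_ini (by omega)] at h3
    exact h3
  · rw [wellFounded_iff_isEmpty_descending_chain]
    refine ⟨fun f => ?_⟩
    obtain ⟨y, hy⟩ := f
    have hy' : ∀ k, u (Nat.pair (y (k + 1)) (y k)) = 1 := hy
    let y' : ℕ → ℕ := y
    have hd : ∀ k, Co2_D u (ini y' k) := by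
      intro k i hi
      have hi' : i + 1 < k := by simpa [ini] using hi
      rw [Co2_getD_ini hi', Co2_getD_ini (by omega)]
      exact hy' i
    have hwf : WellFounded ((· < ·) : W → W → Prop) := Om1.wf M
    rw [wellFounded_iff_isEmpty_descending_chain] at hwf
    refine hwf.false ⟨fun k => ρ (ini y' k), fun k => ?_⟩
    have e : ini y' (k + 1) = ini y' k ++ [y' k] := by
      unfold ini
      rw [List.range_succ, List.map_append]
      rfl
    show ρ (ini y' (k + 1)) < ρ (ini y' k)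
    rw [e]
    refine hρ _ _ fun v hv => ?_
    rw [← e] at hv
    obtain ⟨w, hw⟩ := hv
    rw [P3a_prefix hw]
    exact (hD _).2 (hd _)

theorem WfR_of_wf {R : Set (ℕ → ℕ)} {u : ℕ → ℕ}
    (h : WellFounded (SetStr.E : NU u → NU u → Prop)) : WfR R u := by
  rw [wellFounded_iff_isEmpty_descending_chain] at h
  rintro ⟨y, -, hy⟩
  exact h.false ⟨y, hy⟩

/-- The Mostowski collapse of a countable well-founded extensional structure. -/
theorem exists_collapse {u : ℕ → ℕ} (h : WellFounded (SetStr.E : NU u → NU u → Prop))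
    (hext : ∀ a b : NU u, (∀ x : NU u, x ∈ a ↔ x ∈ b) → a = b) :
    ∃ (X : Set ZFSet.{0}) (e : NU u → X), Trans X ∧ X.Countable ∧ Function.Bijective e ∧
      ∀ i j : NU u, e i ∈ e j ↔ i ∈ j := by
  classical
  let F : (i : NU u) → ((j : NU u) → SetStr.E j i → ZFSet.{0}) → ZFSet.{0} :=
    fun i ih => ZFSet.range fun j : {j : NU u // SetStr.E j i} => ih j.1 j.2
  let col : NU u → ZFSet.{0} := h.fix F
  have hcol : ∀ i, col i = ZFSet.range fun j : {j : NU u // SetStr.E j i} => col j.1 := fun i =>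
    h.fix_eq F i
  have hmem : ∀ i z, z ∈ col i ↔ ∃ j : NU u, SetStr.E j i ∧ col j = z := by
    intro i z
    rw [hcol i, ZFSet.mem_range]
    constructor
    · rintro ⟨j, hj⟩
      exact ⟨j.1, j.2, hj⟩
    · rintro ⟨j, hj, hz⟩
      exact ⟨⟨j, hj⟩, hz⟩
  have hinj : ∀ i j, col i = col j → i = j := by
    intro i
    induction i using h.induction with
    | _ i ih =>
      intro j hij
      refine hext i j fun x => ⟨fun hx => ?_, fun hx => ?_⟩
      · have hx' : SetStr.E x i := hx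
        have h1 : col x ∈ col j := hij ▸ (hmem i (col x)).2 ⟨x, hx', rfl⟩
        obtain ⟨y, hy, he⟩ := (hmem j (col x)).1 h1
        have h2 : x = y := ih x hx' y he.symm
        subst h2
        exact hy
      · have hx' : SetStr.E x j := hx
        have h1 : col x ∈ col i := hij ▸ (hmem j (col x)).2 ⟨x, hx', rfl⟩
        obtain ⟨y, hy, he⟩ := (hmem i (col x)).1 h1
        have h2 : y = x := ih y hy x he
        subst h2
        exact hy
  have hc : Countable (NU u) := inferInstanceAs (Countable ℕ)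
  refine ⟨Set.range col, fun i => ⟨col i, i, rfl⟩, ?_, Set.countable_range col, ⟨?_, ?_⟩, ?_⟩
  · rintro x ⟨i, rfl⟩ y hy
    obtain ⟨j, -, hj⟩ := (hmem i y).1 hy
    exact ⟨j, hj⟩
  · intro i j hij
    exact hinj i j (congrArg Subtype.val hij)
  · rintro ⟨_, i, rfl⟩
    exact ⟨i, rfl⟩
  · intro i j
    show col i ∈ col j ↔ SetStr.E i j
    rw [hmem]
    constructor
    · rintro ⟨k, hk, he⟩
      rw [← hinj k i he]
      exact hk
    · exact fun hk => ⟨i, hk, rfl⟩

/-- satisfaction is invariant under isomorphisms -/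
theorem Sat_iso {A : Type u} [SetStr A] {B : Type v} [SetStr B] {e : A → B}
    (he : Function.Bijective e) (h : ∀ i j : A, e i ∈ e j ↔ i ∈ j) (φ : Fml) (v : ℕ → A) :
    Sat (fun i => e (v i)) φ ↔ Sat v φ := by
  induction φ generalizing v with
  | mem i j => exact h (v i) (v j)
  | eq i j => exact he.injective.eq_iff
  | bot => exact Iff.rfl
  | imp φ ψ ih1 ih2 => exact imp_congr (ih1 v) (ih2 v)
  | all φ ih =>
    have hc : ∀ a : A, cons (e a) (fun i => e (v i)) = fun i => e (cons a v i) := by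
      intro a
      funext i
      cases i <;> rfl
    constructor
    · intro H a
      have h1 := H (e a)
      rw [hc] at h1
      exact (ih (cons a v)).1 h1
    · intro H b
      obtain ⟨a, rfl⟩ := he.surjective b
      rw [hc]
      exact (ih (cons a v)).2 (H a)

end Pool.Agent.H.MP_a163f2_lc
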