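import Pool.Agent.H.MP_a163f2_lc.L.D0
import Pool.Agent.H.MP_a163f2_lc.L.Co2
import Pool.Agent.H.MP_a163f2_lc.L.Ar

/-!
# Block L, part D1: the definition of the family is Sigma-1-2
-/

set_option autoImplicit false

namespace Pool.Agent.H.MP_a163f2_lc.L

open Pool.Agent.H.MP_07d118_lc

/-- primitive recursive functions (with automation) -/
@[fun_prop] def D1P {α β : Type} [Primcodable α] [Primcodable β] (f : α → β) : Prop := Primrec f

section prim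

variable {α β γ : Type} [Primcodable α] [Primcodable β] [Primcodable γ]

@[fun_prop] theorem D1P.id : D1P (fun x : α => x) := Primrec.id
@[fun_prop] theorem D1P.const (b : β) : D1P (fun _ : α => b) := Primrec.const b
@[fun_prop] theorem D1P.comp {g : β → γ} (hg : D1P g) {f : α → β} (hf : D1P f) :
    D1P (fun x => g (f x)) := Primrec.comp hg hf
@[fun_prop] theorem D1P.fst {f : α → β × γ} (hf : D1P f) : D1P (fun x => (f x).1) :=
  Primrec.fst.comp hf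
@[fun_prop] theorem D1P.snd {f : α → β × γ} (hf : D1P f) : D1P (fun x => (f x).2) :=
  Primrec.snd.comp hf
@[fun_prop] theorem D1P.pair {f : α → β} {g : α → γ} (hf : D1P f) (hg : D1P g) :
    D1P (fun x => (f x, g x)) := Primrec.pair hf hg
@[fun_prop] theorem D1P.npair {f g : α → ℕ} (hf : D1P f) (hg : D1P g) :
    D1P (fun x => Nat.pair (f x) (g x)) := Primrec₂.natPair.comp hf hg
@[fun_prop] theorem D1P.add {f g : α → ℕ} (hf : D1P f) (hg : D1P g) :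
    D1P (fun x => f x + g x) := Primrec.nat_add.comp hf hg
@[fun_prop] theorem D1P.div {f g : α → ℕ} (hf : D1P f) (hg : D1P g) :
    D1P (fun x => f x / g x) := Primrec.nat_div.comp hf hg
@[fun_prop] theorem D1P.mod {f g : α → ℕ} (hf : D1P f) (hg : D1P g) :
    D1P (fun x => f x % g x) := Primrec.nat_mod.comp hf hg
@[fun_prop] theorem D1P.unpair {f : α → ℕ} (hf : D1P f) :
    D1P (fun x => Nat.unpair (f x)) := Primrec.unpair.comp hf
@[fun_prop] theorem D1P.cons {f : α → β} {l : α → List β} (hf : D1P f) (hl : D1P l) :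
    D1P (fun x => f x :: l x) := Primrec.list_cons.comp hf hl
@[fun_prop] theorem D1P.getD {l : α → List β} {n : α → ℕ} {d : α → β} (hl : D1P l) (hn : D1P n)
    (hd : D1P d) : D1P (fun x => (l x).getD (n x) (d x)) := by
  have h := Primrec.option_getD.comp (Primrec.list_getElem?.comp hl hn) hd
  refine h.of_eq fun a => ?_
  rw [List.getD_eq_getElem?_getD]
@[fun_prop] theorem D1P.length {l : α → List β} (hl : D1P l) : D1P (fun x => (l x).length) :=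
  Primrec.list_length.comp hl
@[fun_prop] theorem D1P.enc {f : α → β} (hf : D1P f) : D1P (fun x => Encodable.encode (f x)) :=
  Primrec.encode.comp hf

end prim

section ar

variable {R : Set (ℕ → ℕ)} (hR : RC R) {α β γ : Type} [Primcodable α] [Primcodable β]
  [Primcodable γ]

include hR

/-! ### Leaves -/

theorem D1_rf {f : α → β} (hf : D1P f) : RF R f := RF.of_primrec hR hf

theorem D1_num {f : α → ℕ} (hf : D1P f) : CF R (fun _ a => f a) := CF.num hR (D1_rf hR hf)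

theorem D1_par {P : (ℕ → ℕ) → β → Prop} (h : AR R P) {g : α → β} (hg : D1P g) :
    AR R (fun z a => P z (g a)) := AR.par hR h (D1_rf hR hg)

theorem D1_app {φ : (ℕ → ℕ) → α → ℕ} (hφ : CF R φ) (c : ℕ) :
    CF R (fun y a => y (Nat.pair c (φ y a))) := by
  refine CF.app hR ?_
  have h : RF R (fun n : ℕ => Nat.pair c n) := D1_rf hR (by fun_prop)
  exact CF.comp1 hR h hφ

theorem D1_npair {φ ψ : (ℕ → ℕ) → α → ℕ} (hφ : CF R φ) (hψ : CF R ψ) :
    CF R (fun y a => Nat.pair (φ y a) (ψ y a)) := by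
  have h : RF R (fun p : ℕ × ℕ => Nat.pair p.1 p.2) := D1_rf hR (by fun_prop)
  exact CF.comp2 hR h hφ hψ

theorem D1_cE {φ ψ : (ℕ → ℕ) → α → ℕ} (hφ : CF R φ) (hψ : CF R ψ) :
    AR R (fun y a => yE y (φ y a) (ψ y a)) :=
  AR.val hR (D1_app hR (D1_npair hR hφ hψ) 0) (D1_num hR (D1P.const 1))

theorem D1_cNu {φ : (ℕ → ℕ) → α → ℕ} (hφ : CF R φ) : CF R (fun y a => yNu y (φ y a)) :=
  D1_app hR hφ 4

theorem D1_E {i j : α → ℕ} (hi : D1P i) (hj : D1P j) : AR R (fun y a => yE y (i a) (j a)) :=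
  D1_cE hR (D1_num hR hi) (D1_num hR hj)

theorem D1_En {i j : α → ℕ} (hi : D1P i) (hj : D1P j) :
    AR R (fun y a => yE y (yNu y (i a)) (j a)) :=
  D1_cE hR (D1_cNu hR (D1_num hR hi)) (D1_num hR hj)

theorem D1_nE {i j : α → ℕ} (hi : D1P i) (hj : D1P j) :
    AR R (fun y a => yE y (i a) (yNu y (j a))) :=
  D1_cE hR (D1_num hR hi) (D1_cNu hR (D1_num hR hj))

theorem D1_Nu {i j : α → ℕ} (hi : D1P i) (hj : D1P j) : AR R (fun y a => yNu y (i a) = j a) :=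
  AR.val hR (D1_cNu hR (D1_num hR hi)) (D1_num hR hj)

theorem D1_Nu' {i j : α → ℕ} (hi : D1P i) (hj : D1P j) : AR R (fun y a => j a = yNu y (i a)) :=
  AR.val hR (D1_num hR hj) (D1_cNu hR (D1_num hR hi))

theorem D1_Lv {i : α → ℕ} (hi : D1P i) : AR R (fun y a => yLv y (i a)) :=
  AR.val hR (D1_app hR (D1_num hR hi) 2) (D1_num hR (D1P.const 1))

theorem D1_Lt {i j : α → ℕ} (hi : D1P i) (hj : D1P j) : AR R (fun y a => yLt y (i a) (j a)) :=
  AR.val hR (D1_app hR (D1_npair hR (D1_num hR hi) (D1_num hR hj)) 3) (D1_num hR (D1P.const 1))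

theorem D1_Sat {i n d : α → ℕ} {σ : α → List ℕ} (hi : D1P i) (hn : D1P n) (hσ : D1P σ)
    (hd : D1P d) : AR R (fun y a => ySat y (i a) (n a) (σ a) (d a)) := by
  have h : D1P (fun a => Encodable.encode (i a, n a, σ a, d a)) := by fun_prop
  exact AR.val hR (D1_app hR (D1_num hR h) 1) (D1_num hR (D1P.const 1))

theorem D1_C {b g : α → ℕ} {η : α → Hc} (hb : D1P b) (hη : D1P η) (hg : D1P g) :
    AR R (fun y a => yC y (b a) (η a) (g a)) := by
  have h : D1P (fun a => Encodable.encode (b a, η a, g a)) := by fun_prop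
  exact AR.val hR (D1_app hR (D1_num hR h) 5) (D1_num hR (D1P.const 1))

theorem D1_eq {f g : α → β} (hf : D1P f) (hg : D1P g) :
    AR R (fun (_ : ℕ → ℕ) a => f a = g a) :=
  AR.of_rp hR (RP.eq hR (D1_rf hR hf) (D1_rf hR hg))

theorem D1_lt {f g : α → ℕ} (hf : D1P f) (hg : D1P g) :
    AR R (fun (_ : ℕ → ℕ) a => f a < g a) :=
  AR.of_rp hR (RP.lt hR (D1_rf hR hf) (D1_rf hR hg))

theorem D1_pfx {f g : α → Fs} (hf : D1P f) (hg : D1P g) :
    AR R (fun (_ : ℕ → ℕ) a => f a <+: g a) :=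
  AR.of_rp hR (P5_pfx hR (D1_rf hR hf) (D1_rf hR hg))

theorem D1_mem {f : α → β} {l : α → List β} (hf : D1P f) (hl : D1P l) :
    AR R (fun (_ : ℕ → ℕ) a => f a ∈ l a) := by
  have h : RP R (fun a => ∃ i : ℕ, (l a)[i]? = some (f a)) := by
    refine RP.ex hR (P := fun a i => (l a)[i]? = some (f a)) ?_
    refine RP.eq hR (D1_rf hR (f := fun y : α × ℕ => (l y.1)[y.2]?) ?_)
      (D1_rf hR (f := fun y : α × ℕ => some (f y.1)) ?_)
    · exact Primrec.list_getElem?.comp (Primrec.comp hl Primrec.fst) Primrec.snd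
    · exact Primrec.option_some.comp (Primrec.comp hf Primrec.fst)
  refine AR.of_rp hR ?_
  have e : (fun a => ∃ i : ℕ, (l a)[i]? = some (f a)) = fun a => f a ∈ l a := by
    funext a
    exact propext (List.mem_iff_getElem?).symm
  rwa [e] at h

/-! ### Derived notions -/

theorem D1_D {x b n p q : α → ℕ} (hx : D1P x) (hb : D1P b) (hn : D1P n) (hp : D1P p)
    (hq : D1P q) : AR R (fun y a => yD y (x a) (b a) (n a) (p a) (q a)) := by
  unfold yD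
  refine AR.all hR ?_
  refine AR.iff hR (D1_E hR ?_ ?_) (AR.and hR (D1_E hR ?_ ?_) (D1_Sat hR ?_ ?_ ?_ ?_)) <;>
    fun_prop

theorem D1_K {x b : α → ℕ} (hx : D1P x) (hb : D1P b) : AR R (fun y a => yK y (x a) (b a)) := by
  unfold yK
  refine AR.or hR (D1_E hR hx hb) (AR.or hR (D1_eq hR hx hb) ?_)
  refine AR.ex hR (AR.ex hR (AR.ex hR ?_))
  refine AR.and hR (D1_E hR ?_ ?_) (AR.and hR (D1_E hR ?_ ?_) (D1_D hR ?_ ?_ ?_ ?_ ?_)) <;>
    fun_prop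

theorem D1_R {x b : α → ℕ} (hx : D1P x) (hb : D1P b) : AR R (fun y a => yR y (x a) (b a)) :=
  AR.and hR (D1_Lv hR hb) (AR.and hR (D1_K hR hx hb) (AR.not hR (D1_E hR hx hb)))

theorem D1_LX {p q n p' q' n' : α → ℕ} (hp : D1P p) (hq : D1P q) (hn : D1P n) (hp' : D1P p')
    (hq' : D1P q') (hn' : D1P n') :
    AR R (fun y a => yLX y (p a) (q a) (n a) (p' a) (q' a) (n' a)) :=
  AR.or hR (D1_Lt hR hp hp') (AR.and hR (D1_eq hR hp hp')
    (AR.or hR (D1_Lt hR hq hq') (AR.and hR (D1_eq hR hq hq') (D1_lt hR hn hn'))))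

theorem D1_Rl {g : α → ℕ} (hg : D1P g) : AR R (fun y a => yRl y (g a)) := by
  unfold yRl
  refine AR.and hR ?_ ?_
  · refine AR.all hR (AR.imp hR (D1_E hR ?_ ?_) (AR.ex hR (D1_Nu hR ?_ ?_))) <;> fun_prop
  · refine AR.all hR (AR.ex hR (AR.and hR (D1_En hR ?_ ?_) (AR.all hR
      (AR.imp hR (D1_En hR ?_ ?_) (D1_eq hR ?_ ?_))))) <;> fun_prop

theorem D1_P {g : α → ℕ} {u : α → Fs} (hg : D1P g) (hu : D1P u) :
    AR R (fun y a => yP y (g a) (u a)) := by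
  unfold yP
  refine AR.all hR (AR.imp hR (D1_lt hR ?_ ?_) (D1_En hR ?_ ?_)) <;> fun_prop

theorem D1_B {b' b : α → ℕ} {η' η : α → Hc} (hb' : D1P b') (hη' : D1P η') (hb : D1P b)
    (hη : D1P η) : AR R (fun y a => yB y (b' a) (η' a) (b a) (η a)) := by
  unfold yB
  refine AR.and hR (D1_Lv hR ?_) (AR.or hR (D1_E hR ?_ ?_) (AR.and hR (D1_eq hR ?_ ?_)
    (D1_lt hR ?_ ?_))) <;> fun_prop

theorem D1_FP {s t : α → List Fs} (hs : D1P s) (ht : D1P t) :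
    AR R (fun (_ : ℕ → ℕ) a => FP (s a) (t a)) := by
  unfold FP
  refine AR.and hR (D1_eq hR ?_ ?_) (AR.all hR (AR.imp hR (D1_lt hR ?_ ?_) (D1_pfx hR ?_ ?_))) <;>
    fun_prop

theorem D1_Ev {D K : (ℕ → ℕ) → α → List Fs → Prop}
    (hD : AR R (fun y (a : α × List Fs) => D y a.1 a.2))
    (hK : AR R (fun y (a : α × List Fs) => K y a.1 a.2)) {s : α → List Fs} {j : α → ℕ}
    {v : α → Fs} (hs : D1P s) (hj : D1P j) (hv : D1P v) :
    AR R (fun y a => Ev (D y a) (K y a) (s a) (j a) (v a)) := by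
  unfold Ev
  refine AR.ex hR (AR.and hR hD (AR.and hR (D1_FP hR ?_ ?_) (AR.and hR hK
    (AR.and hR (D1_lt hR ?_ ?_) (D1_eq hR ?_ ?_))))) <;> fun_prop

theorem D1_Dcd {D K : (ℕ → ℕ) → α → List Fs → Prop} {X : (ℕ → ℕ) → α → Fs → Prop}
    (hX : AR R (fun y (a : α × Fs) => X y a.1 a.2))
    (hD : AR R (fun y (a : α × List Fs) => D y a.1 a.2))
    (hK : AR R (fun y (a : α × List Fs) => K y a.1 a.2)) {s : α → List Fs} {j : α → ℕ}
    (hs : D1P s) (hj : D1P j) :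
    AR R (fun y a => Dcd (X y a) (D y a) (K y a) (s a) (j a)) := by
  unfold Dcd
  refine AR.ex hR (AR.and hR hX (AR.or hR ?_ (AR.all hR (AR.imp hR (D1_pfx hR ?_ ?_)
    (AR.not hR ?_)))))
  · refine D1_Ev hR (D := fun y (a : α × Fs) => D y a.1) (K := fun y (a : α × Fs) => K y a.1)
      ?_ ?_ ?_ ?_ ?_
    · exact D1_par hR hD (g := fun a : (α × Fs) × List Fs => (a.1.1, a.2)) (by fun_prop)
    · exact D1_par hR hK (g := fun a : (α × Fs) × List Fs => (a.1.1, a.2)) (by fun_prop)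
    all_goals fun_prop
  · fun_prop
  · fun_prop
  · refine D1_Ev hR (D := fun y (a : (α × Fs) × Fs) => D y a.1.1)
      (K := fun y (a : (α × Fs) × Fs) => K y a.1.1) ?_ ?_ ?_ ?_ ?_
    · exact D1_par hR hD (g := fun a : ((α × Fs) × Fs) × List Fs => (a.1.1.1, a.2)) (by fun_prop)
    · exact D1_par hR hK (g := fun a : ((α × Fs) × Fs) × List Fs => (a.1.1.1, a.2)) (by fun_prop)
    all_goals fun_prop

theorem D1_G {b g : α → ℕ} {η : α → Hc} (hb : D1P b) (hη : D1P η) (hg : D1P g) :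
    AR R (fun y a => yG y (b a) (η a) (g a)) := by
  unfold yG
  refine AR.and hR (D1_Rl hR hg) (AR.and hR (D1_P hR ?_ ?_) (AR.and hR ?_ ?_))
  · fun_prop
  · fun_prop
  · refine AR.all hR (AR.all hR (AR.imp hR (D1_B hR ?_ ?_ ?_ ?_) (AR.not hR (D1_C hR ?_ ?_ ?_))))
      <;> fun_prop
  · refine AR.all hR (AR.imp hR (D1_E hR ?_ ?_) (AR.all hR (AR.imp hR (AR.all hR
      (AR.imp hR (D1_mem hR ?_ ?_) (AR.ex hR (AR.ex hR (AR.and hR (D1_B hR ?_ ?_ ?_ ?_)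
        (D1_C hR ?_ ?_ ?_)))))) (AR.all hR (AR.all hR ?_)))))
    on_goal 12 =>
      refine D1_Dcd hR ?_ ?_ ?_ ?_ ?_
      on_goal 1 => refine D1_P hR ?_ ?_
      on_goal 3 => refine D1_En hR ?_ ?_
      on_goal 5 => refine AR.all hR (AR.imp hR (D1_mem hR ?_ ?_) (AR.imp hR (D1_lt hR ?_ ?_)
        (D1_P hR ?_ ?_)))
    all_goals fun_prop

/-! ### The axioms -/

theorem D1_YB : AR R (fun y (_ : Unit) => YB y) := by
  refine AR.congr (P := fun y (_ : Unit) =>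
    (∀ i j, (∀ k, yE y k i ↔ yE y k j) → i = j) ∧
    (∀ (i : ℕ) (σ : List ℕ) (d : ℕ), ¬ ySat y i 0 σ d) ∧
    (∀ (i k : ℕ) (σ : List ℕ) (d : ℕ), ySat y i (k + 1) σ d ↔
      (k % 4 = 0 ∧ yE y (σ.getD (k / 4).unpair.1 d) (σ.getD (k / 4).unpair.2 d)) ∨
      (k % 4 = 1 ∧ σ.getD (k / 4).unpair.1 d = σ.getD (k / 4).unpair.2 d) ∨
      (k % 4 = 2 ∧ (ySat y i (k / 4).unpair.1 σ d → ySat y i (k / 4).unpair.2 σ d)) ∨
      (k % 4 = 3 ∧ ∀ x, yE y x i → ySat y i (k / 4) (x :: σ) d)) ∧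
    (∀ a, yLv y a ↔ ∀ x, yE y x a ↔ ∃ b, yE y b a ∧ yLv y b ∧ yK y x b) ∧
    (∀ x, ∃ b, yLv y b ∧ yK y x b) ∧
    (∀ b n p q, yLv y b → yE y p b → yE y q b → ∃ x, yD y x b n p q) ∧
    (∀ x x', yLt y x x' ↔ ∃ b c, yR y x b ∧ yR y x' c ∧ (yE y b c ∨ (b = c ∧ x' ≠ b ∧ (x = b ∨
      ∃ p q n, yE y p b ∧ yE y q b ∧ yD y x b n p q ∧
        ∀ p' q' n', yE y p' b → yE y q' b → yD y x' b n' p' q' → yLX y p q n p' q' n')))) ∧
    (∀ j, ¬ yE y j (yNu y 0)) ∧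
    (∀ m j, yE y j (yNu y (m + 1)) ↔ (yE y j (yNu y m) ∨ j = yNu y m))) ?_ ?_ hR
  · refine AR.and hR ?_ (AR.and hR ?_ (AR.and hR ?_ (AR.and hR ?_ (AR.and hR ?_ (AR.and hR ?_
      (AR.and hR ?_ (AR.and hR ?_ ?_)))))))
    · refine AR.all hR (AR.all hR (AR.imp hR (AR.all hR (AR.iff hR (D1_E hR ?_ ?_)
        (D1_E hR ?_ ?_))) (D1_eq hR ?_ ?_))) <;> fun_prop
    · refine AR.all hR (AR.all hR (AR.all hR (AR.not hR (D1_Sat hR ?_ ?_ ?_ ?_)))) <;> fun_prop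
    · refine AR.all hR (AR.all hR (AR.all hR (AR.all hR (AR.iff hR (D1_Sat hR ?_ ?_ ?_ ?_)
        (AR.or hR (AR.and hR (D1_eq hR ?_ ?_) (D1_E hR ?_ ?_))
        (AR.or hR (AR.and hR (D1_eq hR ?_ ?_) (D1_eq hR ?_ ?_))
        (AR.or hR (AR.and hR (D1_eq hR ?_ ?_) (AR.imp hR (D1_Sat hR ?_ ?_ ?_ ?_)
          (D1_Sat hR ?_ ?_ ?_ ?_)))
        (AR.and hR (D1_eq hR ?_ ?_) (AR.all hR (AR.imp hR (D1_E hR ?_ ?_)
          (D1_Sat hR ?_ ?_ ?_ ?_)))))))))))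
      all_goals fun_prop
    · refine AR.all hR (AR.iff hR (D1_Lv hR ?_) (AR.all hR (AR.iff hR (D1_E hR ?_ ?_)
        (AR.ex hR (AR.and hR (D1_E hR ?_ ?_) (AR.and hR (D1_Lv hR ?_) (D1_K hR ?_ ?_))))))) <;>
        fun_prop
    · refine AR.all hR (AR.ex hR (AR.and hR (D1_Lv hR ?_) (D1_K hR ?_ ?_))) <;> fun_prop
    · refine AR.all hR (AR.all hR (AR.all hR (AR.all hR (AR.imp hR (D1_Lv hR ?_) (AR.imp hR
        (D1_E hR ?_ ?_) (AR.imp hR (D1_E hR ?_ ?_) (AR.ex hR (D1_D hR ?_ ?_ ?_ ?_ ?_)))))))) <;>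
        fun_prop
    · refine AR.all hR (AR.all hR (AR.iff hR (D1_Lt hR ?_ ?_) (AR.ex hR (AR.ex hR
        (AR.and hR (D1_R hR ?_ ?_) (AR.and hR (D1_R hR ?_ ?_) (AR.or hR (D1_E hR ?_ ?_)
        (AR.and hR (D1_eq hR ?_ ?_) (AR.and hR (AR.not hR (D1_eq hR ?_ ?_))
        (AR.or hR (D1_eq hR ?_ ?_) (AR.ex hR (AR.ex hR (AR.ex hR (AR.and hR (D1_E hR ?_ ?_)
        (AR.and hR (D1_E hR ?_ ?_) (AR.and hR (D1_D hR ?_ ?_ ?_ ?_ ?_)
        (AR.all hR (AR.all hR (AR.all hR (AR.imp hR (D1_E hR ?_ ?_) (AR.imp hR (D1_E hR ?_ ?_)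
        (AR.imp hR (D1_D hR ?_ ?_ ?_ ?_ ?_) (D1_LX hR ?_ ?_ ?_ ?_ ?_ ?_)))))))))))))))))))))))
      all_goals fun_prop
    · refine AR.all hR (AR.not hR (D1_nE hR (j := fun _ => 0) ?_ ?_)) <;> fun_prop
    · refine AR.all hR (AR.all hR (AR.iff hR (D1_nE hR ?_ ?_) (AR.or hR (D1_nE hR ?_ ?_)
        (D1_Nu' hR ?_ ?_)))) <;> fun_prop
  · intro y _ _
    constructor
    · intro h
      exact ⟨h.ext, h.sat0, h.satS, h.lv, h.top, h.cls, h.lt, h.nu0, h.nuS⟩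
    · rintro ⟨h1, h2, h3, h4, h5, h6, h7, h8, h9⟩
      exact ⟨h1, h2, h3, h4, h5, h6, h7, h8, h9⟩

theorem D1_YC {b₀ : α → ℕ} {η₀ : α → Hc} (hb : D1P b₀) (hη : D1P η₀) :
    AR R (fun y a => YC y (b₀ a) (η₀ a)) := by
  unfold YC
  refine AR.and hR (D1_Lv hR ?_) (AR.all hR (AR.all hR (AR.imp hR (AR.or hR
    (D1_B hR ?_ ?_ ?_ ?_) (AR.and hR (D1_eq hR ?_ ?_) (D1_eq hR ?_ ?_))) (AR.and hR
    (AR.all hR (AR.iff hR (D1_C hR ?_ ?_ ?_) (AR.and hR (D1_G hR ?_ ?_ ?_) (AR.all hR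
    (AR.imp hR (D1_Lt hR ?_ ?_) (AR.not hR (D1_G hR ?_ ?_ ?_))))))) (AR.ex hR
    (D1_C hR ?_ ?_ ?_))))))
  all_goals fun_prop

theorem D1_appF {F : (ℕ → ℕ) → ℕ → ℕ} (hF : CF R F) {ψ : (ℕ → ℕ) → α → ℕ} (hψ : CF R ψ) :
    CF R (fun x a => F x (ψ x a)) := by
  have h1 : CF R (fun x (p : α × ℕ) => F x p.2) := CF.par hR hF (RF.of_primrec hR Primrec.snd)
  exact CF.sub hR h1 hψ

theorem D1_YZ : AR R (fun w (_ : Unit) => YZ (rg w) (lf w)) := by
  have hid := CF.id' hR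
  have hl := CF.lf hR hid
  have hr := CF.rg hR hid
  unfold YZ
  refine AR.ex hR (AR.ex hR (AR.ex hR (AR.and hR ?_ (AR.and hR ?_ (AR.and hR ?_
    (AR.all hR ?_))))))
  · exact AR.subst hR (D1_YC hR (b₀ := fun a : ((Unit × ℕ) × Hc) × ℕ => a.1.1.2)
      (η₀ := fun a => a.1.2) (by fun_prop) (by fun_prop)) hr
  · exact AR.subst hR (D1_C hR (b := fun a : ((Unit × ℕ) × Hc) × ℕ => a.1.1.2)
      (η := fun a => a.1.2) (g := fun a => a.2) (by fun_prop) (by fun_prop) (by fun_prop)) hr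
  · refine AR.val hR (D1_appF hR hl (D1_num hR (D1P.const 0))) (D1_num hR ?_)
    fun_prop
  · have h1 : CF R (fun w (a : (((Unit × ℕ) × Hc) × ℕ) × ℕ) =>
        Nat.pair a.2 (lf w (a.2 + 1))) :=
      D1_npair hR (D1_num hR (by fun_prop)) (D1_appF hR hl (D1_num hR (by fun_prop)))
    have h2 : CF R (fun w (a : (((Unit × ℕ) × Hc) × ℕ) × ℕ) =>
        rg w (Nat.pair 4 (Nat.pair a.2 (lf w (a.2 + 1))))) :=
      D1_appF hR hr (D1_npair hR (D1_num hR (D1P.const 4)) h1)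
    have h3 : CF R (fun w (a : (((Unit × ℕ) × Hc) × ℕ) × ℕ) =>
        rg w (Nat.pair 0 (Nat.pair (rg w (Nat.pair 4 (Nat.pair a.2 (lf w (a.2 + 1))))) a.1.2))) :=
      D1_appF hR hr (D1_npair hR (D1_num hR (D1P.const 0))
        (D1_npair hR h2 (D1_num hR (by fun_prop))))
    exact AR.val hR h3 (D1_num hR (D1P.const 1))

end ar

/-- Every arithmetical predicate `P z a` has, for `z ∈ R`, its characteristic function in `R`, and
the graph of `z ↦ characteristic function` is Sigma-1-1 (induction over the quantifiers: `RC`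
suffices, no choice).  Hence it is in both classes of index 1, and `WfR` is Pi-1-1. -/
theorem yz_sig {R : Set (ℕ → ℕ)} (hR : RC R) :
    SigP R 2 (fun z => ∃ y ∈ R, YB y ∧ WfR R (sec y 0) ∧ YZ y z) := by
  have hid := CF.id' hR
  have hr := CF.rg hR hid
  refine SigP.exR_pi hR (k := 1) (P := fun z y => YB y ∧ WfR R (sec y 0) ∧ YZ y z) ?_
  refine PiP.and hR ?_ (PiP.and hR ?_ ?_)
  · exact PiP.subst hR (AR.pi hR (D1_YB hR)) hr
  · exact PiP.subst hR (WfR.pi hR) (F := fun w n => sec (rg w) 0 n)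
      (CF.sec hR (φ := fun _ _ => 0) (D1_num hR (D1P.const 0)) hr)
  · exact AR.pi hR (D1_YZ hR)

end Pool.Agent.H.MP_a163f2_lc.L
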