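import Pool.Agent.H.MP_a163f2_lc.L.D0

/-!
# Block L, part D2: the collapse of a well-founded structure which satisfies the basic axioms
-/

set_option autoImplicit false

namespace Pool.Agent.H.MP_a163f2_lc.L

open Pool.Agent.H.MP_07d118_lc

/-- `e` is an isomorphism onto a transitive class of sets -/
structure D2_P (y : ℕ → ℕ) (e : ℕ → ZFSet.{0}) : Prop where
  inj : Function.Injective e
  mem : ∀ i j, yE y i j ↔ e i ∈ e j
  tr : ∀ i z, z ∈ e i → ∃ j, e j = z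

theorem D2_P.mem' {y : ℕ → ℕ} {e : ℕ → ZFSet.{0}} (h : D2_P y e) {i : ℕ} {z : ZFSet.{0}}
    (hz : z ∈ e i) : ∃ j, yE y j i ∧ e j = z := by
  obtain ⟨j, rfl⟩ := h.tr i z hz
  exact ⟨j, (h.mem j i).2 hz, rfl⟩

theorem D2_cns (e : ℕ → ZFSet.{0}) (x : ℕ) (σ : List ℕ) (d : ℕ) :
    (fun k => e ((x :: σ).getD k d)) = cns (e x) (fun k => e (σ.getD k d)) := by
  funext k
  cases k <;> rfl

theorem D2_cns2 (e : ℕ → ZFSet.{0}) (z p q : ℕ) :
    (fun k => e (([z, p] : List ℕ).getD k q)) = cns (e z) (cns (e p) fun _ => e q) := by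
  funext k
  rcases k with _ | _ | k <;> rfl

/-- one step of the definition of satisfaction -/
theorem D2_satS {y : ℕ → ℕ} {e : ℕ → ZFSet.{0}} (h : D2_P y e) (i k : ℕ) (σ : List ℕ) (d : ℕ)
    (ih : ∀ m ≤ k, ∀ (σ : List ℕ) (d : ℕ),
      ySat y i m σ d ↔ SatB (e i) (fun k => e (σ.getD k d)) (dec m)) :
    SatB (e i) (fun k => e (σ.getD k d)) (dec (k + 1)) ↔
    ((k % 4 = 0 ∧ yE y (σ.getD (k / 4).unpair.1 d) (σ.getD (k / 4).unpair.2 d)) ∨
    (k % 4 = 1 ∧ σ.getD (k / 4).unpair.1 d = σ.getD (k / 4).unpair.2 d) ∨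
    (k % 4 = 2 ∧ (ySat y i (k / 4).unpair.1 σ d → ySat y i (k / 4).unpair.2 σ d)) ∨
    (k % 4 = 3 ∧ ∀ x, yE y x i → ySat y i (k / 4) (x :: σ) d)) := by
  have hk : k / 4 ≤ k := Nat.div_le_self k 4
  have h1 : (k / 4).unpair.1 ≤ k := (Nat.unpair_left_le _).trans hk
  have h2 : (k / 4).unpair.2 ≤ k := (Nat.unpair_right_le _).trans hk
  have h3 : k % 4 < 4 := Nat.mod_lt _ (by norm_num)
  rw [dec_succ]
  by_cases c0 : k % 4 = 0
  · rw [if_pos c0, satB_mem, ← h.mem]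
    constructor
    · exact fun h => Or.inl ⟨c0, h⟩
    · rintro (h | h | h | h)
      · exact h.2
      all_goals (have := h.1; omega)
  rw [if_neg c0]
  by_cases c1 : k % 4 = 1
  · rw [if_pos c1, satB_eq, h.inj.eq_iff]
    constructor
    · exact fun h => Or.inr (Or.inl ⟨c1, h⟩)
    · rintro (h | h | h | h)
      · have := h.1
        omega
      · exact h.2
      all_goals (have := h.1; omega)
  rw [if_neg c1]
  by_cases c2 : k % 4 = 2
  · rw [if_pos c2, satB_imp, ← ih _ h1, ← ih _ h2]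
    constructor
    · exact fun h => Or.inr (Or.inr (Or.inl ⟨c2, h⟩))
    · rintro (h | h | h | h)
      · have := h.1
        omega
      · have := h.1
        omega
      · exact h.2
      · have := h.1
        omega
  rw [if_neg c2, satB_all]
  have c3 : k % 4 = 3 := by omega
  have key : (∀ x ∈ e i, SatB (e i) (cns x fun k => e (σ.getD k d)) (dec (k / 4))) ↔
      ∀ x, yE y x i → ySat y i (k / 4) (x :: σ) d := by
    constructor
    · intro H x hx
      rw [ih _ hk, D2_cns]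
      exact H _ ((h.mem _ _).1 hx)
    · intro H x hx
      obtain ⟨j, hj, rfl⟩ := h.mem' hx
      rw [← D2_cns, ← ih _ hk]
      exact H j hj
  rw [key]
  constructor
  · exact fun h => Or.inr (Or.inr (Or.inr ⟨c3, h⟩))
  · rintro (h | h | h | h)
    · have := h.1
      omega
    · have := h.1
      omega
    · have := h.1
      omega
    · exact h.2

/-- the translation of satisfaction -/
def D2_S (y : ℕ → ℕ) (e : ℕ → ZFSet.{0}) : Prop :=
  ∀ i n σ d, ySat y i n σ d ↔ SatB (e i) (fun k => e (σ.getD k d)) (dec n)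

theorem D2_sat {y : ℕ → ℕ} {e : ℕ → ZFSet.{0}} (hy : YB y) (h : D2_P y e) : D2_S y e := by
  intro i n
  induction n using Nat.strong_induction_on with
  | _ n ih =>
    intro σ d
    rcases n with _ | k
    · rw [dec_zero, satB_bot, iff_false]
      exact hy.sat0 i σ d
    · rw [hy.satS, D2_satS h i k σ d fun m hm => ih m (Nat.lt_succ_of_le hm)]

theorem D2_yD {y : ℕ → ℕ} {e : ℕ → ZFSet.{0}} (h : D2_P y e) (hs : D2_S y e) (x b n p q : ℕ) :
    yD y x b n p q ↔ e x = Dd (e b) n (e p) (e q) := by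
  have key : ∀ z, (yE y z b ∧ ySat y b n [z, p] q) ↔ e z ∈ Dd (e b) n (e p) (e q) := by
    intro z
    rw [mem_Dd, h.mem, hs, D2_cns2]
  constructor
  · intro H
    ext z
    constructor
    · intro hz
      obtain ⟨j, hj, rfl⟩ := h.mem' hz
      exact (key j).1 ((H j).1 hj)
    · intro hz
      obtain ⟨j, hj, rfl⟩ := h.mem' (mem_Dd.1 hz).1
      exact (h.mem _ _).1 ((H j).2 ((key j).2 hz))
  · intro H z
    rw [key, ← H, h.mem]

theorem D2_yK {y : ℕ → ℕ} {e : ℕ → ZFSet.{0}} (h : D2_P y e) (hs : D2_S y e) (x b : ℕ) :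
    yK y x b ↔ e x ∈ Kst (e b) := by
  rw [mem_Kst]
  refine or_congr (h.mem _ _) (or_congr h.inj.eq_iff.symm ?_)
  constructor
  · rintro ⟨n, p, q, hp, hq, hx⟩
    exact ⟨n, e p, e q, (h.mem _ _).1 hp, (h.mem _ _).1 hq, (D2_yD h hs _ _ _ _ _).1 hx⟩
  · rintro ⟨n, p, q, hp, hq, hx⟩
    obtain ⟨p, hpQ, rfl⟩ := h.mem' hp
    obtain ⟨q, hqQ, rfl⟩ := h.mem' hq
    exact ⟨n, p, q, hpQ, hqQ, (D2_yD h hs _ _ _ _ _).2 hx⟩

/-- the clause for the levels -/
theorem D2_lv {y : ℕ → ℕ} {e : ℕ → ZFSet.{0}} (h : D2_P y e) (hs : D2_S y e) (a : ℕ)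
    (hL : ∀ b, yE y b a → (yLv y b ↔ Lev (e b)))
    (hk : ∀ b, yE y b a → Lev (e b) → ∀ z ∈ Kst (e b), ∃ j, e j = z) :
    (∀ x, yE y x a ↔ ∃ b, yE y b a ∧ yLv y b ∧ yK y x b) ↔ Lev (e a) := by
  have key : ∀ x, (∃ b, yE y b a ∧ yLv y b ∧ yK y x b) ↔
      ∃ b, b ∈ e a ∧ Lev b ∧ e x ∈ Kst b := by
    intro x
    constructor
    · rintro ⟨b, hb, hb', hx⟩
      exact ⟨e b, (h.mem _ _).1 hb, (hL b hb).1 hb', (D2_yK h hs _ _).1 hx⟩
    · rintro ⟨b, hb, hb', hx⟩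
      obtain ⟨b, hbQ, rfl⟩ := h.mem' hb
      exact ⟨b, hbQ, (hL b hbQ).2 hb', (D2_yK h hs _ _).2 hx⟩
  rw [lev_iff]
  constructor
  · intro H x
    constructor
    · intro hx
      obtain ⟨x, hxQ, rfl⟩ := h.mem' hx
      exact (key x).1 ((H x).1 hxQ)
    · rintro ⟨b, hb, hb', hx⟩
      obtain ⟨b, hb1, rfl⟩ := h.mem' hb
      obtain ⟨x, rfl⟩ := hk b hb1 hb' x hx
      exact (h.mem _ _).1 ((H x).2 ((key x).2 ⟨e b, hb, hb', hx⟩))
  · intro H x
    rw [key, h.mem]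
    exact H (e x)

/-- the clause for the order -/
theorem D2_lt {y : ℕ → ℕ} {e : ℕ → ZFSet.{0}} (h : D2_P y e) (hs : D2_S y e) {x x' b c : ℕ}
    (hx : Rk (e x) (e b)) (hx' : Rk (e x') (e c))
    (hl : ∀ p p', yE y p b → (yLt y p p' ↔ Lt (e p) (e p'))) :
    (yE y b c ∨ (b = c ∧ x' ≠ b ∧ (x = b ∨
    ∃ p q n, yE y p b ∧ yE y q b ∧ yD y x b n p q ∧
      ∀ p' q' n', yE y p' b → yE y q' b → yD y x' b n' p' q' → yLX y p q n p' q' n'))) ↔
    Lt (e x) (e x') := by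
  have hLX : ∀ p q n p' q' n', yE y p b → yE y q b →
      (yLX y p q n p' q' n' ↔ LX Lt (e p) (e q) n (e p') (e q') n') := by
    intro p q n p' q' n' hp hq
    unfold yLX LX
    rw [hl p p' hp, hl q q' hq, h.inj.eq_iff, h.inj.eq_iff]
  rw [lt_iff hx hx']
  refine or_congr (h.mem _ _) (and_congr h.inj.eq_iff.symm (and_congr h.inj.eq_iff.symm.not
    (or_congr h.inj.eq_iff.symm ?_)))
  constructor
  · rintro ⟨p, q, n, hp, hq, hxd, H⟩
    refine ⟨e p, e q, n, (h.mem _ _).1 hp, (h.mem _ _).1 hq, (D2_yD h hs _ _ _ _ _).1 hxd, ?_⟩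
    intro p' q' n' hp' hq' hxd'
    obtain ⟨p', hp'Q, rfl⟩ := h.mem' hp'
    obtain ⟨q', hq'Q, rfl⟩ := h.mem' hq'
    exact (hLX _ _ _ _ _ _ hp hq).1 (H p' q' n' hp'Q hq'Q ((D2_yD h hs _ _ _ _ _).2 hxd'))
  · rintro ⟨p, q, n, hp, hq, hxd, H⟩
    obtain ⟨p, hpQ, rfl⟩ := h.mem' hp
    obtain ⟨q, hqQ, rfl⟩ := h.mem' hq
    refine ⟨p, q, n, hpQ, hqQ, (D2_yD h hs _ _ _ _ _).2 hxd, ?_⟩
    intro p' q' n' hp' hq' hxd'
    exact (hLX _ _ _ _ _ _ hpQ hqQ).2 (H _ _ n' ((h.mem _ _).1 hp') ((h.mem _ _).1 hq')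
      ((D2_yD h hs _ _ _ _ _).1 hxd'))

/-- the collapse -/
noncomputable def D2_col {y : ℕ → ℕ} (hwf : WellFounded (fun i j => yE y i j)) :
    ℕ → ZFSet.{0} :=
  hwf.fix fun i ih => ZFSet.range fun j : {j : ℕ // yE y j i} => ih j.1 j.2

theorem D2_mem_col {y : ℕ → ℕ} (hwf : WellFounded (fun i j => yE y i j)) (i : ℕ) (z : ZFSet.{0}) :
    z ∈ D2_col hwf i ↔ ∃ j, yE y j i ∧ D2_col hwf j = z := by
  conv_lhs => rw [D2_col, hwf.fix_eq, ZFSet.mem_range]
  constructor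
  · rintro ⟨j, hj⟩
    exact ⟨j.1, j.2, hj⟩
  · rintro ⟨j, hj, hz⟩
    exact ⟨⟨j, hj⟩, hz⟩

theorem D2_col_P {y : ℕ → ℕ} (hy : YB y) (hwf : WellFounded (fun i j => yE y i j)) :
    D2_P y (D2_col hwf) := by
  have hinj : ∀ i j, D2_col hwf i = D2_col hwf j → i = j := by
    intro i
    induction i using hwf.induction with
    | _ i ih =>
      intro j hij
      refine hy.ext i j fun x => ⟨fun hx => ?_, fun hx => ?_⟩
      · have h1 : D2_col hwf x ∈ D2_col hwf j := hij ▸ (D2_mem_col hwf i _).2 ⟨x, hx, rfl⟩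
        obtain ⟨z, hz, he⟩ := (D2_mem_col hwf j _).1 h1
        have h2 : x = z := ih x hx z he.symm
        subst h2
        exact hz
      · have h1 : D2_col hwf x ∈ D2_col hwf i := hij ▸ (D2_mem_col hwf j _).2 ⟨x, hx, rfl⟩
        obtain ⟨z, hz, he⟩ := (D2_mem_col hwf i _).1 h1
        have h2 : z = x := ih z hz x he
        subst h2
        exact hz
  refine ⟨fun i j h => hinj i j h, fun i j => ?_, fun i z hz => ?_⟩
  · rw [D2_mem_col]
    constructor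
    · exact fun h => ⟨i, h, rfl⟩
    · rintro ⟨k, hk, he⟩
      rw [← hinj k i he]
      exact hk
  · obtain ⟨j, -, hj⟩ := (D2_mem_col hwf i z).1 hz
    exact ⟨j, hj⟩

/-- elements of the next level are nodes -/
theorem D2_kst {y : ℕ → ℕ} {e : ℕ → ZFSet.{0}} (hy : YB y) (h : D2_P y e) (hs : D2_S y e) {b : ℕ}
    (hb : yLv y b) {z : ZFSet.{0}} (hz : z ∈ Kst (e b)) : ∃ j, e j = z := by
  rcases mem_Kst.1 hz with h1 | h1 | ⟨n, p, q, hp, hq, rfl⟩
  · exact h.tr b z h1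
  · exact ⟨b, h1.symm⟩
  · obtain ⟨p, hpQ, rfl⟩ := h.mem' hp
    obtain ⟨q, hqQ, rfl⟩ := h.mem' hq
    obtain ⟨x, hx⟩ := hy.cls b n p q hb hpQ hqQ
    exact ⟨x, (D2_yD h hs _ _ _ _ _).1 hx⟩

/-- `e i = {e j | yE j i}` (Mostowski); `a = {e i | i}`.  By well-founded induction: `SatB`, then
`Lev` (`lev_iff`), then `Lt` (`lt_iff`, induction on the ranks).  `a` is a level by `top`, `cls`. -/
theorem exists_cps {y : ℕ → ℕ} (h : YB y) (hwf : WellFounded (fun i j => yE y i j)) :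
    ∃ (a : ZFSet.{0}) (e : ℕ → ZFSet.{0}), Cps y a e := by
  set e := D2_col hwf with he
  have hP : D2_P y e := D2_col_P h hwf
  have hS : D2_S y e := D2_sat h hP
  have hL : ∀ i, yLv y i ↔ Lev (e i) := by
    intro i
    induction i using hwf.induction with
    | _ i ih =>
      rw [h.lv i]
      exact D2_lv hP hS i ih fun b hb hb' z hz => D2_kst h hP hS ((ih b hb).2 hb') hz
  -- ranks
  have hR : ∀ x, ∃ b, Rk (e x) (e b) := by
    intro x
    obtain ⟨b, hb, hx⟩ := h.top x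
    rw [D2_yK hP hS] at hx
    by_cases hxb : e x ∈ e b
    · obtain ⟨c, hc, hc'⟩ := ((hL b).1 hb).exists_rk hxb
      obtain ⟨c, -, rfl⟩ := hP.mem' hc
      exact ⟨c, hc'⟩
    · exact ⟨b, (hL b).1 hb, hx, hxb⟩
  have hyR : ∀ x b, yR y x b ↔ Rk (e x) (e b) := by
    intro x b
    unfold yR Rk
    rw [hL, D2_yK hP hS, hP.mem]
  have hlt0 : ∀ b x x', Rk (e x) (e b) → (yLt y x x' ↔ Lt (e x) (e x')) := by
    intro b
    induction b using hwf.induction with
    | _ b ih =>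
      intro x x' hx
      obtain ⟨c, hc⟩ := hR x'
      have hl : ∀ p p', yE y p b → (yLt y p p' ↔ Lt (e p) (e p')) := by
        intro p p' hp
        obtain ⟨d, hd⟩ := hR p
        exact ih d ((hP.mem _ _).2 (hd.mem hx.1 ((hP.mem _ _).1 hp))) p p' hd
      rw [← D2_lt hP hS hx hc hl, h.lt]
      constructor
      · rintro ⟨b', c', hb', hc', H⟩
        have h1 : b' = b := hP.inj (((hyR _ _).1 hb').unique hx)
        have h2 : c' = c := hP.inj (((hyR _ _).1 hc').unique hc)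
        subst h1
        subst h2
        exact H
      · exact fun H => ⟨b, c, (hyR _ _).2 hx, (hyR _ _).2 hc, H⟩
  refine ⟨ZFSet.range e, e, ?_, hP.inj, ?_, hP.mem, hS, hL, ?_, ?_⟩
  · rw [lev_iff]
    intro x
    rw [ZFSet.mem_range]
    constructor
    · rintro ⟨i, rfl⟩
      obtain ⟨b, hb, hx⟩ := h.top i
      exact ⟨e b, ZFSet.mem_range.2 ⟨b, rfl⟩, (hL b).1 hb, (D2_yK hP hS _ _).1 hx⟩
    · rintro ⟨b, hb, hb', hx⟩
      obtain ⟨b, rfl⟩ := ZFSet.mem_range.1 hb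
      exact D2_kst h hP hS ((hL b).2 hb') hx
  · intro x
    rw [ZFSet.mem_range]
  · intro x x'
    obtain ⟨b, hb⟩ := hR x
    exact hlt0 b x x' hb
  · intro m
    induction m with
    | zero =>
      ext z
      constructor
      · intro hz
        obtain ⟨j, hj, -⟩ := hP.mem' hz
        exact absurd hj (h.nu0 j)
      · intro hz
        exact absurd hz (ZFSet.notMem_empty z)
    | succ m ih =>
      have h1 : num (m + 1) = insert (num m) (num m) := rfl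
      rw [h1, ← ih]
      ext z
      rw [ZFSet.mem_insert_iff]
      constructor
      · intro hz
        obtain ⟨j, hj, rfl⟩ := hP.mem' hz
        rcases (h.nuS m j).1 hj with h2 | h2
        · exact Or.inr ((hP.mem _ _).1 h2)
        · exact Or.inl (by rw [h2])
      · rintro (rfl | hz)
        · exact (hP.mem _ _).1 ((h.nuS m _).2 (Or.inr rfl))
        · obtain ⟨j, hj, rfl⟩ := hP.mem' hz
          exact (hP.mem _ _).1 ((h.nuS m _).2 (Or.inl hj))

theorem Cps.D2_P {y : ℕ → ℕ} {a : ZFSet.{0}} {e : ℕ → ZFSet.{0}} (h : Cps y a e) :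
    D2_P y e :=
  ⟨h.inj, h.mem, fun i z hz => (h.onto z).1 (h.lev.tr _ ((h.onto _).2 ⟨i, rfl⟩) z hz)⟩

/-- Conversely the basic axioms hold if `y` is given by the true notions. -/
theorem Cps.yb {y : ℕ → ℕ} {a : ZFSet.{0}} {e : ℕ → ZFSet.{0}} (h : Cps y a e) : YB y := by
  have hP := h.D2_P
  have hS : D2_S y e := h.sat
  have hin : ∀ i, e i ∈ a := fun i => (h.onto _).2 ⟨i, rfl⟩
  have hk : ∀ b, Lev (e b) → ∀ z ∈ Kst (e b), ∃ j, e j = z := by
    intro b hb z hz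
    exact (h.onto z).1 (h.lev.kst (hin b) hb hz)
  have hR : ∀ x, ∃ b, Rk (e x) (e b) := by
    intro x
    obtain ⟨b, hb, hb'⟩ := h.lev.exists_rk (hin x)
    obtain ⟨b, rfl⟩ := (h.onto b).1 hb
    exact ⟨b, hb'⟩
  have hyR : ∀ x b, yR y x b ↔ Rk (e x) (e b) := by
    intro x b
    unfold yR Rk
    rw [h.isLv, D2_yK hP hS, hP.mem]
  refine ⟨?_, ?_, ?_, ?_, ?_, ?_, ?_, ?_, ?_⟩
  · intro i j H
    apply h.inj
    ext z
    constructor
    · intro hz
      obtain ⟨k, hk, rfl⟩ := hP.mem' hz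
      exact (hP.mem _ _).1 ((H k).1 hk)
    · intro hz
      obtain ⟨k, hk, rfl⟩ := hP.mem' hz
      exact (hP.mem _ _).1 ((H k).2 hk)
  · intro i σ d H
    rw [hS, dec_zero] at H
    exact H
  · intro i k σ d
    rw [hS]
    exact D2_satS hP i k σ d fun m _ σ d => hS i m σ d
  · intro b
    rw [h.isLv]
    exact (D2_lv hP hS b (fun c _ => h.isLv c) fun c _ hc z hz => hk c hc z hz).symm
  · intro x
    obtain ⟨b, hb, hb', hx⟩ := (lev_iff.1 h.lev (e x)).1 (hin x)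
    obtain ⟨b, rfl⟩ := (h.onto b).1 hb
    exact ⟨b, (h.isLv b).2 hb', (D2_yK hP hS _ _).2 hx⟩
  · intro b n p q hb hp hq
    obtain ⟨x, hx⟩ := hk b ((h.isLv b).1 hb) _ (Dd_mem_Kst n ((hP.mem _ _).1 hp)
      ((hP.mem _ _).1 hq))
    exact ⟨x, (D2_yD hP hS _ _ _ _ _).2 hx⟩
  · intro x x'
    obtain ⟨b, hb⟩ := hR x
    obtain ⟨c, hc⟩ := hR x'
    rw [h.islt, ← D2_lt hP hS hb hc fun p p' _ => h.islt p p']
    constructor
    · exact fun H => ⟨b, c, (hyR _ _).2 hb, (hyR _ _).2 hc, H⟩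
    · rintro ⟨b', c', hb', hc', H⟩
      have h1 : b' = b := hP.inj (((hyR _ _).1 hb').unique hb)
      have h2 : c' = c := hP.inj (((hyR _ _).1 hc').unique hc)
      subst h1
      subst h2
      exact H
  · intro j H
    rw [hP.mem, h.isnu] at H
    exact ZFSet.notMem_empty _ H
  · intro m j
    have h1 : num (m + 1) = insert (num m) (num m) := rfl
    rw [hP.mem, h.isnu, h1, ZFSet.mem_insert_iff, hP.mem, h.isnu, ← h.isnu m, h.inj.eq_iff,
      or_comm]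

end Pool.Agent.H.MP_a163f2_lc.L
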