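import Pool.Agent.H.MP_a163f2_lc.L.D0
import Pool.Agent.H.MP_a163f2_lc.L.Co2

/-!
# Block L, part D3: the height of a level coded in `R` is countable in the model
-/

set_option autoImplicit false

namespace Pool.Agent.H.MP_a163f2_lc.L

open Pool.Agent.H.MP_07d118_lc

variable {s : ZFSet.{0}} [G : GM s]

/-- initial segments of descending sequences are descending -/
theorem D3_pre {u : ℕ → ℕ} {v t : List ℕ} (h : v <+: t) (ht : Co2_D u t) : Co2_D u v := by
  obtain ⟨w, rfl⟩ := h
  intro i hi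
  have h1 := ht i (by rw [List.length_append]; omega)
  rwa [List.getD_append _ _ _ _ hi, List.getD_append _ _ _ _ (by omega)] at h1

/-- one more step -/
theorem D3_app {u : ℕ → ℕ} {w : List ℕ} {i j : ℕ} (hw : Co2_D u (w ++ [i]))
    (h : u (Nat.pair j i) = 1) : Co2_D u ((w ++ [i]) ++ [j]) := by
  intro k hk
  rw [List.length_append, List.length_singleton] at hk
  have e0 : ∀ m, m < (w ++ [i]).length →
      ((w ++ [i]) ++ [j]).getD m 0 = (w ++ [i]).getD m 0 := fun m hm =>
    List.getD_append _ _ _ _ hm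
  rcases Nat.lt_or_ge (k + 1) (w ++ [i]).length with h1 | h1
  · rw [e0 _ h1, e0 k (by omega)]
    exact hw k h1
  · have h2 : k + 1 = (w ++ [i]).length := by omega
    have h3 : k = w.length := by
      rw [List.length_append, List.length_singleton] at h2
      omega
    have e1 : ((w ++ [i]) ++ [j]).getD (k + 1) 0 = j := by
      rw [h2, List.getD_append_right _ _ _ _ le_rfl, Nat.sub_self]
      rfl
    have e2 : ((w ++ [i]) ++ [j]).getD k 0 = i := by
      rw [e0 k (by omega), h3, List.getD_append_right _ _ _ _ le_rfl, Nat.sub_self]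
      rfl
    rw [e1, e2]
    exact h

/-- the rank function on the nodes -/
theorem D3_rank {R : Set (ℕ → ℕ)} (hR : RU (St s) (Wt s) R) {u : ℕ → ℕ} (hu : u ∈ R)
    (hwf : WfR R u) : ∃ (α : Wt s) (r : ℕ → Wt s), (∀ i, r i < α) ∧
      ∀ i j, u (Nat.pair j i) = 1 → r j < r i := by
  have hC : RC R := RU.rc hR
  obtain ⟨a, ha, hD⟩ := P5_code hC (Co2_D_RP hC hu)
  rcases hR.del a ha with ⟨y, hy, h1⟩ | ⟨α, ρ, hα, hρ⟩
  · exfalso
    refine hwf ⟨y, hy, fun k => ?_⟩
    have h2 : Co2_D u (ini y (k + 2)) := (hD _).1 (h1 (k + 2))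
    have h3 := h2 k (by simp [ini])
    rw [Co2_getD_ini (by omega), Co2_getD_ini (by omega)] at h3
    exact h3
  · have hlt : WellFounded ((· < ·) : Wt s → Wt s → Prop) := Om1.wf (St s)
    have hne : ∀ i : ℕ, {β : Wt s | ∃ w : List ℕ, Co2_D u (w ++ [i]) ∧ β = ρ (w ++ [i])}.Nonempty := by
      intro i
      refine ⟨ρ ([] ++ [i]), [], ?_, rfl⟩
      intro k hk
      simp at hk
    refine ⟨α, fun i => hlt.min _ (hne i), fun i => ?_, fun i j hij => ?_⟩
    · obtain ⟨w, -, hw⟩ := hlt.min_mem _ (hne i)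
      show hlt.min _ (hne i) < α
      rw [hw]
      exact hα _
    · obtain ⟨w, hw1, hw2⟩ := hlt.min_mem _ (hne i)
      show hlt.min _ (hne j) < hlt.min _ (hne i)
      have h4 : Co2_D u ((w ++ [i]) ++ [j]) := D3_app hw1 hij
      have h5 : ρ ((w ++ [i]) ++ [j]) < ρ (w ++ [i]) :=
        hρ _ _ fun v hv => (hD _).2 (D3_pre hv h4)
      have h7 : ρ ((w ++ [i]) ++ [j]) ∈
          {β : Wt s | ∃ w : List ℕ, Co2_D u (w ++ [j]) ∧ β = ρ (w ++ [j])} := ⟨w ++ [i], h4, rfl⟩
      have h6 : ¬ ρ ((w ++ [i]) ++ [j]) < hlt.min _ (hne j) := hlt.not_lt_min _ h7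
      rw [hw2]
      exact lt_of_le_of_lt (not_lt.1 h6) h5

/-- Let `T` be the tree of the `yE`-descending sequences.  `RU.del` gives `ρ` with values below
`α`.  For a node `i` let `r i` be the least `ρ u`, `u` descending with last entry `i`; then
`yE j i` implies `r j < r i < α`.  If `a` is not in `Lam s`, then `Wt s` (which consists of the levels
in `Lam s`) embeds strictly increasingly in the elements below `α`: a contradiction, since a
strictly increasing map of a well order satisfies `α ≤ f α`. -/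
theorem cps_bound {R : Set (ℕ → ℕ)} (hR : RU (St s) (Wt s) R) {y : ℕ → ℕ} (hy : y ∈ R)
    (hwf : WfR R (sec y 0)) {a : ZFSet.{0}} {e : ℕ → ZFSet.{0}} (h : Cps y a e) :
    ∃ A : Wt s, A.v = a := by
  have hC : RC R := RU.rc hR
  have hu : sec y 0 ∈ R := hR.comp y hy _ (hC.prim (fun n => Nat.pair 0 n)
    (Nat.Primrec.pair Nat.Primrec.zero Nat.Primrec.id))
  obtain ⟨α, r, hα, hr⟩ := D3_rank hR hu hwf
  by_contra hno
  have hin : ∀ B : Wt s, B.v ∈ a := by
    intro B
    rcases B.lev.cmp h.lev with h1 | h1 | h1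
    · exact h1
    · exact absurd ⟨B, h1⟩ hno
    · exfalso
      have h2 : a ∈ s := St.mem_of (y := B.e.1) h1
      have h3 : Ct (⟨a, h2⟩ : St s) := Ct.mono B.ct fun x hx => B.lev.tr _ h1 _ hx
      exact hno ⟨Wt.mk' ⟨a, h2⟩ h.lev h3, rfl⟩
  choose idx hidx using fun B : Wt s => (h.onto B.v).1 (hin B)
  have hmono : ∀ B B' : Wt s, B < B' → r (idx B) < r (idx B') := by
    intro B B' hB
    refine hr _ _ ?_
    have h1 : yE y (idx B) (idx B') := (h.mem _ _).2 (by rw [hidx, hidx]; exact hB)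
    exact h1
  have hlt : WellFounded ((· < ·) : Wt s → Wt s → Prop) := Om1.wf (St s)
  have hle : ∀ B : Wt s, ¬ r (idx B) < B := by
    intro B
    induction B using hlt.induction with
    | _ B ih =>
      intro h1
      exact ih _ h1 (hmono _ _ h1)
  exact hle α (hα _)

end Pool.Agent.H.MP_a163f2_lc.L
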