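import Pool.Agent.H.MP_a163f2_lc.L.D0

/-!
# Block L, part D4: the coded family is the family
-/

set_option autoImplicit false

namespace Pool.Agent.H.MP_a163f2_lc.L

open Pool.Agent.H.MP_07d118_lc

variable {s : ZFSet.{0}} [G : GM s]

/-! ### Numerals and codes of reals -/

theorem D4_num_mem {m n : ℕ} (h : m < n) : num m ∈ num n := by
  induction n with
  | zero => omega
  | succ n ih =>
    show num m ∈ insert (num n) (num n)
    rw [ZFSet.mem_insert_iff]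
    rcases Nat.lt_succ_iff_lt_or_eq.1 h with h1 | h1
    · exact Or.inr (ih h1)
    · exact Or.inl (by rw [h1])

theorem D4_num_inj {m n : ℕ} (h : num m = num n) : m = n := by
  rcases lt_trichotomy m n with h1 | h1 | h1
  · have h2 := D4_num_mem h1
    rw [h] at h2
    exact absurd h2 (ZFSet.mem_irrefl _)
  · exact h1
  · have h2 := D4_num_mem h1
    rw [h] at h2
    exact absurd h2 (ZFSet.mem_irrefl _)

theorem D4_Rc_mem {w : ZFSet.{0}} {x : ℕ → ℕ} (h : Rc w x) (n k : ℕ) :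
    num (Nat.pair n k) ∈ w ↔ x n = k := by
  rw [h]
  constructor
  · rintro ⟨m, hm⟩
    have h1 := Nat.pair_eq_pair.1 (D4_num_inj hm)
    rw [h1.1, h1.2]
  · rintro rfl
    exact ⟨n, rfl⟩

theorem D4_Rc_fun {w : ZFSet.{0}} {x x' : ℕ → ℕ} (h : Rc w x) (h' : Rc w x') : x = x' := by
  funext n
  exact ((D4_Rc_mem h' n (x n)).1 ((D4_Rc_mem h n (x n)).2 rfl)).symm

theorem D4_Rc_set {w w' : ZFSet.{0}} {x : ℕ → ℕ} (h : Rc w x) (h' : Rc w' x) : w = w' := by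
  ext j
  rw [h j, h' j]

theorem D4_Dcd {X X' : Fs → Prop} {D D' K K' : List Fs → Prop} (hX : ∀ u, X u ↔ X' u)
    (hD : ∀ t, D t ↔ D' t) (hK : ∀ t, K t ↔ K' t) (s : List Fs) (j : ℕ) :
    Dcd X D K s j ↔ Dcd X' D' K' s j := by
  have h1 : X = X' := funext fun u => propext (hX u)
  have h2 : D = D' := funext fun u => propext (hD u)
  have h3 : K = K' := funext fun u => propext (hK u)
  rw [h1, h2, h3]

/-! ### The nodes of the structure -/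

theorem D4_down {y : ℕ → ℕ} {a : ZFSet.{0}} {e : ℕ → ZFSet.{0}} (h : Cps y a e) {b : ℕ}
    {x : ZFSet.{0}} (hx : x ∈ e b) : ∃ j, e j = x ∧ yE y j b := by
  have h1 : x ∈ a := h.lev.tr _ ((h.onto _).2 ⟨b, rfl⟩) _ hx
  obtain ⟨j, hj⟩ := (h.onto x).1 h1
  exact ⟨j, hj, (h.mem j b).2 (by rw [hj]; exact hx)⟩

theorem D4_yRl {y : ℕ → ℕ} {a : ZFSet.{0}} {e : ℕ → ZFSet.{0}} (h : Cps y a e) (g : ℕ) :
    yRl y g ↔ ∃ x, Rc (e g) x := by
  constructor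
  · rintro ⟨h1, h2⟩
    choose x hx hx' using h2
    refine ⟨x, fun j => ⟨fun hj => ?_, ?_⟩⟩
    · obtain ⟨i, hi, hi'⟩ := D4_down h hj
      obtain ⟨m, hm⟩ := h1 i hi'
      refine ⟨m.unpair.1, ?_⟩
      have h3 : yE y (yNu y (Nat.pair m.unpair.1 m.unpair.2)) g := by
        rw [Nat.pair_unpair, hm]
        exact hi'
      have h4 := hx' _ _ h3
      rw [← h4, Nat.pair_unpair, ← hi, ← hm, h.isnu]
    · rintro ⟨n, rfl⟩
      rw [← h.isnu, ← h.mem]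
      exact hx n
  · rintro ⟨x, hx⟩
    refine ⟨fun j hj => ?_, fun n => ⟨x n, ?_, fun k' hk' => ?_⟩⟩
    · obtain ⟨n, hn⟩ := (hx _).1 ((h.mem j g).1 hj)
      refine ⟨Nat.pair n (x n), h.inj ?_⟩
      rw [h.isnu, hn]
    · rw [h.mem, h.isnu]
      exact (D4_Rc_mem hx _ _).2 rfl
    · rw [h.mem, h.isnu] at hk'
      exact ((D4_Rc_mem hx _ _).1 hk').symm

theorem D4_yP {y : ℕ → ℕ} {a : ZFSet.{0}} {e : ℕ → ZFSet.{0}} (h : Cps y a e) {g : ℕ}
    {x : ℕ → ℕ} (hx : Rc (e g) x) (u : Fs) : yP y g u ↔ Pre x u := by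
  unfold yP Pre ini
  constructor
  · intro h1
    apply List.ext_getElem
    · simp
    · intro i hi hi'
      have h2 := h1 i hi'
      rw [h.mem, h.isnu, D4_Rc_mem hx, List.getD_eq_getElem _ _ hi'] at h2
      rw [← h2]
      simp
  · intro h1 i hi
    rw [h.mem, h.isnu, D4_Rc_mem hx]
    have h2 : ((List.range u.length).map x).getD i 0 = u.getD i 0 := by rw [h1]
    rw [← h2, List.getD_eq_getElem _ _ (by simpa using hi)]
    simp

/-! ### Indices -/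

theorem D4_trans {k k' k'' : Wt s × Hc} (h : ltP k'' k') (h' : ltP k' k) : ltP k'' k := by
  rcases h with h1 | ⟨h1, h2⟩ <;> rcases h' with h3 | ⟨h3, h4⟩
  · exact Or.inl (lt_trans h1 h3)
  · exact Or.inl (h3 ▸ h1)
  · exact Or.inl (h1 ▸ h3)
  · exact Or.inr ⟨h1.trans h3, lt_trans h2 h4⟩

theorem D4_wf : WellFounded (ltP : Wt s × Hc → Wt s × Hc → Prop) := by
  have h0 : WellFounded ((· < ·) : Wt s → Wt s → Prop) := (instOm1 (s := s)).wf
  have h1 : WellFounded (Prod.Lex ((· < ·) : Wt s → Wt s → Prop) ((· < ·) : ℕ → ℕ → Prop)) :=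
    h0.prod_lex Nat.lt_wfRel.wf
  refine Subrelation.wf (r := InvImage _ (fun k : Wt s × Hc => (k.1, Encodable.encode k.2)))
    ?_ (InvImage.wf _ h1)
  rintro ⟨a, η⟩ ⟨a', η'⟩ (h | ⟨h, h'⟩)
  · exact Prod.Lex.left _ _ h
  · obtain rfl : a = a' := h
    exact Prod.Lex.right _ h'

theorem D4_idx {y : ℕ → ℕ} {a : ZFSet.{0}} {e : ℕ → ZFSet.{0}} (h : Cps y a e)
    (k : Wt s × Hc) {b : ℕ} (hb : e b = k.1.v) {b' : ℕ} {η' : Hc} :
    yB y b' η' b k.2 ↔ ∃ k' : Wt s × Hc, e b' = k'.1.v ∧ k'.2 = η' ∧ ltP k' k := by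
  constructor
  · rintro ⟨h1, h2⟩
    rw [h.isLv] at h1
    rcases h2 with h2 | ⟨h2, h3⟩
    · rw [h.mem, hb] at h2
      have hs : e b' ∈ s := St.mem_of (y := k.1.e.1) h2
      have hct : Ct (⟨e b', hs⟩ : St s) := k.1.ct.mono (fun x hx => k.1.lev.tr _ h2 _ hx)
      exact ⟨(Wt.mk' ⟨e b', hs⟩ h1 hct, η'), rfl, rfl, Or.inl h2⟩
    · exact ⟨(k.1, η'), by rw [h2, hb], rfl, Or.inr ⟨rfl, h3⟩⟩
  · rintro ⟨k', h1, h2, h3⟩
    refine ⟨(h.isLv b').2 (by rw [h1]; exact k'.1.lev), ?_⟩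
    rcases h3 with h3 | ⟨h3, h4⟩
    · left
      rw [h.mem, h1, hb]
      exact h3
    · right
      exact ⟨h.inj (by rw [h1, hb, h3]), by rw [← h2]; exact h4⟩

theorem D4_node {y : ℕ → ℕ} {a : ZFSet.{0}} {e : ℕ → ZFSet.{0}} (h : Cps y a e)
    {k k' : Wt s × Hc} {b : ℕ} (hb : e b = k.1.v) (hk : ltP k' k) : ∃ b', e b' = k'.1.v := by
  rcases hk with h1 | ⟨h1, -⟩
  · obtain ⟨j, hj, -⟩ := D4_down h (b := b) (x := k'.1.v) (by rw [hb]; exact h1)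
    exact ⟨j, hj⟩
  · exact ⟨b, by rw [hb, h1]⟩

theorem D4_YC {y : ℕ → ℕ} {a : ZFSet.{0}} {e : ℕ → ZFSet.{0}} (h : Cps y a e)
    {k k' : Wt s × Hc} {b b' : ℕ} (hb : e b = k.1.v) (hY : YC y b k.2) (hk : ltP k' k)
    (hb' : e b' = k'.1.v) : YC y b' k'.2 := by
  refine ⟨(h.isLv b').2 (by rw [hb']; exact k'.1.lev), fun b'' η'' hB => hY.2 b'' η'' (Or.inl ?_)⟩
  rcases hB with hB | ⟨rfl, rfl⟩
  · obtain ⟨k'', h1, h2, h3⟩ := (D4_idx h k' hb').1 hB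
    exact (D4_idx h k hb).2 ⟨k'', h1, h2, D4_trans h3 hk⟩
  · exact (D4_idx h k hb).2 ⟨k', hb', rfl, hk⟩

/-- If the earlier members are correctly coded, then `yG` is genericity. -/
theorem yG_iff {c : Wt s × Hc → ℕ → ℕ} {y : ℕ → ℕ} {A : Wt s} {e : ℕ → ZFSet.{0}}
    (h : Cps y A.v e) (k : Wt s × Hc) (b : ℕ) (hb : e b = k.1.v)
    (hprev : ∀ k', ltP k' k → ∀ b', e b' = k'.1.v → ∀ g, yC y b' k'.2 g ↔ Rc (e g) (c k'))
    (hex : ∀ k', ltP k' k → ∃ g, Rc (e g) (c k')) (g : ℕ) :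
    yG y b k.2 g ↔ ∃ x, Rc (e g) x ∧ GnR k.1.v (Od c k) k.2.2 x := by
  constructor
  · rintro ⟨h1, h2, h3, h4⟩
    obtain ⟨x, hx⟩ := (D4_yRl h g).1 h1
    refine ⟨x, hx, (D4_yP h hx _).1 h2, ?_, ?_⟩
    · rintro ⟨k', hk', rfl⟩
      obtain ⟨b', hb'⟩ := D4_node h hb hk'
      exact h3 b' k'.2 ((D4_idx h k hb).2 ⟨k', hb', rfl, hk'⟩) ((hprev k' hk' b' hb' g).2 hx)
    · intro d hd B hB t j
      obtain ⟨d', hd', hd''⟩ := D4_down h (b := b) (x := d) (by rw [hb]; exact hd)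
      have hB' : ∀ z : ℕ → ℕ, ∃ n : ℕ, z ∈ Od c k → Rc (e n) z := by
        intro z
        by_cases hz : z ∈ Od c k
        · obtain ⟨k', hk', rfl⟩ := hz
          obtain ⟨n, hn⟩ := hex k' hk'
          exact ⟨n, fun _ => hn⟩
        · exact ⟨0, fun hz' => absurd hz' hz⟩
      choose N hN using hB'
      have h5 := h4 d' hd'' (B.map fun q => (q.1, N q.2)) (by
        intro q hq
        obtain ⟨q', hq', rfl⟩ := List.mem_map.1 hq
        obtain ⟨k', hk', hk''⟩ := hB q' hq'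
        obtain ⟨b', hb'⟩ := D4_node h hb hk'
        refine ⟨b', k'.2, (D4_idx h k hb).2 ⟨k', hb', rfl, hk'⟩, (hprev k' hk' b' hb' _).2 ?_⟩
        rw [hk'']
        exact hN _ (hB q' hq')) t j
      refine (D4_Dcd (D4_yP h hx) (fun u => ?_) (fun u => ?_) t j).1 h5
      · rw [h.mem, h.isnu, hd']
      · rw [List.forall_mem_map]
        exact forall₂_congr fun q hq => imp_congr Iff.rfl (D4_yP h (hN _ (hB q hq)) _)
  · rintro ⟨x, hx, h1, h2, h3⟩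
    refine ⟨(D4_yRl h g).2 ⟨x, hx⟩, (D4_yP h hx _).2 h1, ?_, ?_⟩
    · intro b' η' hB hC
      obtain ⟨k', hb', rfl, hk'⟩ := (D4_idx h k hb).1 hB
      exact h2 ⟨k', hk', D4_Rc_fun ((hprev k' hk' b' hb' g).1 hC) hx⟩
    · intro d hd B hB t j
      have hB' : ∀ n : ℕ, ∃ z : ℕ → ℕ, (∃ b' η', yB y b' η' b k.2 ∧ yC y b' η' n) →
          (z ∈ Od c k ∧ Rc (e n) z) := by
        intro n
        by_cases hn : ∃ b' η', yB y b' η' b k.2 ∧ yC y b' η' n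
        · obtain ⟨b', η', h4, h5⟩ := hn
          obtain ⟨k', hb', rfl, hk'⟩ := (D4_idx h k hb).1 h4
          exact ⟨c k', fun _ => ⟨⟨k', hk', rfl⟩, (hprev k' hk' b' hb' n).1 h5⟩⟩
        · exact ⟨fun _ => 0, fun hn' => absurd hn' hn⟩
      choose N hN using hB'
      have h5 := h3 (e d) (by rw [← hb]; exact (h.mem _ _).1 hd)
        (B.map fun q => (q.1, N q.2)) (by
        intro q hq
        obtain ⟨q', hq', rfl⟩ := List.mem_map.1 hq
        exact (hN _ (hB q' hq')).1) t j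
      refine (D4_Dcd (D4_yP h hx) (fun u => ?_) (fun u => ?_) t j).2 h5
      · rw [h.mem, h.isnu]
      · rw [List.forall_mem_map]
        exact forall₂_congr fun q hq => imp_congr Iff.rfl (D4_yP h (hN _ (hB q hq)).2 _)

/-- The least generic real is the member of the family. -/
theorem D4_main {c : Wt s × Hc → ℕ → ℕ} (hc : CSpec c) {y : ℕ → ℕ} {A : Wt s}
    {e : ℕ → ZFSet.{0}} (h : Cps y A.v e) (k : Wt s × Hc) (b : ℕ) (hb : e b = k.1.v)
    (hprev : ∀ k', ltP k' k → ∀ b', e b' = k'.1.v → ∀ g, yC y b' k'.2 g ↔ Rc (e g) (c k'))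
    (hex : ∀ k', ltP k' k → ∃ g, Rc (e g) (c k')) (g : ℕ) :
    (yG y b k.2 g ∧ ∀ g', yLt y g' g → ¬ yG y b k.2 g') ↔ Rc (e g) (c k) := by
  have heA : ∀ i, e i ∈ A.v := fun i => (h.onto _).2 ⟨i, rfl⟩
  have hes : ∀ i, e i ∈ s := fun i => St.mem_of (y := A.e.1) (heA i)
  have hLL : ∀ x, x ∈ s → x ∈ LL := fun x hx => ⟨s, G.lev, hx⟩
  constructor
  · rintro ⟨h1, h2⟩
    obtain ⟨x, hx, hx'⟩ := (yG_iff h k b hb hprev hex g).1 h1
    obtain ⟨w, hws, hw⟩ := hc.code k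
    rcases Lt.tri (hLL _ (hes g)) (hLL _ hws) with h3 | h3 | h3
    · rw [h3]
      exact hw
    · exact absurd hx' (hc.min k (e g) (hes g) w hw h3 x hx)
    · exfalso
      have hwA : w ∈ A.v := by
        by_contra hwA
        exact Lt.asymm (hLL _ hws) (hLL _ (hes g)) h3 (Lt.of_mem A.lev (heA g) (hLL _ hws) hwA)
      obtain ⟨g', hg'⟩ := (h.onto w).1 hwA
      refine h2 g' ((h.islt g' g).2 (by rw [hg']; exact h3)) ?_
      exact (yG_iff h k b hb hprev hex g').2 ⟨c k, by rw [hg']; exact hw, hc.gn k⟩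
  · intro h1
    refine ⟨(yG_iff h k b hb hprev hex g).2 ⟨c k, h1, hc.gn k⟩, fun g' hg' h2 => ?_⟩
    obtain ⟨x, hx, hx'⟩ := (yG_iff h k b hb hprev hex g').1 h2
    exact hc.min k (e g') (hes g') (e g) h1 ((h.islt g' g).1 hg') x hx hx'

/-- Well-founded induction on `k`. -/
theorem family_iff {c : Wt s × Hc → ℕ → ℕ} (hc : CSpec c) {y : ℕ → ℕ} {A : Wt s}
    {e : ℕ → ZFSet.{0}} (h : Cps y A.v e) (k : Wt s × Hc) (b : ℕ) (hb : e b = k.1.v)
    (hY : YC y b k.2) (g : ℕ) : yC y b k.2 g ↔ Rc (e g) (c k) := by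
  induction k using D4_wf.induction generalizing b g with
  | _ k ih =>
    have hprev : ∀ k', ltP k' k → ∀ b', e b' = k'.1.v → ∀ g,
        yC y b' k'.2 g ↔ Rc (e g) (c k') :=
      fun k' hk' b' hb' g => ih k' hk' b' hb' (D4_YC h hb hY hk' hb') g
    have hex : ∀ k', ltP k' k → ∃ g, Rc (e g) (c k') := by
      intro k' hk'
      obtain ⟨b', hb'⟩ := D4_node h hb hk'
      obtain ⟨g, hg⟩ := (hY.2 b' k'.2 (Or.inl ((D4_idx h k hb).2 ⟨k', hb', rfl, hk'⟩))).2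
      exact ⟨g, (hprev k' hk' b' hb' g).1 hg⟩
    rw [(hY.2 b k.2 (Or.inr ⟨rfl, rfl⟩)).1 g]
    exact D4_main hc h k b hb hprev hex g

/-- Conversely: if `yC` is given by the family and the level contains the codes of the members of
the family up to `k`, then `YC` holds. -/
theorem family_conv {c : Wt s × Hc → ℕ → ℕ} (hc : CSpec c) {y : ℕ → ℕ} {A : Wt s}
    {e : ℕ → ZFSet.{0}} (h : Cps y A.v e)
    (hyC : ∀ b η g, yC y b η g ↔ ∃ k : Wt s × Hc, e b = k.1.v ∧ k.2 = η ∧ Rc (e g) (c k))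
    (k : Wt s × Hc) (b : ℕ) (hb : e b = k.1.v)
    (hA : ∀ k', (ltP k' k ∨ k' = k) → ∀ w, Rc w (c k') → w ∈ A.v) : YC y b k.2 := by
  have hyC' : ∀ k' : Wt s × Hc, ∀ b', e b' = k'.1.v → ∀ g,
      yC y b' k'.2 g ↔ Rc (e g) (c k') := by
    intro k' b' hb' g
    rw [hyC]
    constructor
    · rintro ⟨κ, h1, h2, h3⟩
      have h4 : κ = k' := Prod.ext (Wt.ext' (by rw [← h1, hb'])) h2
      rw [← h4]
      exact h3
    · intro h1
      exact ⟨k', hb', rfl, h1⟩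
  have hex : ∀ k', (ltP k' k ∨ k' = k) → ∃ g, Rc (e g) (c k') := by
    intro k' hk'
    obtain ⟨w, -, hw⟩ := hc.code k'
    obtain ⟨g, hg⟩ := (h.onto w).1 (hA k' hk' w hw)
    exact ⟨g, by rw [hg]; exact hw⟩
  refine ⟨(h.isLv b).2 (by rw [hb]; exact k.1.lev), fun b' η' hB => ?_⟩
  obtain ⟨k', hb', rfl, hk'⟩ : ∃ k' : Wt s × Hc, e b' = k'.1.v ∧ k'.2 = η' ∧
      (ltP k' k ∨ k' = k) := by
    rcases hB with hB | ⟨rfl, rfl⟩
    · obtain ⟨k', h1, h2, h3⟩ := (D4_idx h k hb).1 hB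
      exact ⟨k', h1, h2, Or.inl h3⟩
    · exact ⟨k, hb, rfl, Or.inr rfl⟩
  refine ⟨fun g => ?_, ?_⟩
  · rw [hyC' k' b' hb' g]
    refine (D4_main hc h k' b' hb' (fun k'' _ b'' hb'' g => hyC' k'' b'' hb'' g)
      (fun k'' hk'' => hex k'' (Or.inl ?_)) g).symm
    rcases hk' with hk' | rfl
    · exact D4_trans hk'' hk'
    · exact hk''
  · obtain ⟨g, hg⟩ := hex k' hk'
    exact ⟨g, (hyC' k' b' hb' g).2 hg⟩

end Pool.Agent.H.MP_a163f2_lc.L
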