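import Pool.Agent.H.MP_a163f2_lc.L.D5a

/-!
# Block L, part D5: codes of countable levels
-/

set_option autoImplicit false

namespace Pool.Agent.H.MP_a163f2_lc.L

open Pool.Agent.H.MP_07d118_lc

universe u v

variable {s : ZFSet.{0}} [G : GM s]

theorem D5_nm (n : ℕ) : (nm n : St s).1 = num n := by
  have h0 : ∀ x : ZFSet.{0}, x ∉ (emp : St s).1 := fun x hx =>
    not_mem_emp (⟨x, St.mem_of hx⟩ : St s) hx
  induction n with
  | zero =>
    show (emp : St s).1 = ∅
    ext x
    constructor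
    · intro hx
      exact absurd hx (h0 x)
    · intro hx
      exact absurd hx (ZFSet.notMem_empty x)
  | succ n ih =>
    show (suc (nm n : St s) : St s).1 = insert (num n) (num n)
    ext x
    rw [ZFSet.mem_insert_iff, ← ih]
    constructor
    · intro hx
      have h1 : (⟨x, St.mem_of hx⟩ : St s) ∈ (suc (nm n : St s) : St s) := hx
      rcases mem_suc.1 h1 with h2 | h2
      · exact Or.inr h2
      · exact Or.inl (congrArg Subtype.val h2)
    · rintro (h2 | h2)
      · subst h2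
        have h3 : (nm n : St s) ∈ (suc (nm n : St s) : St s) := mem_suc.2 (Or.inr rfl)
        exact h3
      · have h3 : (⟨x, St.mem_of h2⟩ : St s) ∈ (suc (nm n : St s) : St s) := mem_suc.2 (Or.inl h2)
        exact h3

theorem D5_nmLam (n : ℕ) : (nm n : St s) ∈ Lam s :=
  (instLvLam (s := s)).lev.tr _ (om_mem_Lam (s := s)) _ (nm_mem (M := St s) n)

variable (s) in
/-- the numerals as elements of `Lam s` -/
noncomputable def D5_n (n : ℕ) : El (Lam s) := nmE (u := Lam s) D5_nmLam n

theorem D5_n_val (n : ℕ) : (D5_n s n).1.1 = num n := D5_nm n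

@[fun_prop] theorem D5_n_if {T : Type v} [Cd (St s) T] {f : T → ℕ} (hf : IF (St s) f) :
    IF (St s) (fun t => D5_n s (f t)) := IF.comp (IF.nmE (u := Lam s) D5_nmLam) hf

/-- the code of the reals in the family, evaluated in the model -/
theorem D5_rc (x : El (Lam s)) (r : ℕ → ℕ) : Rc x.1.1 r ↔
    ∀ z : El (Lam s), z.1.1 ∈ x.1.1 ↔ ∃ n, z.1.1 = (D5_n s (Nat.pair n (r n))).1.1 := by
  have h1 : ∀ n, (D5_n s n).1.1 = num n := fun n => D5_nm n
  constructor
  · intro h z
    rw [h z.1.1]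
    simp only [h1]
  · intro h j
    constructor
    · intro hj
      have := (h (toEl j (Lv.tr (Lam s) _ x.2 _ hj))).1 hj
      simp only [h1] at this
      exact this
    · rintro ⟨n, rfl⟩
      have := (h (D5_n s (Nat.pair n (r n)))).2 ⟨n, rfl⟩
      rwa [h1] at this

open Classical in
/-- the code -/
noncomputable def D5_y (e0 : ℕ → El (Lam s)) (c : Wt s × Hc → ℕ → ℕ) (κ : ℕ → ℕ) (n : ℕ) : ℕ :=
  if n.unpair.1 = 0 then
    (if (e0 n.unpair.2.unpair.1).1.1 ∈ (e0 n.unpair.2.unpair.2).1.1 then 1 else 0)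
  else if n.unpair.1 = 1 then
    (if SatB (e0 n.unpair.2.unpair.1).1.1 (fun k => (e0 ((Denumerable.ofNat (List ℕ)
        n.unpair.2.unpair.2.unpair.2.unpair.1).getD k
        n.unpair.2.unpair.2.unpair.2.unpair.2)).1.1) (dec n.unpair.2.unpair.2.unpair.1)
      then 1 else 0)
  else if n.unpair.1 = 2 then (if Lev (e0 n.unpair.2).1.1 then 1 else 0)
  else if n.unpair.1 = 3 then
    (if Lt (e0 n.unpair.2.unpair.1).1.1 (e0 n.unpair.2.unpair.2).1.1 then 1 else 0)
  else if n.unpair.1 = 4 then κ n.unpair.2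
  else (if ∃ k : Wt s × Hc, (e0 n.unpair.2.unpair.1).1.1 = k.1.e.1.1 ∧
      Encodable.encode k.2 = n.unpair.2.unpair.2.unpair.1 ∧
      ∀ z : El (Lam s), z.1.1 ∈ (e0 n.unpair.2.unpair.2.unpair.2).1.1 ↔
        ∃ i, z.1.1 = (D5_n s (Nat.pair i (c k i))).1.1 then 1 else 0)

theorem D5_if {e0 : ℕ → El (Lam s)} (he0 : IF (St s) e0) {c : Wt s × Hc → ℕ → ℕ}
    (hint : IF (St s) (fun y : (Wt s × Hc) × ℕ => c y.1 y.2)) {κ : ℕ → ℕ} (hκ : IF (St s) κ) :
    IF (St s) (D5_y e0 c κ) := by
  classical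
  have hone : IF (St s) (fun _ : ℕ => 1) := IF.const 1
  have hzero : IF (St s) (fun _ : ℕ => 0) := IF.const 0
  have hc' : IF (St s) (fun t : (((ℕ × (Wt s × Hc)) × El (Lam s)) × ℕ) => c t.1.1.2 t.2) :=
    hint.comp (f := fun t : (((ℕ × (Wt s × Hc)) × El (Lam s)) × ℕ) => (t.1.1.2, t.2)) (by fun_prop)
  unfold D5_y
  refine IF.ite (by fun_prop) (IF.ite (by fun_prop) hone hzero) ?_
  refine IF.ite (by fun_prop) (IF.ite ?_ hone hzero) ?_
  · have h1 := (in_satB (Lam s) (Lv.tr _)).comp (f := fun n : ℕ => ((e0 n.unpair.2.unpair.1,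
      padI (Denumerable.ofNat (List ℕ) n.unpair.2.unpair.2.unpair.2.unpair.1)
        n.unpair.2.unpair.2.unpair.2.unpair.2 (⟨e0, he0⟩ : IFn (St s) ℕ (El (Lam s)))),
        n.unpair.2.unpair.2.unpair.1)) (by fun_prop)
    refine h1.congr fun n => ?_
    have h2 : ∀ (σ : List ℕ) (d : ℕ), (fun i => ((padI σ d (⟨e0, he0⟩ : IFn (St s) ℕ (El (Lam s)))).1
        i).1.1) = fun k => (e0 (σ.getD k d)).1.1 := by
      intro σ d
      funext i
      show (e0 (if i < σ.length then σ.getD i 0 else d)).1.1 = _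
      split_ifs with hi
      · rw [List.getD_eq_getElem _ _ hi, List.getD_eq_getElem _ _ hi]
      · rw [List.getD_eq_default _ _ (not_lt.1 hi)]
    rw [h2]
  refine IF.ite (by fun_prop) (IF.ite (by fun_prop) hone hzero) ?_
  refine IF.ite (by fun_prop) (IF.ite (by fun_prop) hone hzero) ?_
  refine IF.ite (by fun_prop) (by fun_prop) (IF.ite ?_ hone hzero)
  have henc : IF (St s) (Encodable.encode : Hc → ℕ) := CdP.enc
  apply_rules (transparency := .reducible) [In.and, In.ex, In.all, In.iff]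
  all_goals fun_prop

theorem D5_ite (P : Prop) [Decidable P] : ((if P then (1 : ℕ) else 0) = 1) ↔ P := by
  by_cases h : P
  · rw [if_pos h]
    exact iff_of_true rfl h
  · rw [if_neg h]
    exact iff_of_false zero_ne_one h

/-- A countable level has an internal code. -/
theorem exists_code {c : Wt s × Hc → ℕ → ℕ}
    (hint : IF (St s) (fun y : (Wt s × Hc) × ℕ => c y.1 y.2)) (A : Wt s) (hA : ∀ n, num n ∈ A.v) :
    ∃ (y : ℕ → ℕ) (e : ℕ → ZFSet.{0}), IF (St s) y ∧ Cps y A.v e ∧
      ∀ b η g, yC y b η g ↔ ∃ k : Wt s × Hc, e b = k.1.v ∧ k.2 = η ∧ Rc (e g) (c k) := by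
  classical
  obtain ⟨e0, he0, hinj, honto⟩ := exists_bij A hA
  have hκex : ∀ n, ∃ i, e0 i = D5_n s n := by
    intro n
    apply (honto _).1
    rw [D5_n_val]
    exact hA n
  choose κ hκ using hκex
  have hκif : IF (St s) κ := by
    refine IF.of_in (In.congr (P := fun y : ℕ × ℕ => e0 y.2 = D5_n s y.1)
      (In.eq (by fun_prop) (by fun_prop)) ?_)
    rintro ⟨n, i⟩
    constructor
    · intro h
      show e0 i = _
      rw [← hκ n]
      exact congrArg e0 h.symm
    · intro h
      have h : e0 i = D5_n s n := h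
      exact hinj ((hκ n).trans h.symm)
  refine ⟨D5_y e0 c κ, fun i => (e0 i).1.1, D5_if he0 hint hκif, ?_, ?_⟩
  · refine ⟨A.lev, ?_, ?_, ?_, ?_, ?_, ?_, ?_⟩
    · intro i j h
      exact hinj (Subtype.ext (Subtype.ext h))
    · intro x
      constructor
      · intro hx
        have hxL : x ∈ (Lam s).1 := Lv.tr (Lam s) _ A.e.2 _ hx
        obtain ⟨i, hi⟩ := (honto (toEl x hxL)).1 hx
        exact ⟨i, by rw [hi]; rfl⟩
      · rintro ⟨i, rfl⟩
        exact (honto (e0 i)).2 ⟨i, rfl⟩
    · intro i j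
      unfold yE D5_y
      simp only [Nat.unpair_pair, if_true]
      exact D5_ite _
    · intro i n σ d
      unfold ySat D5_y
      have h1 : Encodable.encode (i, n, σ, d) =
          Nat.pair i (Nat.pair n (Nat.pair (Encodable.encode σ) d)) := rfl
      rw [h1]
      simp only [Nat.unpair_pair, if_true, one_ne_zero, if_false, Denumerable.ofNat_encode]
      exact D5_ite _
    · intro i
      unfold yLv D5_y
      simp only [Nat.unpair_pair, if_true, OfNat.ofNat_ne_zero, OfNat.ofNat_ne_one, if_false]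
      exact D5_ite _
    · intro i j
      unfold yLt D5_y
      simp only [Nat.unpair_pair, if_true, OfNat.ofNat_ne_zero, OfNat.ofNat_ne_one, if_false,
        Nat.reduceEqDiff]
      exact D5_ite _
    · intro m
      have h1 : yNu (D5_y e0 c κ) m = κ m := by
        unfold yNu D5_y
        simp only [Nat.unpair_pair, if_true, OfNat.ofNat_ne_zero, OfNat.ofNat_ne_one, if_false,
          Nat.reduceEqDiff]
      rw [h1, hκ m]
      exact D5_n_val m
  · intro b η g
    unfold yC D5_y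
    have h1 : Encodable.encode (b, η, g) = Nat.pair b (Nat.pair (Encodable.encode η) g) := rfl
    rw [h1]
    simp only [Nat.unpair_pair, OfNat.ofNat_ne_zero, OfNat.ofNat_ne_one, if_false,
      Nat.reduceEqDiff]
    have h2 : (∃ k : Wt s × Hc, (e0 b).1.1 = k.1.v ∧ k.2 = η ∧ Rc (e0 g).1.1 (c k)) ↔
        ∃ k : Wt s × Hc, (e0 b).1.1 = k.1.e.1.1 ∧ Encodable.encode k.2 = Encodable.encode η ∧
          ∀ z : El (Lam s), z.1.1 ∈ (e0 g).1.1 ↔
            ∃ i, z.1.1 = (D5_n s (Nat.pair i (c k i))).1.1 := by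
      refine exists_congr fun k => and_congr Iff.rfl (and_congr Encodable.encode_inj.symm ?_)
      exact D5_rc _ _
    rw [h2]
    exact D5_ite _

end Pool.Agent.H.MP_a163f2_lc.L
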