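import Pool.Agent.H.MP_a163f2_lc.L.D0

/-!
# Block L, part D5b: a large countable level
-/

set_option autoImplicit false

namespace Pool.Agent.H.MP_a163f2_lc.L

open Pool.Agent.H.MP_07d118_lc

universe u v

variable {s : ZFSet.{0}} [G : GM s]

/-- the numerals of the model are the numerals -/
theorem D5b_nm (n : ℕ) : (nm n : St s).1 = num n := by
  induction n with
  | zero =>
    show (emp : St s).1 = ∅
    ext z
    constructor
    · intro hz
      exact absurd (show (⟨z, St.mem_of hz⟩ : St s) ∈ (emp : St s) from hz) (not_mem_emp _)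
    · intro hz
      exact absurd hz (ZFSet.notMem_empty z)
  | succ n ih =>
    show (suc (nm n) : St s).1 = insert (num n) (num n)
    rw [← ih]
    ext z
    rw [ZFSet.mem_insert_iff]
    constructor
    · intro hz
      have h1 : (⟨z, St.mem_of hz⟩ : St s) ∈ (suc (nm n) : St s) := hz
      rcases mem_suc.1 h1 with h2 | h2
      · exact Or.inr h2
      · exact Or.inl (congrArg Subtype.val h2)
    · intro hz
      rcases hz with h | h
      · have h1 : (nm n : St s) ∈ (suc (nm n) : St s) := mem_suc.2 (Or.inr rfl)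
        rw [h]
        exact h1
      · have h1 : (⟨z, St.mem_of h⟩ : St s) ∈ (nm n : St s) := h
        have h2 : (⟨z, St.mem_of h⟩ : St s) ∈ (suc (nm n) : St s) := mem_suc.2 (Or.inl h1)
        exact h2

theorem D5b_nmLam (n : ℕ) : (nm n : St s) ∈ Lam s :=
  Lv.tr (Lam s) _ om_mem_Lam _ (nm_mem (M := St s) n)

/-- `A` contains the code of `c k'` -/
def D5b_R (c : Wt s × Hc → ℕ → ℕ) (k' : Wt s × Hc) (A : Wt s) : Prop :=
  ∃ w : El (Lam s), w.1.1 ∈ A.e.1.1 ∧ ∀ x : El (Lam s), (x.1.1 ∈ w.1.1 ↔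
    ∃ n : ℕ, x = nmE (u := Lam s) D5b_nmLam (Nat.pair n (c k' n)))

theorem D5b_R_in {c : Wt s × Hc → ℕ → ℕ} (hc : CSpec c) :
    In (St s) (fun y : (Wt s × Hc) × Wt s => D5b_R c y.1 y.2) := by
  unfold D5b_R
  have h1 : IF (St s) (fun t : ((((Wt s × Hc) × Wt s) × El (Lam s)) × El (Lam s)) × ℕ =>
      c t.1.1.1.1 t.2) :=
    IF.comp hc.int (IF.pair (by fun_prop) (by fun_prop))
  have h2 : IF (St s) (fun t : ((((Wt s × Hc) × Wt s) × El (Lam s)) × El (Lam s)) × ℕ =>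
      nmE (u := Lam s) D5b_nmLam (Nat.pair t.2 (c t.1.1.1.1 t.2))) :=
    IF.comp (IF.nmE D5b_nmLam) (IF.npair (by fun_prop) h1)
  apply_rules (transparency := .reducible) [In.and, In.ex, In.all, In.iff]
  · fun_prop
  · fun_prop
  · exact In.eq (by fun_prop) h2

theorem D5b_R_ex {c : Wt s × Hc → ℕ → ℕ} (hc : CSpec c) (k' : Wt s × Hc) :
    ∃ A : Wt s, D5b_R c k' A := by
  obtain ⟨w, hws, hw⟩ := hc.code k'
  obtain ⟨b, hb, hct, hwb⟩ := exists_ctb_level (s := s) (⟨w, hws⟩ : St s) (by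
    intro z hz
    obtain ⟨n, hn⟩ := (hw z.1).1 hz
    have h1 : z = nm (Nat.pair n (c k' n)) := Subtype.ext (by rw [hn, D5b_nm])
    rw [h1]
    exact nm_mem _)
  have hbL : b ∈ Lam s := hct.mem_Lam hb.lev
  refine ⟨Wt.mk' b hb.lev hct, toEl w (Lv.tr (Lam s) _ hbL _ hwb), hwb, fun x => ?_⟩
  show x.1.1 ∈ w ↔ _
  rw [hw x.1.1]
  constructor
  · rintro ⟨n, hn⟩
    refine ⟨n, Subtype.ext (Subtype.ext ?_)⟩
    rw [hn, ← D5b_nm (s := s)]
    rfl
  · rintro ⟨n, hn⟩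
    refine ⟨n, ?_⟩
    rw [hn, ← D5b_nm (s := s)]
    rfl

theorem D5b_R_mem {c : Wt s × Hc → ℕ → ℕ} {k' : Wt s × Hc} {A : Wt s} (h : D5b_R c k' A)
    {w : ZFSet.{0}} (hw : Rc w (c k')) : w ∈ A.v := by
  obtain ⟨w', h1, h2⟩ := h
  have h3 : w = w'.1.1 := by
    ext z
    rw [hw z]
    constructor
    · rintro ⟨n, hn⟩
      have hz : z = (nmE (u := Lam s) D5b_nmLam (Nat.pair n (c k' n))).1.1 := by
        rw [hn, ← D5b_nm (s := s)]
        rfl
      rw [hz]
      exact (h2 _).2 ⟨n, rfl⟩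
    · intro hz
      have hzL : z ∈ (Lam s).1 := Lv.tr (Lam s) _ w'.2 _ hz
      obtain ⟨n, hn⟩ := (h2 (toEl z hzL)).1 hz
      refine ⟨n, ?_⟩
      have h4 : z = (nmE (u := Lam s) D5b_nmLam (Nat.pair n (c k' n))).1.1 :=
        congrArg (fun t : El (Lam s) => t.1.1) hn
      rw [h4, ← D5b_nm (s := s)]
      rfl
  rw [h3]
  exact h1

/-- an internal enumeration of the indices below `k` -/
theorem D5b_enum (k : Wt s × Hc) : ∃ q : ℕ → Wt s × Hc, IF (St s) q ∧
    ∀ k', (ltP k' k ∨ k' = k) → ∃ n, q n = k' := by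
  obtain ⟨f, hf, hinj⟩ := Wt.below (k.1.next)
  obtain ⟨p, hp, hp'⟩ := In.choice (M := St s) (T := ℕ) (S := Wt s)
    (R := fun n ξ => (∃ ξ' : Wt s, ξ' < k.1.next ∧ f ξ' = n) → (ξ < k.1.next ∧ f ξ = n)) (by
      have h1 : IF (St s) (fun t : (ℕ × Wt s) × Wt s => f t.2) := IF.comp hf (by fun_prop)
      have h2 : IF (St s) (fun t : ℕ × Wt s => f t.2) := IF.comp hf (by fun_prop)
      apply_rules (transparency := .reducible) [In.and, In.ex, In.imp]
      · fun_prop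
      · exact In.eq h1 (by fun_prop)
      · fun_prop
      · exact In.eq h2 (by fun_prop)) (by
      intro n
      by_cases h : ∃ ξ' : Wt s, ξ' < k.1.next ∧ f ξ' = n
      · obtain ⟨ξ, hξ⟩ := h
        exact ⟨ξ, fun _ => hξ⟩
      · exact ⟨k.1, fun h' => absurd h' h⟩)
  have ho : IF (St s) (fun n : ℕ => ((Denumerable.ofNat (List (List ℕ)) n.unpair.1,
      Denumerable.ofNat (List ℕ) n.unpair.2) : Hc)) := by
    refine IF.pair ?_ ?_
    · exact IF.comp (IF.prim (Primrec.ofNat (List (List ℕ)))) (by fun_prop)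
    · exact IF.comp (IF.prim (Primrec.ofNat (List ℕ))) (by fun_prop)
  refine ⟨fun n => (p n.unpair.1, (Denumerable.ofNat (List (List ℕ)) n.unpair.2.unpair.1,
      Denumerable.ofNat (List ℕ) n.unpair.2.unpair.2)), ?_, ?_⟩
  · refine IF.pair (IF.comp hp (by fun_prop)) ?_
    exact IF.comp ho (by fun_prop)
  · rintro ⟨ξ, η1, η2⟩ h
    have hle : ξ ≤ k.1 := by
      rcases h with (h | ⟨h, -⟩) | h
      · exact le_of_lt h
      · exact le_of_eq h
      · exact le_of_eq (by rw [← h])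
    have hlt : ξ < k.1.next := lt_of_le_of_lt hle (Wt.lt_next k.1)
    refine ⟨Nat.pair (f ξ) (Nat.pair (Encodable.encode η1) (Encodable.encode η2)), ?_⟩
    obtain ⟨h1, h2⟩ := hp' (f ξ) ⟨ξ, hlt, rfl⟩
    have h3 : p (f ξ) = ξ := hinj h1 hlt h2
    simp only [Nat.unpair_pair, Denumerable.ofNat_encode, h3]

/-- There is a countable level which contains the codes of all the members of the family up to
a given index. -/
theorem exists_big {c : Wt s × Hc → ℕ → ℕ} (hc : CSpec c) (k : Wt s × Hc) :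
    ∃ A : Wt s, (∀ n, num n ∈ A.v) ∧ k.1 < A ∧
      ∀ k', (ltP k' k ∨ k' = k) → ∀ w, Rc w (c k') → w ∈ A.v := by
  obtain ⟨g, hg, hg'⟩ := In.choice (D5b_R_in hc) (D5b_R_ex hc)
  obtain ⟨q, hq, hq'⟩ := D5b_enum k
  obtain ⟨α, hα⟩ := Wt.bdd (fun n => g (q n)) (IF.comp hg hq)
  obtain ⟨b, hb, hct, hob⟩ := exists_ctb_level (om : St s) (fun z hz => hz)
  obtain ⟨B, hB⟩ : ∃ B : Wt s, B = Wt.mk' b hb.lev hct := ⟨_, rfl⟩
  have hBv : ∀ n, num n ∈ B.v := by
    intro n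
    rw [hB, ← D5b_nm (s := s)]
    exact hb.lev.tr _ hob _ (nm_mem (M := St s) n)
  obtain ⟨C, hC⟩ : ∃ C : Wt s, C = max (max α B) k.1 := ⟨_, rfl⟩
  have h1 : α ≤ C := by rw [hC]; exact (le_max_left _ _).trans (le_max_left _ _)
  have h2 : B ≤ C := by rw [hC]; exact (le_max_right _ _).trans (le_max_left _ _)
  have h3 : k.1 ≤ C := by rw [hC]; exact le_max_right _ _
  refine ⟨C.next, fun n => ?_, lt_of_le_of_lt h3 (Wt.lt_next C), fun k' hk' w hw => ?_⟩
  · exact Wt.le_def.1 (h2.trans (le_of_lt (Wt.lt_next C))) _ (hBv n)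
  · obtain ⟨n, hn⟩ := hq' k' hk'
    have h4 : w ∈ (g k').v := D5b_R_mem (hg' k') hw
    have h5 : g k' ≤ C.next := by
      rw [← hn]
      exact (le_of_lt (hα n)).trans (h1.trans (le_of_lt (Wt.lt_next C)))
    exact Wt.le_def.1 h5 _ h4

end Pool.Agent.H.MP_a163f2_lc.L
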