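import Pool.Agent.H.MP_a163f2_lc.L.C1
import Pool.Agent.H.MP_a163f2_lc.L.D1
import Pool.Agent.H.MP_a163f2_lc.L.D2
import Pool.Agent.H.MP_a163f2_lc.L.D3
import Pool.Agent.H.MP_a163f2_lc.L.D4
import Pool.Agent.H.MP_a163f2_lc.L.D5
import Pool.Agent.H.MP_a163f2_lc.L.D5b

/-!
# Block L, part D6: the property (L3)
-/

set_option autoImplicit false

namespace Pool.Agent.H.MP_a163f2_lc.L

open Pool.Agent.H.MP_07d118_lc

variable {s : ZFSet.{0}} [G : GM s]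

/-- a level which is a member of a countable level is a countable level -/
theorem D6_wt {A : Wt s} {b : ZFSet.{0}} (hb : b ∈ A.v) (hl : Lev b) : ∃ B : Wt s, B.v = b := by
  have hbs : b ∈ s := St.mem_of (y := A.e.1) hb
  have hct : Ct (⟨b, hbs⟩ : St s) := by
    refine A.ct.mono ?_
    intro x hx
    exact A.lev.tr _ hb _ hx
  exact ⟨Wt.mk' ⟨b, hbs⟩ hl hct, rfl⟩

theorem D6_rc {w : ZFSet.{0}} {x z : ℕ → ℕ} (h : Rc w x) (s : ZFSet.{0}) [GM s] :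
    (∀ n, num (Nat.pair n (z (n + 1))) ∈ w) ↔ (fun n => z (n + 1)) = x := by
  constructor
  · intro h1
    funext n
    obtain ⟨m, hm⟩ := (h _).1 (h1 n)
    have h2 := num_inj hm s
    rw [Nat.pair_eq_pair] at h2
    rw [h2.2, h2.1]
  · intro h1 n
    refine (h _).2 ⟨n, ?_⟩
    rw [← h1]

theorem l3_of_cspec {c : Wt s × Hc → ℕ → ℕ} (hc : CSpec c) : L3 (St s) (Wt s) c := by
  intro R hR
  refine (yz_sig hR.rc).congr fun z hz => ?_
  constructor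
  · rintro ⟨ξ, η, h0, h1⟩
    obtain ⟨A, hA, hξ, hcod⟩ := exists_big hc (ξ, η)
    obtain ⟨y, e, hy, hcps, hyC⟩ := exists_code hc.int A hA
    obtain ⟨b₀, hb₀⟩ := (hcps.onto _).1 (Wt.lt_def.1 hξ)
    obtain ⟨w, hws, hw⟩ := hc.code (ξ, η)
    obtain ⟨g₀, hg₀⟩ := (hcps.onto _).1 (hcod (ξ, η) (Or.inr rfl) w hw)
    refine ⟨y, hR.ground y hy, hcps.yb, ?_, b₀, η, g₀,
      family_conv hc hcps hyC (ξ, η) b₀ hb₀ hcod, ?_, h0, ?_⟩
    · refine WfR_of_wf ?_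
      refine Subrelation.wf (r := InvImage (fun a b : ZFSet.{0} => a ∈ b) e) ?_
        (InvImage.wf e ZFSet.mem_wf)
      intro i j hij
      exact (hcps.mem i j).1 hij
    · refine (hyC _ _ _).2 ⟨(ξ, η), hb₀, rfl, ?_⟩
      rw [hg₀]
      exact hw
    · intro n
      rw [hcps.mem, hcps.isnu, hg₀]
      exact (D6_rc hw s).2 h1 n
  · rintro ⟨y, hy, hyb, hwf, b₀, η₀, g₀, hYC, hyc, h0, h1⟩
    have hsec : sec y 0 ∈ R := by
      have h2 := hR.comp y hy (fun n => Nat.pair 0 n) (hR.rc.prim _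
        (Nat.Primrec.pair (Nat.Primrec.const 0) (Nat.Primrec.id)))
      exact h2
    have hwf' : WellFounded (fun i j => yE y i j) := wf_of_WfR hR hsec hwf
    obtain ⟨a, e, hcps⟩ := exists_cps hyb hwf'
    obtain ⟨A, rfl⟩ := cps_bound hR hy hwf hcps
    obtain ⟨B, hB⟩ := D6_wt (s := s) ((hcps.onto _).2 ⟨b₀, rfl⟩) ((hcps.isLv b₀).1 hYC.1)
    have h2 : Rc (e g₀) (c (B, η₀)) := (family_iff hc hcps (B, η₀) b₀ hB.symm hYC g₀).1 hyc
    refine ⟨B, η₀, h0, (D6_rc h2 s).1 fun n => ?_⟩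
    have h3 := h1 n
    rw [hcps.mem, hcps.isnu] at h3
    exact h3

end Pool.Agent.H.MP_a163f2_lc.L
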