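import Pool.Agent.H.MP_a163f2_lc.L.A6
import Pool.Agent.H.MP_a163f2_lc.L.C3
import Pool.Agent.H.MP_a163f2_lc.L.C4
import Pool.Agent.H.MP_a163f2_lc.L.D6

/-!
# Block L: the ground model
-/

set_option autoImplicit false

namespace Pool.Agent.H.MP_a163f2_lc

open Pool.Agent.H.MP_07d118_lc

theorem ground_statement : GroundStatement := by
  obtain ⟨s, hs, hc, hz⟩ := L.exists_zf_level
  haveI : L.GM s := ⟨hs, hz⟩
  obtain ⟨c, hc'⟩ := L.exists_cspec s
  exact ⟨L.St s, hs.tr, hc, inferInstance, L.Wt s, inferInstance, inferInstance, inferInstance, c,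
    L.luz_of_cspec hc', L.l3_of_cspec hc'⟩

end Pool.Agent.H.MP_a163f2_lc
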