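import Pool.Agent.H.MP_a163f2_lc.L.A3

/-!
# Block L, part A4: condensation

If `X ⊆ LL` is closed under the witnesses `Wit`, the image of `X` under its collapse is a level.
-/

set_option autoImplicit false

namespace Pool.Agent.H.MP_a163f2_lc.L

open Pool.Agent.H.MP_07d118_lc

/-- eventually constant assignments -/
def EC {A : Type*} (v : ℕ → A) : Prop := ∃ N, ∀ i ≥ N, v i = v N

/-- the witnesses under which the sets `X` are closed -/
def Wit (c : ℕ) (v : ℕ → ZFSet.{0}) (z : ZFSet.{0}) : Prop :=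
  (c.unpair.1 = 0 ∧ Rk (v 0) z) ∨
  (c.unpair.1 = 1 ∧ ∃ b, Rk (v 0) b ∧ z ∈ b ∧ ∃ q, q ∈ b ∧ ∃ n, v 0 = Dd b n z q) ∨
  (c.unpair.1 = 2 ∧ ∃ b, Rk (v 0) b ∧ v 1 ∈ b ∧ z ∈ b ∧ ∃ n, v 0 = Dd b n (v 1) z) ∨
  (c.unpair.1 = 3 ∧ Lev (v 0) ∧ v 1 ∈ v 0 ∧ v 2 ∈ v 0 ∧ z = Dd (v 0) c.unpair.2 (v 1) (v 2)) ∨
  (c.unpair.1 = 4 ∧ ¬ (z ∈ v 0 ↔ z ∈ v 1)) ∨
  (c.unpair.1 = 5 ∧ z ∈ v 0 ∧ ¬ SatB (v 0) (cns z fun i => v (i + 1)) (dec c.unpair.2))

/-- closed sets -/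
def Clo (X : Set ZFSet.{0}) : Prop :=
  ∀ (c : ℕ) (v : ℕ → ZFSet.{0}), (∀ i, v i ∈ X) → EC v → (∃ z, Wit c v z) → ∃ z ∈ X, Wit c v z

/-- the collapse -/
noncomputable def col (X : Set ZFSet.{0}) : ZFSet.{0} → ZFSet.{0} :=
  ZFSet.mem_wf.fix fun x ih =>
    ZFSet.range fun z : (ZFSet.sep (fun z => z ∈ X) x : ZFSet.{0}) => ih z.1 (ZFSet.mem_sep.1 z.2).1

theorem mem_col {X : Set ZFSet.{0}} {x y : ZFSet.{0}} :
    y ∈ col X x ↔ ∃ z ∈ x, z ∈ X ∧ col X z = y := by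
  unfold col
  rw [WellFounded.fix_eq, ZFSet.mem_range]
  constructor
  · rintro ⟨z, rfl⟩
    exact ⟨z.1, (ZFSet.mem_sep.1 z.2).1, (ZFSet.mem_sep.1 z.2).2, rfl⟩
  · rintro ⟨z, h1, h2, rfl⟩
    exact ⟨⟨z, ZFSet.mem_sep.2 ⟨h1, h2⟩⟩, rfl⟩

theorem col_tr {X : Set ZFSet.{0}} {x : ZFSet.{0}} (h : ∀ z ∈ x, z ∈ X → ∀ w ∈ z, w ∈ X → w ∈ x) :
    Tr (col X x) := by
  intro y hy w hw
  obtain ⟨z, h1, h2, rfl⟩ := mem_col.1 hy
  obtain ⟨t, h3, h4, rfl⟩ := mem_col.1 hw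
  exact mem_col.2 ⟨t, h z h1 h2 t h3 h4, h4, rfl⟩

/-- assignments with finitely many values -/
def pad {A : Type*} (l : List A) (a : A) : ℕ → A := fun i => l.getD i a

theorem ec_pad {A : Type*} (l : List A) (a : A) : EC (pad l a) := by
  refine ⟨l.length, fun i hi => ?_⟩
  unfold pad
  rw [List.getD_eq_default _ _ hi, List.getD_eq_default _ _ le_rfl]

theorem pad_mem {A : Type*} {P : A → Prop} {l : List A} {a : A} (hl : ∀ x ∈ l, P x) (ha : P a)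
    (i : ℕ) : P (pad l a i) := by
  unfold pad
  by_cases h : i < l.length
  · rw [List.getD_eq_getElem _ _ h]
    exact hl _ (List.getElem_mem h)
  · rw [List.getD_eq_default _ _ (not_lt.1 h)]
    exact ha

section

variable {X : Set ZFSet.{0}} (hX : Clo X) (hL : X ⊆ LL)

include hX

theorem Clo.rk {x : ZFSet.{0}} (hx : x ∈ X) {b : ZFSet.{0}} (hb : Rk x b) : b ∈ X := by
  obtain ⟨z, hz, h⟩ := hX (Nat.pair 0 0) (pad [] x) (pad_mem (P := (· ∈ X)) (by simp) hx)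
    (ec_pad _ _) ⟨b, Or.inl ⟨by simp, hb⟩⟩
  rcases h with ⟨-, h⟩ | ⟨h, -⟩ | ⟨h, -⟩ | ⟨h, -⟩ | ⟨h, -⟩ | ⟨h, -⟩
  · rwa [hb.unique h]
  all_goals simp at h

theorem Clo.name {x b : ZFSet.{0}} (hx : x ∈ X) (hb : Rk x b) (hxb : x ≠ b) :
    ∃ (n : ℕ) (p q : ZFSet.{0}), p ∈ b ∧ q ∈ b ∧ p ∈ X ∧ q ∈ X ∧ x = Dd b n p q := by
  obtain ⟨n, p, q, hp, hq, h⟩ := hb.cases.resolve_left hxb
  obtain ⟨p', hp', h1⟩ := hX (Nat.pair 1 0) (pad [] x) (pad_mem (P := (· ∈ X)) (by simp) hx)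
    (ec_pad _ _) ⟨p, Or.inr (Or.inl ⟨by simp, b, hb, hp, q, hq, n, h⟩)⟩
  rcases h1 with ⟨h1, -⟩ | ⟨-, h1⟩ | ⟨h1, -⟩ | ⟨h1, -⟩ | ⟨h1, -⟩ | ⟨h1, -⟩
  · simp at h1
  · obtain ⟨b', hb', hpb', q', hq', n', h2⟩ := h1
    obtain rfl : b = b' := hb.unique hb'
    obtain ⟨q'', hq'', h3⟩ := hX (Nat.pair 2 0) (pad [x] p')
      (pad_mem (P := (· ∈ X)) (by simpa using hx) hp')
      (ec_pad _ _) ⟨q', Or.inr (Or.inr (Or.inl ⟨by simp, b, hb, hpb', hq', n', h2⟩))⟩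
    rcases h3 with ⟨h3, -⟩ | ⟨h3, -⟩ | ⟨-, h3⟩ | ⟨h3, -⟩ | ⟨h3, -⟩ | ⟨h3, -⟩
    · simp at h3
    · simp at h3
    · obtain ⟨b'', hb'', h4, h5, n'', h6⟩ := h3
      obtain rfl : b = b'' := hb.unique hb''
      exact ⟨n'', p', q'', h4, h5, hp', hq'', h6⟩
    all_goals simp at h3
  all_goals simp at h1

theorem Clo.dd {b p q : ZFSet.{0}} (n : ℕ) (hb : b ∈ X) (hbl : Lev b) (hp : p ∈ X) (hq : q ∈ X)
    (hpb : p ∈ b) (hqb : q ∈ b) : Dd b n p q ∈ X := by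
  obtain ⟨z, hz, h⟩ := hX (Nat.pair 3 n) (pad [b, p] q)
    (pad_mem (P := (· ∈ X)) (by simp [hb, hp]) hq)
    (ec_pad _ _) ⟨Dd b n p q, Or.inr (Or.inr (Or.inr (Or.inl ⟨by simp, hbl, hpb, hqb,
      by simp [pad]⟩)))⟩
  rcases h with ⟨h, -⟩ | ⟨h, -⟩ | ⟨h, -⟩ | ⟨-, -, -, -, h⟩ | ⟨h, -⟩ | ⟨h, -⟩
  · simp at h
  · simp at h
  · simp at h
  · simp only [Nat.unpair_pair] at h
    rw [show z = Dd b n p q from h] at hz
    exact hz
  all_goals simp at h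

theorem Clo.ext {x y : ZFSet.{0}} (hx : x ∈ X) (hy : y ∈ X) (h : ∀ z ∈ X, (z ∈ x ↔ z ∈ y)) :
    x = y := by
  by_contra hne
  have : ∃ z, ¬ (z ∈ x ↔ z ∈ y) := by
    by_contra hc
    push Not at hc
    exact hne (ZFSet.ext fun z => by simpa using hc z)
  obtain ⟨z, hz⟩ := this
  obtain ⟨w, hw, h1⟩ := hX (Nat.pair 4 0) (pad [x] y)
    (pad_mem (P := (· ∈ X)) (by simpa using hx) hy)
    (ec_pad _ _) ⟨z, Or.inr (Or.inr (Or.inr (Or.inr (Or.inl ⟨by simp, hz⟩))))⟩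
  rcases h1 with ⟨h1, -⟩ | ⟨h1, -⟩ | ⟨h1, -⟩ | ⟨h1, -⟩ | ⟨-, h1⟩ | ⟨h1, -⟩
  any_goals simp at h1
  exact h1 (h w hw)

/-- Tarski and Vaught -/
theorem Clo.tv {b : ZFSet.{0}} (hb : b ∈ X) (φ : Fml) (v : ℕ → ZFSet.{0}) (hv : ∀ i, v i ∈ X)
    (h : ∀ z ∈ b, z ∈ X → SatB b (cns z v) φ) : ∀ z ∈ b, SatB b (cns z v) φ := by
  by_contra hcon
  push Not at hcon
  obtain ⟨z, hz, hz'⟩ := hcon
  obtain ⟨N, hN⟩ := exists_bd φ
  have hN' : Bd (N + 1) φ := hN.mono (Nat.le_succ N)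
  obtain ⟨n, rfl⟩ := dec_surj φ
  let w : ℕ → ZFSet.{0} := fun i => if i < N then v i else b
  have hag : ∀ z, SatB b (cns z w) (dec n) ↔ SatB b (cns z v) (dec n) := by
    intro z
    refine satB_bd hN' fun i hi => ?_
    cases i with
    | zero => rfl
    | succ i =>
      show (if i < N then v i else b) = v i
      rw [if_pos (by omega)]
  obtain ⟨t, ht, h1⟩ := hX (Nat.pair 5 n) (cns b w) (by
      intro i
      cases i with
      | zero => exact hb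
      | succ i =>
        show (if i < N then v i else b) ∈ X
        split_ifs
        · exact hv i
        · exact hb) ⟨N + 1, by
      intro i hi
      obtain ⟨j, rfl⟩ : ∃ j, i = j + 1 := ⟨i - 1, by omega⟩
      show (if j < N then v j else b) = if N < N then v N else b
      rw [if_neg (by omega), if_neg (by omega)]⟩
    ⟨z, Or.inr (Or.inr (Or.inr (Or.inr (Or.inr ⟨by simp, hz, by
      simp only [Nat.unpair_pair]
      show ¬ SatB b (cns z w) (dec n)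
      rw [hag]
      exact hz'⟩))))⟩
  rcases h1 with ⟨h1, -⟩ | ⟨h1, -⟩ | ⟨h1, -⟩ | ⟨h1, -⟩ | ⟨h1, -⟩ | ⟨-, h1, h2⟩
  any_goals simp at h1
  simp only [Nat.unpair_pair] at h2
  have h3 : ¬ SatB b (cns t w) (dec n) := h2
  rw [hag] at h3
  exact h3 (h t h1 ht)

theorem Clo.col_inj {x y : ZFSet.{0}} (hx : x ∈ X) (hy : y ∈ X) (h : col X x = col X y) :
    x = y := by
  induction x using ZFSet.inductionOn generalizing y with
  | _ x ih =>
    refine hX.ext hx hy fun z hz => ⟨fun hzx => ?_, fun hzy => ?_⟩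
    · have h1 : col X z ∈ col X y := by
        rw [← h]
        exact mem_col.2 ⟨z, hzx, hz, rfl⟩
      obtain ⟨t, ht, ht', h2⟩ := mem_col.1 h1
      rw [ih z hzx hz ht' h2.symm]
      exact ht
    · have h1 : col X z ∈ col X x := by
        rw [h]
        exact mem_col.2 ⟨z, hzy, hz, rfl⟩
      obtain ⟨t, ht, ht', h2⟩ := mem_col.1 h1
      rw [← ih t ht ht' hz h2]
      exact ht

theorem Clo.col_mem {x y : ZFSet.{0}} (hx : x ∈ X) : col X x ∈ col X y ↔ x ∈ y := by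
  constructor
  · intro h
    obtain ⟨z, h1, h2, h3⟩ := mem_col.1 h
    rw [← hX.col_inj h2 hx h3]
    exact h1
  · intro h
    exact mem_col.2 ⟨x, h, hx, rfl⟩

theorem Clo.col_sat {b : ZFSet.{0}} (hb : b ∈ X) (φ : Fml) : ∀ (v : ℕ → ZFSet.{0}),
    (∀ i, v i ∈ X) → (SatB (col X b) (fun i => col X (v i)) φ ↔ SatB b v φ) := by
  induction φ with
  | mem i j => exact fun v hv => hX.col_mem (hv i)
  | eq i j => exact fun v hv => ⟨fun h => hX.col_inj (hv i) (hv j) h, fun h => congrArg (col X) h⟩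
  | bot => exact fun _ _ => Iff.rfl
  | imp φ ψ ih1 ih2 =>
    intro v hv
    rw [satB_imp, satB_imp, ih1 v hv, ih2 v hv]
  | all φ ih =>
    intro v hv
    rw [satB_all, satB_all]
    have key : ∀ z ∈ X, (SatB (col X b) (cns (col X z) fun i => col X (v i)) φ ↔
        SatB b (cns z v) φ) := by
      intro z hz
      rw [← ih (cns z v) (fun i => by
        cases i with
        | zero => exact hz
        | succ i => exact hv i)]
      have : (fun i => col X (cns z v i)) = cns (col X z) fun i => col X (v i) :=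
        cns_map (col X) z v
      rw [this]
    constructor
    · intro h
      refine hX.tv hb φ v hv fun z hz hzX => ?_
      exact (key z hzX).1 (h _ (mem_col.2 ⟨z, hz, hzX, rfl⟩))
    · intro h y hy
      obtain ⟨z, hz, hzX, rfl⟩ := mem_col.1 hy
      exact (key z hzX).2 (h z hz)

theorem Clo.col_dd {b p q : ZFSet.{0}} (n : ℕ) (hb : b ∈ X) (hp : p ∈ X) (hq : q ∈ X) :
    col X (Dd b n p q) = Dd (col X b) n (col X p) (col X q) := by
  ext y
  rw [mem_col, mem_Dd]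
  have key : ∀ z ∈ X, (SatB (col X b) (cns (col X z) (cns (col X p) fun _ => col X q)) (dec n) ↔
      SatB b (cns z (cns p fun _ => q)) (dec n)) := by
    intro z hz
    rw [← hX.col_sat hb (dec n) (cns z (cns p fun _ => q)) (fun i => by
      rcases i with _ | _ | i
      · exact hz
      · exact hp
      · exact hq)]
    have : (fun i => col X (cns z (cns p fun _ => q) i)) =
        cns (col X z) (cns (col X p) fun _ => col X q) := by
      funext i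
      rcases i with _ | _ | i <;> rfl
    rw [this]
  constructor
  · rintro ⟨z, h1, h2, rfl⟩
    obtain ⟨h3, h4⟩ := mem_Dd.1 h1
    exact ⟨mem_col.2 ⟨z, h3, h2, rfl⟩, (key z h2).2 h4⟩
  · rintro ⟨h1, h2⟩
    obtain ⟨z, h3, h4, rfl⟩ := mem_col.1 h1
    exact ⟨z, mem_Dd.2 ⟨h3, (key z h4).1 h2⟩, h4, rfl⟩

include hL

/-- the step in the proof of condensation, for `a` an element or a superset of `X` -/
theorem Clo.col_lev_aux {a : ZFSet.{0}} (ha : ∀ x ∈ a, x ∈ X → ∀ b, Rk x b → b ∈ a)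
    (ha2 : ∀ b ∈ a, Lev b → ∀ x ∈ Kst b, x ∈ X → x ∈ a) (hat : ∀ x ∈ a, x ∈ X → ∀ y ∈ x, y ∈ X → y ∈ a)
    (ih : ∀ b ∈ a, b ∈ X → Lev b → Lev (col X b)) : Lev (col X a) := by
  have hkst : ∀ x ∈ X, ∀ b, b ∈ X → Rk x b → col X x ∈ Kst (col X b) ∧ col X x ∉ col X b := by
    intro x hx b hb hr
    refine ⟨?_, ?_⟩
    · by_cases hxb : x = b
      · rw [hxb]
        exact self_mem_Kst _
      · obtain ⟨n, p, q, hp, hq, hpX, hqX, h⟩ := hX.name hx hr hxb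
        rw [h, hX.col_dd n hb hpX hqX]
        exact Dd_mem_Kst n (mem_col.2 ⟨p, hp, hpX, rfl⟩) (mem_col.2 ⟨q, hq, hqX, rfl⟩)
    · intro h
      exact hr.2.2 ((hX.col_mem hx).1 h)
  rw [lev_iff]
  intro y
  constructor
  · intro hy
    obtain ⟨x, hxa, hx, rfl⟩ := mem_col.1 hy
    obtain ⟨b, hb⟩ := LL_rk (hL hx)
    have hbX := hX.rk hx hb
    have hba := ha x hxa hx b hb
    exact ⟨col X b, mem_col.2 ⟨b, hba, hbX, rfl⟩, ih b hba hbX hb.1, (hkst x hx b hbX hb).1⟩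
  · rintro ⟨b', hb', hb'l, hy⟩
    obtain ⟨b₀, hb₀a, hb₀, rfl⟩ := mem_col.1 hb'
    -- `b₀` is a level
    have hlev : Lev b₀ := by
      obtain ⟨c, hc⟩ := LL_rk (hL hb₀)
      have hcX := hX.rk hb₀ hc
      have hca := ha b₀ hb₀a hb₀ c hc
      have hcl := ih c hca hcX hc.1
      obtain ⟨h1, h2⟩ := hkst b₀ hb₀ c hcX hc
      rcases hb'l.cmp hcl with h | h | h
      · exact absurd h h2
      · rw [hX.col_inj hb₀ hcX h]
        exact hc.1
      · exact absurd (Kst_sub hcl.tr h1 _ h) (ZFSet.mem_irrefl _)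
    rcases mem_Kst.1 hy with h | rfl | ⟨n, p', q', hp', hq', rfl⟩
    · obtain ⟨z, hz, hzX, rfl⟩ := mem_col.1 h
      exact mem_col.2 ⟨z, hat b₀ hb₀a hb₀ z hz hzX, hzX, rfl⟩
    · exact mem_col.2 ⟨b₀, hb₀a, hb₀, rfl⟩
    · obtain ⟨p, hp, hpX, rfl⟩ := mem_col.1 hp'
      obtain ⟨q, hq, hqX, rfl⟩ := mem_col.1 hq'
      rw [← hX.col_dd n hb₀ hpX hqX]
      have hD := hX.dd n hb₀ hlev hpX hqX hp hq
      exact mem_col.2 ⟨_, ha2 b₀ hb₀a hlev _ (Dd_mem_Kst n hp hq) hD, hD, rfl⟩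

/-- the collapse of a level in `X` is a level -/
theorem Clo.col_lev {a : ZFSet.{0}} (haX : a ∈ X) (ha : Lev a) : Lev (col X a) := by
  induction a using ZFSet.inductionOn with
  | _ a ih =>
    refine hX.col_lev_aux hL ?_ ?_ ?_ fun b hb hbX hbl => ih b hb hbX hbl
    · exact fun x hx _ b hb => hb.mem ha hx
    · exact fun b hb hbl x hx _ => ha.kst hb hbl hx
    · exact fun x hx _ y hy _ => ha.tr x hx y hy

/-- an element of `X` whose collapse is a level is a level -/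
theorem Clo.lev_of_col {x : ZFSet.{0}} (hx : x ∈ X) (h : Lev (col X x)) : Lev x := by
  obtain ⟨c, hc⟩ := LL_rk (hL hx)
  have hcX := hX.rk hx hc
  have hcl := hX.col_lev hL hcX hc.1
  by_cases hxc : x = c
  · rw [hxc]
    exact hc.1
  · obtain ⟨n, p, q, hp, hq, hpX, hqX, hD⟩ := hX.name hx hc hxc
    have h1 : col X x ∈ Kst (col X c) := by
      rw [hD, hX.col_dd n hcX hpX hqX]
      exact Dd_mem_Kst n (mem_col.2 ⟨p, hp, hpX, rfl⟩) (mem_col.2 ⟨q, hq, hqX, rfl⟩)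
    rcases h.cmp hcl with h2 | h2 | h2
    · exact absurd ((hX.col_mem hx).1 h2) hc.2.2
    · exact absurd (hX.col_inj hx hcX h2) hxc
    · exact absurd (Kst_sub hcl.tr h1 _ h2) (ZFSet.mem_irrefl _)

/-- the collapse does not raise levels -/
theorem Clo.col_le {a : ZFSet.{0}} (haX : a ∈ X) (ha : Lev a) : col X a ∈ a ∨ col X a = a := by
  induction a using ZFSet.inductionOn with
  | _ a ih =>
    rcases (hX.col_lev hL haX ha).cmp ha with h | h | h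
    · exact Or.inl h
    · exact Or.inr h
    · exfalso
      obtain ⟨a', h1, h2, h3⟩ := mem_col.1 h
      have h4 : Lev a' := hX.lev_of_col hL h2 (by rw [h3]; exact ha)
      rcases ih a' h1 h2 h4 with h5 | h5
      · rw [h3] at h5
        exact ZFSet.mem_asymm h5 h1
      · rw [h3] at h5
        rw [h5] at h1
        exact ZFSet.mem_irrefl _ h1

/-- Condensation: the image of `X` under the collapse is a level. -/
theorem Clo.col_top {u : ZFSet.{0}} (hu : ∀ x ∈ X, x ∈ u) : Lev (col X u) := by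
  refine hX.col_lev_aux hL ?_ ?_ ?_ fun b _ hbX hbl => hX.col_lev hL hbX hbl
  · exact fun x _ hx b hb => hu b (hX.rk hx hb)
  · exact fun b _ _ x _ hx => hu x hx
  · exact fun x _ _ y _ hy => hu y hy

theorem Clo.col_top_le {u : ZFSet.{0}} (hul : Lev u) (hu : ∀ x ∈ X, x ∈ u) :
    col X u ∈ u ∨ col X u = u := by
  rcases (hX.col_top hL hu).cmp hul with h | h | h
  · exact Or.inl h
  · exact Or.inr h
  · exfalso
    obtain ⟨a', h1, h2, h3⟩ := mem_col.1 h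
    have h4 : Lev a' := hX.lev_of_col hL h2 (by rw [h3]; exact hul)
    rcases hX.col_le hL h2 h4 with h5 | h5
    · rw [h3] at h5
      exact ZFSet.mem_asymm h5 h1
    · rw [h3] at h5
      rw [h5] at h1
      exact ZFSet.mem_irrefl _ h1

end

end Pool.Agent.H.MP_a163f2_lc.L
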