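import Pool.Agent.H.MP_a163f2_lc.Iface
import Pool.Agent.H.MP_a163f2_lc.L.A4

/-!
# Block L, part B0: automation for internal functions and relations

`fun_prop` proves that functions and relations are internal; the logical connectives are treated
by `apply_rules` with `In.and, In.or, In.imp, In.iff, In.not, In.ex, In.all`.
-/

set_option autoImplicit false
set_option linter.unusedSectionVars false

namespace Pool.Agent.H.MP_a163f2_lc.L

open Pool.Agent.H.MP_07d118_lc

universe u v w x

attribute [fun_prop] IF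
attribute [fun_prop] In

section general

variable {M : Type u} [SetStr M]

/-- The elements of a set are coded by themselves. -/
instance instCdEl (a : M) : Cd M (El a) where
  code x := x.1
  inj := Subtype.val_injective
  car := a
  mem_car x := ⟨fun h => ⟨⟨x, h⟩, rfl⟩, by rintro ⟨t, rfl⟩; exact t.2⟩

theorem code_el {a : M} (x : El a) : (Cd.code x : M) = x.1 := rfl

variable [ZF M] {T : Type v} {S : Type w} {U : Type x} [Cd M T] [Cd M S] [Cd M U]

@[fun_prop] theorem IF.id' : IF M (fun x : T => x) := IF.id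
@[fun_prop] theorem IF.const' (s : S) : IF M (fun _ : T => s) := IF.const s
@[fun_prop] theorem IF.comp' {g : S → U} (hg : IF M g) {f : T → S} (hf : IF M f) :
    IF M (fun x => g (f x)) := IF.comp hg hf
@[fun_prop] theorem IF.fst' {f : T → S × U} (hf : IF M f) : IF M (fun x => (f x).1) :=
  IF.comp IF.fst hf
@[fun_prop] theorem IF.snd' {f : T → S × U} (hf : IF M f) : IF M (fun x => (f x).2) :=
  IF.comp IF.snd hf
@[fun_prop] theorem IF.pair' {f : T → S} {g : T → U} (hf : IF M f) (hg : IF M g) :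
    IF M (fun x => (f x, g x)) := IF.pair hf hg
@[fun_prop] theorem IF.app' {f : U → IFn M T S} (hf : IF M f) {t : U → T} (ht : IF M t) :
    IF M (fun a => (f a).1 (t a)) := IF.app hf ht
@[fun_prop] theorem IF.ifn_val (f : IFn M T S) : IF M f.1 := f.2

@[fun_prop] theorem In.const' (p : Prop) : In M (fun _ : T => p) := In.const p
@[fun_prop] theorem In.comp' {P : S → Prop} (hg : In M P) {f : T → S} (hf : IF M f) :
    In M (fun x => P (f x)) := In.comp hg hf
@[fun_prop] theorem In.and' {P Q : T → Prop} (hg : In M P) (hf : In M Q) :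
    In M (fun x => P x ∧ Q x) := In.and hg hf
@[fun_prop] theorem In.or' {P Q : T → Prop} (hg : In M P) (hf : In M Q) :
    In M (fun x => P x ∨ Q x) := In.or hg hf
@[fun_prop] theorem In.not' {P : T → Prop} (hg : In M P) :
    In M (fun x => ¬ P x) := In.not hg
@[fun_prop] theorem In.iff' {P Q : T → Prop} (hg : In M P) (hf : In M Q) :
    In M (fun x => P x ↔ Q x) := In.iff hg hf
@[fun_prop] theorem In.mem' {f : T → S} (hf : IF M f) {A : T → ISet M S} (hA : IF M A) :
    In M (fun t => f t ∈ A t) := In.mem hf hA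
@[fun_prop] theorem In.eq' {f g : T → S} (hf : IF M f) (hg : IF M g) :
    In M (fun t => f t = g t) := In.eq hf hg

theorem In.el_mem0 {a b : M} : In M (fun y : El a × El b => y.1.1 ∈ y.2.1) := by
  refine In.of_df (R := fun x => ∃ c, ∃ d, x = opair c d ∧ c ∈ d) ?_ fun y => ?_
  · refine Df.ex (P := fun a (w : Fin 1 → M) => ∃ b, w 0 = opair a b ∧ a ∈ b) ?_
    refine Df.ex (P := fun b (w : Fin 2 → M) => w 1 = opair (w 0) b ∧ w 0 ∈ b) ?_
    exact (Df.eq (DfF.var 2) (DfF.Opair (DfF.var 1) (DfF.var 0))).and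
      (Df.mem (DfF.var 1) (DfF.var 0))
  · obtain ⟨s, A⟩ := y
    constructor
    · intro h
      exact ⟨_, _, rfl, h⟩
    · rintro ⟨a, b, h1, h2⟩
      obtain ⟨rfl, rfl⟩ := opair_inj.1 h1
      exact h2

theorem In.el_eq0 {a b : M} : In M (fun y : El a × El b => y.1.1 = y.2.1) := by
  refine In.of_df (R := fun x => ∃ c, ∃ d, x = opair c d ∧ c = d) ?_ fun y => ?_
  · refine Df.ex (P := fun a (w : Fin 1 → M) => ∃ b, w 0 = opair a b ∧ a = b) ?_
    refine Df.ex (P := fun b (w : Fin 2 → M) => w 1 = opair (w 0) b ∧ w 0 = b) ?_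
    exact (Df.eq (DfF.var 2) (DfF.Opair (DfF.var 1) (DfF.var 0))).and
      (Df.eq (DfF.var 1) (DfF.var 0))
  · obtain ⟨s, A⟩ := y
    constructor
    · intro h
      exact ⟨_, _, rfl, h⟩
    · rintro ⟨a, b, h1, h2⟩
      obtain ⟨rfl, rfl⟩ := opair_inj.1 h1
      exact h2

/-- membership between elements of sets -/
@[fun_prop] theorem In.el_mem {a b : M} {f : T → El a} (hf : IF M f) {g : T → El b} (hg : IF M g) :
    In M (fun t => (f t).1 ∈ (g t).1) :=
  In.comp2 (P := fun (x : El a) (y : El b) => x.1 ∈ y.1) In.el_mem0 hf hg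

@[fun_prop] theorem In.el_eq {a b : M} {f : T → El a} (hf : IF M f) {g : T → El b} (hg : IF M g) :
    In M (fun t => (f t).1 = (g t).1) :=
  In.comp2 (P := fun (x : El a) (y : El b) => x.1 = y.1) In.el_eq0 hf hg

/-- a constant on the right -/
@[fun_prop] theorem In.el_mem_c {a : M} {f : T → El a} (hf : IF M f) (c : M) :
    In M (fun t => (f t).1 ∈ c) := by
  have : In M (fun x : El a => x.1 ∈ c) :=
    In.of_df (R := fun x => x ∈ c) (Df.mem (DfF.var 0) (DfF.const _)) fun _ => Iff.rfl
  exact this.comp hf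

variable [Std M]

@[fun_prop] theorem IF.add' {f g : T → ℕ} (hf : IF M f) (hg : IF M g) : IF M (fun t => f t + g t) :=
  IF.add hf hg
@[fun_prop] theorem IF.mul' {f g : T → ℕ} (hf : IF M f) (hg : IF M g) : IF M (fun t => f t * g t) :=
  IF.mul hf hg
@[fun_prop] theorem IF.npair' {f g : T → ℕ} (hf : IF M f) (hg : IF M g) :
    IF M (fun t => Nat.pair (f t) (g t)) := IF.npair hf hg
@[fun_prop] theorem IF.unpair' {f : T → ℕ} (hf : IF M f) :
    IF M (fun t => Nat.unpair (f t)) := IF.comp IF.unpair hf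
@[fun_prop] theorem IF.mod' {f g : T → ℕ} (hf : IF M f) (hg : IF M g) : IF M (fun t => f t % g t) :=
  IF.prim2 (F := fun a b => a % b) Primrec.nat_mod hf hg
@[fun_prop] theorem IF.div' {f g : T → ℕ} (hf : IF M f) (hg : IF M g) : IF M (fun t => f t / g t) :=
  IF.prim2 (F := fun a b => a / b) Primrec.nat_div hf hg
@[fun_prop] theorem IF.sub' {f g : T → ℕ} (hf : IF M f) (hg : IF M g) : IF M (fun t => f t - g t) :=
  IF.prim2 (F := fun a b => a - b) Primrec.nat_sub hf hg
@[fun_prop] theorem In.lt' {f g : T → ℕ} (hf : IF M f) (hg : IF M g) : In M (fun t => f t < g t) :=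
  In.lt hf hg
@[fun_prop] theorem In.le' {f g : T → ℕ} (hf : IF M f) (hg : IF M g) : In M (fun t => f t ≤ g t) :=
  In.le hf hg

/-- the assignment `x, v 0, v 1, ...` -/
theorem cns_eq_ite {A : Type*} (x : A) (v : ℕ → A) (i : ℕ) :
    cns x v i = if i = 0 then x else v (i - 1) := by
  cases i <;> rfl

theorem IF.cns0 (x : T) {v : ℕ → T} (hv : IF M v) : IF M (cns x v) := by
  refine IF.congr (f := fun i => if i = 0 then x else v (i - 1)) ?_ fun i => cns_eq_ite x v i
  exact IF.ite (by fun_prop) (IF.const x) (by fun_prop)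

/-- internal assignments -/
noncomputable def cnsI (x : T) (v : IFn M ℕ T) : IFn M ℕ T := ⟨cns x v.1, IF.cns0 x v.2⟩

theorem cnsI_val (x : T) (v : IFn M ℕ T) : (cnsI x v).1 = cns x v.1 := rfl

@[fun_prop] theorem IF.cnsI' {f : U → T} (hf : IF M f) {g : U → IFn M ℕ T} (hg : IF M g) :
    IF M (fun y => cnsI (f y) (g y)) := by
  refine IF.of_app ?_
  refine IF.congr (f := fun z : U × ℕ => if z.2 = 0 then f z.1 else (g z.1).1 (z.2 - 1)) ?_
    fun z => cns_eq_ite _ _ _
  exact IF.ite (by fun_prop) (by fun_prop) (by fun_prop)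

end general

/-! ### The models -/

/-- the class of the elements of a set -/
abbrev St (s : ZFSet.{0}) : Set ZFSet.{0} := {x | x ∈ s}

/-- `s` is a level and a model of ZF -/
class GM (s : ZFSet.{0}) : Prop where
  lev : Lev s
  zf : ZF (St s)

instance instZFSt (s : ZFSet.{0}) [h : GM s] : ZF (St s) := h.zf

section model

variable {s : ZFSet.{0}} [G : GM s]

theorem St.mem_of {x : ZFSet.{0}} {y : St s} (h : x ∈ y.1) : x ∈ s := G.lev.tr _ y.2 _ h

/-- the elements of `u` as elements of the type `El u` -/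
def toEl {u : St s} (x : ZFSet.{0}) (h : x ∈ u.1) : El u := ⟨⟨x, St.mem_of h⟩, h⟩

/-- membership of the values -/
@[fun_prop] theorem In.vmem {T : Type v} [Cd (St s) T] {a b : St s} {f : T → El a}
    (hf : IF (St s) f) {g : T → El b} (hg : IF (St s) g) :
    In (St s) (fun t => (f t).1.1 ∈ (g t).1.1) := In.el_mem hf hg

@[fun_prop] theorem In.veq {T : Type v} [Cd (St s) T] {a b : St s} {f : T → El a}
    (hf : IF (St s) f) {g : T → El b} (hg : IF (St s) g) :
    In (St s) (fun t => (f t).1.1 = (g t).1.1) :=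
  (In.el_eq hf hg).congr fun _ => Subtype.ext_iff.symm

end model

end Pool.Agent.H.MP_a163f2_lc.L
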