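import Pool.Agent.H.MP_a163f2_lc.L.A1

/-!
# Block L, part B3: the well order of the levels
-/

set_option autoImplicit false

namespace Pool.Agent.H.MP_a163f2_lc.L

open Pool.Agent.H.MP_07d118_lc

open Classical in
/-- the rank -/
noncomputable def rho (x : ZFSet.{0}) : ZFSet.{0} := if h : ∃ b, Rk x b then h.choose else ∅

theorem Rk.rho {x b : ZFSet.{0}} (h : Rk x b) : rho x = b := by
  have h' : ∃ b, Rk x b := ⟨b, h⟩
  unfold L.rho
  rw [dif_pos h']
  exact h'.choose_spec.unique h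

/-- the lexicographic order of the names -/
def LX (r : ZFSet.{0} → ZFSet.{0} → Prop) (p q : ZFSet.{0}) (n : ℕ) (p' q' : ZFSet.{0})
    (n' : ℕ) : Prop := r p p' ∨ (p = p' ∧ (r q q' ∨ (q = q' ∧ n < n')))

/-- The well order of the class `LL`: first compare the ranks, then the level itself comes first,
then compare the names. -/
noncomputable def Lt : ZFSet.{0} → ZFSet.{0} → Prop :=
  (InvImage.wf rho ZFSet.mem_wf).fix fun x ih y =>
    rho x ∈ rho y ∨ (rho x = rho y ∧ y ≠ rho x ∧ (x = rho x ∨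
      ∃ (p q : ZFSet.{0}) (n : ℕ), p ∈ rho x ∧ q ∈ rho x ∧ x = Dd (rho x) n p q ∧
        ∀ (p' q' : ZFSet.{0}) (n' : ℕ), p' ∈ rho x → q' ∈ rho x → y = Dd (rho x) n' p' q' →
          (∃ h : rho p ∈ rho x, ih p h p') ∨ (p = p' ∧
            ((∃ h : rho q ∈ rho x, ih q h q') ∨ (q = q' ∧ n < n')))))

theorem lt_eq (x y : ZFSet.{0}) : Lt x y ↔
    rho x ∈ rho y ∨ (rho x = rho y ∧ y ≠ rho x ∧ (x = rho x ∨
      ∃ (p q : ZFSet.{0}) (n : ℕ), p ∈ rho x ∧ q ∈ rho x ∧ x = Dd (rho x) n p q ∧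
        ∀ (p' q' : ZFSet.{0}) (n' : ℕ), p' ∈ rho x → q' ∈ rho x → y = Dd (rho x) n' p' q' →
          (∃ _ : rho p ∈ rho x, Lt p p') ∨ (p = p' ∧
            ((∃ _ : rho q ∈ rho x, Lt q q') ∨ (q = q' ∧ n < n'))))) := by
  conv_lhs => rw [Lt, WellFounded.fix_eq]
  exact Iff.rfl

theorem lt_iff {x y b c : ZFSet.{0}} (hx : Rk x b) (hy : Rk y c) : Lt x y ↔
    b ∈ c ∨ (b = c ∧ y ≠ b ∧ (x = b ∨
      ∃ (p q : ZFSet.{0}) (n : ℕ), p ∈ b ∧ q ∈ b ∧ x = Dd b n p q ∧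
        ∀ (p' q' : ZFSet.{0}) (n' : ℕ), p' ∈ b → q' ∈ b → y = Dd b n' p' q' →
          LX Lt p q n p' q' n')) := by
  have hrk : ∀ p, p ∈ b → rho p ∈ b := by
    intro p hp
    obtain ⟨d, hd, hd'⟩ := hx.1.exists_rk hp
    rw [hd'.rho]
    exact hd
  rw [lt_eq, hx.rho, hy.rho]
  refine or_congr Iff.rfl (and_congr Iff.rfl (and_congr Iff.rfl (or_congr Iff.rfl ?_)))
  constructor
  · rintro ⟨p, q, n, hp, hq, h, h'⟩
    refine ⟨p, q, n, hp, hq, h, fun p' q' n' hp' hq' hy => ?_⟩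
    rcases h' p' q' n' hp' hq' hy with ⟨-, h1⟩ | ⟨h1, ⟨-, h2⟩ | h2⟩
    · exact Or.inl h1
    · exact Or.inr ⟨h1, Or.inl h2⟩
    · exact Or.inr ⟨h1, Or.inr h2⟩
  · rintro ⟨p, q, n, hp, hq, h, h'⟩
    refine ⟨p, q, n, hp, hq, h, fun p' q' n' hp' hq' hy => ?_⟩
    rcases h' p' q' n' hp' hq' hy with h1 | ⟨h1, h2 | h2⟩
    · exact Or.inl ⟨hrk p hp, h1⟩
    · exact Or.inr ⟨h1, Or.inl ⟨hrk q hq, h2⟩⟩
    · exact Or.inr ⟨h1, Or.inr h2⟩

/-- `Lt` restricted to a set -/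
def ltR (a : ZFSet.{0}) (x y : {x : ZFSet.{0} // x ∈ a}) : Prop := Lt x.1 y.1

/-- the names over a level -/
abbrev Nms (b : ZFSet.{0}) : Type 1 := {x : ZFSet.{0} // x ∈ b} × {x : ZFSet.{0} // x ∈ b} × ℕ

/-- the order of the names -/
def ltN (b : ZFSet.{0}) : Nms b → Nms b → Prop :=
  Prod.Lex (ltR b) (Prod.Lex (ltR b) (· < ·))

theorem ltN_iff {b : ZFSet.{0}} (t t' : Nms b) :
    ltN b t t' ↔ LX Lt t.1.1 t.2.1.1 t.2.2 t'.1.1 t'.2.1.1 t'.2.2 := by
  unfold ltN LX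
  rw [Prod.lex_def, Prod.lex_def]
  show (Lt t.1.1 t'.1.1 ∨ _) ↔ _
  rw [Subtype.ext_iff, Subtype.ext_iff]
  exact Iff.rfl

/-- the element with a given name -/
noncomputable def nmV (b : ZFSet.{0}) (t : Nms b) : ZFSet.{0} := Dd b t.2.2 t.1.1 t.2.1.1

theorem lt_iff' {x y b : ZFSet.{0}} (hx : Rk x b) (hy : Rk y b) (hxb : x ≠ b) (hyb : y ≠ b) :
    Lt x y ↔ ∃ t : Nms b, nmV b t = x ∧ ∀ t' : Nms b, nmV b t' = y → ltN b t t' := by
  rw [lt_iff hx hy]
  constructor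
  · rintro (h | ⟨-, -, h | ⟨p, q, n, hp, hq, h, h'⟩⟩)
    · exact absurd h (ZFSet.mem_irrefl b)
    · exact absurd h hxb
    · refine ⟨(⟨p, hp⟩, ⟨q, hq⟩, n), h.symm, fun t' ht' => ?_⟩
      rw [ltN_iff]
      exact h' _ _ _ t'.1.2 t'.2.1.2 ht'.symm
  · rintro ⟨t, ht, h⟩
    refine Or.inr ⟨rfl, hyb, Or.inr ⟨t.1.1, t.2.1.1, t.2.2, t.1.2, t.2.1.2, ht.symm, ?_⟩⟩
    intro p' q' n' hp' hq' hy'
    have := h (⟨p', hp'⟩, ⟨q', hq'⟩, n') hy'.symm
    rw [ltN_iff] at this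
    exact this

theorem Rk.name {x b : ZFSet.{0}} (h : Rk x b) (hxb : x ≠ b) : ∃ t : Nms b, nmV b t = x := by
  obtain ⟨n, p, q, hp, hq, h⟩ := h.cases.resolve_left hxb
  exact ⟨(⟨p, hp⟩, ⟨q, hq⟩, n), h.symm⟩

/-- The order is a well order of every level. -/
theorem Lev.wo {a : ZFSet.{0}} (ha : Lev a) : IsWellOrder {x : ZFSet.{0} // x ∈ a} (ltR a) := by
  induction a using ZFSet.inductionOn with
  | _ a ih =>
    have hN : ∀ b ∈ a, Lev b → IsWellOrder (Nms b) (ltN b) := by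
      intro b hb hbl
      have := ih b hb hbl
      unfold ltN
      infer_instance
    have hleast : ∀ b ∈ a, ∀ x, Rk x b → x ≠ b → ∃ t : Nms b, nmV b t = x ∧
        ∀ t' : Nms b, nmV b t' = x → t = t' ∨ ltN b t t' := by
      intro b hb x hx hxb
      have hw := hN b hb hx.1
      have hne : {t : Nms b | nmV b t = x}.Nonempty := hx.name hxb
      obtain ⟨t, ht, hmin⟩ := hw.wf.has_min _ hne
      refine ⟨t, ht, fun t' ht' => ?_⟩
      rcases trichotomous_of (ltN b) t t' with h | h | h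
      · exact Or.inr h
      · exact Or.inl h
      · exact absurd h (hmin t' ht')
    refine { wf := ?_, trichotomous := ?_ }
    · rw [WellFounded.wellFounded_iff_has_min]
      rintro S ⟨x₀, hx₀⟩
      obtain ⟨b₀, hb₀a, hb₀⟩ := ha.exists_rk x₀.2
      obtain ⟨b, ⟨x, hxS, hxb⟩, hbmin⟩ := ZFSet.mem_wf.has_min
        {b : ZFSet.{0} | ∃ x ∈ S, Rk x.1 b} ⟨b₀, x₀, hx₀, hb₀⟩
      have hba : b ∈ a := hxb.mem ha x.2
      by_cases hbS : ∃ y ∈ S, y.1 = b
      · obtain ⟨y, hyS, hyb⟩ := hbS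
        refine ⟨y, hyS, fun z hz hlt => ?_⟩
        obtain ⟨c, -, hc⟩ := ha.exists_rk z.2
        have hyr : Rk y.1 b := by
          rw [hyb]
          exact hxb.1.rk
        rcases (lt_iff hc hyr).1 hlt with h | ⟨h, h', -⟩
        · exact hbmin c ⟨z, hz, hc⟩ h
        · exact h' (by rw [hyb, h])
      · have hN' := hN b hba hxb.1
        obtain ⟨t, ⟨y, hyS, hyt⟩, hmin⟩ := hN'.wf.has_min
          {t : Nms b | ∃ y ∈ S, y.1 = nmV b t} (by
            obtain ⟨t, ht⟩ := hxb.name (fun h => hbS ⟨x, hxS, h⟩)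
            exact ⟨t, x, hxS, ht.symm⟩)
        refine ⟨y, hyS, fun z hz hlt => ?_⟩
        have hyr : Rk y.1 b := by
          obtain ⟨c, -, hc⟩ := ha.exists_rk y.2
          have h1 : y.1 ∈ Kst b := by
            rw [hyt]
            exact Dd_mem_Kst _ t.1.2 t.2.1.2
          have h2 : c ∈ Kst b := hc.mem hxb.1.next h1
          rcases hc.1.cmp hxb.1 with h | h | h
          · exact absurd h (hbmin c ⟨y, hyS, hc⟩)
          · rwa [h] at hc
          · exact absurd (Kst_sub hxb.1.tr h2 _ h) (ZFSet.mem_irrefl b)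
        obtain ⟨c, -, hc⟩ := ha.exists_rk z.2
        have hcb : c = b := by
          rcases (lt_iff hc hyr).1 hlt with h | ⟨h, -⟩
          · exact absurd h (hbmin c ⟨z, hz, hc⟩)
          · exact h
        subst hcb
        have hzb : z.1 ≠ c := fun h => hbS ⟨z, hz, h⟩
        have hyb : y.1 ≠ c := fun h => hbS ⟨y, hyS, h⟩
        obtain ⟨t', ht', h⟩ := (lt_iff' hc hyr hzb hyb).1 hlt
        exact hmin t' ⟨z, hz, ht'.symm⟩ (h t hyt.symm)
    · rintro ⟨x, hx⟩ ⟨y, hy⟩ h1 h2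
      apply Subtype.ext
      show x = y
      have h1 : ¬ Lt x y := h1
      have h2 : ¬ Lt y x := h2
      obtain ⟨b, hba, hb⟩ := ha.exists_rk hx
      obtain ⟨c, hca, hc⟩ := ha.exists_rk hy
      have hbc : b = c := by
        rcases hb.1.cmp hc.1 with h | h | h
        · exact absurd ((lt_iff hb hc).2 (Or.inl h)) h1
        · exact h
        · exact absurd ((lt_iff hc hb).2 (Or.inl h)) h2
      subst hbc
      by_cases hxb : x = b
      · by_cases hyb : y = b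
        · rw [hxb, hyb]
        · exact absurd ((lt_iff hb hc).2 (Or.inr ⟨rfl, hyb, Or.inl hxb⟩)) h1
      · by_cases hyb : y = b
        · exact absurd ((lt_iff hc hb).2 (Or.inr ⟨rfl, hxb, Or.inl hyb⟩)) h2
        · obtain ⟨t, ht, htm⟩ := hleast b hba x hb hxb
          obtain ⟨t', ht', htm'⟩ := hleast b hba y hc hyb
          have hw := hN b hba hb.1
          rcases trichotomous_of (ltN b) t t' with h | h | h
          · refine absurd ((lt_iff' hb hc hxb hyb).2 ⟨t, ht, fun t'' ht'' => ?_⟩) h1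
            rcases htm' t'' ht'' with h3 | h3
            · rwa [← h3]
            · exact _root_.trans h h3
          · rw [← ht, ← ht', h]
          · refine absurd ((lt_iff' hc hb hyb hxb).2 ⟨t', ht', fun t'' ht'' => ?_⟩) h2
            rcases htm t'' ht'' with h3 | h3
            · rwa [← h3]
            · exact _root_.trans h h3

theorem Lt.irrefl {x : ZFSet.{0}} (hx : x ∈ LL) : ¬ Lt x x := by
  obtain ⟨a, ha, hx⟩ := hx
  have := ha.wo
  exact irrefl_of (ltR a) ⟨x, hx⟩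

theorem Lt.tri {x y : ZFSet.{0}} (hx : x ∈ LL) (hy : y ∈ LL) : x = y ∨ Lt x y ∨ Lt y x := by
  obtain ⟨a, ha, h⟩ := LL_bound (ι := Bool) (fun i => if i then x else y) (by
    intro i
    cases i
    · exact hy
    · exact hx)
  have := ha.wo
  rcases trichotomous_of (ltR a) ⟨x, h true⟩ ⟨y, h false⟩ with h1 | h1 | h1
  · exact Or.inr (Or.inl h1)
  · exact Or.inl (congrArg Subtype.val h1)
  · exact Or.inr (Or.inr h1)

theorem Lt.asymm {x y : ZFSet.{0}} (hx : x ∈ LL) (hy : y ∈ LL) (h : Lt x y) : ¬ Lt y x := by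
  obtain ⟨a, ha, h1⟩ := LL_bound (ι := Bool) (fun i => if i then x else y) (by
    intro i
    cases i
    · exact hy
    · exact hx)
  have := ha.wo
  intro h'
  exact asymm_of (ltR a) (a := ⟨x, h1 true⟩) (b := ⟨y, h1 false⟩) h h'

/-- a nonempty subset of a level has a least element -/
theorem Lev.least {a : ZFSet.{0}} (ha : Lev a) (P : ZFSet.{0} → Prop) (h : ∃ x ∈ a, P x) :
    ∃ x ∈ a, P x ∧ ∀ y ∈ a, P y → y = x ∨ Lt x y := by
  have hw := ha.wo
  obtain ⟨x, hx, hP⟩ := h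
  obtain ⟨m, hm, hmin⟩ := hw.wf.has_min {x : {x : ZFSet.{0} // x ∈ a} | P x.1} ⟨⟨x, hx⟩, hP⟩
  refine ⟨m.1, m.2, hm, fun y hy hPy => ?_⟩
  rcases trichotomous_of (ltR a) m ⟨y, hy⟩ with h1 | h1 | h1
  · exact Or.inr h1
  · exact Or.inl (congrArg Subtype.val h1).symm
  · exact absurd h1 (hmin ⟨y, hy⟩ hPy)

/-- elements of a level precede the other elements -/
theorem Lt.of_mem {a x y : ZFSet.{0}} (ha : Lev a) (hx : x ∈ a) (hy : y ∈ LL) (hya : y ∉ a) :
    Lt x y := by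
  obtain ⟨b, hb, hb'⟩ := ha.exists_rk hx
  obtain ⟨c, hc⟩ := LL_rk hy
  refine (lt_iff hb' hc).2 (Or.inl ?_)
  rcases hc.1.cmp ha with h | h | h
  · exact absurd (hc.mem_of_mem ha h) hya
  · rwa [h]
  · exact hc.1.tr a h b hb

end Pool.Agent.H.MP_a163f2_lc.L
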