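import Pool.Agent.H.MP_a163f2_lc.L.B2
import Pool.Agent.H.MP_a163f2_lc.L.B3

/-!
# Block L, part B4: the well order is internal; choice
-/

set_option autoImplicit false
set_option linter.unusedSectionVars false

namespace Pool.Agent.H.MP_a163f2_lc.L

open Pool.Agent.H.MP_07d118_lc

universe u v w x

section model

variable {s : ZFSet.{0}} [G : GM s]

/-- the recursion step for the well order -/
def ltStep (u : St s) (y : El u × ISet (St s) (El u × ISet (St s) (El u))) (z : El u) : Prop :=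
  ∃ b c : El u, Rk y.1.1.1 b.1.1 ∧ Rk z.1.1 c.1.1 ∧ (b.1.1 ∈ c.1.1 ∨ (b.1.1 = c.1.1 ∧
    ¬ (z.1.1 = b.1.1) ∧ (y.1.1.1 = b.1.1 ∨ ∃ p q : El u, ∃ n : ℕ, p.1.1 ∈ b.1.1 ∧
      q.1.1 ∈ b.1.1 ∧ y.1.1.1 = Dd b.1.1 n p.1.1 q.1.1 ∧ ∀ p' q' : El u, ∀ n' : ℕ,
      p'.1.1 ∈ b.1.1 → q'.1.1 ∈ b.1.1 → z.1.1 = Dd b.1.1 n' p'.1.1 q'.1.1 →
      ((∃ B : ISet (St s) (El u), (p, B) ∈ y.2 ∧ p' ∈ B) ∨ (p.1.1 = p'.1.1 ∧
        ((∃ B : ISet (St s) (El u), (q, B) ∈ y.2 ∧ q' ∈ B) ∨ (q.1.1 = q'.1.1 ∧ n < n')))))))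

theorem in_ltStep (u : St s) [hu : Lv u] : In (St s)
    (fun t : (El u × ISet (St s) (El u × ISet (St s) (El u))) × El u => ltStep u t.1 t.2) := by
  unfold ltStep
  apply_rules (transparency := .reducible) [In.and, In.or, In.imp, In.ex, In.all, In.not]
  all_goals fun_prop

theorem in_lt (u : St s) [hu : Lv u] :
    In (St s) (fun y : El u × El u => Lt y.1.1.1 y.2.1.1) := by
  have hrk : ∀ x : El u, ∃ b : El u, Rk x.1.1 b.1.1 := by
    intro x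
    obtain ⟨b, hb, hb'⟩ := hu.lev.exists_rk x.2
    exact ⟨toEl b hb, hb'⟩
  choose r hr using hrk
  have hlt : In (St s) (fun y : El u × El u =>
      (fun x z : El u => ∃ b c : El u, Rk x.1.1 b.1.1 ∧ Rk z.1.1 c.1.1 ∧ b.1.1 ∈ c.1.1) y.1 y.2) := by
    apply_rules (transparency := .reducible) [In.and, In.ex]
    all_goals fun_prop
  have hwf : WellFounded (fun x z : El u =>
      ∃ b c : El u, Rk x.1.1 b.1.1 ∧ Rk z.1.1 c.1.1 ∧ b.1.1 ∈ c.1.1) := by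
    refine Subrelation.wf (r := InvImage (· ∈ ·) fun x : El u => rho x.1.1) ?_
      (InvImage.wf _ ZFSet.mem_wf)
    rintro x z ⟨b, c, hb, hc, h⟩
    show rho x.1.1 ∈ rho z.1.1
    rw [hb.rho, hc.rho]
    exact h
  obtain ⟨H, hH, hrec⟩ := exists_rec (M := St s) (W := El u) (T := ISet (St s) (El u)) hlt hwf
    (by
      rintro x y z ⟨b, c, hb, hc, h⟩ ⟨c', d, hc', hd, h'⟩
      refine ⟨b, d, hb, hd, ?_⟩
      rw [hc'.unique hc] at h'
      exact hd.1.tr _ h' _ h)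
    (Φ := fun y => ISet.sec (P := ltStep u) (in_ltStep u) y) (IF.sec (in_ltStep u))
  have key : ∀ b : ZFSet.{0}, ∀ x : El u, Rk x.1.1 b → ∀ z : El u, z ∈ H x ↔ Lt x.1.1 z.1.1 := by
    intro b
    induction b using ZFSet.inductionOn with
    | _ b ih =>
      intro x hxb z
      obtain ⟨hin, hx⟩ := hrec x
      rw [hx]
      have hprev : ∀ p : El u, p.1.1 ∈ b → ∀ p' : El u,
          ((∃ B : ISet (St s) (El u), (p, B) ∈ ISet.mk hin ∧ p' ∈ B) ↔ Lt p.1.1 p'.1.1) := by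
        intro p hp p'
        have hpr : (r p).1.1 ∈ b := (hr p).mem hxb.1 hp
        rw [← ih _ hpr p (hr p) p']
        constructor
        · rintro ⟨B, ⟨-, h1⟩, h2⟩
          have h1 : H p = B := h1
          rw [h1]
          exact h2
        · intro h
          refine ⟨H p, ⟨⟨r p, r x, hr p, hr x, ?_⟩, rfl⟩, h⟩
          rw [(hr x).unique hxb]
          exact hpr
      obtain ⟨c, hc⟩ : ∃ c : El u, Rk z.1.1 c.1.1 := ⟨_, hr z⟩
      have hbu : b ∈ u.1 := hxb.mem hu.lev x.2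
      rw [lt_iff hxb hc]
      have hmem : (z ∈ ISet.sec (in_ltStep u) (x, ISet.mk hin)) ↔ (b ∈ c.1.1 ∨ (b = c.1.1 ∧
          ¬ (z.1.1 = b) ∧ (x.1.1 = b ∨ ∃ p q : El u, ∃ n : ℕ, p.1.1 ∈ b ∧
          q.1.1 ∈ b ∧ x.1.1 = Dd b n p.1.1 q.1.1 ∧ ∀ p' q' : El u, ∀ n' : ℕ,
          p'.1.1 ∈ b → q'.1.1 ∈ b → z.1.1 = Dd b n' p'.1.1 q'.1.1 →
          ((∃ B : ISet (St s) (El u), (p, B) ∈ ISet.mk hin ∧ p' ∈ B) ∨ (p.1.1 = p'.1.1 ∧
          ((∃ B : ISet (St s) (El u), (q, B) ∈ ISet.mk hin ∧ q' ∈ B) ∨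
            (q.1.1 = q'.1.1 ∧ n < n'))))))) := by
        constructor
        · rintro ⟨b', c', hb', hc', h⟩
          rw [hb'.unique hxb, hc'.unique hc] at h
          exact h
        · intro h
          exact ⟨toEl b hbu, c, hxb, hc, h⟩
      rw [hmem]
      refine or_congr Iff.rfl (and_congr Iff.rfl (and_congr Iff.rfl (or_congr Iff.rfl ?_)))
      constructor
      · rintro ⟨p, q, n, hp, hq, h, h'⟩
        refine ⟨p.1.1, q.1.1, n, hp, hq, h, fun p' q' n' hp' hq' hz => ?_⟩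
        have h1 := h' (toEl p' (Lv.tr u _ hbu _ hp')) (toEl q' (Lv.tr u _ hbu _ hq')) n' hp' hq' hz
        rw [hprev p hp, hprev q hq] at h1
        exact h1
      · rintro ⟨p, q, n, hp, hq, h, h'⟩
        refine ⟨toEl p (Lv.tr u _ hbu _ hp), toEl q (Lv.tr u _ hbu _ hq), n, hp, hq, h,
          fun p' q' n' hp' hq' hz => ?_⟩
        rw [hprev (toEl p (Lv.tr u _ hbu _ hp)) hp, hprev (toEl q (Lv.tr u _ hbu _ hq)) hq]
        exact h' _ _ n' hp' hq' hz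
  refine In.congr (P := fun y : El u × El u => y.2 ∈ H y.1) (by fun_prop) fun y => ?_
  exact (key _ y.1 (hr y.1) y.2).symm

@[fun_prop] theorem In.lt_ {T : Type v} [Cd (St s) T] {u : St s} [hu : Lv u] {f g : T → El u}
    (hf : IF (St s) f) (hg : IF (St s) g) :
    In (St s) (fun t => Lt (f t).1.1 (g t).1.1) := (in_lt u).comp (hf.pair hg)

/-! ### Levels of the model -/

theorem GM.kst_mem {b : ZFSet.{0}} (hb : b ∈ s) (hbl : Lev b) : Kst b ∈ s := by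
  rcases hbl.next.cmp G.lev with h | h | h
  · exact h
  · exfalso
    obtain ⟨c, hc⟩ := ZF.pairing (M := St s) ⟨b, hb⟩ ⟨b, hb⟩
    have h1 : b ∈ c.1 := (hc ⟨b, hb⟩).2 (Or.inl rfl)
    have h2 : c.1 ∈ Kst b := by
      rw [h]
      exact c.2
    exact ZFSet.mem_irrefl b (Kst_sub hbl.tr h2 b h1)
  · exact absurd (Kst_sub hbl.tr h b hb) (ZFSet.mem_irrefl b)

/-- every element of the model belongs to a level of the model -/
theorem GM.exists_lv (x : St s) : ∃ u : St s, Lv u ∧ x ∈ u := by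
  obtain ⟨b, hb, hbl, hx⟩ := (lev_iff.1 G.lev x.1).1 x.2
  exact ⟨⟨Kst b, GM.kst_mem hb hbl⟩, ⟨hbl.next⟩, hx⟩

/-- two levels are contained in a level -/
theorem GM.exists_lv2 (x y : St s) : ∃ u : St s, Lv u ∧ x ∈ u ∧ y ∈ u := by
  obtain ⟨u, hu, hx⟩ := GM.exists_lv x
  obtain ⟨w, hw, hy⟩ := GM.exists_lv y
  rcases hu.lev.cmp hw.lev with h | h | h
  · exact ⟨w, hw, hw.lev.tr _ h _ hx, hy⟩
  · have : u = w := Subtype.ext h
    subst this
    exact ⟨u, hu, hx, hy⟩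
  · exact ⟨u, hu, hx, hu.lev.tr _ h _ hy⟩

/-- The model satisfies the axiom of choice. -/
instance instZFCSt : ZFC (St s) where
  choice a h1 h2 := by
    obtain ⟨u, hu, hau⟩ := GM.exists_lv a
    have hin : In (St s) (fun z : El u => ∃ x : El u, x.1 ∈ a ∧ z.1.1 ∈ x.1.1 ∧
        ∀ y : El u, y.1.1 ∈ x.1.1 → (y.1.1 = z.1.1 ∨ Lt z.1.1 y.1.1)) := by
      apply_rules (transparency := .reducible) [In.and, In.or, In.imp, In.ex, In.all, In.not]
      all_goals fun_prop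
    refine ⟨(ISet.mk hin).cod, fun x hx => ?_⟩
    have hxu : x.1 ∈ u.1 := hu.lev.tr _ hau _ hx
    obtain ⟨m, hm, hmx, hmin⟩ := hu.lev.least (fun z => z ∈ x.1) (by
      obtain ⟨y, hy⟩ := h1 x hx
      exact ⟨y.1, hu.lev.tr _ hxu _ hy, hy⟩)
    have hmc : (toEl m hm : El u).1 ∈ (ISet.mk hin).cod := by
      rw [ISet.mem_cod_iff]
      exact ⟨toEl m hm, ⟨⟨x, hxu⟩, hx, hmx, fun y hy => hmin y.1.1 y.2 hy⟩, rfl⟩
    refine ⟨(toEl m hm : El u).1, ⟨hmx, hmc⟩, ?_⟩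
    rintro z ⟨hzx, hzc⟩
    rw [ISet.mem_cod_iff] at hzc
    obtain ⟨z', ⟨x', hx', hzx', hmin'⟩, rfl⟩ := hzc
    have hxx : x'.1 = x := h2 x'.1 x z'.1 hx' hx hzx' hzx
    rw [hxx] at hmin'
    apply Subtype.ext
    show z'.1.1 = m
    rcases hmin z'.1.1 z'.2 hzx with h | h
    · exact h
    · rcases hmin' (toEl m hm) hmx with h' | h'
      · exact h'.symm
      · exfalso
        exact Lt.asymm ⟨u.1, hu.lev, hm⟩ ⟨u.1, hu.lev, z'.2⟩ h h'

/-- Every set of the model has a well order in the model. -/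
theorem GM.exists_wo (T : St s) : ∃ R : St s,
    (∀ x y : St s, x ∈ T → y ∈ T → x = y ∨ opair x y ∈ R ∨ opair y x ∈ R) ∧
    WellFounded (fun x y : El T => opair x.1 y.1 ∈ R) := by
  obtain ⟨u, hu, hT⟩ := GM.exists_lv T
  obtain ⟨R, hR⟩ := in_lt u
  have hR : ∀ x y : St s, ∀ hx : x ∈ u, ∀ hy : y ∈ u, (opair x y ∈ R ↔ Lt x.1 y.1) :=
    fun x y hx hy => hR (⟨x, hx⟩, ⟨y, hy⟩)
  have hTu : ∀ x : St s, x ∈ T → x ∈ u := fun x hx => hu.lev.tr _ hT _ hx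
  refine ⟨R, ?_, ?_⟩
  · intro x y hx hy
    rw [hR x y (hTu x hx) (hTu y hy), hR y x (hTu y hy) (hTu x hx)]
    rcases Lt.tri (x := x.1) (y := y.1) ⟨u.1, hu.lev, hTu x hx⟩ ⟨u.1, hu.lev, hTu y hy⟩ with
      h | h | h
    · exact Or.inl (Subtype.ext h)
    · exact Or.inr (Or.inl h)
    · exact Or.inr (Or.inr h)
  · have hw := hu.lev.wo
    refine Subrelation.wf (r := InvImage (ltR u.1) fun x : El T => ⟨x.1.1, hTu _ x.2⟩) ?_
      (InvImage.wf _ hw.wf)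
    intro x y h
    exact (hR x.1 y.1 (hTu _ x.2) (hTu _ y.2)).1 h

end model

end Pool.Agent.H.MP_a163f2_lc.L
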