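import Pool.Agent.H.MP_a163f2_lc.Stmt

/-!
# Block L, part A1: definable subsets and levels

`SatB a v φ`: satisfaction in `(a, ∈)`.  `Dd b n p q = {z ∈ b | (b, ∈) ⊨ φ_n (z, p, q)}`.
`Kst b = b ∪ {b} ∪ {Dd b n p q | n, p ∈ b, q ∈ b}`.
`Lev a`: `a` is the union of the `Kst b`, `b ∈ a`, `Lev b`.
-/

set_option autoImplicit false

namespace Pool.Agent.H.MP_a163f2_lc.L

open Pool.Agent.H.MP_07d118_lc

/-- satisfaction in the structure `(a, ∈)`; the quantifiers run over the elements of `a` -/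
def SatB (a : ZFSet.{0}) : (ℕ → ZFSet.{0}) → Fml → Prop
  | v, .mem i j => v i ∈ v j
  | v, .eq i j => v i = v j
  | _, .bot => False
  | v, .imp φ ψ => SatB a v φ → SatB a v ψ
  | v, .all φ => ∀ x ∈ a, SatB a (fun i => Nat.casesOn i x v) φ

/-- the assignment `x, v 0, v 1, ...` -/
def cns {A : Type*} (x : A) (v : ℕ → A) : ℕ → A := fun i => Nat.casesOn i x v

@[simp] theorem cns_zero {A : Type*} (x : A) (v : ℕ → A) : cns x v 0 = x := rfl
@[simp] theorem cns_succ {A : Type*} (x : A) (v : ℕ → A) (i : ℕ) : cns x v (i + 1) = v i := rfl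

theorem cons_eq_cns {A : Type*} (x : A) (v : ℕ → A) : cons x v = cns x v := by
  funext i
  cases i <;> rfl

theorem cns_map {A B : Type*} (f : A → B) (x : A) (v : ℕ → A) :
    (fun i => f (cns x v i)) = cns (f x) (fun i => f (v i)) := by
  funext i
  cases i <;> rfl

theorem satB_all {a : ZFSet.{0}} {v : ℕ → ZFSet.{0}} {φ : Fml} :
    SatB a v (.all φ) ↔ ∀ x ∈ a, SatB a (cns x v) φ := Iff.rfl

theorem satB_mem {a : ZFSet.{0}} {v : ℕ → ZFSet.{0}} {i j : ℕ} :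
    SatB a v (.mem i j) ↔ v i ∈ v j := Iff.rfl

theorem satB_eq {a : ZFSet.{0}} {v : ℕ → ZFSet.{0}} {i j : ℕ} :
    SatB a v (.eq i j) ↔ v i = v j := Iff.rfl

theorem satB_bot {a : ZFSet.{0}} {v : ℕ → ZFSet.{0}} : SatB a v .bot ↔ False := Iff.rfl

theorem satB_imp {a : ZFSet.{0}} {v : ℕ → ZFSet.{0}} {φ ψ : Fml} :
    SatB a v (.imp φ ψ) ↔ (SatB a v φ → SatB a v ψ) := Iff.rfl

/-- an enumeration of all formulas -/
def dec : ℕ → Fml
  | 0 => .bot
  | n + 1 =>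
    have h : n / 4 ≤ n := Nat.div_le_self n 4
    have h1 : (n / 4).unpair.1 < n + 1 :=
      Nat.lt_succ_of_le ((Nat.unpair_left_le _).trans h)
    have h2 : (n / 4).unpair.2 < n + 1 :=
      Nat.lt_succ_of_le ((Nat.unpair_right_le _).trans h)
    have h3 : n / 4 < n + 1 := Nat.lt_succ_of_le h
    if n % 4 = 0 then .mem (n / 4).unpair.1 (n / 4).unpair.2
    else if n % 4 = 1 then .eq (n / 4).unpair.1 (n / 4).unpair.2
    else if n % 4 = 2 then .imp (dec (n / 4).unpair.1) (dec (n / 4).unpair.2)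
    else .all (dec (n / 4))
termination_by n => n

theorem dec_zero : dec 0 = .bot := by
  rw [dec]

theorem dec_succ (n : ℕ) : dec (n + 1) =
    if n % 4 = 0 then .mem (n / 4).unpair.1 (n / 4).unpair.2
    else if n % 4 = 1 then .eq (n / 4).unpair.1 (n / 4).unpair.2
    else if n % 4 = 2 then .imp (dec (n / 4).unpair.1) (dec (n / 4).unpair.2)
    else .all (dec (n / 4)) := by
  rw [dec]

theorem dec_surj (φ : Fml) : ∃ n, dec n = φ := by
  induction φ with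
  | mem i j =>
    refine ⟨4 * Nat.pair i j + 1, ?_⟩
    rw [dec_succ]
    have h1 : (4 * Nat.pair i j) % 4 = 0 := by omega
    have h2 : (4 * Nat.pair i j) / 4 = Nat.pair i j := by omega
    rw [if_pos h1, h2, Nat.unpair_pair]
  | eq i j =>
    refine ⟨4 * Nat.pair i j + 1 + 1, ?_⟩
    rw [dec_succ]
    have h1 : (4 * Nat.pair i j + 1) % 4 = 1 := by omega
    have h2 : (4 * Nat.pair i j + 1) / 4 = Nat.pair i j := by omega
    rw [if_neg (by omega), if_pos h1, h2, Nat.unpair_pair]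
  | bot => exact ⟨0, dec_zero⟩
  | imp φ ψ ih1 ih2 =>
    obtain ⟨a, rfl⟩ := ih1
    obtain ⟨b, rfl⟩ := ih2
    refine ⟨4 * Nat.pair a b + 2 + 1, ?_⟩
    rw [dec_succ]
    have h1 : (4 * Nat.pair a b + 2) % 4 = 2 := by omega
    have h2 : (4 * Nat.pair a b + 2) / 4 = Nat.pair a b := by omega
    rw [if_neg (by omega), if_neg (by omega), if_pos h1, h2, Nat.unpair_pair]
  | all φ ih =>
    obtain ⟨a, rfl⟩ := ih
    refine ⟨4 * a + 3 + 1, ?_⟩
    rw [dec_succ]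
    have h2 : (4 * a + 3) / 4 = a := by omega
    rw [if_neg (by omega), if_neg (by omega), if_neg (by omega), h2]

/-- the definable subset with the parameters `p`, `q` -/
noncomputable def Dd (b : ZFSet.{0}) (n : ℕ) (p q : ZFSet.{0}) : ZFSet.{0} :=
  ZFSet.sep (fun z => SatB b (cns z (cns p fun _ => q)) (dec n)) b

theorem mem_Dd {b : ZFSet.{0}} {n : ℕ} {p q z : ZFSet.{0}} :
    z ∈ Dd b n p q ↔ z ∈ b ∧ SatB b (cns z (cns p fun _ => q)) (dec n) := ZFSet.mem_sep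

/-- the next level -/
noncomputable def Kst (b : ZFSet.{0}) : ZFSet.{0} :=
  ZFSet.sep (fun x => x ∈ b ∨ x = b ∨ ∃ (n : ℕ) (p q : ZFSet.{0}), p ∈ b ∧ q ∈ b ∧ x = Dd b n p q)
    (b ∪ ZFSet.powerset b)

theorem mem_Kst {b x : ZFSet.{0}} :
    x ∈ Kst b ↔ x ∈ b ∨ x = b ∨ ∃ (n : ℕ) (p q : ZFSet.{0}), p ∈ b ∧ q ∈ b ∧ x = Dd b n p q := by
  unfold Kst
  rw [ZFSet.mem_sep]
  constructor
  · exact fun h => h.2
  · intro h
    refine ⟨?_, h⟩
    rw [ZFSet.mem_union, ZFSet.mem_powerset]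
    rcases h with h | rfl | ⟨n, p, q, -, -, rfl⟩
    · exact Or.inl h
    · exact Or.inr fun _ h => h
    · exact Or.inr fun z hz => (mem_Dd.1 hz).1

theorem self_mem_Kst (b : ZFSet.{0}) : b ∈ Kst b := mem_Kst.2 (Or.inr (Or.inl rfl))

theorem sub_Kst {b x : ZFSet.{0}} (h : x ∈ b) : x ∈ Kst b := mem_Kst.2 (Or.inl h)

theorem Dd_mem_Kst {b p q : ZFSet.{0}} (n : ℕ) (hp : p ∈ b) (hq : q ∈ b) : Dd b n p q ∈ Kst b :=
  mem_Kst.2 (Or.inr (Or.inr ⟨n, p, q, hp, hq, rfl⟩))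

/-- the levels -/
def Lev : ZFSet.{0} → Prop :=
  ZFSet.mem_wf.fix fun a ih => ∀ x, x ∈ a ↔ ∃ (b : ZFSet.{0}) (h : b ∈ a), ih b h ∧ x ∈ Kst b

theorem lev_iff {a : ZFSet.{0}} : Lev a ↔ ∀ x, x ∈ a ↔ ∃ b, b ∈ a ∧ Lev b ∧ x ∈ Kst b := by
  unfold Lev
  rw [WellFounded.fix_eq]
  simp only [exists_prop]

/-- transitive sets -/
def Tr (a : ZFSet.{0}) : Prop := ∀ x ∈ a, ∀ y ∈ x, y ∈ a

theorem Kst_tr {b : ZFSet.{0}} (h : Tr b) : Tr (Kst b) := by
  intro x hx y hy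
  rcases mem_Kst.1 hx with h1 | rfl | ⟨n, p, q, -, -, rfl⟩
  · exact sub_Kst (h x h1 y hy)
  · exact sub_Kst hy
  · exact sub_Kst (mem_Dd.1 hy).1

/-- an element of `Kst b` is an element or a subset of `b` -/
theorem Kst_sub {b x : ZFSet.{0}} (h : Tr b) (hx : x ∈ Kst b) : ∀ y ∈ x, y ∈ b := by
  intro y hy
  rcases mem_Kst.1 hx with h1 | rfl | ⟨n, p, q, -, -, rfl⟩
  · exact h x h1 y hy
  · exact hy
  · exact (mem_Dd.1 hy).1

theorem Lev.tr {a : ZFSet.{0}} (h : Lev a) : Tr a := by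
  induction a using ZFSet.inductionOn with
  | _ a ih =>
    intro x hx y hy
    obtain ⟨b, hb, hb', hx⟩ := (lev_iff.1 h x).1 hx
    have := Kst_tr (ih b hb hb') x hx y hy
    exact (lev_iff.1 h y).2 ⟨b, hb, hb', this⟩

theorem Lev.kst {a b : ZFSet.{0}} (h : Lev a) (hb : b ∈ a) (hb' : Lev b) {x : ZFSet.{0}}
    (hx : x ∈ Kst b) : x ∈ a := (lev_iff.1 h x).2 ⟨b, hb, hb', hx⟩

/-- Levels are comparable. -/
theorem Lev.cmp {a b : ZFSet.{0}} (ha : Lev a) (hb : Lev b) : a ∈ b ∨ a = b ∨ b ∈ a := by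
  induction a using ZFSet.inductionOn generalizing b with
  | _ a iha =>
    induction b using ZFSet.inductionOn with
    | _ b ihb =>
      by_contra hcon
      push Not at hcon
      obtain ⟨h1, h2, h3⟩ := hcon
      apply h2
      ext x
      constructor
      · intro hx
        obtain ⟨c, hc, hc', hx⟩ := (lev_iff.1 ha x).1 hx
        rcases iha c hc hc' hb with h | h | h
        · exact hb.kst h hc' hx
        · exact absurd (h ▸ hc) h3
        · exact absurd (ha.tr c hc b h) h3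
      · intro hx
        obtain ⟨c, hc, hc', hx⟩ := (lev_iff.1 hb x).1 hx
        rcases ihb c hc hc' with h | h | h
        · exact absurd (hb.tr c hc a h) h1
        · exact absurd (h ▸ hc) h1
        · exact ha.kst h hc' hx

theorem Lev.sub_iff {a b : ZFSet.{0}} (ha : Lev a) (hb : Lev b) :
    (∀ x ∈ a, x ∈ b) ↔ a ∈ b ∨ a = b := by
  constructor
  · intro h
    rcases ha.cmp hb with h1 | h1 | h1
    · exact Or.inl h1
    · exact Or.inr h1
    · exact absurd (h b h1) (ZFSet.mem_irrefl b)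
  · rintro (h | rfl) x hx
    · exact hb.tr a h x hx
    · exact hx

/-- The union of a family of levels is a level. -/
theorem lev_of_union {u : ZFSet.{0}} (A : Set ZFSet.{0}) (hA : ∀ a ∈ A, Lev a)
    (hu : ∀ x, x ∈ u ↔ ∃ a ∈ A, x ∈ a) : Lev u := by
  rw [lev_iff]
  intro x
  constructor
  · intro hx
    obtain ⟨a, ha, hx⟩ := (hu x).1 hx
    obtain ⟨b, hb, hb', hx⟩ := (lev_iff.1 (hA a ha) x).1 hx
    exact ⟨b, (hu b).2 ⟨a, ha, hb⟩, hb', hx⟩
  · rintro ⟨b, hb, hb', hx⟩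
    obtain ⟨a, ha, hb⟩ := (hu b).1 hb
    exact (hu x).2 ⟨a, ha, (hA a ha).kst hb hb' hx⟩

theorem lev_empty : Lev ∅ := by
  rw [lev_iff]
  intro x
  constructor
  · intro h
    exact absurd h (ZFSet.notMem_empty x)
  · rintro ⟨b, hb, -⟩
    exact absurd hb (ZFSet.notMem_empty b)

/-- The next level is a level. -/
theorem Lev.next {b : ZFSet.{0}} (hb : Lev b) : Lev (Kst b) := by
  rw [lev_iff]
  intro x
  constructor
  · intro hx
    exact ⟨b, self_mem_Kst b, hb, hx⟩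
  · rintro ⟨c, hc, hc', hx⟩
    rcases hc'.cmp hb with h | rfl | h
    · exact sub_Kst (hb.kst h hc' hx)
    · exact hx
    · exact absurd (Kst_sub hb.tr hc b h) (ZFSet.mem_irrefl b)

/-- `Rk x b`: the element `x` occurs first in the level after `b`. -/
def Rk (x b : ZFSet.{0}) : Prop := Lev b ∧ x ∈ Kst b ∧ x ∉ b

/-- In a level every element `x` has a rank. -/
theorem Lev.exists_rk {a x : ZFSet.{0}} (h : Lev a) (hx : x ∈ a) : ∃ b, b ∈ a ∧ Rk x b := by
  induction a using ZFSet.inductionOn with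
  | _ a ih =>
    obtain ⟨b, hb, hb', hx'⟩ := (lev_iff.1 h x).1 hx
    by_cases hxb : x ∈ b
    · obtain ⟨c, hc, hc'⟩ := ih b hb hb' hxb
      exact ⟨c, h.tr b hb c hc, hc'⟩
    · exact ⟨b, hb, hb', hx', hxb⟩

theorem Rk.lev {x b : ZFSet.{0}} (h : Rk x b) : Lev b := h.1

/-- the rank of an element of a level belongs to the level -/
theorem Rk.mem {x b a : ZFSet.{0}} (h : Rk x b) (ha : Lev a) (hx : x ∈ a) : b ∈ a := by
  rcases h.1.cmp ha with h1 | rfl | h1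
  · exact h1
  · exact absurd hx h.2.2
  · exact absurd (h.1.tr a h1 x hx) h.2.2

theorem Rk.mem_of_mem {x b a : ZFSet.{0}} (h : Rk x b) (ha : Lev a) (hb : b ∈ a) : x ∈ a :=
  ha.kst hb h.1 h.2.1

theorem Rk.unique {x b c : ZFSet.{0}} (h : Rk x b) (h' : Rk x c) : b = c := by
  rcases h.1.cmp h'.1 with h1 | h1 | h1
  · exact absurd (h.mem_of_mem h'.1 h1) h'.2.2
  · exact h1
  · exact absurd (h'.mem_of_mem h.1 h1) h.2.2

/-- the rank of a level is the level itself -/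
theorem Lev.rk {a : ZFSet.{0}} (h : Lev a) : Rk a a :=
  ⟨h, self_mem_Kst a, ZFSet.mem_irrefl a⟩

/-- a level which occurs first after the level `b` is `b` -/
theorem Rk.eq_of_lev {a b : ZFSet.{0}} (h : Rk a b) (ha : Lev a) : a = b := ha.rk.unique h

/-- elements of `x` have smaller rank -/
theorem Rk.elt {x y b c : ZFSet.{0}} (h : Rk x b) (hy : y ∈ x) (h' : Rk y c) : c ∈ b :=
  h'.mem h.1 (Kst_sub h.1.tr h.2.1 y hy)

/-- the names of an element which occurs first after the level `b` -/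
theorem Rk.cases {x b : ZFSet.{0}} (h : Rk x b) :
    x = b ∨ ∃ (n : ℕ) (p q : ZFSet.{0}), p ∈ b ∧ q ∈ b ∧ x = Dd b n p q := by
  rcases mem_Kst.1 h.2.1 with h1 | h1 | h1
  · exact absurd h1 h.2.2
  · exact Or.inl h1
  · exact Or.inr h1

/-- the class of the elements of levels -/
def LL : Set ZFSet.{0} := {x | ∃ a, Lev a ∧ x ∈ a}

theorem LL_trans : Trans LL := by
  rintro x ⟨a, ha, hx⟩ y hy
  exact ⟨a, ha, ha.tr x hx y hy⟩

theorem Lev.mem_LL {a : ZFSet.{0}} (h : Lev a) : a ∈ LL := ⟨Kst a, h.next, self_mem_Kst a⟩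

theorem LL_rk {x : ZFSet.{0}} (h : x ∈ LL) : ∃ b, Rk x b := by
  obtain ⟨a, ha, hx⟩ := h
  obtain ⟨b, -, hb⟩ := ha.exists_rk hx
  exact ⟨b, hb⟩

/-- a small family of elements of `LL` is contained in a level -/
theorem LL_bound {ι : Type} (f : ι → ZFSet.{0}) (h : ∀ i, f i ∈ LL) :
    ∃ a, Lev a ∧ ∀ i, f i ∈ a := by
  choose g hg hg' using h
  refine ⟨ZFSet.iUnion g, lev_of_union (Set.range g) ?_ ?_, ?_⟩
  · rintro _ ⟨i, rfl⟩
    exact hg i
  · intro x
    rw [ZFSet.mem_iUnion]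
    simp
  · intro i
    rw [ZFSet.mem_iUnion]
    exact ⟨i, hg' i⟩

/-- the same for the elements of a set -/
theorem LL_bound_set (A : ZFSet.{0}) (f : ZFSet.{0} → ZFSet.{0}) (h : ∀ x ∈ A, f x ∈ LL) :
    ∃ a, Lev a ∧ ∀ x ∈ A, f x ∈ a := by
  obtain ⟨a, ha, h1⟩ := LL_bound (ι := Shrink.{0} A) (fun i => f ((equivShrink A).symm i : A).1)
    (fun i => h _ ((equivShrink A).symm i : A).2)
  refine ⟨a, ha, fun x hx => ?_⟩
  have := h1 (equivShrink A ⟨x, hx⟩)
  simpa using this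

end Pool.Agent.H.MP_a163f2_lc.L
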