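import Pool.Agent.H.MP_a163f2_lc.L.A1
import Pool.Agent.H.MP_07d118_lc.Df

/-!
# Block L, part A2: formulas: free variables, renaming, merging parameters
-/

set_option autoImplicit false

namespace Pool.Agent.H.MP_a163f2_lc.L

open Pool.Agent.H.MP_07d118_lc

/-- the free variables are below `n` -/
def Bd : ℕ → Fml → Prop
  | n, .mem i j => i < n ∧ j < n
  | n, .eq i j => i < n ∧ j < n
  | _, .bot => True
  | n, .imp φ ψ => Bd n φ ∧ Bd n ψ
  | n, .all φ => Bd (n + 1) φ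

theorem Bd.mono {φ : Fml} : ∀ {n m : ℕ}, Bd n φ → n ≤ m → Bd m φ := by
  induction φ with
  | mem i j => exact fun h hm => ⟨h.1.trans_le hm, h.2.trans_le hm⟩
  | eq i j => exact fun h hm => ⟨h.1.trans_le hm, h.2.trans_le hm⟩
  | bot => exact fun _ _ => trivial
  | imp φ ψ ih1 ih2 => exact fun h hm => ⟨ih1 h.1 hm, ih2 h.2 hm⟩
  | all φ ih => exact fun h hm => ih h (by omega)

theorem exists_bd (φ : Fml) : ∃ n, Bd n φ := by
  induction φ with
  | mem i j => exact ⟨max i j + 1, by show _ ∧ _; omega⟩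
  | eq i j => exact ⟨max i j + 1, by show _ ∧ _; omega⟩
  | bot => exact ⟨0, trivial⟩
  | imp φ ψ ih1 ih2 =>
    obtain ⟨a, ha⟩ := ih1
    obtain ⟨b, hb⟩ := ih2
    exact ⟨max a b, ha.mono (le_max_left _ _), hb.mono (le_max_right _ _)⟩
  | all φ ih =>
    obtain ⟨a, ha⟩ := ih
    exact ⟨a, Bd.mono (φ := φ) ha (Nat.le_succ _)⟩

theorem sat_bd {M : Type*} [SetStr M] {φ : Fml} : ∀ {n : ℕ}, Bd n φ → ∀ {v w : ℕ → M},
    (∀ i < n, v i = w i) → (Sat v φ ↔ Sat w φ) := by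
  induction φ with
  | mem i j =>
    intro n h v w e
    show v i ∈ v j ↔ w i ∈ w j
    rw [e i h.1, e j h.2]
  | eq i j =>
    intro n h v w e
    show v i = v j ↔ w i = w j
    rw [e i h.1, e j h.2]
  | bot => exact fun _ _ _ _ => Iff.rfl
  | imp φ ψ ih1 ih2 =>
    intro n h v w e
    show (Sat v φ → Sat v ψ) ↔ (Sat w φ → Sat w ψ)
    rw [ih1 h.1 e, ih2 h.2 e]
  | all φ ih =>
    intro n h v w e
    show (∀ x, Sat (cons x v) φ) ↔ ∀ x, Sat (cons x w) φ
    refine forall_congr' fun x => ih h fun i hi => ?_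
    cases i with
    | zero => rfl
    | succ i => exact e i (by omega)

theorem satB_bd {a : ZFSet.{0}} {φ : Fml} : ∀ {n : ℕ}, Bd n φ → ∀ {v w : ℕ → ZFSet.{0}},
    (∀ i < n, v i = w i) → (SatB a v φ ↔ SatB a w φ) := by
  induction φ with
  | mem i j =>
    intro n h v w e
    rw [satB_mem, satB_mem, e i h.1, e j h.2]
  | eq i j =>
    intro n h v w e
    rw [satB_eq, satB_eq, e i h.1, e j h.2]
  | bot => exact fun _ _ _ _ => Iff.rfl
  | imp φ ψ ih1 ih2 =>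
    intro n h v w e
    rw [satB_imp, satB_imp, ih1 h.1 e, ih2 h.2 e]
  | all φ ih =>
    intro n h v w e
    rw [satB_all, satB_all]
    refine forall_congr' fun x => forall_congr' fun _ => ih h fun i hi => ?_
    cases i with
    | zero => rfl
    | succ i => exact e i (by omega)

theorem satB_ren {a : ZFSet.{0}} (φ : Fml) : ∀ (ρ : ℕ → ℕ) (v : ℕ → ZFSet.{0}),
    SatB a v (φ.ren ρ) ↔ SatB a (fun i => v (ρ i)) φ := by
  induction φ with
  | mem i j => exact fun _ _ => Iff.rfl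
  | eq i j => exact fun _ _ => Iff.rfl
  | bot => exact fun _ _ => Iff.rfl
  | imp φ ψ ih1 ih2 =>
    intro ρ v
    show (SatB a v (φ.ren ρ) → SatB a v (ψ.ren ρ)) ↔ (_ → _)
    rw [ih1, ih2]
  | all φ ih =>
    intro ρ v
    show (∀ x ∈ a, SatB a (cns x v) (φ.ren (up ρ))) ↔ (∀ x ∈ a, SatB a (cns x _) φ)
    refine forall_congr' fun x => forall_congr' fun _ => ?_
    rw [ih]
    have : (fun i => cns x v (up ρ i)) = cns x (fun i => v (ρ i)) := by
      funext i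
      cases i <;> rfl
    rw [this]

theorem bd_ren {φ : Fml} : ∀ {n m : ℕ} {ρ : ℕ → ℕ}, Bd n φ → (∀ i < n, ρ i < m) →
    Bd m (φ.ren ρ) := by
  induction φ with
  | mem i j => exact fun h e => ⟨e i h.1, e j h.2⟩
  | eq i j => exact fun h e => ⟨e i h.1, e j h.2⟩
  | bot => exact fun _ _ => trivial
  | imp φ ψ ih1 ih2 => exact fun h e => ⟨ih1 h.1 e, ih2 h.2 e⟩
  | all φ ih =>
    intro n m ρ h e
    refine ih (n := n + 1) (m := m + 1) h fun i hi => ?_
    cases i with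
    | zero => exact Nat.succ_pos _
    | succ i => exact Nat.succ_lt_succ (e i (by omega))

/-! ### Abbreviations for formulas -/

def fneg (φ : Fml) : Fml := .imp φ .bot
def fconj (φ ψ : Fml) : Fml := fneg (Fml.imp φ (fneg ψ))
def fdisj (φ ψ : Fml) : Fml := .imp (fneg φ) ψ
def fequ (φ ψ : Fml) : Fml := fconj (Fml.imp φ ψ) (Fml.imp ψ φ)
def fexi (φ : Fml) : Fml := fneg (Fml.all (fneg φ))

section
variable {a : ZFSet.{0}} {v : ℕ → ZFSet.{0}} {φ ψ : Fml}

theorem satB_neg : SatB a v (fneg φ) ↔ ¬ SatB a v φ := Iff.rfl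
theorem satB_conj : SatB a v (fconj φ ψ) ↔ SatB a v φ ∧ SatB a v ψ := by
  show ((SatB a v φ → (SatB a v ψ → False)) → False) ↔ _
  tauto
theorem satB_disj : SatB a v (fdisj φ ψ) ↔ SatB a v φ ∨ SatB a v ψ := by
  show ((SatB a v φ → False) → SatB a v ψ) ↔ _
  tauto
theorem satB_equ : SatB a v (fequ φ ψ) ↔ (SatB a v φ ↔ SatB a v ψ) := by
  rw [fequ, satB_conj, satB_imp, satB_imp]
  tauto
theorem satB_exi : SatB a v (fexi φ) ↔ ∃ x ∈ a, SatB a (cns x v) φ := by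
  show ((∀ x ∈ a, (SatB a (cns x v) φ → False)) → False) ↔ _
  constructor
  · intro h
    by_contra hc
    exact h fun x hx hs => hc ⟨x, hx, hs⟩
  · rintro ⟨x, hx, hs⟩ h
    exact h x hx hs

end

section
variable {M : Type*} [SetStr M] {v : ℕ → M} {φ ψ : Fml}

theorem sat_neg : Sat v (fneg φ) ↔ ¬ Sat v φ := Iff.rfl
theorem sat_conj : Sat v (fconj φ ψ) ↔ Sat v φ ∧ Sat v ψ := by
  show ((Sat v φ → (Sat v ψ → False)) → False) ↔ _
  tauto
theorem sat_disj : Sat v (fdisj φ ψ) ↔ Sat v φ ∨ Sat v ψ := by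
  show ((Sat v φ → False) → Sat v ψ) ↔ _
  tauto
theorem sat_equ : Sat v (fequ φ ψ) ↔ (Sat v φ ↔ Sat v ψ) := by
  rw [fequ, sat_conj]
  show (Sat v φ → Sat v ψ) ∧ (Sat v ψ → Sat v φ) ↔ _
  tauto
theorem sat_exi : Sat v (fexi φ) ↔ ∃ x, Sat (cons x v) φ := by
  show ((∀ x, (Sat (cons x v) φ → False)) → False) ↔ _
  constructor
  · intro h
    by_contra hc
    exact h fun x hs => hc ⟨x, hs⟩
  · rintro ⟨x, hs⟩ h
    exact h x hs

end

theorem bd_neg {n : ℕ} {φ : Fml} (h : Bd n φ) : Bd n (fneg φ) := ⟨h, trivial⟩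
theorem bd_conj {n : ℕ} {φ ψ : Fml} (h : Bd n φ) (h' : Bd n ψ) : Bd n (fconj φ ψ) :=
  ⟨⟨h, ⟨h', trivial⟩⟩, trivial⟩
theorem bd_disj {n : ℕ} {φ ψ : Fml} (h : Bd n φ) (h' : Bd n ψ) : Bd n (fdisj φ ψ) :=
  ⟨⟨h, trivial⟩, h'⟩
theorem bd_equ {n : ℕ} {φ ψ : Fml} (h : Bd n φ) (h' : Bd n ψ) : Bd n (fequ φ ψ) :=
  bd_conj (φ := φ.imp ψ) (ψ := ψ.imp φ) ⟨h, h'⟩ ⟨h', h⟩
theorem bd_exi {n : ℕ} {φ : Fml} (h : Bd (n + 1) φ) : Bd n (fexi φ) := ⟨⟨h, trivial⟩, trivial⟩

/-- the formula `v_k = (v_i, v_j)` -/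
def pairF (k i j : ℕ) : Fml :=
  .all (fequ (.mem 0 (k + 1))
    (fdisj (.all (fequ (.mem 0 1) (.eq 0 (i + 2))))
      (.all (fequ (.mem 0 1) (fdisj (.eq 0 (i + 2)) (.eq 0 (j + 2)))))))

theorem bd_pairF {n k i j : ℕ} (hk : k < n) (hi : i < n) (hj : j < n) : Bd n (pairF k i j) := by
  unfold pairF
  refine bd_equ (n := n + 1) (φ := .mem 0 (k + 1)) ⟨by omega, by omega⟩ (bd_disj ?_ ?_)
  · exact bd_equ (n := n + 2) (φ := .mem 0 1) (ψ := .eq 0 (i + 2)) ⟨by omega, by omega⟩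
      ⟨by omega, by omega⟩
  · refine bd_equ (n := n + 2) (φ := .mem 0 1) ⟨by omega, by omega⟩ (bd_disj ?_ ?_)
    · exact (⟨by omega, by omega⟩ : Bd (n + 2) (.eq 0 (i + 2)))
    · exact (⟨by omega, by omega⟩ : Bd (n + 2) (.eq 0 (j + 2)))

theorem satB_pairF {b : ZFSet.{0}} (hb : Tr b)
    (hp : ∀ x ∈ b, ∀ y ∈ b, ZFSet.pair x y ∈ b) {k i j : ℕ} {v : ℕ → ZFSet.{0}}
    (hk : v k ∈ b) (hi : v i ∈ b) (hj : v j ∈ b) :
    SatB b v (pairF k i j) ↔ v k = ZFSet.pair (v i) (v j) := by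
  have h1 : ∀ w ∈ b, (∀ t ∈ b, (t ∈ w ↔ t = v i)) ↔ w = {v i} := by
    intro w hw
    constructor
    · intro h
      ext t
      rw [ZFSet.mem_singleton]
      constructor
      · intro ht
        exact (h t (hb w hw t ht)).1 ht
      · rintro rfl
        exact (h _ hi).2 rfl
    · rintro rfl t _
      exact ZFSet.mem_singleton
  have h2 : ∀ w ∈ b, (∀ t ∈ b, (t ∈ w ↔ t = v i ∨ t = v j)) ↔ w = {v i, v j} := by
    intro w hw
    constructor
    · intro h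
      ext t
      rw [ZFSet.mem_pair]
      constructor
      · intro ht
        exact (h t (hb w hw t ht)).1 ht
      · rintro (rfl | rfl)
        · exact (h _ hi).2 (Or.inl rfl)
        · exact (h _ hj).2 (Or.inr rfl)
    · rintro rfl t _
      exact ZFSet.mem_pair
  have h3 : SatB b v (pairF k i j) ↔ ∀ w ∈ b, (w ∈ v k ↔ w = {v i} ∨ w = {v i, v j}) := by
    unfold pairF
    rw [satB_all]
    refine forall_congr' fun w => forall_congr' fun hw => ?_
    rw [satB_equ, satB_mem, satB_disj, satB_all, satB_all]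
    simp only [satB_equ, satB_disj, satB_mem, satB_eq, cns_zero, cns_succ]
    rw [← h1 w hw, ← h2 w hw]
  rw [h3]
  have hpm := hp _ hi _ hj
  constructor
  · intro h
    ext w
    rw [ZFSet.pair, ZFSet.mem_pair]
    constructor
    · intro hw
      exact (h w (hb _ hk w hw)).1 hw
    · intro hw
      refine (h w (hb _ hpm w ?_)).2 hw
      rw [ZFSet.pair, ZFSet.mem_pair]
      exact hw
  · intro h w _
    rw [h, ZFSet.pair, ZFSet.mem_pair]

/-- Two parameters may be replaced by their ordered pair. -/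
theorem merge {b : ZFSet.{0}} (hb : Tr b) (hp : ∀ x ∈ b, ∀ y ∈ b, ZFSet.pair x y ∈ b) (φ : Fml) :
    ∃ ψ : Fml, (∀ n, Bd (n + 3) φ → Bd (n + 2) ψ) ∧
      ∀ z ∈ b, ∀ x ∈ b, ∀ y ∈ b, ∀ r : ℕ → ZFSet.{0}, (∀ i, r i ∈ b) →
      (SatB b (cns z (cns x (cns y r))) φ ↔ SatB b (cns z (cns (ZFSet.pair x y) r)) ψ) := by
  let ρ : ℕ → ℕ := fun i => Nat.casesOn i 2 fun i => Nat.casesOn i 1 fun i => Nat.casesOn i 0
    fun i => i + 4
  refine ⟨fexi (fexi (fconj (pairF 3 1 0) (φ.ren ρ))), ?_, ?_⟩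
  · intro n h
    refine bd_exi (bd_exi (bd_conj (bd_pairF (by omega) (by omega) (by omega)) ?_))
    refine bd_ren h fun i hi => ?_
    rcases i with _ | _ | _ | i
    · show 2 < n + 2 + 1 + 1
      omega
    · show 1 < n + 2 + 1 + 1
      omega
    · show 0 < n + 2 + 1 + 1
      omega
    · show i + 4 < n + 2 + 1 + 1
      omega
  · intro z hz x hx y hy r hr
    rw [satB_exi]
    have key : ∀ x' ∈ b, ∀ y' ∈ b,
        (SatB b (cns y' (cns x' (cns z (cns (ZFSet.pair x y) r)))) (fconj (pairF 3 1 0) (φ.ren ρ)) ↔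
        (x = x' ∧ y = y') ∧ SatB b (cns z (cns x' (cns y' r))) φ) := by
      intro x' hx' y' hy'
      rw [satB_conj, satB_pairF hb hp (hp x hx y hy) hx' hy', satB_ren]
      have h1 : (fun i => cns y' (cns x' (cns z (cns (ZFSet.pair x y) r))) (ρ i)) =
          cns z (cns x' (cns y' r)) := by
        funext i
        rcases i with _ | _ | _ | i <;> rfl
      rw [h1]
      refine and_congr ?_ Iff.rfl
      exact ZFSet.pair_inj
    constructor
    · intro h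
      refine ⟨x, hx, ?_⟩
      rw [satB_exi]
      exact ⟨y, hy, (key x hx y hy).2 ⟨⟨rfl, rfl⟩, h⟩⟩
    · rintro ⟨x', hx', h⟩
      rw [satB_exi] at h
      obtain ⟨y', hy', h⟩ := h
      obtain ⟨⟨rfl, rfl⟩, h⟩ := (key x' hx' y' hy').1 h
      exact h

/-- In a transitive set which is closed under ordered pairs one parameter is enough. -/
theorem one_param {b : ZFSet.{0}} (hb : Tr b) (hp : ∀ x ∈ b, ∀ y ∈ b, ZFSet.pair x y ∈ b)
    (φ : Fml) (v : ℕ → ZFSet.{0}) (hv : ∀ i, v i ∈ b) :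
    ∃ (n : ℕ) (p : ZFSet.{0}), p ∈ b ∧
      ∀ z ∈ b, (SatB b (cns z v) φ ↔ SatB b (cns z (cns p fun _ => p)) (dec n)) := by
  have key : ∀ (N : ℕ) (φ : Fml), Bd (N + 2) φ → ∀ v : ℕ → ZFSet.{0}, (∀ i, v i ∈ b) →
      ∃ (ψ : Fml) (p : ZFSet.{0}), p ∈ b ∧
      ∀ z ∈ b, (SatB b (cns z v) φ ↔ SatB b (cns z (cns p fun _ => p)) ψ) := by
    intro N
    induction N with
    | zero =>
      intro φ hφ v hv
      refine ⟨φ, v 0, hv 0, fun z _ => satB_bd hφ fun i hi => ?_⟩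
      rcases i with _ | _ | i
      · rfl
      · rfl
      · omega
    | succ N ih =>
      intro φ hφ v hv
      obtain ⟨ψ, h1, h2⟩ := merge hb hp φ
      obtain ⟨χ, p, hpb, h3⟩ := ih ψ (h1 N hφ)
        (cns (ZFSet.pair (v 0) (v 1)) fun i => v (i + 2)) (by
          intro i
          cases i with
          | zero => exact hp _ (hv 0) _ (hv 1)
          | succ i => exact hv _)
      refine ⟨χ, p, hpb, fun z hz => ?_⟩
      rw [← h3 z hz, ← h2 z hz (v 0) (hv 0) (v 1) (hv 1) (fun i => v (i + 2)) fun i => hv _]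
      have : cns z (cns (v 0) (cns (v 1) fun i => v (i + 2))) = cns z v := by
        funext i
        rcases i with _ | _ | _ | i <;> rfl
      rw [this]
  obtain ⟨N, hN⟩ := exists_bd φ
  obtain ⟨ψ, p, h1, h2⟩ := key N φ (hN.mono (by omega)) v hv
  obtain ⟨n, rfl⟩ := dec_surj ψ
  exact ⟨n, p, h1, h2⟩

end Pool.Agent.H.MP_a163f2_lc.L
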