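import Pool.Agent.H.MP_a163f2_lc.L.A2

/-!
# Block L, part A3: the class `LL` is a model of ZF
-/

set_option autoImplicit false

namespace Pool.Agent.H.MP_a163f2_lc.L

open Pool.Agent.H.MP_07d118_lc

/-- a formula for the pair `{p, q}` -/
theorem exists_pair_code : ∃ n, ∀ (b z p q : ZFSet.{0}),
    SatB b (cns z (cns p fun _ => q)) (dec n) ↔ z = p ∨ z = q := by
  obtain ⟨n, hn⟩ := dec_surj (fdisj (.eq 0 1) (.eq 0 2))
  refine ⟨n, fun b z p q => ?_⟩
  rw [hn, satB_disj]
  exact Iff.rfl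

theorem upair_mem_Kst {a x y : ZFSet.{0}} (hx : x ∈ a) (hy : y ∈ a) :
    ({x, y} : ZFSet.{0}) ∈ Kst a := by
  obtain ⟨n, hn⟩ := exists_pair_code
  have : ({x, y} : ZFSet.{0}) = Dd a n x y := by
    ext z
    rw [mem_Dd, hn, ZFSet.mem_pair]
    constructor
    · rintro (rfl | rfl)
      · exact ⟨hx, Or.inl rfl⟩
      · exact ⟨hy, Or.inr rfl⟩
    · exact fun h => h.2
  rw [this]
  exact Dd_mem_Kst n hx hy

theorem pair_mem_Kst {a x y : ZFSet.{0}} (hx : x ∈ a) (hy : y ∈ a) :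
    ZFSet.pair x y ∈ Kst (Kst a) := by
  unfold ZFSet.pair
  refine upair_mem_Kst ?_ (upair_mem_Kst hx hy)
  have := upair_mem_Kst hx hx
  rwa [ZFSet.pair_eq_singleton] at this

/-- the successor `x ∪ {x}` -/
theorem insert_mem_Kst {a x : ZFSet.{0}} (ha : Tr a) (hx : x ∈ a) :
    (insert x x : ZFSet.{0}) ∈ Kst a := by
  obtain ⟨n, hn⟩ := dec_surj (fdisj (.mem 0 1) (.eq 0 1))
  have : (insert x x : ZFSet.{0}) = Dd a n x x := by
    ext z
    rw [mem_Dd, hn, satB_disj, ZFSet.mem_insert_iff]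
    show _ ↔ z ∈ a ∧ (z ∈ x ∨ z = x)
    constructor
    · rintro (rfl | h)
      · exact ⟨hx, Or.inr rfl⟩
      · exact ⟨ha x hx z h, Or.inl h⟩
    · rintro ⟨-, h | h⟩
      · exact Or.inr h
      · exact Or.inl h
  rw [this]
  exact Dd_mem_Kst n hx hx

/-- finite-variable truncation: an assignment with values in an increasing union agrees on the
first `N` variables with an assignment with values in one of the sets -/
theorem exists_trunc {A : Type*} (P : ℕ → Set A) (hP : ∀ n, P n ⊆ P (n + 1)) (v : ℕ → A)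
    (hv : ∀ i, ∃ n, v i ∈ P n) (N : ℕ) :
    ∃ (w : ℕ → A) (n : ℕ), (∀ i < N, w i = v i) ∧ (∀ i, w i ∈ P n) ∧ ∀ i ≥ N, w i = v N := by
  have mono : ∀ m n, m ≤ n → P m ⊆ P n := fun m n h => by
    induction n, h using Nat.le_induction with
    | base => exact fun _ h => h
    | succ n _ ih => exact ih.trans (hP n)
  choose f hf using hv
  refine ⟨fun i => if i < N then v i else v N, (Finset.range (N + 1)).sup f, ?_, ?_, ?_⟩
  · intro i hi
    simp only [hi, if_true]
  · intro i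
    by_cases hi : i < N
    · simp only [hi, if_true]
      exact mono _ _ (Finset.le_sup (f := f) (Finset.mem_range.2 (by omega))) (hf i)
    · simp only [hi, if_false]
      exact mono _ _ (Finset.le_sup (f := f) (Finset.mem_range.2 (by omega))) (hf N)
  · intro i hi
    simp only [not_lt.2 hi, if_false]

/-- Reflection: above every level there is a level which is an elementary substructure of `LL`. -/
theorem exists_refl {c : ZFSet.{0}} (hc : Lev c) : ∃ b, Lev b ∧ c ∈ b ∧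
    (∀ x ∈ b, Kst x ∈ b ∨ ¬ Lev x) ∧ (∀ x ∈ b, ∀ y ∈ b, ZFSet.pair x y ∈ b) ∧
    (∀ x ∈ b, (insert x x : ZFSet.{0}) ∈ b) ∧
    ∀ (φ : Fml) (v : ℕ → LL), (∀ i, (v i).1 ∈ b) →
      (Sat v φ ↔ SatB b (fun i => (v i).1) φ) := by
  classical
  -- one step
  have step : ∀ a : ZFSet.{0}, Lev a → ∃ a', Lev a' ∧ a ∈ a' ∧ ∀ (φ : Fml) (v : ℕ → LL),
      (∀ i, (v i).1 ∈ a) → (∃ x : LL, ¬ Sat (cons x v) φ) →
      ∃ x : LL, x.1 ∈ a' ∧ ¬ Sat (cons x v) φ := by
    intro a ha
    have hin : ∀ x, x ∈ a → x ∈ LL := fun x hx => ⟨a, ha, hx⟩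
    let val : (ℕ → Shrink.{0} a) → ℕ → LL := fun g i =>
      ⟨((equivShrink a).symm (g i)).1, hin _ ((equivShrink a).symm (g i)).2⟩
    let F : ℕ × (ℕ → Shrink.{0} a) → ZFSet.{0} := fun y =>
      if h : ∃ x : LL, ¬ Sat (cons x (val y.2)) (dec y.1) then h.choose.1 else ∅
    have hF : ∀ y, F y ∈ LL := by
      intro y
      by_cases h : ∃ x : LL, ¬ Sat (cons x (val y.2)) (dec y.1)
      · simp only [F, dif_pos h]
        exact h.choose.2
      · simp only [F, dif_neg h]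
        exact lev_empty.mem_LL
    obtain ⟨a₁, h1, h2⟩ := LL_bound F hF
    have h3 : ∃ a', Lev a' ∧ a ∈ a' ∧ ∀ x ∈ a₁, x ∈ a' := by
      rcases ha.cmp h1 with h | rfl | h
      · exact ⟨a₁, h1, h, fun _ h => h⟩
      · exact ⟨Kst a, ha.next, self_mem_Kst a, fun _ h => sub_Kst h⟩
      · exact ⟨Kst a, ha.next, self_mem_Kst a, fun x hx => sub_Kst (ha.tr a₁ h x hx)⟩
    obtain ⟨a', h4, h5, h6⟩ := h3
    refine ⟨a', h4, h5, ?_⟩
    intro φ v hv hex
    obtain ⟨n, rfl⟩ := dec_surj φ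
    obtain ⟨g, rfl⟩ : ∃ g : ℕ → Shrink.{0} a, v = val g := by
      refine ⟨fun i => equivShrink a ⟨(v i).1, hv i⟩, ?_⟩
      funext i
      apply Subtype.ext
      simp [val]
    have h7 := h2 (n, g)
    have h8 : ∃ x : LL, ¬ Sat (cons x (val (n, g).2)) (dec (n, g).1) := hex
    refine ⟨⟨F (n, g), hF _⟩, h6 _ h7, ?_⟩
    have h9 := h8.choose_spec
    have h10 : (⟨F (n, g), hF _⟩ : LL) = h8.choose := by
      apply Subtype.ext
      simp only [F]
      rw [dif_pos h8]
    rw [h10]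
    exact h9
  choose! st hst1 hst2 hst3 using step
  obtain ⟨a, ha0, hasucc⟩ : ∃ a : ℕ → ZFSet.{0}, a 0 = c ∧ ∀ n, a (n + 1) = st (a n) :=
    ⟨fun n => Nat.rec c (fun _ x => st x) n, rfl, fun _ => rfl⟩
  have hlev : ∀ n, Lev (a n) := by
    intro n
    induction n with
    | zero => rw [ha0]; exact hc
    | succ n ih => rw [hasucc]; exact hst1 _ ih
  have hmem : ∀ n, a n ∈ a (n + 1) := fun n => by
    rw [hasucc]
    exact hst2 _ (hlev n)
  have hsub : ∀ n, ∀ x ∈ a n, x ∈ a (n + 1) := fun n x hx => (hlev (n + 1)).tr _ (hmem n) x hx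
  obtain ⟨b, hb⟩ : ∃ b : ZFSet.{0}, ∀ x, x ∈ b ↔ ∃ n, x ∈ a n :=
    ⟨ZFSet.iUnion a, fun x => ZFSet.mem_iUnion⟩
  have hblev : Lev b := by
    refine lev_of_union (Set.range a) ?_ ?_
    · rintro _ ⟨n, rfl⟩
      exact hlev n
    · intro x
      rw [hb]
      simp
  have hmono : ∀ m n, m ≤ n → ∀ x ∈ a m, x ∈ a n := fun m n h => by
    induction n, h using Nat.le_induction with
    | base => exact fun _ h => h
    | succ n _ ih => exact fun x hx => hsub n x (ih x hx)
  have hkst : ∀ n, ∀ x ∈ Kst (a n), x ∈ a (n + 1) := fun n x hx =>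
    (hlev (n + 1)).kst (hmem n) (hlev n) hx
  have htwo : ∀ x ∈ b, ∀ y ∈ b, ∃ n, x ∈ a n ∧ y ∈ a n := by
    intro x hx y hy
    obtain ⟨m, hm⟩ := (hb x).1 hx
    obtain ⟨n, hn⟩ := (hb y).1 hy
    exact ⟨max m n, hmono _ _ (le_max_left _ _) _ hm, hmono _ _ (le_max_right _ _) _ hn⟩
  refine ⟨b, hblev, ?_, ?_, ?_, ?_, ?_⟩
  · exact (hb c).2 ⟨1, by rw [← ha0]; exact hmem 0⟩
  · intro x hx
    by_cases hxl : Lev x
    · left
      obtain ⟨n, hn⟩ := (hb x).1 hx
      have h1 : Kst x ∈ Kst (a n) := by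
        rcases hxl.next.cmp (hlev n) with h | h | h
        · exact sub_Kst h
        · rw [h]; exact self_mem_Kst _
        · exfalso
          rcases mem_Kst.1 h with h | h | h
          · exact ZFSet.mem_asymm h hn
          · rw [h] at hn; exact ZFSet.mem_irrefl _ hn
          · obtain ⟨m, p, q, -, -, h⟩ := h
            rw [h] at hn
            exact ZFSet.mem_irrefl _ (mem_Dd.1 hn).1
      exact (hb _).2 ⟨n + 1, hkst n _ h1⟩
    · exact Or.inr hxl
  · intro x hx y hy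
    obtain ⟨n, h1, h2⟩ := htwo x hx y hy
    refine (hb _).2 ⟨n + 2, ?_⟩
    have h3 : ({x, x} : ZFSet.{0}) ∈ a (n + 1) := hkst n _ (upair_mem_Kst h1 h1)
    have h4 : ({x, y} : ZFSet.{0}) ∈ a (n + 1) := hkst n _ (upair_mem_Kst h1 h2)
    have h5 := hkst (n + 1) _ (upair_mem_Kst h3 h4)
    rw [ZFSet.pair_eq_singleton] at h5
    exact h5
  · intro x hx
    obtain ⟨n, hn⟩ := (hb x).1 hx
    exact (hb _).2 ⟨n + 1, hkst n _ (insert_mem_Kst (hlev n).tr hn)⟩
  · intro φ
    induction φ with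
    | mem i j =>
      intro v _
      exact Iff.rfl
    | eq i j =>
      intro v _
      exact Subtype.ext_iff
    | bot => exact fun _ _ => Iff.rfl
    | imp φ ψ ih1 ih2 =>
      intro v hv
      show (Sat v φ → Sat v ψ) ↔ _
      rw [satB_imp, ih1 v hv, ih2 v hv]
    | all φ ih =>
      intro v hv
      rw [satB_all]
      have key : ∀ x : LL, x.1 ∈ b → (Sat (cons x v) φ ↔ SatB b (cns x.1 fun i => (v i).1) φ) := by
        intro x hx
        rw [ih (cons x v) (fun i => by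
          cases i with
          | zero => exact hx
          | succ i => exact hv i), cons_eq_cns]
        have : (fun i => (cns x v i).1) = cns x.1 fun i => (v i).1 := cns_map Subtype.val x v
        rw [this]
      constructor
      · intro h x hx
        exact (key ⟨x, ⟨b, hblev, hx⟩⟩ hx).1 (h _)
      · intro h
        by_contra hcon
        have hcon : ∃ x : LL, ¬ Sat (cons x v) φ := not_forall.1 hcon
        obtain ⟨N, hN⟩ := exists_bd φ
        obtain ⟨w, n, hw1, hw2, -⟩ := exists_trunc (fun n => {x : LL | x.1 ∈ a n})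
          (fun n x hx => hsub n _ hx) v (fun i => (hb _).1 (hv i)) N
        have hag : ∀ x : LL, Sat (cons x w) φ ↔ Sat (cons x v) φ := by
          intro x
          refine sat_bd (hN.mono (Nat.le_succ N)) fun i hi => ?_
          cases i with
          | zero => rfl
          | succ i => exact hw1 i (by omega)
        obtain ⟨x, hx1, hx2⟩ := hst3 (a n) (hlev n) φ w hw2
          (hcon.imp fun x hx => by rwa [hag])
        rw [hag] at hx2
        rw [← hasucc] at hx1
        have hxb : x.1 ∈ b := (hb _).2 ⟨n + 1, hx1⟩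
        exact hx2 ((key x hxb).2 (h x.1 hxb))

/-- Separation in `LL`. -/
theorem LL_sep (a : LL) (φ : Fml) (v : ℕ → LL) :
    ∃ s : LL, ∀ z : LL, z ∈ s ↔ z ∈ a ∧ Sat (cons z v) φ := by
  obtain ⟨c, hc, hc'⟩ := LL_bound (ι := ℕ) (fun i => (cns a v i).1) (fun i => (cns a v i).2)
  obtain ⟨b, hb, hcb, -, hp, -, href⟩ := exists_refl hc
  have hv : ∀ i, (cns a v i).1 ∈ b := fun i => hb.tr c hcb _ (hc' i)
  let ρ : ℕ → ℕ := fun i => Nat.casesOn i 0 fun i => i + 2
  obtain ⟨n, p, hpb, hn⟩ := one_param hb.tr hp (fconj (.mem 0 1) (φ.ren ρ))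
    (fun i => (cns a v i).1) hv
  refine ⟨⟨Dd b n p p, ⟨Kst (Kst b), hb.next.next, sub_Kst (Dd_mem_Kst n hpb hpb)⟩⟩, ?_⟩
  intro z
  show z.1 ∈ Dd b n p p ↔ z.1 ∈ a.1 ∧ _
  have key : z.1 ∈ b → (SatB b (cns z.1 (cns p fun _ => p)) (dec n) ↔
      z.1 ∈ a.1 ∧ Sat (cons z v) φ) := by
    intro hz
    rw [← hn z.1 hz, satB_conj, satB_ren]
    refine and_congr Iff.rfl ?_
    rw [href φ (cons z v) (fun i => by
      cases i with
      | zero => exact hz
      | succ i => exact hv (i + 1))]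
    have : (fun i => cns z.1 (fun i => (cns a v i).1) (ρ i)) = fun i => (cons z v i).1 := by
      funext i
      cases i <;> rfl
    rw [this]
  constructor
  · intro h
    obtain ⟨h1, h2⟩ := mem_Dd.1 h
    exact (key h1).1 h2
  · intro h
    have hz : z.1 ∈ b := hb.tr _ (hv 0) _ h.1
    exact mem_Dd.2 ⟨hz, (key hz).2 h⟩

/-- The class `LL` is a model of ZF. -/
theorem LL_zf : ZF LL where
  ext := by
    intro a b h
    apply Subtype.ext
    ext x
    constructor
    · intro hx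
      exact (h ⟨x, LL_trans a.1 a.2 x hx⟩).1 hx
    · intro hx
      exact (h ⟨x, LL_trans b.1 b.2 x hx⟩).2 hx
  foundation := by
    rintro a ⟨x, hx⟩
    obtain ⟨y, hy, hy2⟩ := ZFSet.regularity a.1 (by
      rintro h
      have : x.1 ∈ a.1 := hx
      rw [h] at this
      exact ZFSet.notMem_empty _ this)
    refine ⟨⟨y, LL_trans a.1 a.2 y hy⟩, hy, ?_⟩
    rintro z ⟨h1, h2⟩
    have h3 : z.1 ∈ a.1 ∩ y := ZFSet.mem_inter.2 ⟨h2, h1⟩
    rw [hy2] at h3
    exact ZFSet.notMem_empty _ h3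
  pairing := by
    intro a b
    obtain ⟨c, hc, h1⟩ := LL_bound (ι := Bool) (fun i => if i then a.1 else b.1) (by
      intro i
      cases i
      · exact b.2
      · exact a.2)
    refine ⟨⟨{a.1, b.1}, ⟨Kst c, hc.next, upair_mem_Kst (h1 true) (h1 false)⟩⟩, fun x => ?_⟩
    show x.1 ∈ ({a.1, b.1} : ZFSet.{0}) ↔ _
    rw [ZFSet.mem_pair, Subtype.ext_iff, Subtype.ext_iff]
  union := by
    intro a
    obtain ⟨b, hb, ha⟩ := a.2
    obtain ⟨s, hs⟩ := LL_sep ⟨b, hb.mem_LL⟩ (fexi (fconj (.mem 0 2) (.mem 1 0))) (fun _ => a)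
    refine ⟨s, fun x => ?_⟩
    rw [hs, sat_exi]
    simp only [sat_conj]
    constructor
    · rintro ⟨-, y, h1, h2⟩
      exact ⟨y, h1, h2⟩
    · rintro ⟨y, h1, h2⟩
      exact ⟨hb.tr _ (hb.tr _ ha _ h1) _ h2, y, h1, h2⟩
  power := by
    intro a
    obtain ⟨b, hb, h1⟩ := LL_bound_set (ZFSet.powerset a.1)
      (fun x => open Classical in if x ∈ LL then x else ∅) (by
        intro x _
        by_cases h : x ∈ LL
        · simp only [h, if_true]
        · simp only [h, if_false]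
          exact lev_empty.mem_LL)
    obtain ⟨s, hs⟩ := LL_sep ⟨b, hb.mem_LL⟩ (.all (.imp (.mem 0 1) (.mem 0 2))) (fun _ => a)
    refine ⟨s, fun x => ?_⟩
    rw [hs]
    constructor
    · rintro ⟨-, h⟩
      exact h
    · intro h
      refine ⟨?_, h⟩
      show x.1 ∈ b
      have h2 := h1 x.1 (ZFSet.mem_powerset.2 fun y hy => h ⟨y, LL_trans _ x.2 y hy⟩ hy)
      simpa only [x.2, if_true] using h2
  infinity := by
    obtain ⟨b, hb, h1, -, -, h2, -⟩ := exists_refl lev_empty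
    refine ⟨⟨b, hb.mem_LL⟩, ⟨⟨∅, lev_empty.mem_LL⟩, ?_, h1⟩, ?_⟩
    · intro y hy
      exact ZFSet.notMem_empty y.1 hy
    · intro x hx
      refine ⟨⟨insert x.1 x.1, ⟨b, hb, h2 _ hx⟩⟩, ?_, h2 _ hx⟩
      intro z
      show z.1 ∈ (insert x.1 x.1 : ZFSet.{0}) ↔ _
      rw [ZFSet.mem_insert_iff, Subtype.ext_iff]
      exact or_comm
  separation := by
    intro φ v a
    exact LL_sep a φ v
  replacement := by
    intro φ v a h
    classical
    obtain ⟨b, hb, h1⟩ := LL_bound_set a.1 (fun x =>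
      if hx : x ∈ a.1 then (h ⟨x, LL_trans _ a.2 x hx⟩ hx).choose.1 else ∅) (by
        intro x hx
        simp only [hx, dif_pos]
        exact (h ⟨x, LL_trans _ a.2 x hx⟩ hx).choose.2)
    let ρ : ℕ → ℕ := fun i => Nat.casesOn i 1 fun i => Nat.casesOn i 0 fun i => i + 3
    obtain ⟨s, hs⟩ := LL_sep ⟨b, hb.mem_LL⟩ (fexi (fconj (.mem 0 2) (φ.ren ρ))) (cons a v)
    refine ⟨s, fun y => ?_⟩
    rw [hs, sat_exi]
    have key : ∀ x : LL, Sat (cons x (cons y (cons a v))) (fconj (.mem 0 2) (φ.ren ρ)) ↔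
        x ∈ a ∧ Sat (cons y (cons x v)) φ := by
      intro x
      rw [sat_conj, sat_ren]
      refine and_congr Iff.rfl ?_
      have : (fun i => cons x (cons y (cons a v)) (ρ i)) = cons y (cons x v) := by
        funext i
        rcases i with _ | _ | i <;> rfl
      rw [this]
    constructor
    · rintro ⟨-, x, hx⟩
      exact ⟨x, (key x).1 hx⟩
    · rintro ⟨x, hx, hy⟩
      refine ⟨?_, x, (key x).2 ⟨hx, hy⟩⟩
      show y.1 ∈ b
      have h2 := h1 x.1 hx
      have h3 : x.1 ∈ a.1 := hx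
      simp only [h3, dif_pos] at h2
      have h4 := (h x hx).choose_spec
      have h5 := h4.2 y hy
      rw [h5]
      exact h2

end Pool.Agent.H.MP_a163f2_lc.L
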