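import Pool.Agent.H.MP_a163f2_lc.L.A4

/-!
# Block L, part A5: a countable level which is a model of ZF
-/

set_option autoImplicit false

namespace Pool.Agent.H.MP_a163f2_lc.L

open Pool.Agent.H.MP_07d118_lc

/-- Closing a countable set under countably many finitary witnesses. -/
theorem exists_closed {A : Type*} (R : ℕ → (ℕ → A) → A → Prop) (e₀ : ℕ → A) :
    ∃ e : ℕ → A, (∀ i, ∃ j, e j = e₀ i) ∧ ∀ c v, (∀ i, ∃ j, e j = v i) → EC v →
      (∃ z, R c v z) → ∃ j, R c v (e j) := by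
  classical
  let G : ℕ → (ℕ → A) → A := fun c v => if h : ∃ z, R c v z then h.choose else e₀ 0
  have hG : ∀ c v, (∃ z, R c v z) → R c v (G c v) := by
    intro c v h
    simp only [G, dif_pos h]
    exact h.choose_spec
  obtain ⟨E, hE0, hE⟩ : ∃ E : ℕ → ℕ → A, E 0 = e₀ ∧ ∀ m, E (m + 1) = fun k =>
      if k % 2 = 0 then E m (k / 2) else
        G (Denumerable.ofNat (ℕ × List ℕ × ℕ) (k / 2)).1
          (pad ((Denumerable.ofNat (ℕ × List ℕ × ℕ) (k / 2)).2.1.map (E m))
            (E m (Denumerable.ofNat (ℕ × List ℕ × ℕ) (k / 2)).2.2)) :=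
    ⟨fun m => Nat.rec e₀ (fun _ F k =>
      if k % 2 = 0 then F (k / 2) else
        G (Denumerable.ofNat (ℕ × List ℕ × ℕ) (k / 2)).1
          (pad ((Denumerable.ofNat (ℕ × List ℕ × ℕ) (k / 2)).2.1.map F)
            (F (Denumerable.ofNat (ℕ × List ℕ × ℕ) (k / 2)).2.2))) m, rfl, fun _ => rfl⟩
  have hmono : ∀ m, Set.range (E m) ⊆ Set.range (E (m + 1)) := by
    rintro m _ ⟨k, rfl⟩
    refine ⟨2 * k, ?_⟩
    rw [hE]
    simp
  have hrange : ∀ m, ∀ x ∈ Set.range (E m), ∃ j : ℕ, E j.unpair.1 j.unpair.2 = x := by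
    rintro m _ ⟨k, rfl⟩
    exact ⟨Nat.pair m k, by simp⟩
  refine ⟨fun j => E j.unpair.1 j.unpair.2, ?_, ?_⟩
  · intro i
    refine hrange 0 _ ⟨i, ?_⟩
    rw [hE0]
  · intro c v hv hec hex
    obtain ⟨N, hN⟩ := hec
    obtain ⟨w, n, hw1, hw2, hw3⟩ := exists_trunc (fun m => Set.range (E m)) hmono v (fun i => by
      obtain ⟨j, hj⟩ := hv i
      exact ⟨j.unpair.1, j.unpair.2, hj⟩) N
    have hwv : w = v := by
      funext i
      by_cases hi : i < N
      · exact hw1 i hi
      · rw [hw3 i (not_lt.1 hi), hN i (not_lt.1 hi)]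
    rw [hwv] at hw2
    choose g hg using hw2
    have hpad : pad (((List.range N).map g).map (E n)) (E n (g N)) = v := by
      funext i
      unfold pad
      by_cases hi : i < N
      · rw [List.getD_eq_getElem _ _ (by simpa using hi)]
        simp [hg]
      · rw [List.getD_eq_default _ _ (by simpa using hi), hg, hN i (not_lt.1 hi)]
    obtain ⟨j, hj⟩ := hrange (n + 1) (E (n + 1)
      (2 * Encodable.encode (c, (List.range N).map g, g N) + 1)) ⟨_, rfl⟩
    refine ⟨j, ?_⟩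
    show R c v (E j.unpair.1 j.unpair.2)
    rw [hj, hE]
    have h1 : ¬ (2 * Encodable.encode (c, (List.range N).map g, g N) + 1) % 2 = 0 := by omega
    have h2 : (2 * Encodable.encode (c, (List.range N).map g, g N) + 1) / 2 =
        Encodable.encode (c, (List.range N).map g, g N) := by omega
    beta_reduce
    rw [if_neg h1, h2, Denumerable.ofNat_encode]
    show R c v (G c (pad (((List.range N).map g).map (E n)) (E n (g N))))
    rw [hpad]
    exact hG c v hex

/-- renamings used below -/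
def rh0 : ℕ → ℕ := fun i => Nat.casesOn i 0 fun i => i + 3
def rh1 : ℕ → ℕ := fun i => Nat.casesOn i 0 fun i => Nat.casesOn i 1 fun i => i + 3
def rh2 : ℕ → ℕ := fun i => Nat.casesOn i 0 fun i => Nat.casesOn i 2 fun i => i + 4
def rh3 : ℕ → ℕ := fun i => Nat.casesOn i 1 fun i => Nat.casesOn i 0 fun i => i + 4

theorem rh0_eq {K : Type*} (x b a : K) (v : ℕ → K) :
    (fun i => cons x (cons b (cons a v)) (rh0 i)) = cons x v := by
  funext i
  cases i <;> rfl

theorem rh1_eq {K : Type*} (y x a : K) (v : ℕ → K) :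
    (fun i => cons y (cons x (cons a v)) (rh1 i)) = cons y (cons x v) := by
  funext i
  rcases i with _ | _ | i <;> rfl

theorem rh2_eq {K : Type*} (y' y x a : K) (v : ℕ → K) :
    (fun i => cons y' (cons y (cons x (cons a v))) (rh2 i)) = cons y' (cons x v) := by
  funext i
  rcases i with _ | _ | i <;> rfl

theorem rh3_eq {K : Type*} (x y b a : K) (v : ℕ → K) :
    (fun i => cons x (cons y (cons b (cons a v))) (rh3 i)) = cons y (cons x v) := by
  funext i
  rcases i with _ | _ | i <;> rfl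

/-- An elementary image of a model of ZF is a model of ZF. -/
theorem zf_of_sat {M N : Type*} [SetStr M] [SetStr N] [ZF M] [Nonempty N]
    (key : ∀ φ : Fml, (∀ v : ℕ → M, Sat v φ) → ∀ v : ℕ → N, Sat v φ) : ZF N where
  ext a b h := by
    have := key (.imp (.all (fequ (.mem 0 1) (.mem 0 2))) (.eq 0 1)) (fun v hv =>
      ZF.ext _ _ fun x => sat_equ.1 (hv x)) (cons a fun _ => b)
    exact this fun x => sat_equ.2 (h x)
  foundation a h := by
    have := key (.imp (fexi (.mem 0 1)) (fexi (fconj (.mem 0 1)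
      (.all (fneg (fconj (.mem 0 1) (.mem 0 2))))))) (fun v hv => by
        obtain ⟨x, hx, hy⟩ := ZF.foundation (v 0) (sat_exi.1 hv)
        refine sat_exi.2 ⟨x, sat_conj.2 ⟨hx, fun y hxy => ?_⟩⟩
        exact hy y (sat_conj.1 hxy)) (fun _ => a)
    obtain ⟨x, hx⟩ := sat_exi.1 (this (sat_exi.2 h))
    obtain ⟨h1, h2⟩ := sat_conj.1 hx
    exact ⟨x, h1, fun y hy => h2 y (sat_conj.2 hy)⟩
  pairing a b := by
    have := key (fexi (.all (fequ (.mem 0 1) (fdisj (.eq 0 2) (.eq 0 3))))) (fun v => by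
      obtain ⟨c, hc⟩ := ZF.pairing (v 0) (v 1)
      refine sat_exi.2 ⟨c, fun x => sat_equ.2 ?_⟩
      rw [sat_disj]
      exact hc x) (cons a fun _ => b)
    obtain ⟨c, hc⟩ := sat_exi.1 this
    refine ⟨c, fun x => ?_⟩
    have h1 := sat_equ.1 (hc x)
    rw [sat_disj] at h1
    exact h1
  union a := by
    have := key (fexi (.all (fequ (.mem 0 1) (fexi (fconj (.mem 0 3) (.mem 1 0)))))) (fun v => by
      obtain ⟨c, hc⟩ := ZF.union (v 0)
      refine sat_exi.2 ⟨c, fun x => sat_equ.2 ?_⟩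
      rw [sat_exi]
      simp only [sat_conj]
      exact hc x) (fun _ => a)
    obtain ⟨c, hc⟩ := sat_exi.1 this
    refine ⟨c, fun x => ?_⟩
    have h1 := sat_equ.1 (hc x)
    rw [sat_exi] at h1
    simp only [sat_conj] at h1
    exact h1
  power a := by
    have := key (fexi (.all (fequ (.mem 0 1) (.all (.imp (.mem 0 1) (.mem 0 3)))))) (fun v => by
      obtain ⟨c, hc⟩ := ZF.power (v 0)
      exact sat_exi.2 ⟨c, fun x => sat_equ.2 (hc x)⟩) (fun _ => a)
    obtain ⟨c, hc⟩ := sat_exi.1 this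
    exact ⟨c, fun x => sat_equ.1 (hc x)⟩
  infinity := by
    obtain ⟨a0⟩ : Nonempty N := inferInstance
    have := key (fexi (fconj (fexi (fconj (.all (fneg (.mem 0 1))) (.mem 0 1)))
      (.all (.imp (.mem 0 1) (fexi (fconj (.all (fequ (.mem 0 1) (fdisj (.mem 0 2) (.eq 0 2))))
        (.mem 0 2))))))) (fun v => by
        obtain ⟨a, ⟨z, hz, hza⟩, h2⟩ := ZF.infinity (M := M)
        refine sat_exi.2 ⟨a, sat_conj.2 ⟨sat_exi.2 ⟨z, sat_conj.2 ⟨hz, hza⟩⟩, fun x hx => ?_⟩⟩
        obtain ⟨y, hy, hya⟩ := h2 x hx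
        refine sat_exi.2 ⟨y, sat_conj.2 ⟨fun t => sat_equ.2 ?_, hya⟩⟩
        rw [sat_disj]
        exact hy t) (fun _ => a0)
    obtain ⟨a, ha⟩ := sat_exi.1 this
    obtain ⟨h1, h2⟩ := sat_conj.1 ha
    obtain ⟨z, hz⟩ := sat_exi.1 h1
    obtain ⟨hz1, hz2⟩ := sat_conj.1 hz
    refine ⟨a, ⟨z, hz1, hz2⟩, fun x hx => ?_⟩
    obtain ⟨y, hy⟩ := sat_exi.1 (h2 x hx)
    obtain ⟨hy1, hy2⟩ := sat_conj.1 hy
    refine ⟨y, fun t => ?_, hy2⟩
    have h3 := sat_equ.1 (hy1 t)
    rw [sat_disj] at h3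
    exact h3
  separation φ v a := by
    have := key (fexi (.all (fequ (.mem 0 1) (fconj (.mem 0 2) (φ.ren rh0))))) (fun w => by
      obtain ⟨b, hb⟩ := ZF.separation φ (fun i => w (i + 1)) (w 0)
      have hw : w = cons (w 0) (fun i => w (i + 1)) := by
        funext i
        cases i <;> rfl
      refine sat_exi.2 ⟨b, fun x => sat_equ.2 ?_⟩
      rw [sat_conj, sat_ren]
      rw [hw, rh0_eq]
      exact hb x) (cons a v)
    obtain ⟨b, hb⟩ := sat_exi.1 this
    refine ⟨b, fun x => ?_⟩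
    have h1 := sat_equ.1 (hb x)
    rw [sat_conj, sat_ren, rh0_eq] at h1
    exact h1
  replacement φ v a h := by
    have := key (.imp
      (.all (.imp (.mem 0 1) (fexi (fconj (φ.ren rh1) (.all (.imp (φ.ren rh2) (.eq 0 1)))))))
      (fexi (.all (fequ (.mem 0 1) (fexi (fconj (.mem 0 3) (φ.ren rh3))))))) (fun w hw => by
      have hw' : w = cons (w 0) (fun i => w (i + 1)) := by
        funext i
        cases i <;> rfl
      rw [hw'] at hw
      obtain ⟨b, hb⟩ := ZF.replacement φ (fun i => w (i + 1)) (w 0) (by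
        intro x hx
        obtain ⟨y, hy⟩ := sat_exi.1 (hw x hx)
        obtain ⟨hy1, hy2⟩ := sat_conj.1 hy
        rw [sat_ren, rh1_eq] at hy1
        refine ⟨y, hy1, fun y' hy' => ?_⟩
        refine hy2 y' ?_
        rw [sat_ren, rh2_eq]
        exact hy')
      rw [hw']
      refine sat_exi.2 ⟨b, fun y => sat_equ.2 ?_⟩
      rw [sat_exi]
      simp only [sat_conj, sat_ren, rh3_eq]
      exact hb y) (cons a v)
    have h4 := this (fun x hx => by
      obtain ⟨y, hy, hy'⟩ := h x hx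
      refine sat_exi.2 ⟨y, sat_conj.2 ⟨?_, fun y' hy'' => ?_⟩⟩
      · rw [sat_ren, rh1_eq]
        exact hy
      · rw [sat_ren, rh2_eq] at hy''
        exact hy' y' hy'')
    obtain ⟨b, hb⟩ := sat_exi.1 h4
    refine ⟨b, fun y => ?_⟩
    have h5 := sat_equ.1 (hb y)
    rw [sat_exi] at h5
    simp only [sat_conj, sat_ren, rh3_eq] at h5
    exact h5

end Pool.Agent.H.MP_a163f2_lc.L
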