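import Pool.Agent.H.MP_a163f2_lc.L.A5

/-!
# Block L, part A6: existence of the countable level which is a model of ZF
-/

set_option autoImplicit false

namespace Pool.Agent.H.MP_a163f2_lc.L

open Pool.Agent.H.MP_07d118_lc

theorem wit_LL {c : ℕ} {v : ℕ → ZFSet.{0}} {z : ZFSet.{0}} (hv : ∀ i, v i ∈ LL)
    (h : Wit c v z) : z ∈ LL := by
  rcases h with ⟨-, h⟩ | ⟨-, b, hb, hz, -⟩ | ⟨-, b, hb, -, hz, -⟩ | ⟨-, h1, h2, h3, h⟩ | ⟨-, h⟩ |
    ⟨-, h, -⟩
  · exact h.1.mem_LL
  · exact ⟨b, hb.1, hz⟩
  · exact ⟨b, hb.1, hz⟩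
  · rw [h]
    exact ⟨_, h1.next, Dd_mem_Kst _ h2 h3⟩
  · by_cases h0 : z ∈ v 0
    · exact LL_trans _ (hv 0) _ h0
    · have h1 : z ∈ v 1 := by
        by_contra h1
        exact h ⟨fun h => absurd h h0, fun h => absurd h h1⟩
      exact LL_trans _ (hv 1) _ h1
  · exact LL_trans _ (hv 0) _ h

/-- There is a countable level which is a model of ZF. -/
theorem exists_zf_level : ∃ s : ZFSet.{0}, Lev s ∧ {x : ZFSet.{0} | x ∈ s}.Countable ∧
    ZF {x : ZFSet.{0} | x ∈ s} := by
  have hLL := LL_zf
  let R : ℕ → (ℕ → LL) → LL → Prop := fun c v z =>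
    if c % 2 = 0 then Wit (c / 2) (fun i => (v i).1) z.1 else ¬ Sat (cons z v) (dec (c / 2))
  obtain ⟨e, -, he⟩ := exists_closed R (fun _ => ⟨∅, lev_empty.mem_LL⟩)
  obtain ⟨X, hXdef⟩ : ∃ X : Set ZFSet.{0}, X = Set.range fun j => (e j).1 := ⟨_, rfl⟩
  have hmemX : ∀ j, (e j).1 ∈ X := fun j => by rw [hXdef]; exact ⟨j, rfl⟩
  have hL : X ⊆ LL := by
    rw [hXdef]
    rintro _ ⟨j, rfl⟩
    exact (e j).2
  have hX : Clo X := by
    rintro c v hv hec ⟨z, hz⟩
    have hvL : ∀ i, v i ∈ LL := fun i => hL (hv i)
    obtain ⟨j, hj⟩ := he (2 * c) (fun i => ⟨v i, hvL i⟩) (fun i => by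
      have := hv i
      rw [hXdef] at this
      obtain ⟨j, hj⟩ := this
      exact ⟨j, Subtype.ext hj⟩) (by
      obtain ⟨N, hN⟩ := hec
      exact ⟨N, fun i hi => Subtype.ext (hN i hi)⟩) ⟨⟨z, wit_LL hvL hz⟩, by
        simp only [R]
        rw [if_pos (by omega), show 2 * c / 2 = c by omega]
        exact hz⟩
    simp only [R] at hj
    rw [if_pos (by omega), show 2 * c / 2 = c by omega] at hj
    exact ⟨(e j).1, hmemX j, hj⟩
  obtain ⟨u, -, hu⟩ := LL_bound (ι := ℕ) (fun j => (e j).1) (fun j => (e j).2)
  have hXu : ∀ x ∈ X, x ∈ u := by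
    rw [hXdef]
    rintro _ ⟨j, rfl⟩
    exact hu j
  have hs : ∀ y, y ∈ col X u ↔ ∃ j, col X (e j).1 = y := by
    intro y
    rw [mem_col]
    constructor
    · rintro ⟨z, -, hz, rfl⟩
      rw [hXdef] at hz
      obtain ⟨j, rfl⟩ := hz
      exact ⟨j, rfl⟩
    · rintro ⟨j, rfl⟩
      exact ⟨_, hu j, hmemX j, rfl⟩
  refine ⟨col X u, hX.col_top hL hXu, ?_, ?_⟩
  · refine (Set.countable_range fun j => col X (e j).1).mono ?_
    intro y hy
    exact (hs y).1 hy
  · let g : ℕ → {x : ZFSet.{0} | x ∈ col X u} := fun j => ⟨col X (e j).1, (hs _).2 ⟨j, rfl⟩⟩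
    have hg : Function.Surjective g := by
      rintro ⟨y, hy⟩
      obtain ⟨j, hj⟩ := (hs y).1 hy
      exact ⟨j, Subtype.ext hj⟩
    have key : ∀ (φ : Fml) (w : ℕ → ℕ), Sat (fun i => g (w i)) φ ↔ Sat (fun i => e (w i)) φ := by
      intro φ
      induction φ with
      | mem i j =>
        intro w
        exact hX.col_mem (hmemX _)
      | eq i j =>
        intro w
        constructor
        · intro h
          exact Subtype.ext (hX.col_inj (hmemX _) (hmemX _) (congrArg Subtype.val h))
        · intro h
          exact Subtype.ext (congrArg (fun x : LL => col X x.1) h)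
      | bot => exact fun _ => Iff.rfl
      | imp φ ψ ih1 ih2 =>
        intro w
        show (Sat _ φ → Sat _ ψ) ↔ (Sat _ φ → Sat _ ψ)
        rw [ih1 w, ih2 w]
      | all φ ih =>
        intro w
        have h1 : ∀ j, (Sat (cons (g j) fun i => g (w i)) φ ↔ Sat (cons (e j) fun i => e (w i)) φ) := by
          intro j
          have := ih (cons j w)
          have e1 : (fun i => g (cons j w i)) = cons (g j) fun i => g (w i) := by
            funext i
            cases i <;> rfl
          have e2 : (fun i => e (cons j w i)) = cons (e j) fun i => e (w i) := by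
            funext i
            cases i <;> rfl
          rwa [e1, e2] at this
        constructor
        · intro h
          by_contra hcon
          have hcon : ∃ x : LL, ¬ Sat (cons x fun i => e (w i)) φ := not_forall.1 hcon
          obtain ⟨N, hN⟩ := exists_bd φ
          obtain ⟨n, rfl⟩ := dec_surj φ
          have hag : ∀ x : LL, Sat (cons x (fun i => e (if i < N then w i else w N))) (dec n) ↔
              Sat (cons x fun i => e (w i)) (dec n) := by
            intro x
            refine sat_bd (hN.mono (Nat.le_succ N)) fun i hi => ?_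
            cases i with
            | zero => rfl
            | succ i =>
              show e (if i < N then w i else w N) = e (w i)
              rw [if_pos (by omega)]
          obtain ⟨j, hj⟩ := he (2 * n + 1) (fun i => e (if i < N then w i else w N))
            (fun i => ⟨_, rfl⟩) ⟨N, fun i hi => by
              beta_reduce
              rw [if_neg (not_lt.2 hi), if_neg (lt_irrefl N)]⟩ (by
              obtain ⟨x, hx⟩ := hcon
              refine ⟨x, ?_⟩
              simp only [R]
              rw [if_neg (by omega), show (2 * n + 1) / 2 = n by omega, hag]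
              exact hx)
          simp only [R] at hj
          rw [if_neg (by omega), show (2 * n + 1) / 2 = n by omega, hag] at hj
          exact hj ((h1 j).1 (h (g j)))
        · intro h y
          obtain ⟨j, rfl⟩ := hg y
          exact (h1 j).2 (h (e j))
    haveI : Nonempty {x : ZFSet.{0} | x ∈ col X u} := ⟨g 0⟩
    refine zf_of_sat (M := LL) fun φ hφ v => ?_
    choose w hw using fun i => hg (v i)
    have : v = fun i => g (w i) := funext fun i => (hw i).symm
    rw [this, key]
    exact hφ _

end Pool.Agent.H.MP_a163f2_lc.L
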