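import Pool.Agent.H.MP_a163f2_lc.L.B0

/-!
# Block L, part B1: internal satisfaction
-/

set_option autoImplicit false
set_option linter.unusedSectionVars false

namespace Pool.Agent.H.MP_a163f2_lc.L

open Pool.Agent.H.MP_07d118_lc

universe u v w x

section model

variable {s : ZFSet.{0}} [G : GM s]

/-- structures in `u` with assignments -/
abbrev Asg (u : St s) : Type 1 := El u × IFn (St s) ℕ (El u)

/-- the recursion step for the satisfaction relation -/
def satStep (u : St s) (y : ℕ × ISet (St s) (ℕ × ISet (St s) (Asg u))) (z : Asg u) : Prop :=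
  ∃ k : ℕ, y.1 = k + 1 ∧
      ((k % 4 = 0 ∧ (z.2.1 (k / 4).unpair.1).1 ∈ (z.2.1 (k / 4).unpair.2).1) ∨
      (k % 4 = 1 ∧ (z.2.1 (k / 4).unpair.1).1 = (z.2.1 (k / 4).unpair.2).1) ∨
      (k % 4 = 2 ∧ ((∃ B : ISet (St s) (Asg u), ((k / 4).unpair.1, B) ∈ y.2 ∧ z ∈ B) →
        (∃ B : ISet (St s) (Asg u), ((k / 4).unpair.2, B) ∈ y.2 ∧ z ∈ B))) ∨
      (k % 4 = 3 ∧ ∀ x : El u, x.1 ∈ z.1.1 →
        ∃ B : ISet (St s) (Asg u), (k / 4, B) ∈ y.2 ∧ (z.1, cnsI x z.2) ∈ B))

theorem in_satStep (u : St s) : In (St s)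
    (fun t : (ℕ × ISet (St s) (ℕ × ISet (St s) (Asg u))) × Asg u => satStep u t.1 t.2) := by
  unfold satStep
  apply_rules (transparency := .reducible) [In.and, In.or, In.imp, In.ex, In.all]
  all_goals fun_prop

theorem in_satB (u : St s) (hu : Tr u.1) :
    In (St s) (fun y : (El u × IFn (St s) ℕ (El u)) × ℕ =>
      SatB y.1.1.1.1 (fun i => (y.1.2.1 i).1.1) (dec y.2)) := by
  obtain ⟨H, hH, hrec⟩ := exists_rec (M := St s) (W := ℕ) (T := ISet (St s) (Asg u))
    (lt := fun a b : ℕ => a < b) In.lt0 wellFounded_lt (fun _ _ _ => lt_trans)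
    (Φ := fun y => ISet.sec (P := satStep u) (in_satStep u) y) (IF.sec (in_satStep u))
  have key : ∀ n : ℕ, ∀ y : Asg u, y ∈ H n ↔ SatB y.1.1.1 (fun i => (y.2.1 i).1.1) (dec n) := by
    intro n
    induction n using Nat.strong_induction_on with
    | _ n ih =>
      rintro ⟨a, v⟩
      obtain ⟨hin, hn⟩ := hrec n
      have hprev : ∀ m < n, ∀ y : Asg u, (∃ B : ISet (St s) (Asg u), (m, B) ∈ ISet.mk hin ∧ y ∈ B) ↔
          SatB y.1.1.1 (fun i => (y.2.1 i).1.1) (dec m) := by
        intro m hm y
        rw [← ih m hm y]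
        constructor
        · rintro ⟨B, ⟨-, h1⟩, h2⟩
          have h1 : H m = B := h1
          rw [h1]
          exact h2
        · intro h
          exact ⟨H m, ⟨hm, rfl⟩, h⟩
      rw [hn]
      rcases n with _ | k
      · rw [dec_zero]
        constructor
        · rintro ⟨k, hk, -⟩
          exact absurd hk (Nat.succ_ne_zero k).symm
        · exact fun h => h.elim
      · rw [dec_succ]
        have hk4 : k / 4 < k + 1 := Nat.lt_succ_of_le (Nat.div_le_self k 4)
        have hk1 : (k / 4).unpair.1 < k + 1 :=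
          Nat.lt_succ_of_le ((Nat.unpair_left_le _).trans (Nat.div_le_self k 4))
        have hk2 : (k / 4).unpair.2 < k + 1 :=
          Nat.lt_succ_of_le ((Nat.unpair_right_le _).trans (Nat.div_le_self k 4))
        have hmem : ((a, v) ∈ ISet.sec (in_satStep u) (k + 1, ISet.mk hin) ↔
            ((k % 4 = 0 ∧ (v.1 (k / 4).unpair.1).1 ∈ (v.1 (k / 4).unpair.2).1) ∨
            (k % 4 = 1 ∧ (v.1 (k / 4).unpair.1).1 = (v.1 (k / 4).unpair.2).1) ∨
            (k % 4 = 2 ∧ ((∃ B : ISet (St s) (Asg u), ((k / 4).unpair.1, B) ∈ ISet.mk hin ∧ (a, v) ∈ B) →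
              (∃ B : ISet (St s) (Asg u), ((k / 4).unpair.2, B) ∈ ISet.mk hin ∧ (a, v) ∈ B))) ∨
            (k % 4 = 3 ∧ ∀ x : El u, x.1 ∈ a.1 →
              ∃ B : ISet (St s) (Asg u), (k / 4, B) ∈ ISet.mk hin ∧ (a, cnsI x v) ∈ B))) := by
          constructor
          · rintro ⟨k', hk', h⟩
            obtain rfl : k = k' := by
              have : k + 1 = k' + 1 := hk'
              omega
            exact h
          · intro h
            exact ⟨k, rfl, h⟩
        rw [hmem, hprev _ hk1, hprev _ hk2]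
        simp only [hprev _ hk4]
        have h4 : k % 4 < 4 := Nat.mod_lt _ (by norm_num)
        obtain ⟨r, hr⟩ : ∃ r, r = k % 4 := ⟨_, rfl⟩
        rw [← hr] at h4 ⊢
        interval_cases r
        · simp only [if_true]
          simp only [true_and, false_and, or_false, OfNat.zero_ne_ofNat, zero_ne_one]
          exact Iff.rfl
        · simp only [one_ne_zero, if_false, if_true, true_and, false_and, or_false, false_or,
            OfNat.one_ne_ofNat]
          exact Subtype.ext_iff
        · simp only [OfNat.ofNat_ne_zero, OfNat.ofNat_ne_one, if_false, if_true, true_and,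
            false_and, or_false, false_or, Nat.reduceEqDiff]
          exact Iff.rfl
        · simp only [OfNat.ofNat_ne_zero, OfNat.ofNat_ne_one, if_false, true_and,
            false_and, false_or, Nat.reduceEqDiff]
          rw [satB_all]
          have hc : ∀ x : El u, (fun i => ((cnsI x v).1 i).1.1) = cns x.1.1 fun i => (v.1 i).1.1 :=
            fun x => cns_map (fun t : El u => t.1.1) x v.1
          constructor
          · intro h x hx
            have := h (toEl x (hu _ a.2 _ hx)) hx
            rwa [hc] at this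
          · intro h x hx
            rw [hc]
            exact h x.1.1 hx
  refine In.congr (P := fun y : Asg u × ℕ => y.1 ∈ H y.2) (by fun_prop) fun y => ?_
  exact (key y.2 y.1).symm

end model

end Pool.Agent.H.MP_a163f2_lc.L
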