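import Pool.Agent.H.MP_a163f2_lc.L.B1

/-!
# Block L, part B2: levels and ranks are internal
-/

set_option autoImplicit false
set_option linter.unusedSectionVars false

namespace Pool.Agent.H.MP_a163f2_lc.L

open Pool.Agent.H.MP_07d118_lc

universe u v w x

section

variable {M : Type u} [SetStr M] [ZF M] [Std M] {T : Type v} {S : Type w} [Cd M T] [Cd M S]

/-- constant assignments -/
noncomputable def cstI (x : T) : IFn M ℕ T := ⟨fun _ => x, IF.const x⟩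

@[fun_prop] theorem IF.cstI' {f : S → T} (hf : IF M f) :
    IF M (fun y => (cstI (f y) : IFn M ℕ T)) := by
  refine IF.of_app ?_
  exact IF.comp hf IF.fst

/-- passing to a smaller set -/
theorem In.restrict {a b : M} {P : M → Prop} (h : In M (fun x : El b => P x.1)) :
    In M (fun x : El a => x.1 ∈ b ∧ P x.1) := by
  obtain ⟨r, hr⟩ := h
  refine In.of_df (R := fun x => x ∈ b ∧ x ∈ r) ((Df.mem (DfF.var 0) (DfF.const _)).and
    (Df.mem (DfF.var 0) (DfF.const _))) fun x => ?_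
  refine and_congr_right fun hx => ?_
  exact (hr ⟨x.1, hx⟩).symm

end

section model

variable {s : ZFSet.{0}} [G : GM s] {T : Type v} [Cd (St s) T]

/-- the element `u` of the model is a level -/
class Lv (u : St s) : Prop where
  lev : Lev u.1

variable {u : St s} [hu : Lv u]

theorem Lv.tr (u : St s) [hu : Lv u] : Tr u.1 := hu.lev.tr

@[fun_prop] theorem In.mem_Dd {fz fb fp fq : T → El u} {fn : T → ℕ} (hz : IF (St s) fz)
    (hb : IF (St s) fb) (hn : IF (St s) fn) (hp : IF (St s) fp) (hq : IF (St s) fq) :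
    In (St s) (fun t => (fz t).1.1 ∈ Dd (fb t).1.1 (fn t) (fp t).1.1 (fq t).1.1) := by
  have h1 := (in_satB u (Lv.tr u)).comp (f := fun t : T =>
    ((fb t, cnsI (fz t) (cnsI (fp t) (cstI (fq t)))), fn t)) (by fun_prop)
  refine In.congr ((In.vmem hz hb).and h1) fun t => ?_
  rw [L.mem_Dd]
  refine and_congr Iff.rfl ?_
  have : (fun i => ((cnsI (fz t) (cnsI (fp t) (cstI (fq t)) : IFn (St s) ℕ (El u))).1 i).1.1) =
      cns (fz t).1.1 (cns (fp t).1.1 fun _ => (fq t).1.1) := by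
    funext i
    rcases i with _ | _ | i <;> rfl
  show _ ↔ SatB (fb t).1.1 (fun i => ((cnsI (fz t) (cnsI (fp t) (cstI (fq t)) :
    IFn (St s) ℕ (El u))).1 i).1.1) (dec (fn t))
  rw [this]

@[fun_prop] theorem In.eq_Dd {fx fb fp fq : T → El u} {fn : T → ℕ} (hx : IF (St s) fx)
    (hb : IF (St s) fb) (hn : IF (St s) fn) (hp : IF (St s) fp) (hq : IF (St s) fq) :
    In (St s) (fun t => (fx t).1.1 = Dd (fb t).1.1 (fn t) (fp t).1.1 (fq t).1.1) := by
  have h1 : In (St s) (fun t => ∀ z : El u, (z.1.1 ∈ (fx t).1.1 ↔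
      z.1.1 ∈ Dd (fb t).1.1 (fn t) (fp t).1.1 (fq t).1.1)) := by
    apply_rules (transparency := .reducible) [In.all]
    fun_prop
  refine h1.congr fun t => ?_
  constructor
  · intro h z
    rw [h]
  · intro h
    ext z
    constructor
    · intro hz
      exact (h (toEl z (Lv.tr u _ (fx t).2 _ hz))).1 hz
    · intro hz
      exact (h (toEl z (Lv.tr u _ (fb t).2 _ (L.mem_Dd.1 hz).1))).2 hz

@[fun_prop] theorem In.mem_Kst {fx fb : T → El u} (hx : IF (St s) fx) (hb : IF (St s) fb) :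
    In (St s) (fun t => (fx t).1.1 ∈ Kst (fb t).1.1) := by
  have h1 : In (St s) (fun t => (fx t).1.1 ∈ (fb t).1.1 ∨ (fx t).1.1 = (fb t).1.1 ∨
      ∃ n : ℕ, ∃ p q : El u, p.1.1 ∈ (fb t).1.1 ∧ q.1.1 ∈ (fb t).1.1 ∧
      (fx t).1.1 = Dd (fb t).1.1 n p.1.1 q.1.1) := by
    apply_rules (transparency := .reducible) [In.ex, In.or, In.and]
    all_goals fun_prop
  refine h1.congr fun t => ?_
  rw [L.mem_Kst]
  refine or_congr Iff.rfl (or_congr Iff.rfl ?_)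
  constructor
  · rintro ⟨n, p, q, hp, hq, h⟩
    exact ⟨n, toEl p (Lv.tr u _ (fb t).2 _ hp), toEl q (Lv.tr u _ (fb t).2 _ hq), hp, hq, h⟩
  · rintro ⟨n, p, q, hp, hq, h⟩
    exact ⟨n, p.1.1, q.1.1, hp, hq, h⟩

/-- the characterization of levels by internal histories -/
theorem lev_hist {a : St s} [ha : Lv a] (h : ISet (St s) (El a)) (b : El a) (hb : Tr b.1.1)
    (hh : ∀ c : El a, c.1.1 ∈ b.1.1 → (c ∈ h ↔ ∀ x : El a, (x.1.1 ∈ c.1.1 ↔
      ∃ d : El a, d.1.1 ∈ c.1.1 ∧ d ∈ h ∧ x.1.1 ∈ Kst d.1.1))) :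
    (∀ c : El a, c.1.1 ∈ b.1.1 → (c ∈ h ↔ Lev c.1.1)) ∧
    ((∀ x : El a, (x.1.1 ∈ b.1.1 ↔ ∃ d : El a, d.1.1 ∈ b.1.1 ∧ d ∈ h ∧ x.1.1 ∈ Kst d.1.1)) ↔
      Lev b.1.1) := by
  have key : ∀ e : El a, (∀ d : El a, d.1.1 ∈ e.1.1 → (d ∈ h ↔ Lev d.1.1)) →
      ((∀ x : El a, (x.1.1 ∈ e.1.1 ↔ ∃ d : El a, d.1.1 ∈ e.1.1 ∧ d ∈ h ∧ x.1.1 ∈ Kst d.1.1)) ↔
      Lev e.1.1) := by
    intro e he
    rw [lev_iff]
    constructor
    · intro h1 x
      constructor
      · intro hx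
        obtain ⟨d, h2, h3, h4⟩ := (h1 (toEl x (Lv.tr a _ e.2 _ hx))).1 hx
        exact ⟨d.1.1, h2, (he d h2).1 h3, h4⟩
      · rintro ⟨d, h2, h3, h4⟩
        have hda : d ∈ a.1 := Lv.tr a _ e.2 _ h2
        have hxa : x ∈ a.1 := ha.lev.kst hda h3 h4
        exact (h1 (toEl x hxa)).2 ⟨toEl d hda, h2, (he (toEl d hda) h2).2 h3, h4⟩
    · intro h1 x
      rw [h1 x.1.1]
      constructor
      · rintro ⟨d, h2, h3, h4⟩
        have hda : d ∈ a.1 := Lv.tr a _ e.2 _ h2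
        exact ⟨toEl d hda, h2, (he (toEl d hda) h2).2 h3, h4⟩
      · rintro ⟨d, h2, h3, h4⟩
        exact ⟨d.1.1, h2, (he d h2).1 h3, h4⟩
  have h1 : ∀ c : ZFSet.{0}, ∀ hc : c ∈ a.1, c ∈ b.1.1 → (toEl c hc ∈ h ↔ Lev c) := by
    intro c
    induction c using ZFSet.inductionOn with
    | _ c ih =>
      intro hc hcb
      rw [hh (toEl c hc) hcb]
      exact key (toEl c hc) fun d hd => ih d.1.1 hd d.2 (hb _ hcb _ hd)
  have h2 : ∀ c : El a, c.1.1 ∈ b.1.1 → (c ∈ h ↔ Lev c.1.1) := fun c hc => h1 c.1.1 c.2 hc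
  exact ⟨h2, key b h2⟩

theorem in_lev (a : St s) (ha : Lev a.1) : In (St s) (fun b : El a => Lev b.1.1) := by
  obtain ⟨a, has⟩ := a
  induction a using ZFSet.inductionOn with
  | _ a ih =>
    haveI : Lv (⟨a, has⟩ : St s) := ⟨ha⟩
    have h1 : In (St s) (fun b : El (⟨a, has⟩ : St s) =>
        (∀ x y : El (⟨a, has⟩ : St s), x.1.1 ∈ b.1.1 → y.1.1 ∈ x.1.1 → y.1.1 ∈ b.1.1) ∧
        ∃ h : ISet (St s) (El (⟨a, has⟩ : St s)),
        (∀ c : El (⟨a, has⟩ : St s), c.1.1 ∈ b.1.1 → (c ∈ h ↔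
          ∀ x : El (⟨a, has⟩ : St s), (x.1.1 ∈ c.1.1 ↔
          ∃ d : El (⟨a, has⟩ : St s), d.1.1 ∈ c.1.1 ∧ d ∈ h ∧ x.1.1 ∈ Kst d.1.1))) ∧
        ∀ x : El (⟨a, has⟩ : St s), (x.1.1 ∈ b.1.1 ↔
          ∃ d : El (⟨a, has⟩ : St s), d.1.1 ∈ b.1.1 ∧ d ∈ h ∧ x.1.1 ∈ Kst d.1.1)) := by
      apply_rules (transparency := .reducible) [In.ex, In.all, In.imp, In.and, In.iff]
      all_goals fun_prop
    refine h1.congr fun b => ?_
    have htr : (∀ x y : El (⟨a, has⟩ : St s), x.1.1 ∈ b.1.1 → y.1.1 ∈ x.1.1 → y.1.1 ∈ b.1.1) ↔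
        Tr b.1.1 := by
      constructor
      · intro h x hx y hy
        have hxa : x ∈ a := ha.tr _ b.2 _ hx
        exact h (toEl x hxa) (toEl y (ha.tr _ hxa _ hy)) hx hy
      · intro h x y hx hy
        exact h _ hx _ hy
    rw [htr]
    constructor
    · intro hb
      refine ⟨hb.tr, ?_⟩
      have h2 : In (St s) (fun c : El b.1 => Lev c.1.1) := ih b.1.1 b.2 b.1.2 hb
      have h3 := In.restrict (a := (⟨a, has⟩ : St s)) (P := fun x : St s => Lev x.1) h2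
      have hmem : ∀ c : El (⟨a, has⟩ : St s), c ∈ ISet.mk h3 ↔ c.1 ∈ b.1 ∧ Lev c.1.1 :=
        fun c => Iff.rfl
      have hh : ∀ c : El (⟨a, has⟩ : St s), c.1.1 ∈ b.1.1 → (c ∈ ISet.mk h3 ↔
          ∀ x : El (⟨a, has⟩ : St s), (x.1.1 ∈ c.1.1 ↔
          ∃ d : El (⟨a, has⟩ : St s), d.1.1 ∈ c.1.1 ∧ d ∈ ISet.mk h3 ∧ x.1.1 ∈ Kst d.1.1)) := by
        intro c hc
        rw [hmem]
        have h4 : ∀ d : El (⟨a, has⟩ : St s), d.1.1 ∈ c.1.1 → (d ∈ ISet.mk h3 ↔ Lev d.1.1) := by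
          intro d hd
          rw [hmem]
          exact and_iff_right (hb.tr _ hc _ hd)
        constructor
        · rintro ⟨-, h5⟩ x
          rw [lev_iff.1 h5 x.1.1]
          constructor
          · rintro ⟨d, h6, h7, h8⟩
            have hda : d ∈ a := ha.tr _ c.2 _ h6
            exact ⟨toEl d hda, h6, (h4 (toEl d hda) h6).2 h7, h8⟩
          · rintro ⟨d, h6, h7, h8⟩
            exact ⟨d.1.1, h6, (h4 d h6).1 h7, h8⟩
        · intro h5
          refine ⟨hc, lev_iff.2 fun x => ?_⟩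
          constructor
          · intro hx
            obtain ⟨d, h6, h7, h8⟩ := (h5 (toEl x (ha.tr _ c.2 _ hx))).1 hx
            exact ⟨d.1.1, h6, (h4 d h6).1 h7, h8⟩
          · rintro ⟨d, h6, h7, h8⟩
            have hda : d ∈ a := ha.tr _ c.2 _ h6
            exact (h5 (toEl x (ha.kst hda h7 h8))).2 ⟨toEl d hda, h6, (h4 (toEl d hda) h6).2 h7, h8⟩
      exact ⟨ISet.mk h3, hh, (lev_hist (ISet.mk h3) b hb.tr hh).2.2 hb⟩
    · rintro ⟨hb, h, hh, h2⟩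
      exact (lev_hist h b hb hh).2.1 h2

@[fun_prop] theorem In.lev {f : T → El u} (hf : IF (St s) f) :
    In (St s) (fun t => Lev (f t).1.1) := (in_lev u hu.lev).comp hf

@[fun_prop] theorem In.rk {f g : T → El u} (hf : IF (St s) f) (hg : IF (St s) g) :
    In (St s) (fun t => Rk (f t).1.1 (g t).1.1) := by
  unfold Rk
  fun_prop

end model

end Pool.Agent.H.MP_a163f2_lc.L
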