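import Pool.Agent.H.MP_a163f2_lc.L.B4
import Pool.Agent.H.MP_a163f2_lc.L.A5

/-!
# Block L, part B5: internal closure
-/

set_option autoImplicit false
set_option linter.unusedSectionVars false

namespace Pool.Agent.H.MP_a163f2_lc.L

open Pool.Agent.H.MP_07d118_lc

universe u v w x

section closure

variable {M : Type u} [SetStr M] [ZFC M] [Std M] {A : Type v} [Cd M A] {T : Type w} [Cd M T]

/-- internal assignments with finitely many values -/
noncomputable def padI (σ : List ℕ) (d : ℕ) (F : IFn M ℕ A) : IFn M ℕ A :=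
  ⟨fun i => F.1 (if i < σ.length then σ.getD i 0 else d), by
    refine IF.comp F.2 ?_
    exact IF.ite (by fun_prop) (IF.prim ((Primrec.list_getD 0).comp (Primrec.const σ) Primrec.id))
      (IF.const d)⟩

@[fun_prop] theorem IF.len' {f : T → List ℕ} (hf : IF M f) : IF M (fun t => (f t).length) :=
  IF.comp (g := fun l : List ℕ => l.length) (IF.prim Primrec.list_length) hf

@[fun_prop] theorem IF.getD' {f : T → List ℕ} (hf : IF M f) {g : T → ℕ} (hg : IF M g) (d : ℕ) :
    IF M (fun t => (f t).getD (g t) d) :=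
  IF.prim2 (F := fun (l : List ℕ) (i : ℕ) => l.getD i d) (Primrec.list_getD d) hf hg

@[fun_prop] theorem IF.padI' {f : T → List ℕ} (hf : IF M f) {g : T → ℕ} (hg : IF M g)
    {F : T → IFn M ℕ A} (hF : IF M F) : IF M (fun t => padI (f t) (g t) (F t)) := by
  refine IF.of_app ?_
  show IF M (fun y : T × ℕ => (F y.1).1 (if y.2 < (f y.1).length then (f y.1).getD y.2 0 else g y.1))
  exact IF.app (by fun_prop) (IF.ite (by fun_prop) (by fun_prop) (by fun_prop))

@[fun_prop] theorem IF.ofNatL {f : T → ℕ} (hf : IF M f) :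
    IF M (fun t => Denumerable.ofNat (List ℕ) (f t)) :=
  IF.comp (g := fun n => Denumerable.ofNat (List ℕ) n) (IF.prim (Primrec.ofNat (List ℕ))) hf

/-- one step of the closure -/
noncomputable def clStep (G : ℕ × IFn M ℕ A → A) (hG : IF M G) (F : IFn M ℕ A) : IFn M ℕ A :=
  ⟨fun k => if k % 2 = 0 then F.1 (k / 2) else
    G ((k / 2).unpair.1, padI (Denumerable.ofNat (List ℕ) (k / 2).unpair.2.unpair.1)
      (k / 2).unpair.2.unpair.2 F), by
    exact IF.ite (by fun_prop) (by fun_prop) (IF.comp hG (by fun_prop))⟩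

theorem IF.clStep {G : ℕ × IFn M ℕ A → A} (hG : IF M G) : IF M (L.clStep G hG) := by
  refine IF.of_app ?_
  show IF M (fun y : IFn M ℕ A × ℕ => if y.2 % 2 = 0 then y.1.1 (y.2 / 2) else
    G ((y.2 / 2).unpair.1, padI (Denumerable.ofNat (List ℕ) (y.2 / 2).unpair.2.unpair.1)
      (y.2 / 2).unpair.2.unpair.2 y.1))
  exact IF.ite (by fun_prop) (by fun_prop) (IF.comp hG (by fun_prop))

/-- Closing a countable set under countably many finitary witnesses, inside the model. -/
theorem exists_closed_in (R : ℕ → IFn M ℕ A → A → Prop)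
    (hR : In M (fun y : (ℕ × IFn M ℕ A) × A => R y.1.1 y.1.2 y.2)) (e₀ : IFn M ℕ A) :
    ∃ e : IFn M ℕ A, (∀ i, ∃ j, e.1 j = e₀.1 i) ∧ ∀ (c : ℕ) (v : IFn M ℕ A),
      (∀ i, ∃ j, e.1 j = v.1 i) → EC v.1 → (∃ z, R c v z) → ∃ j, R c v (e.1 j) := by
  obtain ⟨G, hG, hG'⟩ := In.choice (M := M) (T := ℕ × IFn M ℕ A) (S := A)
    (R := fun y z => (∃ z', R y.1 y.2 z') → R y.1 y.2 z) (by
      apply_rules (transparency := .reducible) [In.imp, In.ex]
      · exact hR.comp (f := fun t : ((ℕ × IFn M ℕ A) × A) × A => (t.1.1, t.2)) (by fun_prop)) (by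
      intro y
      by_cases h : ∃ z', R y.1 y.2 z'
      · obtain ⟨z, hz⟩ := h
        exact ⟨z, fun _ => hz⟩
      · exact ⟨e₀.1 0, fun h' => absurd h' h⟩)
  have hE := IF.natRec (M := M) (S := ℕ) (T := IFn M ℕ A) (a := fun _ => e₀) (IF.const e₀)
    (g := fun y => clStep G hG y.2.2) (IF.comp (IF.clStep hG) (by fun_prop))
  obtain ⟨E, hEdef⟩ : ∃ E : ℕ → IFn M ℕ A, E = fun m => Nat.rec (motive := fun _ => IFn M ℕ A) e₀
    (fun _ F => clStep G hG F) m := ⟨_, rfl⟩
  have hEin : IF M E := by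
    rw [hEdef]
    exact IF.comp (g := fun y : ℕ × ℕ => Nat.rec (motive := fun _ => IFn M ℕ A) e₀
      (fun _ F => clStep G hG F) y.2) hE (f := fun m => (0, m)) (by fun_prop)
  have hE0 : E 0 = e₀ := by
    rw [hEdef]
    rfl
  have hEs : ∀ m, E (m + 1) = clStep G hG (E m) := fun m => by rw [hEdef]
  have hmono : ∀ m, Set.range (E m).1 ⊆ Set.range (E (m + 1)).1 := by
    rintro m _ ⟨k, rfl⟩
    refine ⟨2 * k, ?_⟩
    rw [hEs]
    show (if (2 * k) % 2 = 0 then (E m).1 (2 * k / 2) else _) = _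
    rw [if_pos (by omega), show 2 * k / 2 = k by omega]
  have hrange : ∀ m, ∀ x ∈ Set.range (E m).1, ∃ j : ℕ, (E j.unpair.1).1 j.unpair.2 = x := by
    rintro m _ ⟨k, rfl⟩
    exact ⟨Nat.pair m k, by simp⟩
  refine ⟨⟨fun j => (E j.unpair.1).1 j.unpair.2, IF.app (IF.comp hEin (by fun_prop))
    (by fun_prop)⟩, ?_, ?_⟩
  · intro i
    refine hrange 0 _ ⟨i, ?_⟩
    rw [hE0]
  · intro c v hv hec hex
    obtain ⟨N, hN⟩ := hec
    obtain ⟨w, n, hw1, hw2, hw3⟩ := exists_trunc (fun m => Set.range (E m).1) hmono v.1 (fun i => by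
      obtain ⟨j, hj⟩ := hv i
      exact ⟨j.unpair.1, j.unpair.2, hj⟩) N
    have hwv : w = v.1 := by
      funext i
      by_cases hi : i < N
      · exact hw1 i hi
      · rw [hw3 i (not_lt.1 hi), hN i (not_lt.1 hi)]
    rw [hwv] at hw2
    choose g hg using hw2
    have hpad : padI ((List.range N).map g) (g N) (E n) = v := by
      refine Subtype.ext (funext fun i => ?_)
      show (E n).1 (if i < ((List.range N).map g).length then _ else _) = _
      by_cases hi : i < N
      · rw [if_pos (by simpa using hi), List.getD_eq_getElem _ _ (by simpa using hi)]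
        simp [hg]
      · rw [if_neg (by simpa using hi), hg, hN i (not_lt.1 hi)]
    obtain ⟨j, hj⟩ := hrange (n + 1) ((E (n + 1)).1 (2 * Nat.pair c
      (Nat.pair (Encodable.encode ((List.range N).map g)) (g N)) + 1)) ⟨_, rfl⟩
    refine ⟨j, ?_⟩
    show R c v ((E j.unpair.1).1 j.unpair.2)
    rw [hj, hEs]
    show R c v (if (2 * Nat.pair c (Nat.pair (Encodable.encode ((List.range N).map g)) (g N)) + 1)
      % 2 = 0 then _ else _)
    rw [if_neg (by omega)]
    have h2 : (2 * Nat.pair c (Nat.pair (Encodable.encode ((List.range N).map g)) (g N)) + 1) / 2 =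
        Nat.pair c (Nat.pair (Encodable.encode ((List.range N).map g)) (g N)) := by omega
    rw [h2, Nat.unpair_pair, Nat.unpair_pair, Denumerable.ofNat_encode, hpad]
    exact hG' (c, v) hex

end closure

end Pool.Agent.H.MP_a163f2_lc.L
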