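import Pool.Agent.H.MP_a163f2_lc.L.B5

/-!
# Block L, part B6: every subset of omega belongs to a countable level
-/

set_option autoImplicit false
set_option linter.unusedSectionVars false

namespace Pool.Agent.H.MP_a163f2_lc.L

open Pool.Agent.H.MP_07d118_lc

universe u v w x

/-- countable sets of the model -/
def Ct {M : Type u} [SetStr M] [ZF M] [Std M] (b : M) : Prop :=
  ∃ (u : M) (e : ℕ → El u), IF M e ∧ ∀ x : M, x ∈ b → ∃ i, (e i).1 = x

/-- `X` contains the elements of `z` and they are fixed by the collapse -/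
theorem col_fix {X : Set ZFSet.{0}} {z : ZFSet.{0}} (h : ∀ w ∈ z, w ∈ X ∧ col X w = w) :
    col X z = z := by
  ext y
  rw [mem_col]
  constructor
  · rintro ⟨w, h1, -, h2⟩
    rw [(h w h1).2] at h2
    rwa [← h2]
  · intro hy
    exact ⟨y, hy, (h y hy).1, (h y hy).2⟩

section model

variable {s : ZFSet.{0}} [G : GM s]

theorem wit_mem {u : ZFSet.{0}} (hu : Lev u) {c : ℕ} {v : ℕ → ZFSet.{0}} {z : ZFSet.{0}}
    (hv : ∀ i, v i ∈ u) (h : Wit c v z) : z ∈ u := by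
  rcases h with ⟨-, h⟩ | ⟨-, b, hb, hz, -⟩ | ⟨-, b, hb, -, hz, -⟩ | ⟨-, h1, h2, h3, h⟩ | ⟨-, h⟩ |
    ⟨-, h, -⟩
  · exact h.mem hu (hv 0)
  · exact hu.tr _ (hb.mem hu (hv 0)) _ hz
  · exact hu.tr _ (hb.mem hu (hv 0)) _ hz
  · rw [h]
    exact hu.kst (hv 0) h1 (Dd_mem_Kst _ h2 h3)
  · by_cases h0 : z ∈ v 0
    · exact hu.tr _ (hv 0) _ h0
    · have h1 : z ∈ v 1 := by
        by_contra h1
        exact h ⟨fun h => absurd h h0, fun h => absurd h h1⟩
      exact hu.tr _ (hv 1) _ h1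
  · exact hu.tr _ (hv 0) _ h

/-- the shifted assignment -/
noncomputable def tlI {M : Type u} [SetStr M] [ZF M] [Std M] {A : Type v} [Cd M A]
    (v : IFn M ℕ A) : IFn M ℕ A := ⟨fun i => v.1 (i + 1), IF.comp v.2 (by fun_prop)⟩

@[fun_prop] theorem IF.tlI' {M : Type u} [SetStr M] [ZF M] [Std M] {A : Type v} [Cd M A]
    {T : Type w} [Cd M T] {f : T → IFn M ℕ A} (hf : IF M f) : IF M (fun t => tlI (f t)) := by
  refine IF.of_app ?_
  show IF M (fun z : T × ℕ => (f z.1).1 (z.2 + 1))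
  fun_prop

/-- the relation `Wit` is internal -/
theorem in_wit (u : St s) [hu : Lv u] :
    In (St s) (fun y : (ℕ × IFn (St s) ℕ (El u)) × El u =>
      Wit y.1.1 (fun i => (y.1.2.1 i).1.1) y.2.1.1) := by
  have h5 := (in_satB u (Lv.tr u)).comp (f := fun y : (ℕ × IFn (St s) ℕ (El u)) × El u =>
    ((y.1.2.1 0, cnsI y.2 (tlI y.1.2)), y.1.1.unpair.2)) (by fun_prop)
  have h : In (St s) (fun y : (ℕ × IFn (St s) ℕ (El u)) × El u =>
      (y.1.1.unpair.1 = 0 ∧ Rk (y.1.2.1 0).1.1 y.2.1.1) ∨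
      (y.1.1.unpair.1 = 1 ∧ ∃ b : El u, Rk (y.1.2.1 0).1.1 b.1.1 ∧ y.2.1.1 ∈ b.1.1 ∧
        ∃ q : El u, q.1.1 ∈ b.1.1 ∧ ∃ n : ℕ, (y.1.2.1 0).1.1 = Dd b.1.1 n y.2.1.1 q.1.1) ∨
      (y.1.1.unpair.1 = 2 ∧ ∃ b : El u, Rk (y.1.2.1 0).1.1 b.1.1 ∧ (y.1.2.1 1).1.1 ∈ b.1.1 ∧
        y.2.1.1 ∈ b.1.1 ∧ ∃ n : ℕ, (y.1.2.1 0).1.1 = Dd b.1.1 n (y.1.2.1 1).1.1 y.2.1.1) ∨
      (y.1.1.unpair.1 = 3 ∧ Lev (y.1.2.1 0).1.1 ∧ (y.1.2.1 1).1.1 ∈ (y.1.2.1 0).1.1 ∧
        (y.1.2.1 2).1.1 ∈ (y.1.2.1 0).1.1 ∧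
        y.2.1.1 = Dd (y.1.2.1 0).1.1 y.1.1.unpair.2 (y.1.2.1 1).1.1 (y.1.2.1 2).1.1) ∨
      (y.1.1.unpair.1 = 4 ∧ ¬ (y.2.1.1 ∈ (y.1.2.1 0).1.1 ↔ y.2.1.1 ∈ (y.1.2.1 1).1.1)) ∨
      (y.1.1.unpair.1 = 5 ∧ y.2.1.1 ∈ (y.1.2.1 0).1.1 ∧ ¬ SatB (y.1.2.1 0).1.1
        (fun i => ((cnsI y.2 (tlI y.1.2)).1 i).1.1) (dec y.1.1.unpair.2))) := by
    apply_rules (transparency := .reducible) [In.and, In.or, In.ex]
    all_goals first | exact h5.not | fun_prop
  refine h.congr fun y => ?_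
  unfold Wit
  refine or_congr Iff.rfl (or_congr (and_congr Iff.rfl ?_) (or_congr (and_congr Iff.rfl ?_)
    (or_congr Iff.rfl (or_congr Iff.rfl (and_congr Iff.rfl (and_congr Iff.rfl ?_))))))
  · constructor
    · rintro ⟨b, hb, h1, q, h2, n, h3⟩
      have hbu := hb.mem hu.lev (y.1.2.1 0).2
      exact ⟨toEl b hbu, hb, h1, toEl q (Lv.tr u _ hbu _ h2), h2, n, h3⟩
    · rintro ⟨b, hb, h1, q, h2, n, h3⟩
      exact ⟨b.1.1, hb, h1, q.1.1, h2, n, h3⟩
  · constructor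
    · rintro ⟨b, hb, h1, h2, n, h3⟩
      exact ⟨toEl b (hb.mem hu.lev (y.1.2.1 0).2), hb, h1, h2, n, h3⟩
    · rintro ⟨b, hb, h1, h2, n, h3⟩
      exact ⟨b.1.1, hb, h1, h2, n, h3⟩
  · have : (fun i => ((cnsI y.2 (tlI y.1.2)).1 i).1.1) = cns y.2.1.1 fun i => (y.1.2.1 (i + 1)).1.1 := by
      funext i
      cases i <;> rfl
    rw [this]

/-- the numerals as elements of a level -/
noncomputable def nmE {u : St s} (hu : ∀ n, (nm n : St s) ∈ u) (n : ℕ) : El u := ⟨nm n, hu n⟩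

theorem IF.nmE {u : St s} (hu : ∀ n, (nm n : St s) ∈ u) : IF (St s) (L.nmE hu) :=
  IF.of_df (F := fun x => x) (DfF.var 0) fun _ => rfl

/-- Every subset of omega in the model belongs to a countable level of the model. -/
theorem exists_ctb_level (x : St s) (hx : ∀ z : St s, z ∈ x → z ∈ (om : St s)) :
    ∃ b : St s, Lv b ∧ Ct b ∧ x ∈ b := by
  obtain ⟨u, hu, hxu, hou⟩ := GM.exists_lv2 x (om : St s)
  have hnm : ∀ n, (nm n : St s) ∈ u := fun n => hu.lev.tr _ hou _ (nm_mem (M := St s) n)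
  -- the closed set
  obtain ⟨e, he0, he⟩ := exists_closed_in (M := St s) (A := El u)
    (fun c v z => Wit c (fun i => (v.1 i).1.1) z.1.1) (in_wit u)
    ⟨cns (⟨x, hxu⟩ : El u) (nmE hnm), IF.cns0 _ (IF.nmE hnm)⟩
  obtain ⟨X, hXdef⟩ : ∃ X : Set ZFSet.{0}, X = Set.range fun j => (e.1 j).1.1 := ⟨_, rfl⟩
  have hmemX : ∀ j, (e.1 j).1.1 ∈ X := fun j => by rw [hXdef]; exact ⟨j, rfl⟩
  have hXu : ∀ y ∈ X, y ∈ u.1 := by
    rw [hXdef]
    rintro _ ⟨j, rfl⟩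
    exact (e.1 j).2
  have hL : X ⊆ LL := fun y hy => ⟨u.1, hu.lev, hXu y hy⟩
  have hX : Clo X := by
    rintro c v hv ⟨N, hN⟩ ⟨z, hz⟩
    have hvu : ∀ i, v i ∈ u.1 := fun i => hXu _ (hv i)
    have hin : IF (St s) (fun i => (toEl (v i) (hvu i) : El u)) := by
      refine IF.congr (IF.of_finite_support (M := St s) (Finset.range N)
        (fun i => (toEl (v i) (hvu i) : El u)) (toEl (v N) (hvu N))) fun i => ?_
      by_cases hi : i < N
      · rw [if_pos (Finset.mem_range.2 hi)]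
      · rw [if_neg (by simpa using hi)]
        apply Subtype.ext
        apply Subtype.ext
        exact hN i (not_lt.1 hi)
    obtain ⟨j, hj⟩ := he c ⟨_, hin⟩ (fun i => by
      have := hv i
      rw [hXdef] at this
      obtain ⟨j, hj⟩ := this
      exact ⟨j, Subtype.ext (Subtype.ext hj)⟩) ⟨N, fun i hi => by
        apply Subtype.ext
        apply Subtype.ext
        exact hN i hi⟩ ⟨toEl z (wit_mem hu.lev hvu hz), hz⟩
    exact ⟨(e.1 j).1.1, hmemX j, hj⟩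
  have hxX : x.1 ∈ X := by
    obtain ⟨j, hj⟩ := he0 0
    have : (e.1 j).1.1 = x.1 := congrArg (fun t : El u => t.1.1) hj
    rw [← this]
    exact hmemX j
  have hnX : ∀ n, (nm n : St s).1 ∈ X := by
    intro n
    obtain ⟨j, hj⟩ := he0 (n + 1)
    have : (e.1 j).1.1 = (nm n : St s).1 := congrArg (fun t : El u => t.1.1) hj
    rw [← this]
    exact hmemX j
  have hfixn : ∀ n, col X (nm n : St s).1 = (nm n : St s).1 := by
    intro n
    induction n using Nat.strong_induction_on with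
    | _ n ih =>
      refine col_fix fun w hw => ?_
      have hwM : (⟨w, St.mem_of hw⟩ : St s) ∈ (nm n : St s) := hw
      have hwo : (⟨w, St.mem_of hw⟩ : St s) ∈ (om : St s) := om_mem (nm_mem n) hwM
      obtain ⟨m, hm⟩ := exists_nm hwo
      have hmn : m < n := (nm_lt_iff (M := St s)).1 (by rw [hm]; exact hwM)
      have hw' : w = (nm m : St s).1 := by rw [hm]
      rw [hw']
      exact ⟨hnX m, ih m hmn⟩
  have hfixx : col X x.1 = x.1 := by
    refine col_fix fun w hw => ?_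
    have hwM : (⟨w, St.mem_of hw⟩ : St s) ∈ x := hw
    obtain ⟨m, hm⟩ := exists_nm (hx _ hwM)
    have hw' : w = (nm m : St s).1 := by rw [hm]
    rw [hw']
    exact ⟨hnX m, hfixn m⟩
  -- the level
  have hlev := hX.col_top hL hXu
  have hle := hX.col_top_le hL hu.lev hXu
  have hsub : ∀ y ∈ col X u.1, y ∈ u.1 := (hlev.sub_iff hu.lev).2 hle
  have hbs : col X u.1 ∈ s := by
    rcases hle with h | h
    · exact St.mem_of h
    · rw [h]
      exact u.2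
  refine ⟨⟨col X u.1, hbs⟩, ⟨hlev⟩, ?_, ?_⟩
  · -- the collapse is internal
    have hcolu : ∀ j, col X (e.1 j).1.1 ∈ u.1 := fun j =>
      hsub _ (mem_col.2 ⟨_, (e.1 j).2, hmemX j, rfl⟩)
    have hlt : In (St s) (fun y : El u × El u =>
        (fun x z : El u => ∃ b c : El u, Rk x.1.1 b.1.1 ∧ Rk z.1.1 c.1.1 ∧ b.1.1 ∈ c.1.1) y.1 y.2) := by
      apply_rules (transparency := .reducible) [In.and, In.ex]
      all_goals fun_prop
    have hwf : WellFounded (fun x z : El u =>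
        ∃ b c : El u, Rk x.1.1 b.1.1 ∧ Rk z.1.1 c.1.1 ∧ b.1.1 ∈ c.1.1) := by
      refine Subrelation.wf (r := InvImage (· ∈ ·) fun x : El u => rho x.1.1) ?_
        (InvImage.wf _ ZFSet.mem_wf)
      rintro x z ⟨b, c, hb, hc, h⟩
      show rho x.1.1 ∈ rho z.1.1
      rw [hb.rho, hc.rho]
      exact h
    have hP : In (St s) (fun t : (El u × ISet (St s) (El u × El u)) × El u =>
        ∀ w : El u, (w.1.1 ∈ t.2.1.1 ↔ ∃ z : El u, z.1.1 ∈ t.1.1.1.1 ∧ (∃ j : ℕ, e.1 j = z) ∧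
          (z, w) ∈ t.1.2)) := by
      apply_rules (transparency := .reducible) [In.and, In.ex, In.all, In.iff]
      all_goals fun_prop
    obtain ⟨Φ, hΦ, hΦ'⟩ := In.choice (M := St s) (T := El u × ISet (St s) (El u × El u))
      (S := El u) (R := fun y t => (∃ t' : El u, ∀ w : El u, (w.1.1 ∈ t'.1.1 ↔
          ∃ z : El u, z.1.1 ∈ y.1.1.1 ∧ (∃ j : ℕ, e.1 j = z) ∧ (z, w) ∈ y.2)) →
        ∀ w : El u, (w.1.1 ∈ t.1.1 ↔
          ∃ z : El u, z.1.1 ∈ y.1.1.1 ∧ (∃ j : ℕ, e.1 j = z) ∧ (z, w) ∈ y.2)) (by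
        apply_rules (transparency := .reducible) [In.and, In.ex, In.all, In.iff, In.imp]
        all_goals fun_prop) (by
        intro y
        by_cases h : ∃ t' : El u, ∀ w : El u, (w.1.1 ∈ t'.1.1 ↔
          ∃ z : El u, z.1.1 ∈ y.1.1.1 ∧ (∃ j : ℕ, e.1 j = z) ∧ (z, w) ∈ y.2)
        · obtain ⟨t', ht'⟩ := h
          exact ⟨t', fun _ => ht'⟩
        · exact ⟨y.1, fun h' => absurd h' h⟩)
    obtain ⟨H, hH, hrec⟩ := exists_rec (M := St s) (W := El u) (T := El u) hlt hwf (by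
      rintro x y z ⟨b, c, hb, hc, h⟩ ⟨c', d, hc', hd, h'⟩
      refine ⟨b, d, hb, hd, ?_⟩
      rw [hc'.unique hc] at h'
      exact hd.1.tr _ h' _ h) hΦ
    have key : ∀ b : ZFSet.{0}, ∀ j : ℕ, Rk (e.1 j).1.1 b → (H (e.1 j)).1.1 = col X (e.1 j).1.1 := by
      intro b
      induction b using ZFSet.inductionOn with
      | _ b ih =>
        intro j hj
        obtain ⟨hin, hx'⟩ := hrec (e.1 j)
        have hq : ∀ w : El u, ((∃ z : El u, z.1.1 ∈ (e.1 j).1.1 ∧ (∃ i : ℕ, e.1 i = z) ∧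
            (z, w) ∈ ISet.mk hin) ↔ w.1.1 ∈ col X (e.1 j).1.1) := by
          intro w
          rw [mem_col]
          have hrk : ∀ i, (e.1 i).1.1 ∈ (e.1 j).1.1 → ∃ c : El u, c.1.1 ∈ b ∧ Rk (e.1 i).1.1 c.1.1 := by
            intro i hi
            obtain ⟨c, hcu, hc⟩ := hu.lev.exists_rk (e.1 i).2
            exact ⟨toEl c hcu, hj.elt hi hc, hc⟩
          constructor
          · rintro ⟨z, hz, ⟨i, rfl⟩, h1⟩
            obtain ⟨c, hcb, hc⟩ := hrk i hz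
            have h2 : H (e.1 i) = w := h1.2
            refine ⟨_, hz, hmemX i, ?_⟩
            rw [← ih _ hcb i hc, h2]
          · rintro ⟨z, hz, hzX, h1⟩
            rw [hXdef] at hzX
            obtain ⟨i, rfl⟩ := hzX
            obtain ⟨c, hcb, hc⟩ := hrk i hz
            refine ⟨e.1 i, hz, ⟨i, rfl⟩, ⟨c, toEl b (hj.mem hu.lev (e.1 j).2), hc, hj, hcb⟩, ?_⟩
            apply Subtype.ext
            apply Subtype.ext
            show (H (e.1 i)).1.1 = w.1.1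
            rw [ih _ hcb i hc]
            exact h1
        have h3 := hΦ' (e.1 j, ISet.mk hin) ⟨toEl _ (hcolu j), fun w => (hq w).symm⟩
        rw [hx']
        ext w
        constructor
        · intro hw
          have hwu := Lv.tr u _ (Φ (e.1 j, ISet.mk hin)).2 _ hw
          exact (hq (toEl w hwu)).1 ((h3 (toEl w hwu)).1 hw)
        · intro hw
          have hwu := Lv.tr u _ (hcolu j) _ hw
          exact (h3 (toEl w hwu)).2 ((hq (toEl w hwu)).2 hw)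
    refine ⟨u, fun j => H (e.1 j), by fun_prop, ?_⟩
    rintro ⟨y, hys⟩ hy
    obtain ⟨z, -, hz, hzy⟩ := mem_col.1 (show y ∈ col X u.1 from hy)
    rw [hXdef] at hz
    obtain ⟨j, rfl⟩ := hz
    obtain ⟨b, -, hb⟩ := hu.lev.exists_rk (e.1 j).2
    refine ⟨j, Subtype.ext ?_⟩
    show (H (e.1 j)).1.1 = y
    rw [key b j hb]
    exact hzy
  · show x.1 ∈ col X u.1
    exact mem_col.2 ⟨x.1, hxu, hxX, hfixx⟩

end model

end Pool.Agent.H.MP_a163f2_lc.L
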