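import Pool.Agent.H.MP_a163f2_lc.L.B6

/-!
# Block L, part B7: the type of the countable levels is the first uncountable ordinal
-/

set_option autoImplicit false
set_option linter.unusedSectionVars false

namespace Pool.Agent.H.MP_a163f2_lc.L

open Pool.Agent.H.MP_07d118_lc

universe u v w x

section general

variable {M : Type u} [SetStr M] [ZF M] [Std M]

theorem Ct.mono {a b : M} (h : Ct b) (hab : ∀ x : M, x ∈ a → x ∈ b) : Ct a := by
  obtain ⟨u, e, he, h⟩ := h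
  exact ⟨u, e, he, fun x hx => h x (hab x hx)⟩

/-- change of the target of an internal function -/
theorem IF.retarget {a b : M} (x₀ : El a) {e : ℕ → El b} (he : IF M e) :
    ∃ e' : IFn M ℕ (El a), ∀ i, (e i).1 ∈ a → (e'.1 i).1 = (e i).1 := by
  classical
  refine ⟨⟨fun i => if h : (e i).1 ∈ a then ⟨(e i).1, h⟩ else x₀, ?_⟩, ?_⟩
  · refine IF.of_in (In.congr (P := fun y : ℕ × El a => y.2.1 = (e y.1).1 ∨
      (¬ ((e y.1).1 ∈ a) ∧ y.2 = x₀)) ?_ ?_)
    · apply_rules (transparency := .reducible) [In.or, In.and]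
      · exact In.el_eq (by fun_prop) (by fun_prop)
      · exact (In.el_mem_c (by fun_prop) a).not
      · fun_prop
    · rintro ⟨i, y⟩
      show (if h : (e i).1 ∈ a then (⟨(e i).1, h⟩ : El a) else x₀) = y ↔ _
      by_cases h : (e i).1 ∈ a
      · rw [dif_pos h]
        constructor
        · intro h1
          left
          show y.1 = (e i).1
          rw [← h1]
        · rintro (h1 | ⟨h1, -⟩)
          · exact Subtype.ext h1.symm
          · exact absurd h h1
      · rw [dif_neg h]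
        constructor
        · intro h1
          exact Or.inr ⟨h, h1.symm⟩
        · rintro (h1 | ⟨-, h1⟩)
          · exfalso
            have h1 : y.1 = (e i).1 := h1
            rw [← h1] at h
            exact h y.2
          · exact h1.symm
  · intro i hi
    show ((if h : (e i).1 ∈ a then (⟨(e i).1, h⟩ : El a) else x₀)).1 = _
    rw [dif_pos hi]

theorem ct_iff {a b : M} (x₀ : El a) (hb : ∀ x : M, x ∈ b → x ∈ a) :
    Ct b ↔ ∃ e : IFn M ℕ (El a), ∀ x : El a, x.1 ∈ b → ∃ i, e.1 i = x := by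
  constructor
  · rintro ⟨u, e, he, h⟩
    obtain ⟨e', he'⟩ := IF.retarget x₀ he
    refine ⟨e', fun x hx => ?_⟩
    obtain ⟨i, hi⟩ := h x.1 hx
    refine ⟨i, Subtype.ext ?_⟩
    rw [he' i (by rw [hi]; exact x.2), hi]
  · rintro ⟨e, he⟩
    refine ⟨a, e.1, e.2, fun x hx => ?_⟩
    obtain ⟨i, hi⟩ := he ⟨x, hb x hx⟩ hx
    exact ⟨i, by rw [hi]⟩

/-- the composition with the projection of a subtype is internal -/
theorem IF.subval {T : Type v} [Cd M T] {P : T → Prop} (h : In M P) :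
    letI := Cd.sub h
    IF M (fun t : {t // P t} => t.1) := by
  letI := Cd.sub h
  exact IF.of_df (F := fun x => x) (DfF.var 0) fun _ => rfl

end general

section model

variable {s : ZFSet.{0}} [G : GM s]

theorem exists_unctb : ∃ u : St s, Lv u ∧ ¬ Ct u ∧ (om : St s) ∈ u := by
  obtain ⟨u, hu, hpu, hou⟩ := GM.exists_lv2 (pow (om : St s)) (om : St s)
  refine ⟨u, hu, ?_, hou⟩
  rintro ⟨w, e, he, h⟩
  have hin : In (St s) (fun n : ℕ => ¬ ((Cd.code n : St s) ∈ (e n).1)) := by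
    refine In.not ?_
    have hou' : ∀ n, (nm n : St s) ∈ u := fun n => hu.lev.tr _ hou _ (nm_mem (M := St s) n)
    have := In.el_mem (IF.nmE hou') he
    exact this
  obtain ⟨i, hi⟩ := h (ISet.mk hin).cod (by
    have h1 : (ISet.mk hin).cod ∈ pow (om : St s) := by
      rw [mem_pow]
      intro z hz
      obtain ⟨t, -, rfl⟩ := ISet.mem_cod_iff.1 hz
      exact nm_mem t
    exact hu.lev.tr _ hpu _ h1)
  have h1 : (Cd.code i : St s) ∈ (ISet.mk hin).cod ↔ ¬ ((Cd.code i : St s) ∈ (e i).1) := ISet.mem_cod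
  rw [hi] at h1
  exact iff_not_self h1

variable (s) in
/-- an uncountable level -/
noncomputable def Lam : St s := (exists_unctb (s := s)).choose

instance instLvLam : Lv (Lam s) := (exists_unctb (s := s)).choose_spec.1

theorem Lam_unctb : ¬ Ct (Lam s) := (exists_unctb (s := s)).choose_spec.2.1

theorem om_mem_Lam : (om : St s) ∈ Lam s := (exists_unctb (s := s)).choose_spec.2.2

/-- countable levels belong to `Lam` -/
theorem Ct.mem_Lam {b : St s} (hb : Lev b.1) (h : Ct b) : b ∈ Lam s := by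
  rcases hb.cmp (instLvLam (s := s)).lev with h1 | h1 | h1
  · exact h1
  · exact absurd (by rwa [Subtype.ext (a1 := b) (a2 := Lam s) h1] at h) (Lam_unctb (s := s))
  · exact absurd (h.mono fun x hx => hb.tr _ h1 _ hx) (Lam_unctb (s := s))

theorem in_ctb : In (St s) (fun b : El (Lam s) => Lev b.1.1 ∧ Ct b.1) := by
  have h : In (St s) (fun b : El (Lam s) => Lev b.1.1 ∧ ∃ e : IFn (St s) ℕ (El (Lam s)),
      ∀ x : El (Lam s), x.1.1 ∈ b.1.1 → ∃ i, e.1 i = x) := by
    apply_rules (transparency := .reducible) [In.and, In.ex, In.all, In.imp]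
    all_goals fun_prop
  refine h.congr fun b => ?_
  rw [ct_iff b (fun x hx => Lv.tr (Lam s) _ b.2 _ hx)]
  exact Iff.rfl

variable (s) in
/-- the type of the countable levels -/
def Wt : Type 1 := {b : El (Lam s) // Lev b.1.1 ∧ Ct b.1}

noncomputable instance instCdWt : Cd (St s) (Wt s) := Cd.sub in_ctb

/-- the level as a set -/
def Wt.v (b : Wt s) : ZFSet.{0} := b.1.1.1

/-- the level as an element of `Lam` -/
def Wt.e (b : Wt s) : El (Lam s) := b.1

theorem Wt.lev (b : Wt s) : Lev b.v := b.2.1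

theorem Wt.ct (b : Wt s) : Ct b.e.1 := b.2.2

theorem IF.wt0 : IF (St s) (fun b : Wt s => b.e) :=
  IF.of_df (F := fun x => x) (DfF.var 0) fun _ => rfl

@[fun_prop] theorem IF.wt {T : Type v} [Cd (St s) T] {f : T → Wt s} (hf : IF (St s) f) :
    IF (St s) (fun t => (f t).e) := IF.comp IF.wt0 hf

theorem Wt.ext' {a b : Wt s} (h : a.v = b.v) : a = b :=
  Subtype.ext (Subtype.ext (Subtype.ext h))

/-- a countable level of the model -/
def Wt.mk' (b : St s) (hb : Lev b.1) (h : Ct b) : Wt s := ⟨⟨b, h.mem_Lam hb⟩, hb, h⟩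

open Classical in
noncomputable instance instLinWt : LinearOrder (Wt s) where
  le a b := a.v ∈ b.v ∨ a = b
  lt a b := a.v ∈ b.v
  le_refl a := Or.inr rfl
  le_trans a b c := by
    rintro (h | rfl) (h' | rfl)
    · exact Or.inl (c.lev.tr _ h' _ h)
    · exact Or.inl h
    · exact Or.inl h'
    · exact Or.inr rfl
  lt_iff_le_not_ge a b := by
    constructor
    · intro h
      refine ⟨Or.inl h, ?_⟩
      rintro (h' | rfl)
      · exact ZFSet.mem_asymm h h'
      · exact ZFSet.mem_irrefl _ h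
    · rintro ⟨h | rfl, h'⟩
      · exact h
      · exact absurd (Or.inr rfl) h'
  le_antisymm a b := by
    rintro (h | rfl) (h' | h')
    · exact absurd h' (ZFSet.mem_asymm h)
    · exact h'.symm
    · rfl
    · rfl
  le_total a b := by
    rcases a.lev.cmp b.lev with h | h | h
    · exact Or.inl (Or.inl h)
    · exact Or.inl (Or.inr (Wt.ext' h))
    · exact Or.inr (Or.inl h)
  toDecidableLE := fun _ _ => Classical.propDecidable _

theorem Wt.lt_def {a b : Wt s} : a < b ↔ a.v ∈ b.v := Iff.rfl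

theorem Wt.le_def {a b : Wt s} : a ≤ b ↔ ∀ x ∈ a.v, x ∈ b.v := by
  rw [a.lev.sub_iff b.lev]
  show (a.v ∈ b.v ∨ a = b) ↔ _
  refine or_congr Iff.rfl ⟨fun h => by rw [h], fun h => Wt.ext' h⟩

@[fun_prop] theorem In.wlt {T : Type v} [Cd (St s) T] {f g : T → Wt s} (hf : IF (St s) f)
    (hg : IF (St s) g) : In (St s) (fun t => f t < g t) :=
  In.vmem (f := fun t => (f t).e) (g := fun t => (g t).e) (by fun_prop) (by fun_prop)

/-- The next level of a countable level is countable. -/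
theorem Ct.kst {b : St s} (hb : Lev b.1) (h : Ct b) :
    Ct (⟨Kst b.1, GM.kst_mem b.2 hb⟩ : St s) := by
  obtain ⟨k, hk⟩ : ∃ k : St s, k.1 = Kst b.1 := ⟨⟨Kst b.1, GM.kst_mem b.2 hb⟩, rfl⟩
  haveI : Lv k := ⟨by rw [hk]; exact hb.next⟩
  have hk' : (⟨Kst b.1, GM.kst_mem b.2 hb⟩ : St s) = k := Subtype.ext hk.symm
  rw [hk']
  have hbk : b.1 ∈ k.1 := by rw [hk]; exact self_mem_Kst _
  have hsub : ∀ x : St s, x ∈ b → x ∈ k := fun x hx => (Lv.tr k) _ hbk _ hx
  obtain ⟨e₀, he₀⟩ := (ct_iff (toEl b.1 hbk : El k) hsub).1 h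
  let Q : ℕ → El k → Prop := fun j z =>
    (j.unpair.1 = 0 ∧ z.1.1 = (e₀.1 j.unpair.2).1.1) ∨ (j.unpair.1 = 1 ∧ z.1.1 = b.1) ∨
    (j.unpair.1 = 2 ∧ (e₀.1 j.unpair.2.unpair.2.unpair.1).1.1 ∈ b.1 ∧
      (e₀.1 j.unpair.2.unpair.2.unpair.2).1.1 ∈ b.1 ∧
      z.1.1 = Dd b.1 j.unpair.2.unpair.1 (e₀.1 j.unpair.2.unpair.2.unpair.1).1.1
        (e₀.1 j.unpair.2.unpair.2.unpair.2).1.1)
  have hQ : In (St s) (fun y : ℕ × El k => Q y.1 y.2) := by
    have h1 : In (St s) (fun j : ℕ × El k => (j.1.unpair.1 = 0 ∧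
        j.2.1.1 = (e₀.1 j.1.unpair.2).1.1) ∨ (j.1.unpair.1 = 1 ∧
        j.2.1.1 = (toEl b.1 hbk : El k).1.1) ∨
        (j.1.unpair.1 = 2 ∧ (e₀.1 j.1.unpair.2.unpair.2.unpair.1).1.1 ∈ (toEl b.1 hbk : El k).1.1 ∧
        (e₀.1 j.1.unpair.2.unpair.2.unpair.2).1.1 ∈ (toEl b.1 hbk : El k).1.1 ∧
        j.2.1.1 = Dd (toEl b.1 hbk : El k).1.1 j.1.unpair.2.unpair.1
          (e₀.1 j.1.unpair.2.unpair.2.unpair.1).1.1
          (e₀.1 j.1.unpair.2.unpair.2.unpair.2).1.1)) := by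
      apply_rules (transparency := .reducible) [In.and, In.or]
      all_goals fun_prop
    exact h1
  have huniq : ∀ j z z', Q j z → Q j z' → z = z' := by
    rintro j z z' (⟨h1, h2⟩ | ⟨h1, h2⟩ | ⟨h1, -, -, h2⟩) (⟨h3, h4⟩ | ⟨h3, h4⟩ | ⟨h3, -, -, h4⟩)
    any_goals (exfalso; omega)
    all_goals
      apply Subtype.ext
      apply Subtype.ext
      rw [h2, h4]
  obtain ⟨e, he, he'⟩ := In.choice (M := St s) (T := ℕ) (S := El k)
    (R := fun j z => (∃ z', Q j z') → Q j z) (by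
      apply_rules (transparency := .reducible) [In.imp, In.ex]
      exact hQ.comp (f := fun t : (ℕ × El k) × El k => (t.1.1, t.2)) (by fun_prop)) (by
      intro j
      by_cases h : ∃ z', Q j z'
      · obtain ⟨z, hz⟩ := h
        exact ⟨z, fun _ => hz⟩
      · exact ⟨toEl b.1 hbk, fun h' => absurd h' h⟩)
  refine ⟨k, e, he, fun x hx => ?_⟩
  have hxk : x.1 ∈ Kst b.1 := by rw [← hk]; exact hx
  have hex : ∃ j, Q j ⟨x, hx⟩ := by
    rcases mem_Kst.1 hxk with h1 | h1 | ⟨n, p, q, hp, hq, h1⟩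
    · obtain ⟨i, hi⟩ := he₀ ⟨x, hx⟩ h1
      exact ⟨Nat.pair 0 i, Or.inl ⟨by simp, by simp [hi]⟩⟩
    · exact ⟨Nat.pair 1 0, Or.inr (Or.inl ⟨by simp, h1⟩)⟩
    · obtain ⟨i, hi⟩ := he₀ (toEl p (Lv.tr k _ hbk _ hp)) hp
      obtain ⟨j, hj⟩ := he₀ (toEl q (Lv.tr k _ hbk _ hq)) hq
      refine ⟨Nat.pair 2 (Nat.pair n (Nat.pair i j)), Or.inr (Or.inr ⟨by simp, ?_, ?_, ?_⟩)⟩
      · simp only [Nat.unpair_pair, hi]
        exact hp
      · simp only [Nat.unpair_pair, hj]
        exact hq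
      · simp only [Nat.unpair_pair, hi, hj]
        exact h1
  obtain ⟨j, hj⟩ := hex
  refine ⟨j, ?_⟩
  rw [huniq j _ _ (he' j ⟨_, hj⟩) hj]

/-- the next countable level -/
noncomputable def Wt.next (b : Wt s) : Wt s :=
  Wt.mk' ⟨Kst b.v, GM.kst_mem b.e.1.2 b.lev⟩ b.lev.next (b.ct.kst b.lev)

theorem Wt.next_v (b : Wt s) : b.next.v = Kst b.v := rfl

theorem Wt.lt_next (b : Wt s) : b < b.next := self_mem_Kst _

/-- Countable sequences of countable levels are bounded. -/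
theorem Wt.bdd (f : ℕ → Wt s) (hf : IF (St s) f) : ∃ α : Wt s, ∀ n, f n < α := by
  obtain ⟨E, hE, hE'⟩ := In.choice (M := St s) (T := ℕ) (S := IFn (St s) ℕ (El (Lam s)))
    (R := fun n e => ∀ x : El (Lam s), x.1.1 ∈ (f n).e.1.1 → ∃ i, e.1 i = x) (by
      apply_rules (transparency := .reducible) [In.imp, In.ex, In.all]
      all_goals fun_prop) (by
      intro n
      exact (ct_iff (f n).e (fun x hx => Lv.tr (Lam s) _ (f n).e.2 _ hx)).1 (f n).ct)
  have hin : In (St s) (fun x : El (Lam s) => ∃ n, x.1.1 ∈ (f n).e.1.1) := by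
    apply_rules (transparency := .reducible) [In.ex]
    fun_prop
  obtain ⟨b, hb⟩ : ∃ b : St s, ∀ y, y ∈ b.1 ↔ ∃ n, y ∈ (f n).v := by
    refine ⟨(ISet.mk hin).cod, fun y => ?_⟩
    constructor
    · intro hy
      have hy' : (⟨y, St.mem_of hy⟩ : St s) ∈ (ISet.mk hin).cod := hy
      obtain ⟨t, ⟨n, hn⟩, ht⟩ := ISet.mem_cod_iff.1 hy'
      refine ⟨n, ?_⟩
      have : t.1.1 = y := congrArg Subtype.val ht
      rw [← this]
      exact hn
    · rintro ⟨n, hn⟩
      have hyL : y ∈ (Lam s).1 := Lv.tr (Lam s) _ (f n).e.2 _ hn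
      have : (toEl y hyL : El (Lam s)).1 ∈ (ISet.mk hin).cod :=
        ISet.mem_cod_iff.2 ⟨toEl y hyL, ⟨n, hn⟩, rfl⟩
      exact this
  have hbl : Lev b.1 := by
    refine lev_of_union (Set.range fun n => (f n).v) ?_ fun x => ?_
    · rintro _ ⟨n, rfl⟩
      exact (f n).lev
    · rw [hb]
      simp
  have hbc : Ct b := by
    refine ⟨Lam s, fun j => (E j.unpair.1).1 j.unpair.2, by fun_prop, fun x hx => ?_⟩
    obtain ⟨n, hn⟩ := (hb x.1).1 hx
    obtain ⟨i, hi⟩ := hE' n (toEl x.1 (Lv.tr (Lam s) _ (f n).e.2 _ hn)) hn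
    refine ⟨Nat.pair n i, ?_⟩
    simp only [Nat.unpair_pair]
    rw [hi]
    rfl
  refine ⟨(Wt.mk' b hbl hbc).next, fun n => ?_⟩
  show (f n).v ∈ Kst b.1
  rcases (f n).lev.cmp hbl with h | h | h
  · exact sub_Kst h
  · rw [h]
    exact self_mem_Kst _
  · exact absurd ((hb _).2 ⟨n, h⟩) (ZFSet.mem_irrefl _)

theorem Wt.below (α : Wt s) : ∃ f : Wt s → ℕ, IF (St s) f ∧ Set.InjOn f {β | β < α} := by
  classical
  obtain ⟨e, he⟩ := (ct_iff α.e (fun x hx => Lv.tr (Lam s) _ α.e.2 _ hx)).1 α.ct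
  have hex : ∀ β : Wt s, ∃ i : ℕ, (e.1 i = β.e ∧ ∀ j < i, ¬ e.1 j = β.e) ∨
      ((∀ j, ¬ e.1 j = β.e) ∧ i = 0) := by
    intro β
    by_cases h : ∃ j, e.1 j = β.e
    · exact ⟨Nat.find h, Or.inl ⟨Nat.find_spec h, fun j hj => Nat.find_min h hj⟩⟩
    · exact ⟨0, Or.inr ⟨fun j hj => h ⟨j, hj⟩, rfl⟩⟩
  choose f hf using hex
  have huniq : ∀ β i, ((e.1 i = β.e ∧ ∀ j < i, ¬ e.1 j = β.e) ∨
      ((∀ j, ¬ e.1 j = β.e) ∧ i = 0)) → f β = i := by
    intro β i h
    rcases hf β with ⟨h1, h2⟩ | ⟨h1, h2⟩ <;> rcases h with ⟨h3, h4⟩ | ⟨h3, h4⟩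
    · rcases lt_trichotomy (f β) i with h5 | h5 | h5
      · exact absurd h1 (h4 _ h5)
      · exact h5
      · exact absurd h3 (h2 _ h5)
    · exact absurd h1 (h3 _)
    · exact absurd h3 (h1 _)
    · rw [h2, h4]
  refine ⟨f, ?_, ?_⟩
  · refine IF.of_in (In.congr (P := fun y : Wt s × ℕ => (e.1 y.2 = y.1.e ∧
      ∀ j : ℕ, j < y.2 → ¬ e.1 j = y.1.e) ∨ ((∀ j : ℕ, ¬ e.1 j = y.1.e) ∧ y.2 = 0)) ?_ fun y => ?_)
    · apply_rules (transparency := .reducible) [In.imp, In.or, In.and, In.all]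
      all_goals fun_prop
    · constructor
      · intro h
        have h : f y.1 = y.2 := h
        rw [← h]
        exact hf y.1
      · intro h
        exact huniq y.1 y.2 h
  · intro β hβ γ hγ h
    have hb : e.1 (f β) = β.e := by
      rcases hf β with ⟨h1, -⟩ | ⟨h1, -⟩
      · exact h1
      · obtain ⟨i, hi⟩ := he β.e hβ
        exact absurd hi (h1 i)
    have hc : e.1 (f γ) = γ.e := by
      rcases hf γ with ⟨h1, -⟩ | ⟨h1, -⟩
      · exact h1
      · obtain ⟨i, hi⟩ := he γ.e hγ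
        exact absurd hi (h1 i)
    rw [h, hc] at hb
    exact Subtype.ext hb.symm

/-- The type of the countable levels is the first uncountable ordinal of the model. -/
instance instOm1 : Om1 (St s) (Wt s) where
  ne := by
    obtain ⟨b, hb, hc, -⟩ := exists_ctb_level (s := s) (emp : St s) (fun z hz =>
      absurd hz (not_mem_emp z))
    exact ⟨Wt.mk' b hb.lev hc⟩
  wf := InvImage.wf (fun b : Wt s => b.v) ZFSet.mem_wf
  lt_in := In.wlt IF.fst IF.snd
  below := Wt.below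
  bdd := Wt.bdd

end model

end Pool.Agent.H.MP_a163f2_lc.L
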