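import Pool.Agent.H.MP_a163f2_lc.L.B7

/-!
# Block L, part C0: the Luzin family, definitions

`GnR b O τ x`: the real `x` extends `τ`, is not in `O` and decides all the sets `Ev` built from the
members of `b` and finitely many members of `O`.
`CSpec c`: `c k` is the least real which is generic over the level `k.1` and all the `c k'`, `k' < k`.
-/

set_option autoImplicit false
set_option linter.unusedSectionVars false

namespace Pool.Agent.H.MP_a163f2_lc.L

open Pool.Agent.H.MP_07d118_lc

universe u v w x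

/-- the tuple `t` extends the tuple `s` -/
def FP (s t : List Fs) : Prop :=
  s.length = t.length ∧ ∀ i, i < t.length → s.getD i [] <+: t.getD i []

/-- `v` is the entry with index `j` of a member of `D` which extends `s` and satisfies `K` -/
def Ev (D K : List Fs → Prop) (s : List Fs) (j : ℕ) (v : Fs) : Prop :=
  ∃ t : List Fs, D t ∧ FP s t ∧ K t ∧ j < t.length ∧ t.getD j [] = v

/-- some initial segment (given by `X`) decides the set `Ev D K s j` -/
def Dcd (X : Fs → Prop) (D K : List Fs → Prop) (s : List Fs) (j : ℕ) : Prop :=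
  ∃ v, X v ∧ (Ev D K s j v ∨ ∀ v', v <+: v' → ¬ Ev D K s j v')

/-- `x` is generic over the sets in `b` and the reals in `O`, with the initial segment `τ` -/
def GnR (b : ZFSet.{0}) (O : Set (ℕ → ℕ)) (τ : Fs) (x : ℕ → ℕ) : Prop :=
  Pre x τ ∧ x ∉ O ∧ ∀ d ∈ b, ∀ A : List (ℕ × (ℕ → ℕ)), (∀ c ∈ A, c.2 ∈ O) →
    ∀ (s : List Fs) (j : ℕ), Dcd (Pre x) (fun t => num (Encodable.encode t) ∈ d)
      (fun t => ∀ c ∈ A, c.1 < t.length → Pre c.2 (t.getD c.1 [])) s j

/-- `w` codes the real `x` -/
def Rc (w : ZFSet.{0}) (x : ℕ → ℕ) : Prop := ∀ j, j ∈ w ↔ ∃ n, j = num (Nat.pair n (x n))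

section model

variable {s : ZFSet.{0}} [G : GM s]

/-- the lexicographic order of the index set -/
def ltP (k k' : Wt s × Hc) : Prop :=
  k.1 < k'.1 ∨ (k.1 = k'.1 ∧ Encodable.encode k.2 < Encodable.encode k'.2)

/-- the earlier reals -/
def Od (c : Wt s × Hc → ℕ → ℕ) (k : Wt s × Hc) : Set (ℕ → ℕ) := {x | ∃ k', ltP k' k ∧ c k' = x}

/-- The specification of the family: `c k` is the real with the least code which is generic over
the level `k.1` and the earlier reals. -/
structure CSpec (c : Wt s × Hc → ℕ → ℕ) : Prop where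
  int : IF (St s) (fun y : (Wt s × Hc) × ℕ => c y.1 y.2)
  code : ∀ k, ∃ w ∈ s, Rc w (c k)
  gn : ∀ k, GnR k.1.v (Od c k) k.2.2 (c k)
  min : ∀ k, ∀ w ∈ s, ∀ w', Rc w' (c k) → Lt w w' → ∀ x, Rc w x → ¬ GnR k.1.v (Od c k) k.2.2 x

end model

end Pool.Agent.H.MP_a163f2_lc.L
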