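import Pool.Agent.H.MP_a163f2_lc.L.C0

/-!
# Block L, part C1: reals of the model, definability of genericity
-/

set_option autoImplicit false
set_option linter.unusedSectionVars false

namespace Pool.Agent.H.MP_a163f2_lc.L

open Pool.Agent.H.MP_07d118_lc

universe u v w x

section general

variable {M : Type u} [SetStr M] [ZF M] [Std M] {T : Type v} [Cd M T]

@[fun_prop] theorem IF.lenF {f : T → List ℕ} (hf : IF M f) : IF M (fun t => (f t).length) :=
  IF.comp (g := fun l : List ℕ => l.length) (IF.prim Primrec.list_length) hf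

@[fun_prop] theorem IF.getDF {f : T → List ℕ} (hf : IF M f) {g : T → ℕ} (hg : IF M g) (d : ℕ) :
    IF M (fun t => (f t).getD (g t) d) :=
  IF.prim2 (F := fun (l : List ℕ) (i : ℕ) => l.getD i d) (Primrec.list_getD d) hf hg

@[fun_prop] theorem IF.lenL {f : T → List (List ℕ)} (hf : IF M f) :
    IF M (fun t => (f t).length) :=
  IF.comp (g := fun l : List (List ℕ) => l.length) (IF.prim Primrec.list_length) hf

@[fun_prop] theorem IF.getDL {f : T → List (List ℕ)} (hf : IF M f) {g : T → ℕ} (hg : IF M g)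
    (d : List ℕ) : IF M (fun t => (f t).getD (g t) d) :=
  IF.prim2 (F := fun (l : List (List ℕ)) (i : ℕ) => l.getD i d) (Primrec.list_getD d) hf hg

@[fun_prop] theorem IF.appF {f g : T → List ℕ} (hf : IF M f) (hg : IF M g) :
    IF M (fun t => f t ++ g t) :=
  IF.prim2 (F := fun l l' : List ℕ => l ++ l') Primrec.list_append hf hg

@[fun_prop] theorem IF.encL {f : T → List (List ℕ)} (hf : IF M f) :
    IF M (fun t => Encodable.encode (f t)) :=
  IF.comp (g := fun l : List (List ℕ) => Encodable.encode l) (IF.prim Primrec.encode) hf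

@[fun_prop] theorem In.pfx {f g : T → List ℕ} (hf : IF M f) (hg : IF M g) :
    In M (fun t => f t <+: g t) := by
  have h : In M (fun t => ∃ w : List ℕ, f t ++ w = g t) := by
    apply_rules (transparency := .reducible) [In.ex]
    fun_prop
  exact h

theorem ini_getD (x : ℕ → ℕ) {k i : ℕ} (h : i < k) : (ini x k).getD i 0 = x i := by
  rw [List.getD_eq_getElem _ _ (by simpa [ini] using h)]
  simp [ini]

theorem ini_length (x : ℕ → ℕ) (k : ℕ) : (ini x k).length = k := by simp [ini]

theorem pre_iff {x : ℕ → ℕ} {u : Fs} : Pre x u ↔ ∀ i, i < u.length → u.getD i 0 = x i := by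
  unfold Pre
  constructor
  · intro h i hi
    rw [← h, ini_getD x hi]
  · intro h
    refine List.ext_getElem (ini_length x _) fun i h1 h2 => ?_
    have h3 := h i h2
    rw [List.getD_eq_getElem _ _ h2] at h3
    have h4 := ini_getD x h2
    rw [List.getD_eq_getElem _ _ h1] at h4
    rw [h3, h4]

@[fun_prop] theorem In.pre {f : T → IFn M ℕ ℕ} (hf : IF M f) {g : T → List ℕ} (hg : IF M g) :
    In M (fun t => Pre (f t).1 (g t)) := by
  have h : In M (fun t => ∀ i : ℕ, i < (g t).length → (g t).getD i 0 = (f t).1 i) := by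
    apply_rules (transparency := .reducible) [In.all, In.imp]
    all_goals fun_prop
  exact h.congr fun t => pre_iff

@[fun_prop] theorem In.fp {f g : T → List (List ℕ)} (hf : IF M f) (hg : IF M g) :
    In M (fun t => FP (f t) (g t)) := by
  have h : In M (fun t => (f t).length = (g t).length ∧ ∀ i : ℕ, i < (g t).length →
      (f t).getD i [] <+: (g t).getD i []) := by
    apply_rules (transparency := .reducible) [In.all, In.imp, In.and]
    all_goals fun_prop
  exact h

theorem Pre.mono {x : ℕ → ℕ} {u v : Fs} (h : Pre x v) (huv : u <+: v) : Pre x u := by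
  obtain ⟨w, rfl⟩ := huv
  rw [pre_iff] at h ⊢
  intro i hi
  have h1 := h i (by rw [List.length_append]; omega)
  rw [← h1, List.getD_append _ _ _ _ hi]

theorem Pre.cmp {x : ℕ → ℕ} {u v : Fs} (hu : Pre x u) (hv : Pre x v) :
    u <+: v ∨ v <+: u := by
  have key : ∀ m n, m ≤ n → ini x m <+: ini x n := by
    intro m n h
    unfold ini
    obtain ⟨k, rfl⟩ := Nat.exists_eq_add_of_le h
    rw [List.range_add, List.map_append]
    exact List.prefix_append _ _
  rcases le_total u.length v.length with h | h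
  · left
    rw [← hu, ← hv]
    simpa only [ini_length] using key _ _ h
  · right
    rw [← hu, ← hv]
    simpa only [ini_length] using key _ _ h

end general

section model

variable {s : ZFSet.{0}} [G : GM s]

variable (s) in
/-- the reals of the model -/
abbrev Rl : Type := IFn (St s) ℕ ℕ

theorem num_nm (n : ℕ) : (nm n : St s).1 = num n := by
  induction n with
  | zero =>
    show (emp : St s).1 = ∅
    rw [ZFSet.eq_empty]
    intro z hz
    exact not_mem_emp (⟨z, St.mem_of hz⟩ : St s) hz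
  | succ n ih =>
    show (suc (nm n : St s)).1 = insert (num n) (num n)
    ext z
    rw [ZFSet.mem_insert_iff, ← ih]
    constructor
    · intro hz
      have h : (⟨z, St.mem_of hz⟩ : St s) ∈ suc (nm n : St s) := hz
      rcases mem_suc.1 h with h1 | h1
      · exact Or.inr h1
      · exact Or.inl (congrArg Subtype.val h1)
    · rintro (rfl | hz)
      · exact (mem_suc.2 (Or.inr rfl) : (nm n : St s) ∈ suc (nm n : St s))
      · exact (mem_suc.2 (Or.inl hz) : (⟨z, St.mem_of hz⟩ : St s) ∈ suc (nm n : St s))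

theorem num_inj {m n : ℕ} (h : num m = num n) (s : ZFSet.{0}) [GM s] : m = n := by
  rw [← num_nm (s := s), ← num_nm (s := s)] at h
  exact nm_inj (M := St s) (Subtype.ext h)

variable (s) in
theorem exists_UU : ∃ u : St s, Lv u ∧ pow (om : St s) ∈ u ∧ (om : St s) ∈ u :=
  GM.exists_lv2 (pow (om : St s)) (om : St s)

variable (s) in
/-- a level which contains all the reals of the model -/
noncomputable def UU : St s := (exists_UU s).choose

instance instLvUU : Lv (UU s) := (exists_UU s).choose_spec.1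

theorem sub_om_mem_UU {w : St s} (h : ∀ z : St s, z ∈ w → z ∈ (om : St s)) : w ∈ UU s := by
  have h1 : w ∈ pow (om : St s) := mem_pow.2 h
  exact (instLvUU (s := s)).lev.tr _ (exists_UU s).choose_spec.2.1 _ h1

theorem nm_mem_UU (n : ℕ) : (nm n : St s) ∈ UU s :=
  (instLvUU (s := s)).lev.tr _ (exists_UU s).choose_spec.2.2 _ (nm_mem (M := St s) n)

theorem nm_mem_Lam (n : ℕ) : (nm n : St s) ∈ Lam s :=
  (instLvLam (s := s)).lev.tr _ om_mem_Lam _ (nm_mem (M := St s) n)

/-- the numerals as elements of `UU` -/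
noncomputable def nU (n : ℕ) : El (UU s) := nmE nm_mem_UU n

/-- the numerals as elements of `Lam` -/
noncomputable def nL (n : ℕ) : El (Lam s) := nmE nm_mem_Lam n

@[fun_prop] theorem IF.nU' {T : Type v} [Cd (St s) T] {f : T → ℕ} (hf : IF (St s) f) :
    IF (St s) (fun t => (nU (f t) : El (UU s))) := IF.comp (IF.nmE nm_mem_UU) hf

@[fun_prop] theorem IF.nL' {T : Type v} [Cd (St s) T] {f : T → ℕ} (hf : IF (St s) f) :
    IF (St s) (fun t => (nL (f t) : El (Lam s))) := IF.comp (IF.nmE nm_mem_Lam) hf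

theorem nU_val (n : ℕ) : (nU n : El (UU s)).1.1 = num n := num_nm n

theorem nL_val (n : ℕ) : (nL n : El (Lam s)).1.1 = num n := num_nm n

theorem num_mem_s (n : ℕ) : num n ∈ s := by
  rw [← num_nm (s := s)]
  exact (nm n : St s).2

/-- the graph of a real, coded as a set of natural numbers -/
noncomputable def gph (x : Rl s) : ISet (St s) ℕ := ISet.mk (P := fun m => x.1 m.unpair.1 = m.unpair.2) (by
  fun_prop)

theorem mem_gph_cod {x : Rl s} {z : St s} :
    z ∈ (gph x).cod ↔ ∃ n, z.1 = num (Nat.pair n (x.1 n)) := by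
  rw [ISet.mem_cod_iff]
  constructor
  · rintro ⟨m, hm, rfl⟩
    have hm : x.1 m.unpair.1 = m.unpair.2 := hm
    refine ⟨m.unpair.1, ?_⟩
    rw [hm, Nat.pair_unpair]
    exact num_nm m
  · rintro ⟨n, hn⟩
    refine ⟨Nat.pair n (x.1 n), ?_, ?_⟩
    · show x.1 (Nat.pair n (x.1 n)).unpair.1 = (Nat.pair n (x.1 n)).unpair.2
      rw [Nat.unpair_pair]
    · apply Subtype.ext
      rw [hn]
      exact num_nm _

/-- the code of a real -/
noncomputable def rcE (x : Rl s) : El (UU s) := ⟨(gph x).cod, sub_om_mem_UU fun z hz => by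
  obtain ⟨t, -, rfl⟩ := ISet.mem_cod_iff.1 hz
  exact nm_mem t⟩

theorem rc_rcE (x : Rl s) : Rc (rcE x).1.1 x.1 := by
  intro j
  constructor
  · intro hj
    exact mem_gph_cod.1 (show (⟨j, St.mem_of hj⟩ : St s) ∈ (gph x).cod from hj)
  · rintro ⟨n, rfl⟩
    have : (⟨num (Nat.pair n (x.1 n)), num_mem_s _⟩ : St s) ∈ (gph x).cod := mem_gph_cod.2 ⟨n, rfl⟩
    exact this

theorem Rc.inj {w : ZFSet.{0}} {x x' : ℕ → ℕ} (h : Rc w x) (h' : Rc w x') (s : ZFSet.{0})
    [GM s] : x = x' := by
  funext n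
  obtain ⟨m, hm⟩ := (h' _).1 ((h _).2 ⟨n, rfl⟩)
  have := num_inj hm s
  obtain ⟨rfl, h1⟩ := Nat.pair_eq_pair.1 this
  exact h1

theorem Rc.uniq {w w' : ZFSet.{0}} {x : ℕ → ℕ} (h : Rc w x) (h' : Rc w' x) : w = w' := by
  ext j
  rw [h j, h' j]

theorem rcE_inj : Function.Injective (rcE : Rl s → El (UU s)) := by
  intro x x' h
  apply Subtype.ext
  have h1 := rc_rcE x
  rw [h] at h1
  exact h1.inj (rc_rcE x') s

/-- a real with a code in the model is internal -/
theorem Rc.internal {w : ZFSet.{0}} {x : ℕ → ℕ} (h : Rc w x) (hw : w ∈ s) : IF (St s) x := by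
  have h1 : In (St s) (fun y : ℕ × ℕ => (nU (Nat.pair y.1 y.2) : El (UU s)).1 ∈ (⟨w, hw⟩ : St s)) := by
    fun_prop
  refine IF.of_in (h1.congr fun y => ?_)
  show x y.1 = y.2 ↔ (nU (Nat.pair y.1 y.2) : El (UU s)).1.1 ∈ w
  rw [nU_val, h]
  constructor
  · intro h
    exact ⟨y.1, by rw [h]⟩
  · rintro ⟨n, hn⟩
    have := num_inj hn s
    obtain ⟨rfl, h1⟩ := Nat.pair_eq_pair.1 this
    exact h1.symm

theorem Rc.eq_rcE {w : ZFSet.{0}} {x : ℕ → ℕ} (h : Rc w x) (hw : w ∈ s) :
    w = (rcE (⟨x, h.internal hw⟩ : Rl s)).1.1 := h.uniq (rc_rcE (⟨x, h.internal hw⟩ : Rl s))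

theorem rc_iff {x : Rl s} {w : El (UU s)} : Rc w.1.1 x.1 ↔ ∀ z : El (UU s), z.1.1 ∈ w.1.1 ↔
    ∃ n : ℕ, z.1.1 = (nU (Nat.pair n (x.1 n)) : El (UU s)).1.1 := by
  simp only [nU_val]
  constructor
  · exact fun h z => h _
  · intro h j
    constructor
    · intro hj
      exact (h (toEl j (Lv.tr (UU s) _ w.2 _ hj))).1 hj
    · rintro ⟨n, rfl⟩
      have := (h (nU (Nat.pair n (x.1 n)))).2 ⟨n, nU_val _⟩
      rwa [nU_val] at this

theorem in_rc : In (St s) (fun y : Rl s × El (UU s) => Rc y.2.1.1 y.1.1) := by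
  have h : In (St s) (fun y : Rl s × El (UU s) => ∀ z : El (UU s), z.1.1 ∈ y.2.1.1 ↔
    ∃ n : ℕ, z.1.1 = (nU (Nat.pair n (y.1.1 n)) : El (UU s)).1.1) := by
    apply_rules (transparency := .reducible) [In.all, In.iff, In.ex]
    all_goals fun_prop
  exact h.congr fun y => rc_iff

theorem IF.rcE0 : IF (St s) (rcE : Rl s → El (UU s)) := by
  refine IF.of_in (in_rc.congr fun y => ?_)
  constructor
  · intro h
    have h : rcE y.1 = y.2 := h
    rw [← h]
    exact rc_rcE y.1
  · intro h
    apply Subtype.ext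
    apply Subtype.ext
    exact (rc_rcE y.1).uniq h

@[fun_prop] theorem IF.rcE' {T : Type v} [Cd (St s) T] {f : T → Rl s} (hf : IF (St s) f) :
    IF (St s) (fun t => rcE (f t)) := IF.comp IF.rcE0 hf

end model

end Pool.Agent.H.MP_a163f2_lc.L
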