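import Pool.Agent.H.MP_a163f2_lc.L.C1

/-!
# Block L, part C2: definability of genericity and existence of generic reals
-/

set_option autoImplicit false
set_option linter.unusedSectionVars false

namespace Pool.Agent.H.MP_a163f2_lc.L

open Pool.Agent.H.MP_07d118_lc

universe u v w x

section model

variable {s : ZFSet.{0}} [G : GM s]

theorem dcd_congr {X X' : Fs → Prop} {D D' K K' : List Fs → Prop} (hX : ∀ v, X v ↔ X' v)
    (hD : ∀ t, D t ↔ D' t) (hK : ∀ t, K t ↔ K' t) (s₀ : List Fs) (j : ℕ) :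
    Dcd X D K s₀ j ↔ Dcd X' D' K' s₀ j := by
  obtain rfl : X = X' := funext fun v => propext (hX v)
  obtain rfl : D = D' := funext fun v => propext (hD v)
  obtain rfl : K = K' := funext fun v => propext (hK v)
  exact Iff.rfl

/-- the constraint given by a finite set -/
def KF (A : Finset (ℕ × Rl s)) (t : List Fs) : Prop :=
  ∀ c : ℕ × Rl s, c ∈ A → c.1 < t.length → Pre c.2.1 (t.getD c.1 [])

theorem in_KF : In (St s) (fun y : Finset (ℕ × Rl s) × List Fs => KF y.1 y.2) := by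
  unfold KF
  apply_rules (transparency := .reducible) [In.all, In.imp]
  · exact In.fmem (by fun_prop) (by fun_prop)
  all_goals fun_prop

theorem in_EvI : In (St s) (fun y : (((El (Lam s) × Finset (ℕ × Rl s)) × List Fs) × ℕ) × Fs =>
    Ev (fun t => num (Encodable.encode t) ∈ y.1.1.1.1.1.1) (KF y.1.1.1.2) y.1.1.2 y.1.2 y.2) := by
  have h : In (St s) (fun y : (((El (Lam s) × Finset (ℕ × Rl s)) × List Fs) × ℕ) × Fs =>
      ∃ t : List Fs, (nL (Encodable.encode t) : El (Lam s)).1.1 ∈ y.1.1.1.1.1.1 ∧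
        FP y.1.1.2 t ∧ KF y.1.1.1.2 t ∧ y.1.2 < t.length ∧ t.getD y.1.2 [] = y.2) := by
    apply_rules (transparency := .reducible) [In.ex, In.and]
    · fun_prop
    · fun_prop
    · exact in_KF.comp (f := fun t : ((((El (Lam s) × Finset (ℕ × Rl s)) × List Fs) × ℕ) × Fs) ×
        List Fs => (t.1.1.1.1.2, t.2)) (by fun_prop)
    · fun_prop
    · fun_prop
  refine h.congr fun y => ?_
  simp only [nL_val]
  exact Iff.rfl

/-- genericity with internal arguments -/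
def GnI (b : Wt s) (O : ISet (St s) (Rl s)) (τ : Fs) (x : Rl s) : Prop :=
  GnR b.v {z | ∃ y : Rl s, y ∈ O ∧ y.1 = z} τ x.1

theorem list_to_finset {O : ISet (St s) (Rl s)} (A : List (ℕ × (ℕ → ℕ)))
    (hA : ∀ c ∈ A, c.2 ∈ {z | ∃ y : Rl s, y ∈ O ∧ y.1 = z}) :
    ∃ A' : Finset (ℕ × Rl s), (∀ c : ℕ × Rl s, c ∈ A' → c.2 ∈ O) ∧
      ∀ t, KF A' t ↔ ∀ c ∈ A, c.1 < t.length → Pre c.2 (t.getD c.1 []) := by
  classical
  induction A with
  | nil =>
    refine ⟨∅, fun c hc => absurd hc (Finset.notMem_empty c), fun t => ?_⟩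
    exact ⟨fun _ c hc => absurd hc List.not_mem_nil, fun _ c hc => absurd hc (Finset.notMem_empty c)⟩
  | cons c A ih =>
    obtain ⟨A', h1, h2⟩ := ih fun c' hc' => hA c' (List.mem_cons_of_mem _ hc')
    obtain ⟨y, hy, hyc⟩ := hA c List.mem_cons_self
    refine ⟨insert (c.1, y) A', fun c' hc' => ?_, fun t => ?_⟩
    · rcases Finset.mem_insert.1 hc' with rfl | h
      · exact hy
      · exact h1 _ h
    · constructor
      · intro h c' hc'
        rcases List.mem_cons.1 hc' with rfl | h3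
        · intro h4
          have := h (c'.1, y) (Finset.mem_insert_self _ _) h4
          rw [← hyc]
          exact this
        · exact (h2 t).1 (fun c'' hc'' => h c'' (Finset.mem_insert_of_mem hc'')) c' h3
      · intro h c' hc'
        rcases Finset.mem_insert.1 hc' with rfl | h3
        · intro h4
          have := h c List.mem_cons_self h4
          rw [← hyc] at this
          exact this
        · exact (h2 t).2 (fun c'' hc'' => h c'' (List.mem_cons_of_mem _ hc'')) c' h3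

theorem finset_to_list (A : Finset (ℕ × Rl s)) {O : ISet (St s) (Rl s)}
    (hA : ∀ c : ℕ × Rl s, c ∈ A → c.2 ∈ O) : ∃ A' : List (ℕ × (ℕ → ℕ)),
      (∀ c ∈ A', c.2 ∈ {z | ∃ y : Rl s, y ∈ O ∧ y.1 = z}) ∧
      ∀ t, KF A t ↔ ∀ c ∈ A', c.1 < t.length → Pre c.2 (t.getD c.1 []) := by
  refine ⟨A.toList.map fun c => (c.1, c.2.1), ?_, fun t => ?_⟩
  · intro c hc
    obtain ⟨c', hc', rfl⟩ := List.mem_map.1 hc
    exact ⟨c'.2, hA c' (Finset.mem_toList.1 hc'), rfl⟩
  · constructor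
    · intro h c hc
      obtain ⟨c', hc', rfl⟩ := List.mem_map.1 hc
      exact h c' (Finset.mem_toList.1 hc')
    · intro h c hc
      exact h (c.1, c.2.1) (List.mem_map.2 ⟨c, Finset.mem_toList.2 hc, rfl⟩)

theorem gnI_iff {b : Wt s} {O : ISet (St s) (Rl s)} {τ : Fs} {x : Rl s} : GnI b O τ x ↔
    (Pre x.1 τ ∧ ¬ x ∈ O ∧ ∀ d : El (Lam s), d.1.1 ∈ b.e.1.1 → ∀ A : Finset (ℕ × Rl s),
      (∀ c : ℕ × Rl s, c ∈ A → c.2 ∈ O) → ∀ (s₀ : List Fs) (j : ℕ), ∃ v : Fs, Pre x.1 v ∧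
        (Ev (fun t => num (Encodable.encode t) ∈ d.1.1) (KF A) s₀ j v ∨
          ∀ v' : Fs, v <+: v' → ¬ Ev (fun t => num (Encodable.encode t) ∈ d.1.1) (KF A) s₀ j v')) := by
  unfold GnI GnR
  refine and_congr Iff.rfl (and_congr (not_congr ?_) ?_)
  · constructor
    · rintro ⟨y, hy, hyx⟩
      rwa [← Subtype.ext (a1 := y) (a2 := x) hyx]
    · exact fun h => ⟨x, h, rfl⟩
  · constructor
    · intro h d hd A hA s₀ j
      obtain ⟨A', h1, h2⟩ := finset_to_list A hA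
      have h3 := h d.1.1 hd A' h1 s₀ j
      exact (dcd_congr (fun _ => Iff.rfl) (fun _ => Iff.rfl) (fun t => (h2 t).symm) s₀ j).1 h3
    · intro h d hd A hA s₀ j
      obtain ⟨A', h1, h2⟩ := list_to_finset A hA
      have h3 := h (toEl d (Lv.tr (Lam s) _ b.e.2 _ hd)) hd A' h1 s₀ j
      exact (dcd_congr (fun _ => Iff.rfl) (fun _ => Iff.rfl) (fun t => h2 t) s₀ j).1 h3

theorem in_GnI : In (St s) (fun y : ((Wt s × ISet (St s) (Rl s)) × Fs) × Rl s =>
    GnI y.1.1.1 y.1.1.2 y.1.2 y.2) := by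
  have h : In (St s) (fun y : ((Wt s × ISet (St s) (Rl s)) × Fs) × Rl s =>
      (Pre y.2.1 y.1.2 ∧ ¬ y.2 ∈ y.1.1.2 ∧ ∀ d : El (Lam s), d.1.1 ∈ y.1.1.1.e.1.1 →
        ∀ A : Finset (ℕ × Rl s), (∀ c : ℕ × Rl s, c ∈ A → c.2 ∈ y.1.1.2) → ∀ (s₀ : List Fs) (j : ℕ),
        ∃ v : Fs, Pre y.2.1 v ∧ (Ev (fun t => num (Encodable.encode t) ∈ d.1.1) (KF A) s₀ j v ∨
          ∀ v' : Fs, v <+: v' →
            ¬ Ev (fun t => num (Encodable.encode t) ∈ d.1.1) (KF A) s₀ j v'))) := by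
    refine In.and (by fun_prop) (In.and (by fun_prop) ?_)
    refine In.all (In.imp (by fun_prop) (In.all (In.imp ?_ (In.all (In.all (In.ex
      (In.and (by fun_prop) (In.or ?_ (In.all (In.imp (by fun_prop) (In.not ?_)))))))))))
    · refine In.all (In.imp (In.fmem (by fun_prop) (by fun_prop)) (by fun_prop))
    · exact in_EvI.comp (f := fun t : (((((((Wt s × ISet (St s) (Rl s)) × Fs) × Rl s) × El (Lam s)) ×
        Finset (ℕ × Rl s)) × List Fs) × ℕ) × Fs => ((((t.1.1.1.1.2, t.1.1.1.2), t.1.1.2), t.1.2), t.2))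
        (by fun_prop)
    · exact in_EvI.comp (f := fun t : ((((((((Wt s × ISet (St s) (Rl s)) × Fs) × Rl s) × El (Lam s)) ×
        Finset (ℕ × Rl s)) × List Fs) × ℕ) × Fs) × Fs =>
        ((((t.1.1.1.1.1.2, t.1.1.1.1.2), t.1.1.1.2), t.1.1.2), t.2)) (by fun_prop)
  exact h.congr fun y => gnI_iff

end model

end Pool.Agent.H.MP_a163f2_lc.L
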