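import Pool.Agent.H.MP_a163f2_lc.L.C2

/-!
# Block L, part C2b: existence of generic reals
-/

set_option autoImplicit false
set_option linter.unusedSectionVars false

namespace Pool.Agent.H.MP_a163f2_lc.L

open Pool.Agent.H.MP_07d118_lc

universe u v w x

section general

variable {M : Type u} [SetStr M] [ZF M] [Std M] {T : Type v} [Cd M T]

@[fun_prop] theorem IF.ofNatLN {f : T → ℕ} (hf : IF M f) :
    IF M (fun t => Denumerable.ofNat (List ℕ) (f t)) :=
  IF.comp (g := fun n => Denumerable.ofNat (List ℕ) n) (IF.prim (Primrec.ofNat (List ℕ))) hf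

@[fun_prop] theorem IF.ofNatLL {f : T → ℕ} (hf : IF M f) :
    IF M (fun t => Denumerable.ofNat (List (List ℕ)) (f t)) :=
  IF.comp (g := fun n => Denumerable.ofNat (List (List ℕ)) n)
    (IF.prim (Primrec.ofNat (List (List ℕ)))) hf

end general

section model

variable {s : ZFSet.{0}} [G : GM s]

/-- Meeting countably many requirements. -/
theorem exists_gen {Q : ℕ → Fs → Prop} (hQ : In (St s) (fun y : ℕ × Fs => Q y.1 y.2))
    (h : ∀ n u, ∃ v, u <+: v ∧ Q n v) (τ : Fs) :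
    ∃ x : Rl s, Pre x.1 τ ∧ ∀ n, ∃ v, Pre x.1 v ∧ Q n v := by
  obtain ⟨g, hg, hg'⟩ := In.choice (M := St s) (T := ℕ × Fs) (S := Fs)
    (R := fun y v => y.2 <+: v ∧ Q y.1 v) (by
      refine In.and (by fun_prop) ?_
      exact hQ.comp (f := fun t : (ℕ × Fs) × Fs => (t.1.1, t.2)) (by fun_prop)) (by
      intro y
      exact h y.1 y.2)
  obtain ⟨p, hp, hp0, hpS⟩ : ∃ p : ℕ → Fs, IF (St s) p ∧ p 0 = τ ∧
      ∀ n, p (n + 1) = g (n, p n) ++ [0] := by
    refine ⟨fun n => Nat.rec (motive := fun _ => Fs) τ (fun n t => g (n, t) ++ [0]) n, ?_, rfl,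
      fun n => rfl⟩
    have h1 := IF.natRec (M := St s) (T := Fs) (S := ℕ) (a := fun _ => τ)
      (g := fun y => g (y.2.1, y.2.2) ++ [0]) (by fun_prop) (by fun_prop)
    exact IF.comp (f := fun n : ℕ => (n, n)) h1 (by fun_prop)
  have hstep : ∀ n, p n <+: p (n + 1) := by
    intro n
    rw [hpS]
    exact (hg' (n, p n)).1.trans (List.prefix_append _ _)
  have hmono : ∀ m n, m ≤ n → p m <+: p n := by
    intro m n hmn
    induction n, hmn using Nat.le_induction with
    | base => exact List.prefix_refl _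
    | succ n _ ih => exact ih.trans (hstep n)
  have hlen : ∀ n, n ≤ (p n).length := by
    intro n
    induction n with
    | zero => exact Nat.zero_le _
    | succ n ih =>
      have h1 := (hg' (n, p n)).1.length_le
      have h1 : (p n).length ≤ (g (n, p n)).length := h1
      rw [hpS, List.length_append, List.length_singleton]
      omega
  have hx : IF (St s) (fun i : ℕ => (p (i + 1)).getD i 0) := by fun_prop
  have hpre : ∀ n, Pre (fun i : ℕ => (p (i + 1)).getD i 0) (p n) := by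
    intro n
    rw [pre_iff]
    intro i hi
    rcases le_total n (i + 1) with h1 | h1
    · obtain ⟨w, hw⟩ := hmono _ _ h1
      rw [← hw, List.getD_append _ _ _ _ hi]
    · obtain ⟨w, hw⟩ := hmono _ _ h1
      have h2 : i < (p (i + 1)).length := hlen (i + 1)
      rw [← hw, List.getD_append _ _ _ _ h2]
  refine ⟨⟨_, hx⟩, ?_, fun n => ⟨g (n, p n), ?_, (hg' (n, p n)).2⟩⟩
  · have := hpre 0
    rwa [hp0] at this
  · have := hpre (n + 1)
    rw [hpS] at this
    exact Pre.mono (x := fun i : ℕ => (p (i + 1)).getD i 0) this (List.prefix_append _ _)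

/-- the constraint given by a list of numbers -/
def KS (f : ℕ → Rl s) (σ : List ℕ) (t : List Fs) : Prop :=
  ∀ i : ℕ, i < σ.length → (σ.getD i 0).unpair.1 < t.length →
    Pre (f (σ.getD i 0).unpair.2).1 (t.getD (σ.getD i 0).unpair.1 [])

/-- the requirements -/
def QS (e : ℕ → El (Lam s)) (f : ℕ → Rl s) (i : ℕ) (σ : List ℕ) (s₀ : List Fs) (j : ℕ) (v : Fs) :
    Prop := ∃ t : List Fs, (nL (Encodable.encode t) : El (Lam s)).1.1 ∈ (e i).1.1 ∧
      FP s₀ t ∧ KS f σ t ∧ j < t.length ∧ t.getD j [] = v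

theorem in_KS {f : ℕ → Rl s} (hf : IF (St s) f) :
    In (St s) (fun y : List ℕ × List Fs => KS f y.1 y.2) := by
  unfold KS
  apply_rules (transparency := .reducible) [In.all, In.imp]
  all_goals fun_prop

theorem in_QS {e : ℕ → El (Lam s)} (he : IF (St s) e) {f : ℕ → Rl s} (hf : IF (St s) f) :
    In (St s) (fun y : (((ℕ × List ℕ) × List Fs) × ℕ) × Fs =>
      QS e f y.1.1.1.1 y.1.1.1.2 y.1.1.2 y.1.2 y.2) := by
  unfold QS
  refine In.ex (In.and (by fun_prop) (In.and (by fun_prop) (In.and ?_ (In.and (by fun_prop)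
    (by fun_prop)))))
  exact (in_KS hf).comp (f := fun t : ((((ℕ × List ℕ) × List Fs) × ℕ) × Fs) × List Fs =>
    (t.1.1.1.1.2, t.2)) (by fun_prop)

/-- The requirement with the number `n`. -/
def QN (e : ℕ → El (Lam s)) (f : ℕ → Rl s) (n : ℕ) (v : Fs) : Prop :=
  ¬ Pre (f n.unpair.1).1 v ∧
    (QS e f n.unpair.1 (Denumerable.ofNat (List ℕ) n.unpair.2.unpair.1)
      (Denumerable.ofNat (List Fs) n.unpair.2.unpair.2.unpair.1)
      n.unpair.2.unpair.2.unpair.2 v ∨
    ∀ v' : Fs, v <+: v' → ¬ QS e f n.unpair.1 (Denumerable.ofNat (List ℕ) n.unpair.2.unpair.1)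
      (Denumerable.ofNat (List Fs) n.unpair.2.unpair.2.unpair.1)
      n.unpair.2.unpair.2.unpair.2 v')

theorem in_QN {e : ℕ → El (Lam s)} (he : IF (St s) e) {f : ℕ → Rl s} (hf : IF (St s) f) :
    In (St s) (fun y : ℕ × Fs => QN e f y.1 y.2) := by
  unfold QN
  refine In.and (by fun_prop) (In.or ?_ (In.all (In.imp (by fun_prop) (In.not ?_))))
  · exact (in_QS he hf).comp (f := fun y : ℕ × Fs =>
      ((((y.1.unpair.1, Denumerable.ofNat (List ℕ) y.1.unpair.2.unpair.1),
        Denumerable.ofNat (List Fs) y.1.unpair.2.unpair.2.unpair.1),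
        y.1.unpair.2.unpair.2.unpair.2), y.2)) (by fun_prop)
  · exact (in_QS he hf).comp (f := fun y : (ℕ × Fs) × Fs =>
      ((((y.1.1.unpair.1, Denumerable.ofNat (List ℕ) y.1.1.unpair.2.unpair.1),
        Denumerable.ofNat (List Fs) y.1.1.unpair.2.unpair.2.unpair.1),
        y.1.1.unpair.2.unpair.2.unpair.2), y.2)) (by fun_prop)

theorem QN_ext (e : ℕ → El (Lam s)) (f : ℕ → Rl s) (n : ℕ) (u : Fs) :
    ∃ v, u <+: v ∧ QN e f n v := by
  have h0 : ¬ Pre (f n.unpair.1).1 (u ++ [(f n.unpair.1).1 u.length + 1]) := by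
    intro h
    rw [pre_iff] at h
    have h1 := h u.length (by simp)
    rw [List.getD_append_right _ _ _ _ le_rfl] at h1
    simp at h1
  have h1 : u <+: u ++ [(f n.unpair.1).1 u.length + 1] := List.prefix_append _ _
  by_cases h : ∃ v, (u ++ [(f n.unpair.1).1 u.length + 1]) <+: v ∧
      QS e f n.unpair.1 (Denumerable.ofNat (List ℕ) n.unpair.2.unpair.1)
      (Denumerable.ofNat (List Fs) n.unpair.2.unpair.2.unpair.1)
      n.unpair.2.unpair.2.unpair.2 v
  · obtain ⟨v, hv, hv'⟩ := h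
    exact ⟨v, h1.trans hv, fun h2 => h0 (Pre.mono (x := (f n.unpair.1).1) h2 hv), Or.inl hv'⟩
  · exact ⟨_, h1, h0, Or.inr fun v' hv' hq => h ⟨v', hv', hq⟩⟩

theorem list_to_ks {f : ℕ → Rl s} {O : Set (ℕ → ℕ)} (hf : ∀ x ∈ O, ∃ n, (f n).1 = x)
    (A : List (ℕ × (ℕ → ℕ))) (hA : ∀ c ∈ A, c.2 ∈ O) : ∃ σ : List ℕ,
      ∀ t, KS f σ t ↔ ∀ c ∈ A, c.1 < t.length → Pre c.2 (t.getD c.1 []) := by
  classical
  choose! idx hidx using hf
  refine ⟨A.map fun c => Nat.pair c.1 (idx c.2), fun t => ?_⟩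
  unfold KS
  constructor
  · intro h c hc h1
    obtain ⟨i, hi, rfl⟩ := List.mem_iff_getElem.1 hc
    have hi' : i < (A.map fun c => Nat.pair c.1 (idx c.2)).length := by simpa using hi
    have h2 := h i hi'
    rw [List.getD_eq_getElem _ _ hi', List.getElem_map, Nat.unpair_pair] at h2
    have h3 := h2 h1
    rwa [hidx _ (hA _ hc)] at h3
  · intro h i hi
    have hi' : i < A.length := by simpa using hi
    rw [List.getD_eq_getElem _ _ hi, List.getElem_map, Nat.unpair_pair]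
    have hm : A[i] ∈ A := List.getElem_mem hi'
    intro h1
    rw [hidx _ (hA _ hm)]
    exact h _ hm h1

/-- Existence of generic reals over a countable level and a countable set of reals. -/
theorem exists_GnR (b : Wt s) (O : Set (ℕ → ℕ)) {f : ℕ → Rl s} (hf : IF (St s) f)
    (hfO : ∀ x ∈ O, ∃ n, (f n).1 = x) (τ : Fs) : ∃ x : Rl s, GnR b.v O τ x.1 := by
  obtain ⟨e, he⟩ := (ct_iff b.e (fun x hx => Lv.tr (Lam s) _ b.e.2 _ hx)).1 b.ct
  obtain ⟨x, hx, hx'⟩ := exists_gen (in_QN e.2 hf) (QN_ext e.1 f) τ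
  refine ⟨x, hx, ?_, ?_⟩
  · intro hxO
    obtain ⟨n, hn⟩ := hfO _ hxO
    obtain ⟨v, hv, hv', -⟩ := hx' (Nat.pair n 0)
    rw [Nat.unpair_pair] at hv'
    exact hv' (by rw [hn]; exact hv)
  · intro d hd A hA s₀ j
    obtain ⟨i, hi⟩ := he (toEl d (Lv.tr (Lam s) _ b.e.2 _ hd)) hd
    obtain ⟨σ, hσ⟩ := list_to_ks hfO A hA
    obtain ⟨v, hv, -, hv'⟩ := hx' (Nat.pair i (Nat.pair (Encodable.encode σ)
      (Nat.pair (Encodable.encode s₀) j)))
    simp only [Nat.unpair_pair, Denumerable.ofNat_encode] at hv'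
    have key : ∀ v, QS e.1 f i σ s₀ j v ↔ Ev (fun t => num (Encodable.encode t) ∈ d)
        (fun t => ∀ c ∈ A, c.1 < t.length → Pre c.2 (t.getD c.1 [])) s₀ j v := by
      intro v
      unfold QS Ev
      refine exists_congr fun t => and_congr ?_ (and_congr Iff.rfl (and_congr (hσ t) Iff.rfl))
      rw [nL_val, hi]
      exact Iff.rfl
    refine ⟨v, hv, ?_⟩
    rcases hv' with h | h
    · exact Or.inl ((key v).1 h)
    · exact Or.inr fun v' hv' h' => h v' hv' ((key v').2 h')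

end model

end Pool.Agent.H.MP_a163f2_lc.L
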