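import Pool.Agent.H.MP_a163f2_lc.P.P3
import Pool.Agent.H.MP_a163f2_lc.P.P5

/-!
# Block L, structures on the natural numbers coded by reals: satisfaction is Delta-1-1
-/

set_option autoImplicit false
set_option linter.unusedSectionVars false

namespace Pool.Agent.H.MP_a163f2_lc

open Pool.Agent.H.MP_07d118_lc

universe u v

/-- The set of the natural numbers with the binary relation coded by the real `u`. -/
def NU (_u : ℕ → ℕ) : Type := ℕ

instance instSetStrNU (u : ℕ → ℕ) : SetStr (NU u) := ⟨fun i j => u (Nat.pair i j) = 1⟩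

/-- the assignment given by a finite sequence -/
def asg (u : ℕ → ℕ) (s : List ℕ) : ℕ → NU u := fun i => s.getD i 0

open Classical in
/-- the satisfaction relation of the formula `φ` as a real -/
noncomputable def TS (φ : Fml) (u : ℕ → ℕ) : ℕ → ℕ := fun n =>
  if Sat (asg u ((Encodable.decode n : Option (List ℕ)).getD [])) φ then 1 else 0

/-! ### Coding of assignments -/

theorem Co1_cons {u : ℕ → ℕ} (n : NU u) (s : List ℕ) :
    cons n (asg u s) = asg u ((show ℕ from n) :: s) := by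
  funext i
  cases i with
  | zero => rfl
  | succ i => rfl

/-- the code of the list with head `n` and tail coded by `s` -/
def Co1_K (n s : ℕ) : ℕ := Encodable.encode (n :: (Encodable.decode s : Option (List ℕ)).getD [])

theorem Co1_dec_prim : Primrec (fun n : ℕ => (Encodable.decode n : Option (List ℕ)).getD []) :=
  Primrec.option_getD.comp Primrec.decode (Primrec.const [])

theorem Co1_K_prim : Primrec (fun p : ℕ × ℕ => Co1_K p.1 p.2) :=
  Primrec.encode.comp (Primrec.list_cons.comp Primrec.fst (Co1_dec_prim.comp Primrec.snd))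

theorem Co1_a_prim (i : ℕ) : Primrec (fun s : List ℕ => s.getD i 0) :=
  (Primrec.list_getD 0).comp Primrec.id (Primrec.const i)

theorem Co1_RP {R : Set (ℕ → ℕ)} (hR : RC R) (φ : Fml) {u : ℕ → ℕ} (hu : u ∈ R) :
    RP R (fun s : List ℕ => Sat (asg u s) φ) := by
  induction φ with
  | mem i j =>
    have h1 : Primrec (fun s : List ℕ => Nat.pair (s.getD i 0) (s.getD j 0)) :=
      Primrec₂.natPair.comp (Co1_a_prim i) (Co1_a_prim j)
    exact RP.eq hR (RF.comp hR ((RF.mem hR).2 hu) (RF.of_primrec hR h1)) (RF.const hR 1)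
  | eq i j =>
    show RP R (fun s : List ℕ => s.getD i 0 = s.getD j 0)
    exact RP.eq hR (RF.of_primrec hR (Co1_a_prim i)) (RF.of_primrec hR (Co1_a_prim j))
  | bot =>
    have h1 : RP R (fun _ : List ℕ => (0 : ℕ) = 1) := RP.eq hR (RF.const hR 0) (RF.const hR 1)
    have e : (fun s : List ℕ => Sat (asg u s) Fml.bot) = fun _ : List ℕ => (0 : ℕ) = 1 := by
      funext s
      exact propext ⟨fun h => h.elim, fun h => absurd h zero_ne_one⟩
    rw [e]
    exact h1
  | imp φ ψ h1 h2 => exact P5_imp hR h1 h2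
  | all φ ih =>
    have h1 : RP R (fun y : List ℕ × ℕ => Sat (asg u (y.2 :: y.1)) φ) :=
      RP.comp hR ih (f := fun y : List ℕ × ℕ => y.2 :: y.1)
        (RF.of_primrec hR (Primrec.list_cons.comp Primrec.snd Primrec.fst))
    have h2 : RP R (fun s : List ℕ => ∀ n : ℕ, Sat (asg u (n :: s)) φ) :=
      RP.all hR (P := fun (s : List ℕ) (n : ℕ) => Sat (asg u (n :: s)) φ) h1
    have e : (fun s : List ℕ => Sat (asg u s) (Fml.all φ)) =
        fun s : List ℕ => ∀ n : ℕ, Sat (asg u (n :: s)) φ := by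
      funext s
      refine propext ⟨fun h n => ?_, fun h n => ?_⟩
      · have h3 := h n
        rw [Co1_cons] at h3
        exact h3
      · rw [Co1_cons]
        exact h n
    rw [e]
    exact h2

theorem Co1_one {φ : Fml} {u : ℕ → ℕ} {n : ℕ} : TS φ u n = 1 ↔
    Sat (asg u ((Encodable.decode n : Option (List ℕ)).getD [])) φ := by
  classical
  unfold TS
  by_cases h : Sat (asg u ((Encodable.decode n : Option (List ℕ)).getD [])) φ
  · rw [if_pos h]
    exact iff_of_true rfl h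
  · rw [if_neg h]
    exact iff_of_false zero_ne_one h

theorem Co1_zero {φ : Fml} {u : ℕ → ℕ} {n : ℕ} : TS φ u n = 0 ↔
    ¬ Sat (asg u ((Encodable.decode n : Option (List ℕ)).getD [])) φ := by
  classical
  unfold TS
  by_cases h : Sat (asg u ((Encodable.decode n : Option (List ℕ)).getD [])) φ
  · rw [if_pos h]
    exact iff_of_false one_ne_zero (not_not.2 h)
  · rw [if_neg h]
    exact iff_of_true rfl h

theorem Co1_all {φ : Fml} {u : ℕ → ℕ} {s : ℕ} :
    TS (Fml.all φ) u s = 1 ↔ ∀ n, TS φ u (Co1_K n s) = 1 := by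
  have e : ∀ n : ℕ, (Encodable.decode (Co1_K n s) : Option (List ℕ)).getD [] =
      n :: (Encodable.decode s : Option (List ℕ)).getD [] := by
    intro n
    unfold Co1_K
    rw [Encodable.encodek]
    rfl
  rw [Co1_one]
  constructor
  · intro h n
    rw [Co1_one, e n]
    have h3 := h n
    rw [Co1_cons] at h3
    exact h3
  · intro h n
    have h3 := h n
    rw [Co1_one, e n] at h3
    rw [Co1_cons]
    exact h3

theorem Co1_01 (φ : Fml) (u : ℕ → ℕ) (n : ℕ) : TS φ u n = 0 ∨ TS φ u n = 1 := by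
  by_cases h : Sat (asg u ((Encodable.decode n : Option (List ℕ)).getD [])) φ
  · exact Or.inr (Co1_one.2 h)
  · exact Or.inl (Co1_zero.2 h)

/-! ### Continuous functionals -/

theorem Co1_prim_eq : Primrec (fun p : ℕ × ℕ => if p.1 = p.2 then 0 else 1) :=
  Primrec.ite (Primrec.eq.comp Primrec.fst Primrec.snd) (Primrec.const 0) (Primrec.const 1)

theorem Co1_eq {R : Set (ℕ → ℕ)} (hR : RC R) {φ ψ : (ℕ → ℕ) → Unit → ℕ} (hφ : CF R φ)
    (hψ : CF R ψ) (k : ℕ) :
    SigP R k (fun x => φ x () = ψ x ()) ∧ PiP R k (fun x => φ x () = ψ x ()) := by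
  have h1 : CF R (fun x a => (fun p : ℕ × ℕ => if p.1 = p.2 then 0 else 1) (φ x a, ψ x a)) :=
    CF.comp2 hR (RF.of_primrec hR Co1_prim_eq) hφ hψ
  constructor
  · refine (SigP.clopen hR h1 k).congr fun x _ => ?_
    by_cases h : φ x () = ψ x ()
    · simp [h]
    · simp [h]
  · refine (SigP.clopen' hR h1 k).congr fun x _ => ?_
    by_cases h : φ x () = ψ x ()
    · simp [h]
    · simp [h]

/-- composition with the deletion of the first value -/
theorem Co1_tl {R : Set (ℕ → ℕ)} (hR : RC R) {F : (ℕ → ℕ) → ℕ → ℕ} (hF : CF R F) :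
    CF R (fun y n => F (tl y) n) := by
  obtain ⟨Θ, hΘ, h⟩ := hF
  refine ⟨fun p => Θ (p.1.tail, p.2), ?_, fun x hx a => ?_⟩
  · exact RF.comp hR hΘ (RF.pair hR
      (RF.of_primrec hR (Primrec.list_tail.comp Primrec.fst)) (RF.of_primrec hR Primrec.snd))
  · have hx' : tl x ∈ R := P3c_tl_mem hR hx
    have e : ∀ k, (ini x (k + 1)).tail = ini (tl x) k := by
      intro k
      unfold ini
      rw [List.range_succ_eq_map, List.map_cons, List.map_map, List.tail_cons]
      rfl
    obtain ⟨⟨k, hk⟩, h2⟩ := h (tl x) hx' a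
    refine ⟨⟨k + 1, ?_⟩, fun k v hv => ?_⟩
    · show Θ ((ini x (k + 1)).tail, a) = _
      rw [e]
      exact hk
    · cases k with
      | zero => exact h2 0 v hv
      | succ k =>
        have hv' : Θ ((ini x (k + 1)).tail, a) = some v := hv
        rw [e] at hv'
        exact h2 k v hv'

/-- equality of two functionals -/
theorem Co1_fun {R : Set (ℕ → ℕ)} (hR : RC R) {F G : (ℕ → ℕ) → ℕ → ℕ} (hF : CF R F)
    (hG : CF R G) : SigP R 1 (fun z => F z = G z) := by
  have h1 : PiP R 0 (fun z => ∀ k, F z k = G z k) := by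
    refine PiP.allN hR (P := fun k z => F z k = G z k) ?_
    have h0 : CF R (fun y (_ : Unit) => y 0) := P3c_head hR (CF.id' hR) 0
    exact (Co1_eq hR (P3_val hR (Co1_tl hR hF) h0) (P3_val hR (Co1_tl hR hG) h0) 0).2
  refine (SigP.of_pi hR h1).congr fun z _ => ?_
  exact ⟨fun h k => by rw [h], fun h => funext h⟩

theorem Co1_sub {R : Set (ℕ → ℕ)} (hR : RC R) {φ : Fml}
    (h : SigP R 1 (fun z => rg z = TS φ (lf z))) {F G : (ℕ → ℕ) → ℕ → ℕ} (hF : CF R F)
    (hG : CF R G) : SigP R 1 (fun v => G v = TS φ (F v)) := by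
  refine (SigP.subst hR h (F := fun v n => jn (F v) (G v) n) (CF.jn hR hF hG)).congr fun v _ => ?_
  show G v = TS φ (F v) ↔ rg (jn (F v) (G v)) = TS φ (lf (jn (F v) (G v)))
  rw [P3_lf_jn, P3_rg_jn]

theorem Co1_cd {R : Set (ℕ → ℕ)} (hR : RC R) {F : (ℕ → ℕ) → ℕ → ℕ} (hF : CF R F) (N : ℕ) :
    CF R (fun w (_ : Unit) => cd (F w) N) := by
  induction N with
  | zero => exact CF.num hR (RF.const hR (Encodable.encode ([] : List ℕ)))
  | succ n ih =>
    have hp : Primrec (fun p : ℕ × ℕ => Encodable.encode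
        ((Encodable.decode p.1 : Option (List ℕ)).getD [] ++ [p.2])) :=
      Primrec.encode.comp (Primrec.list_append.comp (Co1_dec_prim.comp Primrec.fst)
        (Primrec.list_cons.comp Primrec.snd (Primrec.const [])))
    have h1 := CF.comp2 hR (RF.of_primrec hR hp) ih (P3c_head hR hF n)
    have e : (fun w (a : Unit) => (fun p : ℕ × ℕ => Encodable.encode
        ((Encodable.decode p.1 : Option (List ℕ)).getD [] ++ [p.2])) (cd (F w) n, F w n)) =
        fun w (_ : Unit) => cd (F w) (n + 1) := by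
      funext w a
      show Encodable.encode ((Encodable.decode (cd (F w) n) : Option (List ℕ)).getD [] ++
        [F w n]) = cd (F w) (n + 1)
      rw [cd_eq, cd_eq, P5_ini_succ, Encodable.encodek]
      rfl
    rw [← e]
    exact h1

theorem TS_mem {R : Set (ℕ → ℕ)} (hR : RC R) (φ : Fml) {u : ℕ → ℕ} (hu : u ∈ R) :
    TS φ u ∈ R := by
  classical
  exact RP.ind hR (RP.comp hR (Co1_RP hR φ hu) (RF.of_primrec hR Co1_dec_prim))

theorem TS_sig {R : Set (ℕ → ℕ)} (hR : RC R) (φ : Fml) :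
    SigP R 1 (fun z => rg z = TS φ (lf z)) := by
  have hid : CF R (fun (x : ℕ → ℕ) (n : ℕ) => x n) := CF.id' hR
  induction φ with
  | mem i j =>
    have h1 : Primrec (fun n : ℕ => Nat.pair
        (((Encodable.decode n : Option (List ℕ)).getD []).getD i 0)
        (((Encodable.decode n : Option (List ℕ)).getD []).getD j 0)) :=
      Primrec₂.natPair.comp ((Co1_a_prim i).comp Co1_dec_prim) ((Co1_a_prim j).comp Co1_dec_prim)
    have h2 : Primrec (fun t : ℕ => if t = 1 then 1 else 0) :=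
      Primrec.ite (Primrec.eq.comp Primrec.id (Primrec.const 1)) (Primrec.const 1)
        (Primrec.const 0)
    have h3 := CF.comp1 hR (RF.of_primrec hR h2)
      (CF.par hR (CF.lf hR hid) (RF.of_primrec hR h1))
    refine (Co1_fun hR (CF.rg hR hid) h3).congr fun z _ => ?_
    have e : TS (Fml.mem i j) (lf z) = fun n => (fun t : ℕ => if t = 1 then 1 else 0)
        (lf z (Nat.pair (((Encodable.decode n : Option (List ℕ)).getD []).getD i 0)
        (((Encodable.decode n : Option (List ℕ)).getD []).getD j 0))) := by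
      funext n
      rcases Co1_01 (Fml.mem i j) (lf z) n with h | h
      · rw [h]
        exact (if_neg (Co1_zero.1 h)).symm
      · rw [h]
        exact (if_pos (Co1_one.1 h)).symm
    rw [e]
  | eq i j =>
    have h1 : Primrec (fun n : ℕ => if
        ((Encodable.decode n : Option (List ℕ)).getD []).getD i 0 =
        ((Encodable.decode n : Option (List ℕ)).getD []).getD j 0 then 1 else 0) :=
      Primrec.ite (Primrec.eq.comp ((Co1_a_prim i).comp Co1_dec_prim)
        ((Co1_a_prim j).comp Co1_dec_prim)) (Primrec.const 1) (Primrec.const 0)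
    refine (Co1_fun hR (CF.rg hR hid) (CF.num hR (RF.of_primrec hR h1))).congr fun z _ => ?_
    have e : TS (Fml.eq i j) (lf z) = fun n : ℕ => if
        ((Encodable.decode n : Option (List ℕ)).getD []).getD i 0 =
        ((Encodable.decode n : Option (List ℕ)).getD []).getD j 0 then 1 else 0 := by
      funext n
      rcases Co1_01 (Fml.eq i j) (lf z) n with h | h
      · rw [h]
        exact (if_neg (Co1_zero.1 h)).symm
      · rw [h]
        exact (if_pos (Co1_one.1 h)).symm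
    rw [e]
  | bot =>
    refine (Co1_fun hR (CF.rg hR hid) (CF.num hR (RF.const hR 0))).congr fun z _ => ?_
    have e : TS Fml.bot (lf z) = fun _ => 0 := by
      funext n
      exact Co1_zero.2 id
    rw [e]
  | imp φ ψ ih1 ih2 =>
    have hp : Primrec (fun p : ℕ × ℕ => if p.1 = 0 then 1 else p.2) :=
      Primrec.ite (Primrec.eq.comp Primrec.fst (Primrec.const 0)) (Primrec.const 1) Primrec.snd
    have c1 : CF R (fun v n => lf (lf (lf v)) n) := CF.lf hR (CF.lf hR (CF.lf hR hid))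
    have c2 : CF R (fun v n => rg (lf v) n) := CF.rg hR (CF.lf hR hid)
    have c3 : CF R (fun v n => rg v n) := CF.rg hR hid
    have c4 : CF R (fun v n => rg (lf (lf v)) n) := CF.rg hR (CF.lf hR (CF.lf hR hid))
    have d1 : SigP R 1 (fun v => rg (lf v) = TS φ (lf (lf (lf v))) ∧
        rg v = TS ψ (lf (lf (lf v))) ∧
        rg (lf (lf v)) = fun n => (fun p : ℕ × ℕ => if p.1 = 0 then 1 else p.2)
          (rg (lf v) n, rg v n)) :=
      SigP.and hR (Co1_sub hR ih1 c1 c2) (SigP.and hR (Co1_sub hR ih2 c1 c3)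
        (Co1_fun hR c4 (CF.comp2 hR (RF.of_primrec hR hp) c2 c3)))
    have d2 : SigP R 1 (fun w => ∃ y' ∈ R, rg w = TS φ (lf (lf w)) ∧
        y' = TS ψ (lf (lf w)) ∧
        rg (lf w) = fun n => (fun p : ℕ × ℕ => if p.1 = 0 then 1 else p.2)
          (rg w n, y' n)) :=
      SigP.exR hR (P := fun w y' => rg w = TS φ (lf (lf w)) ∧
        y' = TS ψ (lf (lf w)) ∧
        rg (lf w) = fun n => (fun p : ℕ × ℕ => if p.1 = 0 then 1 else p.2)
          (rg w n, y' n)) d1
    have d3 : SigP R 1 (fun z => ∃ y ∈ R, ∃ y' ∈ R, y = TS φ (lf z) ∧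
        y' = TS ψ (lf z) ∧
        rg z = fun n => (fun p : ℕ × ℕ => if p.1 = 0 then 1 else p.2)
          (y n, y' n)) :=
      SigP.exR hR (P := fun z y => ∃ y' ∈ R, y = TS φ (lf z) ∧
        y' = TS ψ (lf z) ∧
        rg z = fun n => (fun p : ℕ × ℕ => if p.1 = 0 then 1 else p.2)
          (y n, y' n)) d2
    refine d3.congr fun z hz => ?_
    have hz' : lf z ∈ R := P3c_lf_mem hR hz
    have e : TS (Fml.imp φ ψ) (lf z) = fun n => (fun p : ℕ × ℕ => if p.1 = 0 then 1 else p.2)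
        (TS φ (lf z) n, TS ψ (lf z) n) := by
      funext n
      show TS (Fml.imp φ ψ) (lf z) n = if TS φ (lf z) n = 0 then 1 else TS ψ (lf z) n
      rcases Co1_01 φ (lf z) n with h | h
      · rw [if_pos h]
        exact Co1_one.2 fun h' => absurd h' (Co1_zero.1 h)
      · rw [if_neg (by rw [h]; exact one_ne_zero)]
        rcases Co1_01 ψ (lf z) n with h' | h'
        · rw [h']
          exact Co1_zero.2 fun h3 => Co1_zero.1 h' (h3 (Co1_one.1 h))
        · rw [h']
          exact Co1_one.2 fun _ => Co1_one.1 h'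
    constructor
    · intro h
      exact ⟨_, TS_mem hR φ hz', _, TS_mem hR ψ hz', rfl, rfl, h.trans e⟩
    · rintro ⟨y, _, y', _, rfl, rfl, h⟩
      exact h.trans e.symm
  | all φ ih =>
    have hK : RF R (fun p : ℕ × ℕ => Co1_K p.1 p.2) := RF.of_primrec hR Co1_K_prim
    have htt : CF R (fun v n => tl (tl v) n) := CF.tl hR (CF.tl hR hid)
    have a0 : CF R (fun v (_ : Unit) => v 0) := P3c_head hR hid 0
    have a1 : CF R (fun v (_ : Unit) => tl v 0) := P3c_head hR (CF.tl hR hid) 0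
    have a2 : CF R (fun v (_ : Unit) => rg (lf (tl (tl v))) (tl v 0)) :=
      P3_val hR (CF.rg hR (CF.lf hR htt)) a1
    have a3 : CF R (fun v (_ : Unit) => rg (tl (tl v)) (Co1_K (v 0) (tl v 0))) :=
      P3_val hR (CF.rg hR htt) (CF.comp2 hR hK a0 a1)
    have n0 : CF R (fun (_ : ℕ → ℕ) (_ : Unit) => 0) := CF.num hR (RF.const hR 0)
    have n1 : CF R (fun (_ : ℕ → ℕ) (_ : Unit) => 1) := CF.num hR (RF.const hR 1)
    -- the first clause
    have b1 : PiP R 0 (fun v => rg (lf (tl (tl v))) (tl v 0) = 1 →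
        rg (tl (tl v)) (Co1_K (v 0) (tl v 0)) = 1) := by
      refine (PiP.or hR (PiP.of_not (Co1_eq hR a2 n1 0).1) (Co1_eq hR a3 n1 0).2).congr
        fun v _ => ?_
      exact imp_iff_not_or
    have b2 : PiP R 0 (fun y => ∀ n, rg (lf (tl y)) (y 0) = 1 →
        rg (tl y) (Co1_K n (y 0)) = 1) :=
      PiP.allN hR (P := fun n y => rg (lf (tl y)) (y 0) = 1 →
        rg (tl y) (Co1_K n (y 0)) = 1) b1
    have b3 : PiP R 0 (fun w => ∀ s, ∀ n, rg (lf w) s = 1 → rg w (Co1_K n s) = 1) :=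
      PiP.allN hR (P := fun s w => ∀ n, rg (lf w) s = 1 → rg w (Co1_K n s) = 1) b2
    -- the second clause
    have g1 : SigP R 0 (fun v => rg (lf (tl (tl v))) (tl v 0) = 1 ∨
        (rg (lf (tl (tl v))) (tl v 0) = 0 ∧ rg (tl (tl v)) (Co1_K (v 0) (tl v 0)) = 0)) :=
      SigP.or hR (Co1_eq hR a2 n1 0).1 (SigP.and hR (Co1_eq hR a2 n0 0).1 (Co1_eq hR a3 n0 0).1)
    have g2 : SigP R 0 (fun y => ∃ j, rg (lf (tl y)) (y 0) = 1 ∨
        (rg (lf (tl y)) (y 0) = 0 ∧ rg (tl y) (Co1_K j (y 0)) = 0)) :=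
      SigP.exN hR (P := fun j y => rg (lf (tl y)) (y 0) = 1 ∨
        (rg (lf (tl y)) (y 0) = 0 ∧ rg (tl y) (Co1_K j (y 0)) = 0)) g1
    have g3 : SigP R 1 (fun w => ∀ s, ∃ j, rg (lf w) s = 1 ∨
        (rg (lf w) s = 0 ∧ rg w (Co1_K j s) = 0)) :=
      SigP.arith_allN hR (P := fun s w => ∃ j, rg (lf w) s = 1 ∨
        (rg (lf w) s = 0 ∧ rg w (Co1_K j s) = 0)) g2
    have d1 : SigP R 1 (fun w => rg w = TS φ (lf (lf w)) ∧
        (∀ s, ∀ n, rg (lf w) s = 1 → rg w (Co1_K n s) = 1) ∧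
        ∀ s, ∃ j, rg (lf w) s = 1 ∨ (rg (lf w) s = 0 ∧ rg w (Co1_K j s) = 0)) :=
      SigP.and hR (Co1_sub hR ih (CF.lf hR (CF.lf hR hid)) (CF.rg hR hid))
        (SigP.and hR (SigP.of_pi hR b3) g3)
    have d2 : SigP R 1 (fun z => ∃ y ∈ R, y = TS φ (lf z) ∧
        (∀ s, ∀ n, rg z s = 1 → y (Co1_K n s) = 1) ∧
        ∀ s, ∃ j, rg z s = 1 ∨ (rg z s = 0 ∧ y (Co1_K j s) = 0)) :=
      SigP.exR hR (P := fun z y => y = TS φ (lf z) ∧
        (∀ s, ∀ n, rg z s = 1 → y (Co1_K n s) = 1) ∧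
        ∀ s, ∃ j, rg z s = 1 ∨ (rg z s = 0 ∧ y (Co1_K j s) = 0)) d1
    refine d2.congr fun z hz => ?_
    constructor
    · intro h
      refine ⟨_, TS_mem hR φ (P3c_lf_mem hR hz), rfl, fun s n hs => ?_, fun s => ?_⟩
      · rw [h] at hs
        exact Co1_all.1 hs n
      · rw [h]
        by_cases h1 : TS (Fml.all φ) (lf z) s = 1
        · exact ⟨0, Or.inl h1⟩
        · have h2 : TS (Fml.all φ) (lf z) s = 0 := (Co1_01 _ _ s).resolve_right h1
          have h3 : ¬ ∀ n, TS φ (lf z) (Co1_K n s) = 1 := fun h3 => h1 (Co1_all.2 h3)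
          push Not at h3
          obtain ⟨n, hn⟩ := h3
          exact ⟨n, Or.inr ⟨h2, (Co1_01 _ _ _).resolve_right hn⟩⟩
    · rintro ⟨y, _, rfl, h1, h2⟩
      funext s
      obtain ⟨j, h3 | ⟨h3, h4⟩⟩ := h2 s
      · rw [h3]
        exact (Co1_all.2 fun n => h1 s n h3).symm
      · rw [h3]
        symm
        refine (Co1_01 _ _ s).resolve_right fun h5 => ?_
        rw [Co1_all.1 h5 j] at h4
        exact one_ne_zero h4

/-- only finitely many variables matter -/
theorem Sat_bound (φ : Fml) : ∃ N : ℕ, ∀ (A : Type u) [SetStr A] (v w : ℕ → A),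
    (∀ i < N, v i = w i) → (Sat v φ ↔ Sat w φ) := by
  induction φ with
  | mem i j =>
    refine ⟨max i j + 1, fun A _ v w h => ?_⟩
    have h1 := h i (by omega)
    have h2 := h j (by omega)
    show v i ∈ v j ↔ w i ∈ w j
    rw [h1, h2]
  | eq i j =>
    refine ⟨max i j + 1, fun A _ v w h => ?_⟩
    have h1 := h i (by omega)
    have h2 := h j (by omega)
    show v i = v j ↔ w i = w j
    rw [h1, h2]
  | bot => exact ⟨0, fun A _ v w _ => Iff.rfl⟩
  | imp φ ψ ih1 ih2 =>
    obtain ⟨N1, h1⟩ := ih1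
    obtain ⟨N2, h2⟩ := ih2
    refine ⟨max N1 N2, fun A _ v w h => ?_⟩
    have e1 := h1 A v w fun i hi => h i (lt_of_lt_of_le hi (le_max_left _ _))
    have e2 := h2 A v w fun i hi => h i (lt_of_lt_of_le hi (le_max_right _ _))
    show (Sat v φ → Sat v ψ) ↔ (Sat w φ → Sat w ψ)
    rw [e1, e2]
  | all φ ih =>
    obtain ⟨N, h1⟩ := ih
    refine ⟨N, fun A _ v w h => ?_⟩
    show (∀ x : A, Sat (cons x v) φ) ↔ ∀ x : A, Sat (cons x w) φ
    refine forall_congr' fun x => h1 A _ _ fun i hi => ?_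
    cases i with
    | zero => rfl
    | succ i => exact h i (by omega)

theorem Co1_sat {φ : Fml} {N : ℕ} (hN : ∀ (A : Type) [SetStr A] (v w : ℕ → A),
    (∀ i < N, v i = w i) → (Sat v φ ↔ Sat w φ)) (z : ℕ → ℕ) :
    Sat (asg (lf z) ((Encodable.decode (cd (rg z) N) : Option (List ℕ)).getD [])) φ ↔
      Sat (M := NU (lf z)) (fun i => rg z i) φ := by
  refine hN (NU (lf z)) _ _ fun i hi => ?_
  rw [cd_eq, Encodable.encodek]
  exact P5_fn_ini hi

theorem Co1_c {R : Set (ℕ → ℕ)} (hR : RC R) (φ : Fml) (N c : ℕ) :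
    SigP R 1 (fun z => ∃ y ∈ R, y = TS φ (lf z) ∧ y (cd (rg z) N) = c) := by
  have hid : CF R (fun (x : ℕ → ℕ) (n : ℕ) => x n) := CF.id' hR
  refine SigP.exR hR (P := fun z y => y = TS φ (lf z) ∧ y (cd (rg z) N) = c) ?_
  refine SigP.and hR (Co1_sub hR (TS_sig hR φ) (CF.lf hR (CF.lf hR hid)) (CF.rg hR hid)) ?_
  have a1 : CF R (fun w (_ : Unit) => rg w (cd (rg (lf w)) N)) :=
    P3_val hR (CF.rg hR hid) (Co1_cd hR (CF.rg hR (CF.lf hR hid)) N)
  exact (Co1_eq hR a1 (CF.num hR (RF.const hR c)) 1).1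

theorem sat_sig {R : Set (ℕ → ℕ)} (hR : RC R) (φ : Fml) :
    SigP R 1 (fun z => Sat (M := NU (lf z)) (fun i => rg z i) φ) := by
  obtain ⟨N, hN⟩ := Sat_bound.{0} φ
  refine (Co1_c hR φ N 1).congr fun z hz => ?_
  rw [← Co1_sat hN z]
  constructor
  · intro h
    exact ⟨_, TS_mem hR φ (P3c_lf_mem hR hz), rfl, Co1_one.2 h⟩
  · rintro ⟨y, _, rfl, h⟩
    exact Co1_one.1 h

theorem sat_pi {R : Set (ℕ → ℕ)} (hR : RC R) (φ : Fml) :
    PiP R 1 (fun z => Sat (M := NU (lf z)) (fun i => rg z i) φ) := by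
  obtain ⟨N, hN⟩ := Sat_bound.{0} φ
  refine SigP.congr (Co1_c hR φ N 0) fun z hz => ?_
  refine (not_congr (Co1_sat hN z).symm).trans ?_
  constructor
  · intro h
    exact ⟨_, TS_mem hR φ (P3c_lf_mem hR hz), rfl, Co1_zero.2 h⟩
  · rintro ⟨y, _, rfl, h⟩
    exact Co1_zero.1 h

end Pool.Agent.H.MP_a163f2_lc
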