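import Pool.Agent.H.MP_a163f2_lc.L.C0
import Pool.Agent.H.MP_a163f2_lc.P.Defs

/-!
# Block L, part D0: countable levels coded by reals, definitions

A real `y` codes a structure on the natural numbers: the membership relation `yE`, the satisfaction
relation `ySat`, the levels `yLv`, the well order `yLt`, the numerals `yNu` and the family `yC`.
-/

set_option autoImplicit false

namespace Pool.Agent.H.MP_a163f2_lc.L

open Pool.Agent.H.MP_07d118_lc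

/-- membership -/
def yE (y : ℕ → ℕ) (i j : ℕ) : Prop := y (Nat.pair 0 (Nat.pair i j)) = 1

/-- satisfaction in the set `i` of the formula with number `n` at the assignment given by the
list `σ` and continued by `d` -/
def ySat (y : ℕ → ℕ) (i n : ℕ) (σ : List ℕ) (d : ℕ) : Prop :=
  y (Nat.pair 1 (Encodable.encode (i, n, σ, d))) = 1

/-- `i` is a level -/
def yLv (y : ℕ → ℕ) (i : ℕ) : Prop := y (Nat.pair 2 i) = 1

/-- the well order -/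
def yLt (y : ℕ → ℕ) (i j : ℕ) : Prop := y (Nat.pair 3 (Nat.pair i j)) = 1

/-- the numeral -/
def yNu (y : ℕ → ℕ) (m : ℕ) : ℕ := y (Nat.pair 4 m)

/-- `g` is the member of the family with the index `(b, η)` -/
def yC (y : ℕ → ℕ) (b : ℕ) (η : Hc) (g : ℕ) : Prop :=
  y (Nat.pair 5 (Encodable.encode (b, η, g))) = 1

/-! ### Derived notions -/

/-- `x = Dd b n p q` -/
def yD (y : ℕ → ℕ) (x b n p q : ℕ) : Prop := ∀ z, yE y z x ↔ (yE y z b ∧ ySat y b n [z, p] q)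

/-- `x ∈ Kst b` -/
def yK (y : ℕ → ℕ) (x b : ℕ) : Prop :=
  yE y x b ∨ x = b ∨ ∃ n p q, yE y p b ∧ yE y q b ∧ yD y x b n p q

/-- `Rk x b` -/
def yR (y : ℕ → ℕ) (x b : ℕ) : Prop := yLv y b ∧ yK y x b ∧ ¬ yE y x b

/-- the order of the names -/
def yLX (y : ℕ → ℕ) (p q n p' q' n' : ℕ) : Prop :=
  yLt y p p' ∨ (p = p' ∧ (yLt y q q' ∨ (q = q' ∧ n < n')))

/-- the code of a real -/
def yRl (y : ℕ → ℕ) (g : ℕ) : Prop :=
  (∀ j, yE y j g → ∃ m, yNu y m = j) ∧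
    ∀ n, ∃ k, yE y (yNu y (Nat.pair n k)) g ∧ ∀ k', yE y (yNu y (Nat.pair n k')) g → k' = k

/-- `u` is an initial segment of the real with the code `g` -/
def yP (y : ℕ → ℕ) (g : ℕ) (u : Fs) : Prop :=
  ∀ i, i < u.length → yE y (yNu y (Nat.pair i (u.getD i 0))) g

/-- the order of the indices -/
def yB (y : ℕ → ℕ) (b' : ℕ) (η' : Hc) (b : ℕ) (η : Hc) : Prop :=
  yLv y b' ∧ (yE y b' b ∨ (b' = b ∧ Encodable.encode η' < Encodable.encode η))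

/-- genericity -/
def yG (y : ℕ → ℕ) (b : ℕ) (η : Hc) (g : ℕ) : Prop :=
  yRl y g ∧ yP y g η.2 ∧ (∀ b' η', yB y b' η' b η → ¬ yC y b' η' g) ∧
  ∀ d, yE y d b → ∀ A : List (ℕ × ℕ), (∀ c, c ∈ A → ∃ b' η', yB y b' η' b η ∧ yC y b' η' c.2) →
    ∀ (s : List Fs) (j : ℕ), Dcd (yP y g) (fun t => yE y (yNu y (Encodable.encode t)) d)
      (fun t => ∀ c, c ∈ A → c.1 < t.length → yP y c.2 (t.getD c.1 [])) s j

/-! ### The axioms -/

/-- the basic axioms -/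
structure YB (y : ℕ → ℕ) : Prop where
  ext : ∀ i j, (∀ k, yE y k i ↔ yE y k j) → i = j
  sat0 : ∀ i σ d, ¬ ySat y i 0 σ d
  satS : ∀ i k σ d, ySat y i (k + 1) σ d ↔
    (k % 4 = 0 ∧ yE y (σ.getD (k / 4).unpair.1 d) (σ.getD (k / 4).unpair.2 d)) ∨
    (k % 4 = 1 ∧ σ.getD (k / 4).unpair.1 d = σ.getD (k / 4).unpair.2 d) ∨
    (k % 4 = 2 ∧ (ySat y i (k / 4).unpair.1 σ d → ySat y i (k / 4).unpair.2 σ d)) ∨
    (k % 4 = 3 ∧ ∀ x, yE y x i → ySat y i (k / 4) (x :: σ) d)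
  lv : ∀ a, yLv y a ↔ ∀ x, yE y x a ↔ ∃ b, yE y b a ∧ yLv y b ∧ yK y x b
  top : ∀ x, ∃ b, yLv y b ∧ yK y x b
  cls : ∀ b n p q, yLv y b → yE y p b → yE y q b → ∃ x, yD y x b n p q
  lt : ∀ x x', yLt y x x' ↔ ∃ b c, yR y x b ∧ yR y x' c ∧ (yE y b c ∨ (b = c ∧ x' ≠ b ∧ (x = b ∨
    ∃ p q n, yE y p b ∧ yE y q b ∧ yD y x b n p q ∧
      ∀ p' q' n', yE y p' b → yE y q' b → yD y x' b n' p' q' → yLX y p q n p' q' n')))
  nu0 : ∀ j, ¬ yE y j (yNu y 0)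
  nuS : ∀ m j, yE y j (yNu y (m + 1)) ↔ (yE y j (yNu y m) ∨ j = yNu y m)

/-- The axiom for the family, up to the index `(b₀, η₀)`. -/
def YC (y : ℕ → ℕ) (b₀ : ℕ) (η₀ : Hc) : Prop :=
  yLv y b₀ ∧ ∀ b η, (yB y b η b₀ η₀ ∨ (b = b₀ ∧ η = η₀)) →
    (∀ g, yC y b η g ↔ (yG y b η g ∧ ∀ g', yLt y g' g → ¬ yG y b η g')) ∧ ∃ g, yC y b η g

/-- the real `z` belongs to the family, according to `y` -/
def YZ (y z : ℕ → ℕ) : Prop := ∃ (b₀ : ℕ) (η₀ : Hc) (g₀ : ℕ), YC y b₀ η₀ ∧ yC y b₀ η₀ g₀ ∧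
  z 0 = Encodable.encode η₀ ∧ ∀ n, yE y (yNu y (Nat.pair n (z (n + 1)))) g₀

/-- `e` is the collapse of the structure `y` onto the level `a` -/
structure Cps (y : ℕ → ℕ) (a : ZFSet.{0}) (e : ℕ → ZFSet.{0}) : Prop where
  lev : Lev a
  inj : Function.Injective e
  onto : ∀ x, x ∈ a ↔ ∃ i, e i = x
  mem : ∀ i j, yE y i j ↔ e i ∈ e j
  sat : ∀ i n σ d, ySat y i n σ d ↔ SatB (e i) (fun k => e (σ.getD k d)) (dec n)
  isLv : ∀ i, yLv y i ↔ Lev (e i)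
  islt : ∀ i j, yLt y i j ↔ Lt (e i) (e j)
  isnu : ∀ m, e (yNu y m) = num m

end Pool.Agent.H.MP_a163f2_lc.L
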