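import Pool.Agent.H.MP_a163f2_lc.L.D0

/-!
# Block L, part D5a: internal bijective enumerations
-/

set_option autoImplicit false

namespace Pool.Agent.H.MP_a163f2_lc.L

open Pool.Agent.H.MP_07d118_lc

universe u v

theorem D5a_num_mem {m n : ℕ} (h : m < n) : num m ∈ num n := by
  induction n with
  | zero => omega
  | succ n ih =>
    show num m ∈ insert (num n) (num n)
    rw [ZFSet.mem_insert_iff]
    rcases Nat.lt_succ_iff_lt_or_eq.1 h with h1 | h1
    · exact Or.inr (ih h1)
    · exact Or.inl (by rw [h1])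

theorem D5a_num_inj {m n : ℕ} (h : num m = num n) : m = n := by
  rcases lt_trichotomy m n with h1 | h1 | h1
  · have h2 := D5a_num_mem h1
    rw [h] at h2
    exact absurd h2 (ZFSet.mem_irrefl _)
  · exact h1
  · have h2 := D5a_num_mem h1
    rw [h] at h2
    exact absurd h2 (ZFSet.mem_irrefl _)

variable {s : ZFSet.{0}} [G : GM s]

/-- the counting function of an internal set of natural numbers is internal -/
theorem D5a_count {P : ℕ → Prop} [DecidablePred P] (hP : In (St s) P) :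
    IF (St s) (fun i : ℕ => Nat.count P i) := by
  have h := IF.natRec' (M := St s) (T := ℕ) (a := fun _ => 0) (IF.const 0)
    (n := fun i => i) IF.id (g := fun y => y.2.2 + if P y.2.1 then 1 else 0)
    (IF.add (IF.comp IF.snd IF.snd) (IF.ite (P := fun y : ℕ × ℕ × ℕ => P y.2.1)
      (hP.comp (IF.comp IF.fst IF.snd)) (IF.const 1) (IF.const 0)))
  refine h.congr fun i => ?_
  induction i with
  | zero => simp
  | succ i ih =>
    rw [Nat.count_succ, ih]

/-- an infinite countable set of the model has an internal bijective enumeration -/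
theorem exists_bij (A : Wt s) (h : ∀ n, num n ∈ A.v) :
    ∃ e : ℕ → El (Lam s), IF (St s) e ∧ Function.Injective e ∧
      ∀ x : El (Lam s), x.1.1 ∈ A.v ↔ ∃ i, e i = x := by
  classical
  have hsub : ∀ x, x ∈ A.v → x ∈ (Lam s).1 := fun x hx => Lv.tr (Lam s) _ A.e.2 _ hx
  obtain ⟨e, he⟩ := (ct_iff A.e (fun x hx => Lv.tr (Lam s) _ A.e.2 _ hx)).1 A.ct
  obtain ⟨x₀, hx₀⟩ : ∃ x₀ : El (Lam s), x₀.1.1 ∈ A.v := ⟨toEl (num 0) (hsub _ (h 0)), h 0⟩
  -- an enumeration with values in `A`
  obtain ⟨e1, he1, hA, hon⟩ : ∃ e1 : ℕ → El (Lam s), IF (St s) e1 ∧ (∀ i, (e1 i).1.1 ∈ A.v) ∧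
      ∀ x : El (Lam s), x.1.1 ∈ A.v → ∃ i, e1 i = x := by
    refine ⟨fun i => if (e.1 i).1.1 ∈ A.v then e.1 i else x₀, ?_, ?_, ?_⟩
    · refine IF.ite (P := fun i : ℕ => (e.1 i).1.1 ∈ A.v) ?_ e.2 (IF.const x₀)
      exact In.vmem (f := fun i : ℕ => e.1 i) (g := fun _ : ℕ => A.e) e.2 (IF.const A.e)
    · intro i
      by_cases h1 : (e.1 i).1.1 ∈ A.v
      · simp only [h1, if_true]
      · simp only [h1, if_false]
        exact hx₀
    · intro x hx
      obtain ⟨i, hi⟩ := he x hx
      refine ⟨i, ?_⟩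
      have h1 : (e.1 i).1.1 ∈ A.v := by rw [hi]; exact hx
      simp only [h1, if_true]
      exact hi
  -- the indices of the first occurrences
  obtain ⟨D, hDdef⟩ : ∃ D : ℕ → Prop, ∀ i, D i ↔ ∀ j < i, ¬ e1 j = e1 i :=
    ⟨fun i => ∀ j < i, ¬ e1 j = e1 i, fun i => Iff.rfl⟩
  have hDin : In (St s) D := by
    refine In.congr (P := fun i : ℕ => ∀ j : ℕ, j < i → ¬ e1 j = e1 i) ?_ hDdef
    refine In.all (P := fun i j : ℕ => j < i → ¬ e1 j = e1 i) (In.imp ?_ (In.not ?_))
    · exact In.lt IF.snd IF.fst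
    · exact In.eq (IF.comp he1 IF.snd) (IF.comp he1 IF.fst)
  have hDon : ∀ x : El (Lam s), x.1.1 ∈ A.v → ∃ i, D i ∧ e1 i = x := by
    intro x hx
    have hex := hon x hx
    refine ⟨Nat.find hex, ?_, Nat.find_spec hex⟩
    rw [hDdef]
    intro j hj hj'
    rw [Nat.find_spec hex] at hj'
    exact Nat.find_min hex hj hj'
  have hDinj : ∀ i j, D i → D j → e1 i = e1 j → i = j := by
    intro i j hi hj hij
    rcases lt_trichotomy i j with h1 | h1 | h1
    · exact absurd hij ((hDdef j).1 hj i h1)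
    · exact h1
    · exact absurd hij.symm ((hDdef i).1 hi j h1)
  have hDinf : (setOf D).Infinite := by
    intro hfin
    have h1 : (e1 '' setOf D).Finite := hfin.image _
    have h2 : (Set.range fun n : ℕ => (toEl (num n) (hsub _ (h n)) : El (Lam s))).Infinite := by
      refine Set.infinite_range_of_injective fun m n hmn => ?_
      exact D5a_num_inj (congrArg (fun z : El (Lam s) => z.1.1) hmn)
    refine h2 (h1.subset ?_)
    rintro _ ⟨n, rfl⟩
    obtain ⟨i, hi, hi'⟩ := hDon (toEl (num n) (hsub _ (h n))) (h n)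
    exact ⟨i, hi, hi'⟩
  refine ⟨fun n => e1 (Nat.nth D n), ?_, ?_, ?_⟩
  · refine IF.of_in (In.congr (P := fun y : ℕ × El (Lam s) =>
      ∃ i : ℕ, D i ∧ Nat.count D i = y.1 ∧ e1 i = y.2) ?_ ?_)
    · refine In.ex (P := fun (y : ℕ × El (Lam s)) (i : ℕ) =>
        D i ∧ Nat.count D i = y.1 ∧ e1 i = y.2) (In.and ?_ (In.and ?_ ?_))
      · exact hDin.comp IF.snd
      · exact In.eq (IF.comp (D5a_count hDin) IF.snd) (IF.comp IF.fst IF.fst)
      · exact In.eq (IF.comp he1 IF.snd) (IF.comp IF.snd IF.fst)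
    · rintro ⟨n, x⟩
      constructor
      · intro h1
        exact ⟨Nat.nth D n, Nat.nth_mem_of_infinite hDinf n,
          Nat.count_nth_of_infinite hDinf n, h1⟩
      · rintro ⟨i, hi, hc, hx⟩
        have hc : Nat.count D i = n := hc
        show e1 (Nat.nth D n) = x
        rw [← hc, Nat.nth_count hi]
        exact hx
  · intro m n hmn
    exact Nat.nth_injective hDinf (hDinj _ _ (Nat.nth_mem_of_infinite hDinf m)
      (Nat.nth_mem_of_infinite hDinf n) hmn)
  · intro x
    constructor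
    · intro hx
      obtain ⟨i, hi, hi'⟩ := hDon x hx
      refine ⟨Nat.count D i, ?_⟩
      show e1 (Nat.nth D (Nat.count D i)) = x
      rw [Nat.nth_count hi]
      exact hi'
    · rintro ⟨i, rfl⟩
      exact hA _

end Pool.Agent.H.MP_a163f2_lc.L
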